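import Pool.Agent.Lib.MP_d8ef8f_an.Gd.Stm

set_option autoImplicit false

namespace Pool.Agent.Lib.MP_d8ef8f_an.Gd

open Set Filter Topology MeasureTheory

theorem p_A2 : StmA2 := by
  intro n E _ Ω hb F hF
  exact (hF.integrableOn_compact hb.isCompact_closure).mono_set subset_closure

end Pool.Agent.Lib.MP_d8ef8f_an.Gd
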