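import Pool.Agent.Lib.MP_d8ef8f_an.Gd.Stm

set_option autoImplicit false

namespace Pool.Agent.Lib.MP_d8ef8f_an.Gd

open Set Filter Topology MeasureTheory

private theorem a3_slice {n : ℕ} {Ω : Set (Sp n)} {T : Set ℝ} {F : ℝ → Sp n → ℝ}
    (hF : ContinuousOn (fun p : ℝ × Sp n => F p.1 p.2) (T ×ˢ closure Ω)) {t : ℝ} (ht : t ∈ T) :
    ContinuousOn (F t) (closure Ω) := by
  have h1 : ContinuousOn (fun x : Sp n => (t, x)) (closure Ω) := by fun_prop
  exact hF.comp h1 fun x hx => ⟨ht, hx⟩

/-- A3 -/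
theorem p_A3 : StmA3 := by
  intro n Ω hb hΩ T hT F Ft hF hFt hd t ht
  obtain ⟨r, hr, hrT⟩ := Metric.nhds_basis_closedBall.mem_iff.1 (hT.mem_nhds ht)
  have hK : IsCompact (Metric.closedBall t r ×ˢ closure Ω) :=
    (isCompact_closedBall t r).prod hb.isCompact_closure
  obtain ⟨C, hC⟩ := hK.exists_bound_of_continuousOn
    (hFt.mono (prod_mono hrT Subset.rfl))
  have hfin : volume Ω ≠ ⊤ := (hb.measure_lt_top).ne
  have hfin' : IsFiniteMeasure (volume.restrict Ω) := ⟨by
    rw [Measure.restrict_apply_univ]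
    exact hfin.lt_top⟩
  have hsub : Metric.ball t r ⊆ T := Metric.ball_subset_closedBall.trans hrT
  have hcs : ∀ s ∈ T, AEStronglyMeasurable (F s) (volume.restrict Ω) := fun s hs =>
    ((a3_slice hF hs).mono subset_closure).aestronglyMeasurable hΩ
  exact (hasDerivAt_integral_of_dominated_loc_of_deriv_le (μ := volume.restrict Ω)
    (bound := fun _ => C) (F := F) (F' := Ft) (s := Metric.ball t r) (x₀ := t)
    (Metric.ball_mem_nhds t hr)
    (eventually_of_mem (hT.mem_nhds ht) hcs)
    (((a3_slice hF ht).integrableOn_compact hb.isCompact_closure).mono_set subset_closure)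
    (((a3_slice hFt ht).mono subset_closure).aestronglyMeasurable hΩ)
    (ae_restrict_of_forall_mem hΩ fun x hx s hs =>
      hC (s, x) ⟨Metric.ball_subset_closedBall hs, subset_closure hx⟩)
    (integrable_const C)
    (ae_restrict_of_forall_mem hΩ fun x hx s hs => hd s (hsub hs) x (subset_closure hx))).2

end Pool.Agent.Lib.MP_d8ef8f_an.Gd
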