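import Pool.Agent.Lib.MP_d8ef8f_an.Gd.Stm

/-!
# A1: composition of `C¹` functions
-/

set_option autoImplicit false

namespace Pool.Agent.Lib.MP_d8ef8f_an.Gd

open Set Filter Topology MeasureTheory

theorem p_A1 : StmA1 := by
  intro n ι _ Ω hΩ φ Dφ hφ F F' hF hF'
  have hc : ContinuousOn (fun x => (fun j => φ j x)) (closure Ω) :=
    continuousOn_pi.2 fun j => (hφ j).cont
  refine ⟨?_, ?_, ?_⟩
  · intro x hx
    exact (hF x hx).continuousAt.comp_continuousWithinAt (hc x hx)
  · refine continuousOn_finsetSum _ fun i _ => ?_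
    exact (hF' i).smul (hφ i).contD
  · intro x hx
    have h1 : HasFDerivAt (fun x => (fun j => φ j x))
        (ContinuousLinearMap.pi fun j => (InnerProductSpace.toDual ℝ (Sp n) (Dφ j x) :
          Sp n →L[ℝ] ℝ)) x := by
      rw [hasFDerivAt_pi]
      intro j
      exact (hφ j).grad x hx
    have h2 := (hF x (subset_closure hx)).comp x h1
    rw [hasGradientAt_iff_hasFDerivAt]
    refine h2.congr_fderiv ?_
    ext v
    simp only [ContinuousLinearMap.comp_apply, ContinuousLinearMap.sum_apply,
      ContinuousLinearMap.smul_apply, ContinuousLinearMap.proj_apply,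
      ContinuousLinearMap.pi_apply, InnerProductSpace.toDual_apply_apply, smul_eq_mul,
      map_sum, map_smul]

end Pool.Agent.Lib.MP_d8ef8f_an.Gd
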