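import Pool.Agent.Lib.MP_d8ef8f_an.Gd.Stm

set_option autoImplicit false

namespace Pool.Agent.Lib.MP_d8ef8f_an.Gd

open Set Filter Topology MeasureTheory

theorem p_D1 : StmD1 := by
  intro C κ hC hκ a y y' hy hr
  by_contra hcon
  push_neg at hcon
  set B := max (Real.sqrt (2 * C / κ)) (2 / κ) with hB
  have hB1 : Real.sqrt (2 * C / κ) ≤ B := le_max_left _ _
  have hB2 : 2 / κ ≤ B := le_max_right _ _
  have hBpos : 0 < B := lt_of_lt_of_le (by positivity) hB2
  -- where y > B the derivative is at most - κ / 2 * y ^ 2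
  have key : ∀ t ∈ Icc a (a + 1), B < y t → y' t ≤ - (κ / 2 * y t ^ 2) := by
    intro t ht hyt
    have h0 : 0 < y t := hBpos.trans hyt
    have h1 := hr t ht h0
    have h2 : Real.sqrt (2 * C / κ) < y t := lt_of_le_of_lt hB1 hyt
    have h3 : 2 * C / κ < y t ^ 2 := (Real.sqrt_lt' h0).mp h2
    have h4 : 2 * C < y t ^ 2 * κ := (div_lt_iff₀ hκ).mp h3
    nlinarith
  have hcont : ContinuousOn y (Icc a (a + 1)) := fun t ht => (hy t ht).continuousAt.continuousWithinAt
  have hall : ∀ t ∈ Icc a (a + 1), B < y t := by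
    by_contra hne
    push_neg at hne
    let S : Set ℝ := {t ∈ Icc a (a + 1) | y t ≤ B}
    have hSne : S.Nonempty := by
      obtain ⟨t, ht, hyt⟩ := hne
      exact ⟨t, ht, hyt⟩
    have hSc : IsCompact S := by
      have : IsClosed S := hcont.preimage_isClosed_of_isClosed isClosed_Icc isClosed_Iic
      exact isCompact_Icc.of_isClosed_subset this (fun t ht => ht.1)
    obtain ⟨s, hs, hsmax⟩ := hSc.exists_isGreatest hSne
    have hlt : s < a + 1 := by
      rcases lt_or_eq_of_le hs.1.2 with h | h
      · exact h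
      · exfalso
        have := hs.2
        rw [h] at this
        linarith
    have hanti : AntitoneOn y (Icc s (a + 1)) := by
      apply antitoneOn_of_deriv_nonpos (convex_Icc _ _)
      · exact hcont.mono (Icc_subset_Icc_left hs.1.1)
      · intro t ht
        rw [interior_Icc] at ht
        exact (hy t ⟨hs.1.1.trans ht.1.le, ht.2.le⟩).differentiableAt.differentiableWithinAt
      · intro t ht
        rw [interior_Icc] at ht
        have ht' : t ∈ Icc a (a + 1) := ⟨hs.1.1.trans ht.1.le, ht.2.le⟩
        rw [(hy t ht').deriv]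
        have h1 : B < y t := by
          by_contra h2
          push_neg at h2
          have := hsmax ⟨ht', h2⟩
          exact absurd ht.1 (not_lt.mpr this)
        have h2 := key t ht' h1
        have h3 : 0 ≤ κ / 2 * y t ^ 2 := by positivity
        linarith
    have h1 := hanti (left_mem_Icc.mpr hlt.le) (right_mem_Icc.mpr hlt.le) hlt.le
    have h2 : y s ≤ B := hs.2
    linarith
  have hne : ∀ t ∈ Icc a (a + 1), y t ≠ 0 := fun t ht => (hBpos.trans (hall t ht)).ne'
  have hmono : MonotoneOn (fun t => (y t)⁻¹ - κ / 2 * t) (Icc a (a + 1)) := by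
    have hder : ∀ t ∈ Icc a (a + 1), HasDerivAt (fun t => (y t)⁻¹ - κ / 2 * t)
        (- y' t / y t ^ 2 - κ / 2 * 1) t := by
      intro t ht
      exact ((hy t ht).inv (hne t ht)).sub ((hasDerivAt_id t).const_mul (κ / 2))
    apply monotoneOn_of_deriv_nonneg (convex_Icc _ _)
    · exact fun t ht => (hder t ht).continuousAt.continuousWithinAt
    · intro t ht
      rw [interior_Icc] at ht
      exact (hder t ⟨ht.1.le, ht.2.le⟩).differentiableAt.differentiableWithinAt
    · intro t ht
      rw [interior_Icc] at ht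
      have ht' : t ∈ Icc a (a + 1) := ⟨ht.1.le, ht.2.le⟩
      rw [(hder t ht').deriv]
      have h0 : 0 < y t := hBpos.trans (hall t ht')
      have h1 := key t ht' (hall t ht')
      have h2 : κ / 2 ≤ - y' t / y t ^ 2 := by
        rw [le_div_iff₀ (by positivity)]
        linarith
      linarith
  have hab : a ≤ a + 1 := by linarith
  have h1 := hmono (left_mem_Icc.mpr hab) (right_mem_Icc.mpr hab) hab
  simp only at h1
  have h2 : 0 < (y a)⁻¹ := inv_pos.mpr (hBpos.trans (hall a (left_mem_Icc.mpr hab)))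
  have h3 : κ / 2 < (y (a + 1))⁻¹ := by nlinarith
  have h4 : 0 < y (a + 1) := hBpos.trans hcon
  have h5 : y (a + 1) < 2 / κ := by
    rw [lt_div_iff₀ hκ]
    have h6 : κ / 2 * y (a + 1) < (y (a + 1))⁻¹ * y (a + 1) := mul_lt_mul_of_pos_right h3 h4
    rw [inv_mul_cancel₀ h4.ne'] at h6
    linarith
  linarith

end Pool.Agent.Lib.MP_d8ef8f_an.Gd
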