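import Pool.Agent.Lib.MP_d8ef8f_an.Gd.Stm

set_option autoImplicit false

namespace Pool.Agent.Lib.MP_d8ef8f_an.Gd

open Set Filter Topology MeasureTheory

section calc1

variable {n : ℕ} {Ω : Set (Sp n)}

theorem hasGrad_iff {φ : Sp n → ℝ} {v : Sp n} {x : Sp n} :
    HasGradientAt φ v x ↔ HasFDerivAt φ (InnerProductSpace.toDual ℝ (Sp n) v) x := Iff.rfl

theorem C1.mul {φ ψ : Sp n → ℝ} {Dφ Dψ : Sp n → Sp n} (h1 : C1 Ω φ Dφ) (h2 : C1 Ω ψ Dψ) :
    C1 Ω (fun x => φ x * ψ x) (fun x => φ x • Dψ x + ψ x • Dφ x) where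
  cont := h1.cont.mul h2.cont
  contD := (h1.cont.smul h2.contD).add (h2.cont.smul h1.contD)
  grad := fun x hx => by
    have a := (h1.grad x hx).hasFDerivAt
    have b := (h2.grad x hx).hasFDerivAt
    rw [hasGradientAt_iff_hasFDerivAt]
    refine (a.mul b).congr_fderiv ?_
    rw [map_add, map_smul, map_smul]

theorem C1.add {φ ψ : Sp n → ℝ} {Dφ Dψ : Sp n → Sp n} (h1 : C1 Ω φ Dφ) (h2 : C1 Ω ψ Dψ) :
    C1 Ω (fun x => φ x + ψ x) (fun x => Dφ x + Dψ x) where
  cont := h1.cont.add h2.cont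
  contD := h1.contD.add h2.contD
  grad := fun x hx => by
    have a := (h1.grad x hx).hasFDerivAt
    have b := (h2.grad x hx).hasFDerivAt
    rw [hasGradientAt_iff_hasFDerivAt]
    refine (a.add b).congr_fderiv ?_
    rw [map_add]

theorem C1.const (c : ℝ) : C1 Ω (fun _ => c) (fun _ => 0) where
  cont := continuousOn_const
  contD := continuousOn_const
  grad := fun x _ => by
    rw [hasGradientAt_iff_hasFDerivAt]
    refine (hasFDerivAt_const c x).congr_fderiv ?_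
    rw [map_zero]

theorem C1.sum {ι : Type} (s : Finset ι) {φ : ι → Sp n → ℝ} {Dφ : ι → Sp n → Sp n}
    (h : ∀ i ∈ s, C1 Ω (φ i) (Dφ i)) :
    C1 Ω (fun x => ∑ i ∈ s, φ i x) (fun x => ∑ i ∈ s, Dφ i x) where
  cont := continuousOn_finsetSum _ fun i hi => (h i hi).cont
  contD := continuousOn_finsetSum _ fun i hi => (h i hi).contD
  grad := fun x hx => by
    have := HasFDerivAt.fun_sum (u := s) (A := φ) fun i hi => ((h i hi).grad x hx).hasFDerivAt
    rw [hasGradientAt_iff_hasFDerivAt]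
    refine this.congr_fderiv ?_
    rw [map_sum]

theorem C1.congr {φ ψ : Sp n → ℝ} {Dφ Dψ : Sp n → Sp n} (h1 : C1 Ω φ Dφ) (h : ψ = φ)
    (hD : ∀ x ∈ closure Ω, Dψ x = Dφ x) : C1 Ω ψ Dψ where
  cont := h ▸ h1.cont
  contD := h1.contD.congr hD
  grad := fun x hx => by
    rw [h, hD x (subset_closure hx)]
    exact h1.grad x hx

theorem C1.div {φ ψ : Sp n → ℝ} {Dφ Dψ : Sp n → Sp n} (h1 : C1 Ω φ Dφ) (h2 : C1 Ω ψ Dψ)
    (hp : ∀ x ∈ closure Ω, 0 < ψ x) :
    C1 Ω (fun x => φ x / ψ x) (fun x => (ψ x)⁻¹ • Dφ x - (φ x / ψ x ^ 2) • Dψ x) where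
  cont := h1.cont.div h2.cont fun x hx => (hp x hx).ne'
  contD := ((h2.cont.inv₀ fun x hx => (hp x hx).ne').smul h1.contD).sub
    ((h1.cont.div (h2.cont.pow 2) fun x hx => (pow_pos (hp x hx) 2).ne').smul h2.contD)
  grad := fun x hx => by
    have a := (h1.grad x hx).hasFDerivAt
    have b := (h2.grad x hx).hasFDerivAt
    have h0 := (hp x (subset_closure hx)).ne'
    have c := (hasDerivAt_inv h0).comp_hasFDerivAt x b
    rw [hasGradientAt_iff_hasFDerivAt]
    refine ((a.mul c).congr_of_eventuallyEq (Eventually.of_forall fun y => ?_)).congr_fderiv ?_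
    · simp [div_eq_mul_inv]
    · rw [map_sub, map_smul, map_smul]
      have hc : ((fun y => y⁻¹) ∘ ψ) x = (ψ x)⁻¹ := rfl
      ext y
      rw [hc]
      simp only [add_apply, sub_apply, smul_apply, smul_eq_mul]
      field_simp
      ring

end calc1

section b1

variable {n N : ℕ} {Ω : Set (Sp n)}

theorem inner_sum (x y : Sp n) : inner ℝ x y = ∑ c, x c * y c := by
  rw [PiLp.inner_apply]
  refine Finset.sum_congr rfl fun c _ => ?_
  simp [mul_comm]

/-- the ratios are `C¹` -/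
theorem c1_sh {k : Fin N} {θ : Sp n → ℝ} {Dθ : Sp n → Sp n} (hθ : C1 Ω θ Dθ)
    (hp : ∀ x ∈ closure Ω, 0 < θ x) (ε : ℝ) {u : Fin N → Sp n → ℝ} {Du : Fin N → Sp n → Sp n}
    (hu : ∀ j, C1 Ω (u j) (Du j)) (j : Fin N) :
    C1 Ω (fun x => sh k ε θ u x j) (fun x => Dsh θ Dθ u Du j x) := by
  refine ((C1.div (hu j) hθ hp).add (C1.const (if j = k then ε else 0))).congr rfl ?_
  intro x _
  simp [Dsh]

theorem sh_pos {k : Fin N} {θ : Sp n → ℝ} (hp : ∀ x ∈ closure Ω, 0 < θ x) {ε : ℝ} (hε : 0 < ε)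
    {u : Fin N → Sp n → ℝ} (hu : ∀ j, ∀ x ∈ closure Ω, 0 ≤ u j x) {x : Sp n}
    (hx : x ∈ closure Ω) : 0 < sh k ε θ u x k := by
  have := div_nonneg (hu k x hx) (hp x hx).le
  simp only [sh, if_true]
  linarith

theorem sh_nonneg {k : Fin N} {θ : Sp n → ℝ} (hp : ∀ x ∈ closure Ω, 0 < θ x) {ε : ℝ} (hε : 0 < ε)
    {u : Fin N → Sp n → ℝ} (hu : ∀ j, ∀ x ∈ closure Ω, 0 ≤ u j x) {x : Sp n}
    (hx : x ∈ closure Ω) (j : Fin N) : 0 ≤ sh k ε θ u x j := by
  have := div_nonneg (hu j x hx) (hp x hx).le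
  simp only [sh]
  split_ifs <;> linarith

/-- gradient of `g_j (s)` -/
noncomputable def Gg (k : Fin N) (h : Fin N → Fin N → (Fin N → ℝ) → ℝ) (θ : Sp n → ℝ)
    (Dθ : Sp n → Sp n) (ε : ℝ) (u : Fin N → Sp n → ℝ) (Du : Fin N → Sp n → Sp n) (j : Fin N)
    (x : Sp n) : Sp n :=
  ∑ i, h j i (sh k ε θ u x) • Dsh θ Dθ u Du i x

theorem c1_g (a1 : StmA1) (hΩ : IsOpen Ω) {d : Fin N → ℝ} {k : Fin N} {f : (Fin N → ℝ) → ℝ}
    {g : Fin N → (Fin N → ℝ) → ℝ} {h : Fin N → Fin N → (Fin N → ℝ) → ℝ} (D : Dens d k f g h)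
    {θ : Sp n → ℝ} {Dθ : Sp n → Sp n} (hθ : C1 Ω θ Dθ)
    (hp : ∀ x ∈ closure Ω, 0 < θ x) {ε : ℝ} (hε : 0 < ε) {u : Fin N → Sp n → ℝ}
    {Du : Fin N → Sp n → Sp n}
    (hu : ∀ j, C1 Ω (u j) (Du j)) (hu0 : ∀ j, ∀ x ∈ closure Ω, 0 ≤ u j x) (j : Fin N) :
    C1 Ω (fun x => g j (sh k ε θ u x)) (Gg k h θ Dθ ε u Du j) := by
  refine a1 Ω hΩ (fun i x => sh k ε θ u x i) (fun i x => Dsh θ Dθ u Du i x)
    (fun i => c1_sh hθ hp ε hu i) (g j) (h j) ?_ ?_
  · intro x hx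
    exact D.dg j _ (sh_pos hp hε hu0 hx) (fun i => sh_nonneg hp hε hu0 hx i)
  · intro i
    refine (D.ch j i).comp (continuousOn_pi.2 fun i => (c1_sh hθ hp ε hu i).cont) ?_
    intro x hx
    exact ⟨sh_pos hp hε hu0 hx, fun i => sh_nonneg hp hε hu0 hx i⟩

theorem lin1 (A B : Fin N → ℝ) (dk t th : ℝ) :
    dk * (t * (th * (∑ j, A j) + (∑ j, B j) * t)) = ∑ j, dk * (t * (th * A j + B j * t)) := by
  rw [← Finset.mul_sum, ← Finset.mul_sum, Finset.sum_add_distrib, ← Finset.mul_sum,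
      ← Finset.sum_mul]

theorem lin2 (A B C : Fin N → ℝ) (x y z : ℝ) :
    x * ((∑ j, A j) + y * (∑ j, B j) + z * ∑ j, C j) = ∑ j, x * (A j + y * B j + z * C j) := by
  rw [← Finset.mul_sum, Finset.sum_add_distrib, Finset.sum_add_distrib, ← Finset.mul_sum,
      ← Finset.mul_sum]

theorem coordH (d : Fin N → ℝ) (dk : ℝ) (gg H σ z : Fin N → ℝ) (th t : ℝ) (hth : th ≠ 0) :
    (∑ j, d j * ((th * z j + σ j * t) * (th * H j + gg j * t)))
      - dk * (t * (th * (∑ j, (gg j * z j + σ j * H j)) + (∑ j, σ j * gg j) * t))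
      = th ^ 2 * ((∑ i, d i * z i * H i)
        + (t / th) * (∑ i, (d i - dk) * (z i * gg i + σ i * H i))
        + (t / th) ^ 2 * ∑ i, (d i - dk) * (σ i * gg i)) := by
  rw [lin1, lin2, ← Finset.sum_sub_distrib]
  refine Finset.sum_congr rfl fun j _ => ?_
  field_simp
  ring

/-- the algebraic identity in one coordinate -/
theorem coord_id (d : Fin N → ℝ) (k : Fin N) (g : Fin N → (Fin N → ℝ) → ℝ)
    (h : Fin N → Fin N → (Fin N → ℝ) → ℝ)
    (σ z : Fin N → ℝ) (s : Fin N → ℝ) (hs : ∀ i, (d i - d k) * s i = (d i - d k) * σ i)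
    (th t : ℝ) (hth : th ≠ 0) :
    (∑ j, d j * ((th * z j + σ j * t) * (th * (∑ i, h j i s * z i) + g j s * t)))
      - d k * (t * (th * (∑ j, (g j s * z j + σ j * ∑ i, h j i s * z i))
        + (∑ j, σ j * g j s) * t))
      = th ^ 2 * Qf d k g h s z (th⁻¹ * t) := by
  have e1 : ∀ i, (∑ j, d i * h i j s * z i * z j) = d i * z i * ∑ j, h i j s * z j := by
    intro i
    rw [Finset.mul_sum]
    exact Finset.sum_congr rfl fun j _ => by ring
  have e2 : ∀ i, (d i - d k) * (z i * g i s + s i * ∑ j, h i j s * z j)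
      = (d i - d k) * (z i * g i s + σ i * ∑ j, h i j s * z j) := by
    intro i
    have := hs i
    linear_combination (∑ j, h i j s * z j) * this
  have e3 : ∀ i, (d i - d k) * (s i * g i s) = (d i - d k) * (σ i * g i s) := by
    intro i
    linear_combination (g i s) * hs i
  rw [coordH d (d k) (fun j => g j s) (fun j => ∑ i, h j i s * z i) σ z th t hth]
  unfold Qf
  simp_rw [e1, e2, e3]
  rw [show th⁻¹ * t = t / th by ring]

/-- the pointwise identity -/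
theorem vec_id (d : Fin N → ℝ) (k : Fin N) (g : Fin N → (Fin N → ℝ) → ℝ)
    (h : Fin N → Fin N → (Fin N → ℝ) → ℝ) (θ : Sp n → ℝ) (Dθ : Sp n → Sp n) (ε : ℝ)
    (u : Fin N → Sp n → ℝ) (Du : Fin N → Sp n → Sp n) (x : Sp n) (hx : 0 < θ x) :
    (∑ j, d j * inner ℝ (Du j x) (θ x • Gg k h θ Dθ ε u Du j x + g j (sh k ε θ u x) • Dθ x))
      - d k * inner ℝ (Dθ x) (θ x • (∑ j, (g j (sh k ε θ u x) • Dsh θ Dθ u Du j x
          + (u j x / θ x) • Gg k h θ Dθ ε u Du j x))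
          + (∑ j, (u j x / θ x) * g j (sh k ε θ u x)) • Dθ x)
      = θ x ^ 2 * ∑ c : Fin n, Qf d k g h (sh k ε θ u x)
              (fun j => Dsh θ Dθ u Du j x c) (((θ x)⁻¹ • Dθ x) c) := by
  have hth : θ x ≠ 0 := hx.ne'
  have hDu : ∀ j, Du j x = θ x • Dsh θ Dθ u Du j x + (u j x / θ x) • Dθ x := by
    intro j
    ext c
    simp only [Dsh, PiLp.add_apply, PiLp.sub_apply, PiLp.smul_apply, smul_eq_mul]
    field_simp
    ring
  have hs : ∀ i, (d i - d k) * sh k ε θ u x i = (d i - d k) * (u i x / θ x) := by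
    intro i
    unfold sh
    by_cases hi : i = k
    · subst hi; simp
    · simp [hi]
  rw [Finset.mul_sum]
  have key : ∀ c : Fin n, θ x ^ 2 * Qf d k g h (sh k ε θ u x)
              (fun j => Dsh θ Dθ u Du j x c) (((θ x)⁻¹ • Dθ x) c)
      = (∑ j, d j * ((θ x * Dsh θ Dθ u Du j x c + (u j x / θ x) * Dθ x c) *
          (θ x * (∑ i, h j i (sh k ε θ u x) * Dsh θ Dθ u Du i x c)
            + g j (sh k ε θ u x) * Dθ x c)))
      - d k * (Dθ x c * (θ x * (∑ j, (g j (sh k ε θ u x) * Dsh θ Dθ u Du j x c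
          + (u j x / θ x) * ∑ i, h j i (sh k ε θ u x) * Dsh θ Dθ u Du i x c))
        + (∑ j, (u j x / θ x) * g j (sh k ε θ u x)) * Dθ x c)) := by
    intro c
    rw [coord_id d k g h (fun j => u j x / θ x) (fun j => Dsh θ Dθ u Du j x c) (sh k ε θ u x)
      hs (θ x) (Dθ x c) hth]
    rfl
  simp_rw [key]
  rw [Finset.sum_sub_distrib, Finset.sum_comm, ← Finset.mul_sum]
  congr 1
  · refine Finset.sum_congr rfl fun j _ => ?_
    rw [← Finset.mul_sum, inner_sum]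
    congr 1
    refine Finset.sum_congr rfl fun c _ => ?_
    conv_lhs => rw [hDu j]
    simp only [Gg, PiLp.add_apply, PiLp.smul_apply, smul_eq_mul, WithLp.ofLp_sum, Finset.sum_apply]
  · rw [inner_sum]
    congr 1
    refine Finset.sum_congr rfl fun c _ => ?_
    simp only [Gg, PiLp.add_apply, PiLp.smul_apply, smul_eq_mul, WithLp.ofLp_sum, Finset.sum_apply]

theorem p_B1 (a1 : StmA1) (a2 : StmA2) : StmB1 := by
  intro n N Ω d m k θ Dθ lθ P B f g h D ε hε u Du lu hu hu0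
  have hp := B.st.pos
  have hθ := B.st.lap.c1
  have hm := B.isOpen.measurableSet
  have hσ : ∀ j, C1 Ω (fun x => u j x / θ x) (fun x => Dsh θ Dθ u Du j x) := fun j =>
    C1.div (hu j).c1 hθ hp
  have hg : ∀ j, C1 Ω (fun x => g j (sh k ε θ u x)) (Gg k h θ Dθ ε u Du j) := fun j =>
    c1_g a1 B.isOpen D hθ hp hε (fun j => (hu j).c1) hu0 j
  have hΨ : ∀ j, C1 Ω (fun x => θ x * g j (sh k ε θ u x))
      (fun x => θ x • Gg k h θ Dθ ε u Du j x + g j (sh k ε θ u x) • Dθ x) := fun j =>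
    C1.mul hθ (hg j)
  have hR : C1 Ω (fun x => ∑ j, (u j x / θ x) * g j (sh k ε θ u x))
      (fun x => ∑ j, (g j (sh k ε θ u x) • Dsh θ Dθ u Du j x
          + (u j x / θ x) • Gg k h θ Dθ ε u Du j x)) := by
    refine (C1.sum Finset.univ (fun j _ => C1.mul (hσ j) (hg j))).congr rfl ?_
    intro x _
    exact Finset.sum_congr rfl fun j _ => add_comm _ _
  have hΨR := C1.mul hθ hR
  have G1 : ∀ j, ∫ x in Ω, lu j x * (θ x * g j (sh k ε θ u x))
      = - ∫ x in Ω, inner ℝ (Du j x)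
        (θ x • Gg k h θ Dθ ε u Du j x + g j (sh k ε θ u x) • Dθ x) := fun j =>
    (hu j).green _ _ (hΨ j)
  have G2 := B.st.lap.green _ _ hΨR
  -- integrability
  have I1 : ∀ j, IntegrableOn (fun x => lu j x * (θ x * g j (sh k ε θ u x))) Ω := fun j =>
    a2 Ω B.bdd _ ((hu j).cont.mul (hΨ j).cont)
  have I2 : IntegrableOn (fun x => lθ x * (θ x * ∑ j, (u j x / θ x) * g j (sh k ε θ u x))) Ω :=
    a2 Ω B.bdd _ (B.st.lap.cont.mul hΨR.cont)
  have I3 : ∀ j, IntegrableOn (fun x => inner ℝ (Du j x)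
        (θ x • Gg k h θ Dθ ε u Du j x + g j (sh k ε θ u x) • Dθ x)) Ω := fun j =>
    a2 Ω B.bdd _ ((hu j).c1.contD.inner (hΨ j).contD)
  have I4 : IntegrableOn (fun x => inner ℝ (Dθ x)
      (θ x • (∑ j, (g j (sh k ε θ u x) • Dsh θ Dθ u Du j x
          + (u j x / θ x) • Gg k h θ Dθ ε u Du j x))
          + (∑ j, (u j x / θ x) * g j (sh k ε θ u x)) • Dθ x)) Ω :=
    a2 Ω B.bdd _ (hθ.contD.inner hΨR.contD)
  have cU : ContinuousOn (fun x => ∑ i, u i x) (closure Ω) :=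
    continuousOn_finsetSum _ fun i _ => (hu i).c1.cont
  have I5 : IntegrableOn (fun x => θ x ^ 3 * ((∑ i, u i x) / θ x - 1) *
              ∑ j, (u j x / θ x) * g j (sh k ε θ u x)) Ω := by
    refine a2 Ω B.bdd _ (((hθ.cont.pow 3).mul
      ((cU.div hθ.cont fun x hx => (hp x hx).ne').sub continuousOn_const)).mul hR.cont)
  -- the quadratic form
  have Q1 : ∫ x in Ω, θ x ^ 2 * ∑ c : Fin n, Qf d k g h (sh k ε θ u x)
              (fun j => Dsh θ Dθ u Du j x c) (((θ x)⁻¹ • Dθ x) c)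
      = (∑ j, d j * ∫ x in Ω, inner ℝ (Du j x)
        (θ x • Gg k h θ Dθ ε u Du j x + g j (sh k ε θ u x) • Dθ x))
        - d k * ∫ x in Ω, inner ℝ (Dθ x)
      (θ x • (∑ j, (g j (sh k ε θ u x) • Dsh θ Dθ u Du j x
          + (u j x / θ x) • Gg k h θ Dθ ε u Du j x))
          + (∑ j, (u j x / θ x) * g j (sh k ε θ u x)) • Dθ x) := by
    have e : ∀ x ∈ Ω, θ x ^ 2 * ∑ c : Fin n, Qf d k g h (sh k ε θ u x)
              (fun j => Dsh θ Dθ u Du j x c) (((θ x)⁻¹ • Dθ x) c)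
      = (∑ j, d j * inner ℝ (Du j x)
        (θ x • Gg k h θ Dθ ε u Du j x + g j (sh k ε θ u x) • Dθ x))
        - d k * inner ℝ (Dθ x)
      (θ x • (∑ j, (g j (sh k ε θ u x) • Dsh θ Dθ u Du j x
          + (u j x / θ x) • Gg k h θ Dθ ε u Du j x))
          + (∑ j, (u j x / θ x) * g j (sh k ε θ u x)) • Dθ x) := fun x hx =>
      (vec_id d k g h θ Dθ ε u Du x (hp x (subset_closure hx))).symm
    rw [setIntegral_congr_fun hm e, integral_sub (integrable_finsetSum _ fun j _ =>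
      (I3 j).const_mul (d j)) (I4.const_mul (d k)), integral_finsetSum _ fun j _ =>
      (I3 j).const_mul (d j), integral_const_mul]
    simp_rw [integral_const_mul]
  -- the left side
  have L1 : ∀ x ∈ Ω, θ x * ∑ j, g j (sh k ε θ u x) * (d j * lu j x + u j x * (m x - ∑ i, u i x))
      = (∑ j, d j * (lu j x * (θ x * g j (sh k ε θ u x))))
        - d k * (lθ x * (θ x * ∑ j, (u j x / θ x) * g j (sh k ε θ u x)))
        - θ x ^ 3 * ((∑ i, u i x) / θ x - 1) * ∑ j, (u j x / θ x) * g j (sh k ε θ u x) := by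
    intro x hx
    have hx' := subset_closure hx
    have h0 := (hp x hx').ne'
    have e1 : (∑ j, g j (sh k ε θ u x) * (d j * lu j x + u j x * (m x - ∑ i, u i x)))
        = (∑ j, d j * (lu j x * g j (sh k ε θ u x)))
          + θ x * (∑ j, (u j x / θ x) * g j (sh k ε θ u x)) * (m x - ∑ i, u i x) := by
      rw [Finset.mul_sum, Finset.sum_mul, ← Finset.sum_add_distrib]
      refine Finset.sum_congr rfl fun j _ => ?_
      field_simp
    have e2 : (∑ j, d j * (lu j x * (θ x * g j (sh k ε θ u x))))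
        = θ x * ∑ j, d j * (lu j x * g j (sh k ε θ u x)) := by
      rw [Finset.mul_sum]
      exact Finset.sum_congr rfl fun j _ => by ring
    have e3 := B.st.eq x hx'
    rw [e1, e2]
    generalize (∑ j, (u j x / θ x) * g j (sh k ε θ u x)) = R
    generalize (∑ i, u i x) = U
    generalize (∑ j, d j * (lu j x * g j (sh k ε θ u x))) = A
    have e4 : θ x ^ 3 * (U / θ x - 1) = θ x ^ 2 * (U - θ x) := by field_simp
    rw [e4]
    linear_combination (θ x * R) * e3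
  have I6 : IntegrableOn (fun x => (∑ j, d j * (lu j x * (θ x * g j (sh k ε θ u x))))
        - d k * (lθ x * (θ x * ∑ j, (u j x / θ x) * g j (sh k ε θ u x)))) Ω :=
    (integrable_finsetSum _ fun j _ => (I1 j).const_mul (d j)).sub (I2.const_mul (d k))
  rw [setIntegral_congr_fun hm L1, integral_sub I6 I5,
      integral_sub (integrable_finsetSum _ fun j _ => (I1 j).const_mul (d j)) (I2.const_mul (d k)),
      integral_finsetSum _ fun j _ => (I1 j).const_mul (d j), integral_const_mul, Q1]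
  simp_rw [integral_const_mul]
  rw [G2]
  simp_rw [G1]
  simp only [mul_neg, Finset.sum_neg_distrib]
  ring

end b1

end Pool.Agent.Lib.MP_d8ef8f_an.Gd
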