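import Mathlib

/-!
# The profile functions of the Lyapunov density
-/

set_option autoImplicit false

namespace Pool.Agent.Lib.MP_d8ef8f_an.Gd

open Set Filter Topology

/-- `√(e² + (t-1)²)` -/
noncomputable def dfR (e t : ℝ) : ℝ := Real.sqrt (e ^ 2 + (t - 1) ^ 2)

/-- the profile `φ` -/
noncomputable def dfp (e t : ℝ) : ℝ := 1 - 2 * e + 2 * (dfR e t - (t - 1))

/-- its derivative -/
noncomputable def dfp1 (e t : ℝ) : ℝ := -2 * (1 - (t - 1) / dfR e t)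

/-- its second derivative -/
noncomputable def dfp2 (e t : ℝ) : ℝ := 2 * e ^ 2 / dfR e t ^ 3

theorem dfR_sq (e t : ℝ) : dfR e t ^ 2 = e ^ 2 + (t - 1) ^ 2 :=
  Real.sq_sqrt (by positivity)

theorem dfR_pos {e : ℝ} (he : 0 < e) (t : ℝ) : 0 < dfR e t :=
  Real.sqrt_pos.2 (by positivity)

theorem dfR_ge_e {e : ℝ} (he : 0 < e) (t : ℝ) : e ≤ dfR e t := by
  have h1 := dfR_sq e t
  have h2 := dfR_pos he t
  nlinarith [sq_nonneg (t - 1)]

theorem dfR_ge {e : ℝ} (he : 0 < e) (t : ℝ) : |t - 1| ≤ dfR e t := by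
  apply abs_le_of_sq_le_sq _ (dfR_pos he t).le
  rw [dfR_sq]
  nlinarith [sq_nonneg e]

theorem dfR_le {e : ℝ} (he : 0 < e) (t : ℝ) : dfR e t ≤ e + |t - 1| := by
  have h1 := dfR_sq e t
  have h2 := dfR_pos he t
  have h3 := sq_abs (t - 1)
  have h4 := abs_nonneg (t - 1)
  have h5 : dfR e t ^ 2 ≤ (e + |t - 1|) ^ 2 := by nlinarith
  exact le_of_sq_le_sq h5 (by positivity)

theorem dfR_deriv {e : ℝ} (he : 0 < e) (t : ℝ) :
    HasDerivAt (dfR e) ((t - 1) / dfR e t) t := by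
  have h1 : HasDerivAt (fun t : ℝ => e ^ 2 + (t - 1) ^ 2) (2 * (t - 1)) t := by
    have h2 := (((hasDerivAt_id t).sub_const 1).pow 2).const_add (e ^ 2)
    simpa using h2
  have h3 := h1.sqrt (by positivity : e ^ 2 + (t - 1) ^ 2 ≠ 0)
  have h4 : 2 * (t - 1) / (2 * Real.sqrt (e ^ 2 + (t - 1) ^ 2)) = (t - 1) / dfR e t := by
    unfold dfR
    rw [mul_div_mul_left _ _ two_ne_zero]
  rw [h4] at h3
  exact h3

theorem dfp_deriv {e : ℝ} (he : 0 < e) (t : ℝ) : HasDerivAt (dfp e) (dfp1 e t) t := by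
  have h1 := (((dfR_deriv he t).sub ((hasDerivAt_id t).sub_const 1)).const_mul 2).const_add
    (1 - 2 * e)
  have h2 : 2 * ((t - 1) / dfR e t - 1) = dfp1 e t := by
    unfold dfp1; ring
  rw [h2] at h1
  exact h1

theorem dfp1_deriv {e : ℝ} (he : 0 < e) (t : ℝ) : HasDerivAt (dfp1 e) (dfp2 e t) t := by
  have hR := dfR_pos he t
  have h1 := ((((hasDerivAt_id t).sub_const 1).div (dfR_deriv he t) hR.ne').const_sub
    1).const_mul (-2)
  have h2 : -2 * -((1 * dfR e t - (id t - 1) * ((t - 1) / dfR e t)) / dfR e t ^ 2) =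
      dfp2 e t := by
    unfold dfp2
    have h3 := dfR_sq e t
    simp only [id]
    field_simp
    linarith
  rw [h2] at h1
  exact h1

theorem dfp2_cont {e : ℝ} (he : 0 < e) : Continuous (dfp2 e) := by
  have h1 : Continuous (dfR e) := by
    unfold dfR
    fun_prop
  exact (continuous_const).div (h1.pow 3) (fun t => pow_ne_zero 3 (dfR_pos he t).ne')

theorem dfp2_nonneg {e : ℝ} (he : 0 < e) (t : ℝ) : 0 ≤ dfp2 e t := by
  unfold dfp2
  have := dfR_pos he t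
  positivity

theorem dfp1_le {e : ℝ} (he : 0 < e) (t : ℝ) : dfp1 e t ≤ 0 := by
  unfold dfp1
  have h1 := dfR_pos he t
  have h2 := (abs_le.1 (dfR_ge he t)).2
  have h3 : (t - 1) / dfR e t ≤ 1 := by
    rw [div_le_one h1]
    exact h2
  linarith

theorem dfp1_ge {e : ℝ} (he : 0 < e) (t : ℝ) : -4 ≤ dfp1 e t := by
  unfold dfp1
  have h1 := dfR_pos he t
  have h2 := (abs_le.1 (dfR_ge he t)).1
  have h3 : -1 ≤ (t - 1) / dfR e t := by
    rw [le_div_iff₀ h1]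
    linarith
  linarith

theorem dfp1_abs {e : ℝ} (he : 0 < e) (t : ℝ) : |dfp1 e t| ≤ 4 := by
  rw [abs_le]
  constructor
  · exact dfp1_ge he t
  · linarith [dfp1_le he t]

theorem dfp_ge {e : ℝ} (he : 0 < e) (he1 : e ≤ 1 / 16) (t : ℝ) : 7 / 8 ≤ dfp e t := by
  unfold dfp
  have h2 := (abs_le.1 (dfR_ge he t)).2
  linarith

theorem dfp_in {e : ℝ} (he : 0 < e) {t : ℝ} (ht : t ≤ 1) : 1 ≤ dfp e t := by
  unfold dfp
  have h2 := dfR_ge_e he t
  linarith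

theorem dfp_out {e : ℝ} (he : 0 < e) {t : ℝ} (ht : 1 ≤ t) : dfp e t ≤ 1 := by
  unfold dfp
  have h2 := dfR_le he t
  rw [abs_of_nonneg (by linarith)] at h2
  linarith

theorem dfp_le {e : ℝ} (he : 0 < e) {t : ℝ} (ht : 0 ≤ t) : dfp e t ≤ 5 := by
  unfold dfp
  have h2 := dfR_le he t
  rcases le_total 1 t with h | h
  · rw [abs_of_nonneg (by linarith)] at h2
    linarith
  · rw [abs_of_nonpos (by linarith)] at h2
    linarith

/-- `e³ φ ≥ (R - y)² R` for `t ≥ 1` -/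
theorem dfp_key {e : ℝ} (he : 0 < e) (he1 : e ≤ 1 / 16) {t : ℝ} (ht : 1 ≤ t) :
    dfp1 e t ^ 2 ≤ 2 * e * (dfp e t * dfp2 e t) := by
  have hR := dfR_pos he t
  have hR2 := dfR_sq e t
  obtain ⟨q, hq⟩ : ∃ q, q = dfR e t - (t - 1) := ⟨_, rfl⟩
  have hRe := dfR_le he t
  rw [abs_of_nonneg (by linarith)] at hRe
  have hq1 : q ≤ e := by rw [hq]; linarith
  have hRy := (abs_le.1 (dfR_ge he t)).2
  have hq0 : 0 ≤ q := by rw [hq]; linarith
  have hqR : 2 * (q * dfR e t) = e ^ 2 + q ^ 2 := by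
    rw [hq]
    nlinarith
  have h1 : q ^ 2 * dfR e t ≤ e ^ 3 * dfp e t := by
    have h2 : 2 * (q ^ 2 * dfR e t) = q * (e ^ 2 + q ^ 2) := by
      rw [← hqR]; ring
    have h3 : dfp e t = 1 - 2 * e + 2 * q := by
      unfold dfp; rw [hq]
    have h4 : 2 * (e ^ 3 * (1 - 2 * e + 2 * q)) - q * (e ^ 2 + q ^ 2) =
        (e - q) * (2 * e ^ 2 + e * q + q ^ 2 - 4 * e ^ 3) := by ring
    have h5 : 0 ≤ (e - q) * (2 * e ^ 2 + e * q + q ^ 2 - 4 * e ^ 3) := by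
      apply mul_nonneg (by linarith)
      have h6 : e ^ 3 ≤ 1 / 16 * e ^ 2 := by nlinarith [sq_nonneg e]
      nlinarith [mul_nonneg he.le hq0, sq_nonneg q, sq_nonneg e]
    rw [h3]
    linarith
  have h2 : dfp1 e t ^ 2 = 4 * (q ^ 2 * dfR e t) / dfR e t ^ 3 := by
    unfold dfp1
    rw [hq]
    field_simp
    ring
  have h3 : 2 * e * (dfp e t * dfp2 e t) = 4 * (e ^ 3 * dfp e t) / dfR e t ^ 3 := by
    unfold dfp2
    field_simp
    ring
  rw [h2, h3]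
  apply div_le_div_of_nonneg_right _ (by positivity)
  linarith

/-- `t |φ'| ≤ 2` for `t ≥ 1` -/
theorem dfp1_t {e : ℝ} (he : 0 < e) (he1 : e ≤ 1 / 16) {t : ℝ} (ht : 1 ≤ t) :
    |dfp1 e t| * t ≤ 2 := by
  rw [abs_of_nonpos (dfp1_le he t)]
  have hR := dfR_pos he t
  have hRe := dfR_le he t
  rw [abs_of_nonneg (by linarith)] at hRe
  have hRy := (abs_le.1 (dfR_ge he t)).2
  have h1 : -dfp1 e t * t = 2 * ((dfR e t - (t - 1)) * t) / dfR e t := by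
    unfold dfp1
    field_simp
  rw [h1, div_le_iff₀ hR]
  nlinarith

/-- `t² φ'' ≤ 21/(10 e)` for `t ≥ 1` -/
theorem dfp2_t {e : ℝ} (he : 0 < e) (he1 : e ≤ 1 / 16) {t : ℝ} (ht : 1 ≤ t) :
    e * (t ^ 2 * dfp2 e t) ≤ 21 / 10 := by
  have hR := dfR_pos he t
  have hRe := dfR_ge_e he t
  have hR2 := dfR_sq e t
  have h1 : e * (t ^ 2 * dfp2 e t) = 2 * (e ^ 3 * t ^ 2) / dfR e t ^ 3 := by
    unfold dfp2
    ring
  rw [h1, div_le_iff₀ (by positivity)]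
  have h2 : t ^ 2 ≤ 21 / 20 + 21 * (t - 1) ^ 2 := by nlinarith [sq_nonneg (20 * (t - 1) - 1)]
  have h3 : e ^ 3 * t ^ 2 ≤ e ^ 3 * (21 / 20 + 21 * (t - 1) ^ 2) :=
    mul_le_mul_of_nonneg_left h2 (by positivity)
  have h4 : e * dfR e t ^ 2 ≤ dfR e t ^ 3 := by
    have := mul_le_mul_of_nonneg_right hRe (sq_nonneg (dfR e t))
    linarith
  have h5 : e ^ 2 ≤ 1 / 256 := by nlinarith
  have h6 : e * (t - 1) ^ 2 * e ^ 2 ≤ e * (t - 1) ^ 2 * (1 / 256) :=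
    mul_le_mul_of_nonneg_left h5 (by positivity)
  have h7 : 0 ≤ e * (t - 1) ^ 2 := by positivity
  rw [hR2] at h4
  linarith

/-- `t² φ'' ≤ 2/e` for `0 ≤ t ≤ 1` -/
theorem dfp2_t' {e : ℝ} (he : 0 < e) {t : ℝ} (ht0 : 0 ≤ t) (ht : t ≤ 1) :
    e * (t ^ 2 * dfp2 e t) ≤ 2 := by
  have hR := dfR_pos he t
  have hRe := dfR_ge_e he t
  have h1 : e * (t ^ 2 * dfp2 e t) = 2 * (e ^ 3 * t ^ 2) / dfR e t ^ 3 := by
    unfold dfp2
    ring
  rw [h1, div_le_iff₀ (by positivity)]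
  have h2 : t ^ 2 ≤ 1 := by nlinarith
  have h3 : e ^ 3 * t ^ 2 ≤ e ^ 3 * 1 := mul_le_mul_of_nonneg_left h2 (by positivity)
  have h4 : e ^ 3 ≤ dfR e t ^ 3 := pow_le_pow_left₀ he.le hRe 3
  linarith

/-- `2 φ + t φ' ≥ 0` for `t ≥ 1` -/
theorem dfp_r {e : ℝ} (he : 0 < e) (he1 : e ≤ 1 / 16) {t : ℝ} (ht : 1 ≤ t) :
    0 ≤ 2 * dfp e t + t * dfp1 e t := by
  have hR := dfR_pos he t
  have hR2 := dfR_sq e t
  have hRe := dfR_le he t
  rw [abs_of_nonneg (by linarith)] at hRe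
  have hRy := (abs_le.1 (dfR_ge he t)).2
  obtain ⟨y, hy⟩ : ∃ y, y = t - 1 := ⟨_, rfl⟩
  obtain ⟨q, hq⟩ : ∃ q, q = dfR e t - y := ⟨_, rfl⟩
  have hRq : dfR e t = q + y := by rw [hq]; ring
  have hty : t = 1 + y := by rw [hy]; ring
  rw [← hy] at hR2 hRe hRy
  have hy0 : 0 ≤ y := by rw [hy]; linarith
  have hq1 : q ≤ e := by rw [hq]; linarith
  have hq0 : 0 < q := by
    rw [hRq] at hR2
    by_contra hc
    push Not at hc
    have : q = 0 := le_antisymm hc (by rw [hq]; linarith)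
    rw [this] at hR2
    nlinarith
  have hqy : 2 * (q * y) = (e - q) * (e + q) := by
    rw [hRq] at hR2
    nlinarith
  have h1 : 2 * dfp e t + t * dfp1 e t =
      2 * ((1 - 2 * e + 2 * q) * (q + y) - q * (1 + y)) / (q + y) := by
    unfold dfp dfp1
    rw [← hy, hRq, hty]
    have : q + y ≠ 0 := by positivity
    field_simp
    ring
  rw [h1]
  apply div_nonneg _ (by positivity)
  have h2 : 2 * q * ((1 - 2 * e + 2 * q) * (q + y) - q * (1 + y)) =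
      (e - q) * ((e + q) * (1 - 2 * e + q) - 4 * q ^ 2) := by
    have h3 : 2 * q * ((1 - 2 * e + 2 * q) * (q + y) - q * (1 + y)) =
        2 * (q * y) * (1 - 2 * e + q) - 4 * q ^ 2 * (e - q) := by ring
    rw [h3, hqy]
    ring
  have h3 : 0 ≤ (e - q) * ((e + q) * (1 - 2 * e + q) - 4 * q ^ 2) := by
    apply mul_nonneg (by linarith)
    have h4 : 2 * q * (2 * q) ≤ (e + q) * (1 - 2 * e + q) :=
      mul_le_mul (by linarith) (by linarith) (by positivity) (by linarith)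
    linarith
  rw [← h2] at h3
  have h4 : 0 ≤ (1 - 2 * e + 2 * q) * (q + y) - q * (1 + y) :=
    nonneg_of_mul_nonneg_right h3 (by positivity)
  linarith

/-- bounds of `2 φ + t φ'` for `0 ≤ t ≤ 1` -/
theorem dfp_r' {e : ℝ} (he : 0 < e) {t : ℝ} (ht0 : 0 ≤ t) (ht : t ≤ 1) :
    -2 ≤ 2 * dfp e t + t * dfp1 e t ∧ 2 * dfp e t + t * dfp1 e t ≤ 10 * (1 - t) := by
  have hR := dfR_pos he t
  have hRe := dfR_le he t
  rw [abs_of_nonpos (by linarith)] at hRe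
  have hRe2 := dfR_ge_e he t
  have hRy := (abs_le.1 (dfR_ge he t)).1
  obtain ⟨z, hz⟩ : ∃ z, z = (1 - t) / dfR e t := ⟨_, rfl⟩
  have hz0 : 0 ≤ z := by rw [hz]; exact div_nonneg (by linarith) hR.le
  have hz1 : z ≤ 1 := by
    rw [hz, div_le_one hR]
    linarith
  have h1 : dfp1 e t = -2 * (1 + z) := by
    unfold dfp1
    rw [hz]
    ring
  rw [h1]
  unfold dfp
  constructor
  · nlinarith
  · nlinarith

end Pool.Agent.Lib.MP_d8ef8f_an.Gd
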