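import Mathlib

/-!
# The one variable part of the Lyapunov density
-/

set_option autoImplicit false

namespace Pool.Agent.Lib.MP_d8ef8f_an.Gd

open Set Filter Topology

/-- the function with derivative `(s-1)²/s` -/
noncomputable def dfP (s : ℝ) : ℝ := s ^ 2 / 2 - 2 * s + Real.log s + 3 / 2

/-- the function with derivative `(s-1)|s-1|/s` -/
noncomputable def dfc (s : ℝ) : ℝ := if s ≤ 1 then -dfP s else dfP s

noncomputable def dfc1 (s : ℝ) : ℝ := (s - 1) * |s - 1| / s

noncomputable def dfc2 (s : ℝ) : ℝ := |1 - s ^ 2| / s ^ 2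

theorem dfP_deriv {s : ℝ} (hs : 0 < s) : HasDerivAt dfP ((s - 1) ^ 2 / s) s := by
  have h1 : HasDerivAt (fun s : ℝ => s ^ 2 / 2) s s := by
    have := ((hasDerivAt_id s).pow 2).div_const 2
    simp only [id, Nat.cast_ofNat, Nat.add_one_sub_one, pow_one, mul_one] at this
    have e : 2 * s / 2 = s := by ring
    rw [e] at this
    exact this
  have h2 := ((h1.sub ((hasDerivAt_id s).const_mul 2)).add (Real.hasDerivAt_log hs.ne')).add_const
    (3 / 2)
  have h3 : s - 2 * 1 + s⁻¹ = (s - 1) ^ 2 / s := by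
    field_simp
    ring
  rw [h3] at h2
  exact h2

theorem dfP_one : dfP 1 = 0 := by
  unfold dfP
  rw [Real.log_one]
  norm_num

theorem dfc_one : dfc 1 = 0 := by
  unfold dfc
  rw [if_pos le_rfl, dfP_one, neg_zero]

theorem dfc_deriv {s : ℝ} (hs : 0 < s) : HasDerivAt dfc (dfc1 s) s := by
  have hP := dfP_deriv hs
  rcases lt_trichotomy s 1 with h | h | h
  · have h1 : dfc1 s = -((s - 1) ^ 2 / s) := by
      unfold dfc1
      rw [abs_of_neg (by linarith)]
      ring
    rw [h1]
    refine hP.neg.congr_of_eventuallyEq ?_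
    filter_upwards [gt_mem_nhds h] with y hy
    unfold dfc
    rw [if_pos hy.le]
    rfl
  · subst h
    have h1 : dfc1 1 = 0 := by unfold dfc1; norm_num
    have h2 : ((1:ℝ) - 1) ^ 2 / 1 = 0 := by norm_num
    rw [h2] at hP
    rw [h1]
    have h3 : HasDerivWithinAt dfc 0 (Iic 1) 1 := by
      have h4 := hP.neg.hasDerivWithinAt (s := Iic 1)
      rw [neg_zero] at h4
      refine h4.congr (fun y hy => ?_) ?_
      · unfold dfc
        rw [if_pos (mem_Iic.1 hy)]
        rfl
      · unfold dfc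
        rw [if_pos le_rfl]
        rfl
    have h5 : HasDerivWithinAt dfc 0 (Ici 1) 1 := by
      have h4 := hP.hasDerivWithinAt (s := Ici 1)
      refine h4.congr (fun y hy => ?_) ?_
      · unfold dfc
        rcases eq_or_lt_of_le (mem_Ici.1 hy) with h6 | h6
        · subst h6
          rw [if_pos le_rfl, dfP_one, neg_zero]
        · rw [if_neg (not_le.2 h6)]
      · unfold dfc
        rw [if_pos le_rfl, dfP_one, neg_zero]
    have h6 := h3.union h5
    rw [Iic_union_Ici, hasDerivWithinAt_univ] at h6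
    exact h6
  · have h1 : dfc1 s = (s - 1) ^ 2 / s := by
      unfold dfc1
      rw [abs_of_pos (by linarith)]
      ring
    rw [h1]
    refine hP.congr_of_eventuallyEq ?_
    filter_upwards [lt_mem_nhds h] with y hy
    unfold dfc
    rw [if_neg (not_le.2 hy)]

/-- derivative of `(s-1)|s-1|` -/
theorem df_absd (s : ℝ) : HasDerivAt (fun s : ℝ => (s - 1) * |s - 1|) (2 * |s - 1|) s := by
  rcases lt_trichotomy s 1 with h | h | h
  · have h1 : HasDerivAt (fun s : ℝ => -((s - 1) ^ 2)) (2 * |s - 1|) s := by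
      have := (((hasDerivAt_id s).sub_const 1).pow 2).neg
      simp only [id, Nat.cast_ofNat, Nat.add_one_sub_one, pow_one, mul_one] at this
      rw [abs_of_neg (by linarith)]
      have e : -(2 * (s - 1)) = 2 * -(s - 1) := by ring
      rw [e] at this
      exact this
    refine h1.congr_of_eventuallyEq ?_
    filter_upwards [gt_mem_nhds h] with y hy
    rw [abs_of_neg (by linarith)]
    ring
  · subst h
    have h1 : HasDerivAt (fun s : ℝ => (s - 1) * |s - 1|) 0 1 := by
      rw [hasDerivAt_iff_isLittleO_nhds_zero]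
      simp only [add_sub_cancel_left, sub_self, zero_mul, sub_zero, smul_zero]
      have h2 : Tendsto (fun h : ℝ => |h|) (𝓝 0) (𝓝 0) := by
        have := continuous_abs.tendsto (0:ℝ)
        rwa [abs_zero] at this
      have h3 : (fun h : ℝ => h * |h|) =o[𝓝 0] (fun h : ℝ => h * 1) :=
        (Asymptotics.isBigO_refl _ _).mul_isLittleO
          ((Asymptotics.isLittleO_one_iff ℝ).2 h2)
      simpa using h3
    simpa using h1
  · have h1 : HasDerivAt (fun s : ℝ => (s - 1) ^ 2) (2 * |s - 1|) s := by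
      have := (((hasDerivAt_id s).sub_const 1).pow 2)
      simp only [id, Nat.cast_ofNat, Nat.add_one_sub_one, pow_one, mul_one] at this
      rw [abs_of_pos (by linarith)]
      exact this
    refine h1.congr_of_eventuallyEq ?_
    filter_upwards [lt_mem_nhds h] with y hy
    rw [abs_of_pos (by linarith)]
    ring

theorem dfc1_deriv {s : ℝ} (hs : 0 < s) : HasDerivAt dfc1 (dfc2 s) s := by
  have h1 := (df_absd s).div (hasDerivAt_id s) hs.ne'
  have h2 : (2 * |s - 1| * id s - (s - 1) * |s - 1| * 1) / id s ^ 2 = dfc2 s := by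
    unfold dfc2
    simp only [id]
    have h3 : |1 - s ^ 2| = |s - 1| * (s + 1) := by
      have h4 : 1 - s ^ 2 = -((s - 1) * (s + 1)) := by ring
      rw [h4, abs_neg, abs_mul, abs_of_pos (by linarith : 0 < s + 1)]
    rw [h3]
    congr 1
    ring
  rw [h2] at h1
  exact h1

theorem dfc2_cont : ContinuousOn dfc2 (Ioi 0) := by
  unfold dfc2
  refine ContinuousOn.div (by fun_prop) (by fun_prop) (fun s hs => ?_)
  exact pow_ne_zero 2 (ne_of_gt hs)

theorem dfc2_nonneg {s : ℝ} (hs : 0 < s) : 0 ≤ dfc2 s := by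
  unfold dfc2
  positivity

/-- `s² dfc2 = |1 - s²|` -/
theorem dfc2_mul {s : ℝ} (hs : 0 < s) : dfc2 s * s ^ 2 = |1 - s ^ 2| := by
  unfold dfc2
  field_simp

/-- `(1 - 1/s)² ≤ dfc2 s` -/
theorem dfc2_ge {s : ℝ} (hs : 0 < s) : (1 - 1 / s) ^ 2 ≤ dfc2 s := by
  have h1 : (1 - 1 / s) ^ 2 = (s - 1) ^ 2 / s ^ 2 := by
    field_simp
  rw [h1]
  unfold dfc2
  apply div_le_div_of_nonneg_right _ (by positivity)
  have h4 : 1 - s ^ 2 = -((s - 1) * (s + 1)) := by ring
  rw [h4, abs_neg, abs_mul, abs_of_pos (by linarith : 0 < s + 1), ← sq_abs (s - 1), sq]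
  apply mul_le_mul_of_nonneg_left _ (abs_nonneg _)
  rw [abs_le]
  constructor <;> linarith

/-- monotonicity test on `[1, ∞)` -/
theorem df_mono_up (F F' : ℝ → ℝ) (hd : ∀ s, 1 ≤ s → HasDerivAt F (F' s) s)
    (h0 : ∀ s, 1 ≤ s → 0 ≤ F' s) (h1 : F 1 = 0) {s : ℝ} (hs : 1 ≤ s) : 0 ≤ F s := by
  have hm : MonotoneOn F (Ici 1) := by
    apply monotoneOn_of_deriv_nonneg (convex_Ici 1)
    · exact fun y hy => (hd y hy).continuousAt.continuousWithinAt
    · intro y hy
      rw [interior_Ici] at hy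
      exact (hd y hy.le).differentiableAt.differentiableWithinAt
    · intro y hy
      rw [interior_Ici] at hy
      rw [(hd y hy.le).deriv]
      exact h0 y hy.le
  have := hm (mem_Ici.2 le_rfl) (mem_Ici.2 hs) hs
  rwa [h1] at this

/-- monotonicity test on `(0, 1]` -/
theorem df_mono_dn (F F' : ℝ → ℝ) (hd : ∀ s, 0 < s → s ≤ 1 → HasDerivAt F (F' s) s)
    (h0 : ∀ s, 0 < s → s ≤ 1 → F' s ≤ 0) (h1 : F 1 = 0) {s : ℝ} (hs : 0 < s) (hs1 : s ≤ 1) :
    0 ≤ F s := by
  have hm : AntitoneOn F (Ioc 0 1) := by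
    apply antitoneOn_of_deriv_nonpos (convex_Ioc 0 1)
    · exact fun y hy => (hd y hy.1 hy.2).continuousAt.continuousWithinAt
    · intro y hy
      rw [interior_Ioc] at hy
      exact (hd y hy.1 hy.2.le).differentiableAt.differentiableWithinAt
    · intro y hy
      rw [interior_Ioc] at hy
      rw [(hd y hy.1 hy.2.le).deriv]
      exact h0 y hy.1 hy.2.le
  have := hm ⟨hs, hs1⟩ ⟨zero_lt_one, le_rfl⟩ hs1
  rwa [h1] at this

/-- `dfc s ≥ |s-1|³ / (3 L)` for `0 < s ≤ L`, `L ≥ 1` -/
theorem dfc_ge {L s : ℝ} (hL : 1 ≤ L) (hs : 0 < s) (hsL : s ≤ L) :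
    |s - 1| ^ 3 / (3 * L) ≤ dfc s := by
  have hL0 : 0 < L := by linarith
  rcases le_total s 1 with h | h
  · have h1 := df_mono_dn (fun s => dfc s + (s - 1) ^ 3 / 3) (fun s => dfc1 s + (s - 1) ^ 2)
      (fun y hy _ => by
        have h2 := (((hasDerivAt_id y).sub_const 1).pow 3).div_const 3
        simp only [id, Nat.cast_ofNat, Nat.add_one_sub_one, mul_one] at h2
        have e : 3 * (y - 1) ^ (3 - 1) / 3 = (y - 1) ^ 2 := by
          norm_num
        have h3 := (dfc_deriv hy).add h2
        rw [e] at h3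
        exact h3)
      (fun y hy hy1 => by
        unfold dfc1
        rw [abs_of_nonpos (by linarith)]
        have e : (y - 1) * -(y - 1) / y + (y - 1) ^ 2 = -((y - 1) ^ 2 * (1 - y)) / y := by
          field_simp
          ring
        rw [e]
        apply div_nonpos_of_nonpos_of_nonneg _ hy.le
        have : 0 ≤ (y - 1) ^ 2 * (1 - y) := mul_nonneg (sq_nonneg _) (by linarith)
        linarith)
      (by simp [dfc_one]) hs h
    rw [abs_of_nonpos (by linarith)]
    have h2 : (-(s - 1)) ^ 3 / (3 * L) ≤ (-(s - 1)) ^ 3 / 3 := by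
      apply div_le_div_of_nonneg_left _ (by norm_num) (by linarith)
      exact pow_nonneg (by linarith) 3
    have h3 : (-(s - 1)) ^ 3 / 3 = -((s - 1) ^ 3 / 3) := by ring
    linarith
  · have h1 := df_mono_up (fun s => dfP s - (s - 1) ^ 3 / (3 * s))
      (fun s => (s - 1) ^ 2 / s - ((3 * (s - 1) ^ 2) * (3 * s) - (s - 1) ^ 3 * 3) / (3 * s) ^ 2)
      (fun y hy => by
        have hy0 : 0 < y := by linarith
        have h2 := ((hasDerivAt_id y).sub_const 1).pow 3
        have h3 := (hasDerivAt_id y).const_mul 3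
        have h4 := (dfP_deriv hy0).sub (h2.div h3 (by simp only [id]; positivity))
        refine h4.congr_deriv ?_
        simp only [id]
        norm_num)
      (fun y hy => by
        have hy0 : 0 < y := by linarith
        have e : (y - 1) ^ 2 / y - ((3 * (y - 1) ^ 2) * (3 * y) - (y - 1) ^ 3 * 3) / (3 * y) ^ 2 =
            (y - 1) ^ 2 * (y - 1) / (3 * y ^ 2) := by
          field_simp
          ring
        rw [e]
        have : 0 ≤ y - 1 := by linarith
        positivity)
      (by simp [dfP_one]) h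
    have hc : dfc s = dfP s := by
      unfold dfc
      rcases eq_or_lt_of_le h with h6 | h6
      · subst h6
        rw [if_pos le_rfl, dfP_one, neg_zero]
      · rw [if_neg (not_le.2 h6)]
    rw [hc, abs_of_nonneg (by linarith)]
    have h2 : (s - 1) ^ 3 / (3 * L) ≤ (s - 1) ^ 3 / (3 * s) := by
      apply div_le_div_of_nonneg_left _ (by linarith) (by linarith)
      exact pow_nonneg (by linarith) 3
    linarith

theorem dfc_nonneg {s : ℝ} (hs : 0 < s) : 0 ≤ dfc s := by
  have h1 := dfc_ge (L := max s 1) (le_max_right _ _) hs (le_max_left _ _)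
  have h2 : 0 ≤ |s - 1| ^ 3 / (3 * max s 1) := by
    have : 0 < max s 1 := lt_of_lt_of_le zero_lt_one (le_max_right _ _)
    positivity
  linarith

/-- `-log s ≤ dfc s + 3/2` -/
theorem dfc_log {s : ℝ} (hs : 0 < s) : -Real.log s ≤ dfc s + 3 / 2 := by
  rcases le_total s 1 with h | h
  · unfold dfc dfP
    rw [if_pos h]
    nlinarith
  · have h1 := Real.log_nonneg h
    have h2 := dfc_nonneg hs
    linarith

/-- `dfc s ≤ (s - 1 - log s) + (L/2) |s - 1|` for `0 < s ≤ L`, `1 ≤ L` -/
theorem dfc_le {L s : ℝ} (hL : 1 ≤ L) (hs : 0 < s) (hsL : s ≤ L) :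
    dfc s ≤ (s - 1 - Real.log s) + L / 2 * |s - 1| := by
  have hG : Real.log s ≤ s - 1 := Real.log_le_sub_one_of_pos hs
  rcases le_total s 1 with h | h
  · have h2 : 0 ≤ L / 2 * |s - 1| := by
      have := abs_nonneg (s - 1)
      positivity
    have h3 : dfc s ≤ s - 1 - Real.log s := by
      unfold dfc dfP
      rw [if_pos h]
      nlinarith [sq_nonneg (s - 1)]
    linarith
  · have hc : dfc s = dfP s := by
      unfold dfc
      rcases eq_or_lt_of_le h with h6 | h6
      · subst h6
        rw [if_pos le_rfl, dfP_one, neg_zero]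
      · rw [if_neg (not_le.2 h6)]
    rw [hc, abs_of_nonneg (by linarith)]
    have h3 : dfP s ≤ (s - 1) ^ 2 / 2 := by
      unfold dfP
      nlinarith
    have h4 : (s - 1) * (s - 1) ≤ L * (s - 1) := mul_le_mul_of_nonneg_right (by linarith) (by linarith)
    nlinarith

end Pool.Agent.Lib.MP_d8ef8f_an.Gd
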