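import Pool.Agent.Lib.MP_d8ef8f_an.Gd.Dens
import Pool.Agent.Lib.MP_d8ef8f_an.Gd.Df1
import Pool.Agent.Lib.MP_d8ef8f_an.Gd.Df4

/-!
# The Lyapunov density: gradient and Hessian
-/

set_option autoImplicit false

namespace Pool.Agent.Lib.MP_d8ef8f_an.Gd

open Set Filter Topology

/-- `∑_{j>k} s_j z_j` -/
def dfB {N : ℕ} (k : Fin N) (s z : Fin N → ℝ) : ℝ :=
  ∑ j ∈ Finset.univ.filter (fun j => k < j), s j * z j

/-- the density -/
noncomputable def dff {N : ℕ} (k : Fin N) (e η : ℝ) (s : Fin N → ℝ) : ℝ :=
  dfc (s k) + (Sab k s) ^ 2 / 2 + η / 2 * dfB k s s * dfp e (len k s)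

/-- its gradient -/
noncomputable def dfg {N : ℕ} (k : Fin N) (e η : ℝ) (i : Fin N) (s : Fin N → ℝ) : ℝ :=
  if i < k then 0
  else if i = k then dfc1 (s k) + η / 2 * dfB k s s * dfp1 e (len k s)
  else Sab k s + η * s i * dfp e (len k s) + η / 2 * dfB k s s * dfp1 e (len k s)

/-- its Hessian -/
noncomputable def dfh {N : ℕ} (k : Fin N) (e η : ℝ) (i j : Fin N) (s : Fin N → ℝ) : ℝ :=
  if i < k then 0
  else if j < k then 0
  else if i = k then
    (if j = k then dfc2 (s k) + η / 2 * dfB k s s * dfp2 e (len k s)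
      else η * s j * dfp1 e (len k s) + η / 2 * dfB k s s * dfp2 e (len k s))
  else
    (if j = k then η * s i * dfp1 e (len k s) + η / 2 * dfB k s s * dfp2 e (len k s)
      else 1 + η * (if i = j then dfp e (len k s) else 0)
        + η * (s i + s j) * dfp1 e (len k s) + η / 2 * dfB k s s * dfp2 e (len k s))

theorem df_split {N : ℕ} (k : Fin N) (F : Fin N → ℝ) (h : ∀ i, i < k → F i = 0) :
    ∑ i, F i = F k + ∑ i ∈ Finset.univ.filter (fun j => k < j), F i := by
  rw [Finset.sum_filter]
  have h1 : F k = ∑ i, if i = k then F i else 0 := by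
    rw [Finset.sum_ite_eq' Finset.univ k F]
    simp
  rw [h1, ← Finset.sum_add_distrib]
  refine Finset.sum_congr rfl fun i _ => ?_
  rcases lt_trichotomy i k with hik | hik | hik
  · rw [h i hik, if_neg hik.ne, if_neg (not_lt.2 hik.le), add_zero]
  · subst hik
    rw [if_pos rfl, if_neg (lt_irrefl _), add_zero]
  · rw [if_neg hik.ne', if_pos hik, zero_add]

/-- the row sums of the Hessian -/
theorem dfh_row {N : ℕ} (k : Fin N) (e η : ℝ) (i : Fin N) (s z : Fin N → ℝ) :
    ∑ j, dfh k e η i j s * z j =
      if i < k then 0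
      else if i = k then dfc2 (s k) * z k
        + η * (dfB k s z * dfp1 e (len k s) + 1 / 2 * dfB k s s * dfp2 e (len k s) * len k z)
      else Sab k z + η * (z i * dfp e (len k s) + s i * dfp1 e (len k s) * len k z)
        + η * (dfB k s z * dfp1 e (len k s) + 1 / 2 * dfB k s s * dfp2 e (len k s) * len k z) := by
  by_cases hi : i < k
  · rw [if_pos hi]
    apply Finset.sum_eq_zero
    intro j _
    unfold dfh
    rw [if_pos hi, zero_mul]
  rw [if_neg hi, df_split k _ (fun j hj => by
    unfold dfh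
    rw [if_neg hi, if_pos hj, zero_mul])]
  set φ := dfp e (len k s) with hφ
  set φ1 := dfp1 e (len k s) with hφ1
  set φ2 := dfp2 e (len k s) with hφ2
  set q := dfB k s s with hq
  by_cases hik : i = k
  · rw [if_pos hik]
    have h1 : ∑ j ∈ Finset.univ.filter (fun j => k < j), dfh k e η i j s * z j =
        η * φ1 * dfB k s z + η / 2 * q * φ2 * Sab k z := by
      unfold dfB Sab
      rw [Finset.mul_sum, Finset.mul_sum, ← Finset.sum_add_distrib]
      refine Finset.sum_congr rfl fun j hj => ?_
      have hj' : k < j := (Finset.mem_filter.1 hj).2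
      unfold dfh
      rw [if_neg hi, if_neg (not_lt.2 hj'.le), if_pos hik, if_neg hj'.ne', ← hφ1, ← hφ2, ← hq]
      ring
    have h2 : dfh k e η i k s = dfc2 (s k) + η / 2 * q * φ2 := by
      unfold dfh
      rw [if_neg hi, if_neg (lt_irrefl k), if_pos hik, if_pos rfl]
    rw [h1, h2]
    unfold len
    ring
  · rw [if_neg hik]
    have hki : k < i := lt_of_le_of_ne (not_lt.1 hi) (Ne.symm hik)
    have h1 : ∑ j ∈ Finset.univ.filter (fun j => k < j), dfh k e η i j s * z j =
        (1 + η * s i * φ1 + η / 2 * q * φ2) * Sab k z + η * φ1 * dfB k s z + η * φ * z i := by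
      have h3 : η * φ * z i = ∑ j ∈ Finset.univ.filter (fun j => k < j),
          (if i = j then η * φ * z j else 0) := by
        rw [Finset.sum_ite_eq, if_pos (by simpa using hki)]
      rw [h3]
      unfold dfB Sab
      rw [Finset.mul_sum, Finset.mul_sum, ← Finset.sum_add_distrib, ← Finset.sum_add_distrib]
      refine Finset.sum_congr rfl fun j hj => ?_
      have hj' : k < j := (Finset.mem_filter.1 hj).2
      unfold dfh
      rw [if_neg hi, if_neg (not_lt.2 hj'.le), if_neg hik, if_neg hj'.ne', ← hφ, ← hφ1, ← hφ2,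
        ← hq]
      by_cases hij : i = j
      · rw [if_pos hij, if_pos hij]
        ring
      · rw [if_neg hij, if_neg hij]
        ring
    have h2 : dfh k e η i k s = η * s i * φ1 + η / 2 * q * φ2 := by
      unfold dfh
      rw [if_neg hi, if_neg (lt_irrefl k), if_neg hik, if_pos rfl]
    rw [h1, h2]
    unfold len
    ring

/-- the quadratic form -/
theorem df_Qf {N : ℕ} (d : Fin N → ℝ) (k : Fin N) (e η : ℝ) (s z : Fin N → ℝ) (b : ℝ) :
    Qf d k (dfg k e η) (dfh k e η) s z b =
      d k * (dfc2 (s k) * z k ^ 2 + Sab k z ^ 2 + η * (dfp e (len k s) * dfB k z z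
        + 2 * dfp1 e (len k s) * dfB k s z * len k z
        + 1 / 2 * dfB k s s * dfp2 e (len k s) * len k z ^ 2))
      + (∑ j ∈ Finset.univ.filter (fun j => k < j), (d j - d k) * (z j + b * s j)) *
        (Sab k z + b * Sab k s + η * (dfp1 e (len k s) * (dfB k s z + 1 / 2 * b * dfB k s s)
          + 1 / 2 * dfB k s s * dfp2 e (len k s) * len k z))
      + η * dfp e (len k s) *
        (∑ j ∈ Finset.univ.filter (fun j => k < j), (d j - d k) * (z j + b * s j) ^ 2)
      + η * dfp1 e (len k s) * len k z *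
        (∑ j ∈ Finset.univ.filter (fun j => k < j), (d j - d k) * (s j * (z j + b * s j))) := by
  have h0 : Qf d k (dfg k e η) (dfh k e η) s z b =
      ∑ i, (d i * z i * (∑ j, dfh k e η i j s * z j)
        + b * ((d i - d k) * (z i * dfg k e η i s + s i * ∑ j, dfh k e η i j s * z j))
        + b ^ 2 * ((d i - d k) * (s i * dfg k e η i s))) := by
    unfold Qf
    rw [Finset.mul_sum, Finset.mul_sum, ← Finset.sum_add_distrib, ← Finset.sum_add_distrib]
    refine Finset.sum_congr rfl fun i _ => ?_
    have h1 : ∑ j, d i * dfh k e η i j s * z i * z j =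
        d i * z i * ∑ j, dfh k e η i j s * z j := by
      rw [Finset.mul_sum]
      exact Finset.sum_congr rfl fun j _ => by ring
    rw [h1]
  rw [h0]
  set φ := dfp e (len k s) with hφ
  set φ1 := dfp1 e (len k s) with hφ1
  set φ2 := dfp2 e (len k s) with hφ2
  set q := dfB k s s with hq
  set E := η * (dfB k s z * φ1 + 1 / 2 * q * φ2 * len k z) with hE
  have hrow : ∀ i, ∑ j, dfh k e η i j s * z j =
      if i < k then 0
      else if i = k then dfc2 (s k) * z k + E
      else Sab k z + η * (z i * φ + s i * φ1 * len k z) + E := fun i => dfh_row k e η i s z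
  rw [df_split k _ (fun i hi => by
    rw [hrow i, if_pos hi]
    unfold dfg
    rw [if_pos hi]
    ring)]
  have hk : dfg k e η k s = dfc1 (s k) + η / 2 * q * φ1 := by
    unfold dfg
    rw [if_neg (lt_irrefl k), if_pos rfl]
  rw [hrow k, if_neg (lt_irrefl k), if_pos rfl]
  have h1 : ∑ i ∈ Finset.univ.filter (fun j => k < j),
      (d i * z i * (∑ j, dfh k e η i j s * z j)
        + b * ((d i - d k) * (z i * dfg k e η i s + s i * ∑ j, dfh k e η i j s * z j))
        + b ^ 2 * ((d i - d k) * (s i * dfg k e η i s))) =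
      (d k * (Sab k z + E)) * Sab k z + (d k * η * φ) * dfB k z z
        + (d k * η * φ1 * len k z) * dfB k s z
      + (Sab k z + b * Sab k s + E + b * (η / 2 * q * φ1)) *
        (∑ j ∈ Finset.univ.filter (fun j => k < j), (d j - d k) * (z j + b * s j))
      + η * φ *
        (∑ j ∈ Finset.univ.filter (fun j => k < j), (d j - d k) * (z j + b * s j) ^ 2)
      + η * φ1 * len k z *
        (∑ j ∈ Finset.univ.filter (fun j => k < j), (d j - d k) * (s j * (z j + b * s j))) := by
    have e1 : (d k * (Sab k z + E)) * Sab k z =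
        ∑ j ∈ Finset.univ.filter (fun j => k < j), (d k * (Sab k z + E)) * z j := by
      conv_lhs => rw [show Sab k z = ∑ j ∈ Finset.univ.filter (fun j => k < j), z j from rfl]
      rw [← Finset.mul_sum]
      rfl
    rw [e1]
    have e2 : ∀ c : ℝ, c * dfB k z z = ∑ j ∈ Finset.univ.filter (fun j => k < j), c * (z j * z j) :=
      fun c => by unfold dfB; rw [Finset.mul_sum]
    have e3 : ∀ c : ℝ, c * dfB k s z = ∑ j ∈ Finset.univ.filter (fun j => k < j), c * (s j * z j) :=
      fun c => by unfold dfB; rw [Finset.mul_sum]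
    rw [e2 (d k * η * φ), e3 (d k * η * φ1 * len k z), Finset.mul_sum, Finset.mul_sum,
      Finset.mul_sum, ← Finset.sum_add_distrib, ← Finset.sum_add_distrib,
      ← Finset.sum_add_distrib, ← Finset.sum_add_distrib, ← Finset.sum_add_distrib]
    refine Finset.sum_congr rfl fun i hi => ?_
    have hi' : k < i := (Finset.mem_filter.1 hi).2
    rw [hrow i, if_neg (not_lt.2 hi'.le), if_neg hi'.ne']
    have hg : dfg k e η i s = Sab k s + η * s i * φ + η / 2 * q * φ1 := by
      unfold dfg
      rw [if_neg (not_lt.2 hi'.le), if_neg hi'.ne']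
    rw [hg]
    ring
  rw [h1, hk, hE]
  unfold len
  ring

end Pool.Agent.Lib.MP_d8ef8f_an.Gd
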