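import Pool.Agent.Lib.MP_d8ef8f_an.Gd.Df3
import Pool.Agent.Lib.MP_d8ef8f_an.Gd.Df5

/-!
# The Lyapunov density: the quadratic form is coercive
-/

set_option autoImplicit false

namespace Pool.Agent.Lib.MP_d8ef8f_an.Gd

open Set Filter Topology

/-- the parameters of the density for the base species `k` -/
structure DfData {N : ℕ} (d : Fin N → ℝ) (k : Fin N) (lo hi n : ℝ) : Prop where
  dk : 0 < d k
  lo0 : 0 < lo
  lohi : lo ≤ hi
  bd : ∀ j, k < j → lo ≤ d j - d k ∧ d j - d k ≤ hi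
  n1 : 1 ≤ n
  card : ((Finset.univ.filter (fun j => k < j)).card : ℝ) ≤ n
  cond : 32 * n * (d k + hi) ^ 2 * (hi - lo) ^ 2 ≤ lo * d k ^ 3

/-- the parameter `L = (d_k + hi) / d_k` -/
noncomputable def dfL {N : ℕ} (d : Fin N → ℝ) (k : Fin N) (hi : ℝ) : ℝ := (d k + hi) / d k

theorem dfL_ge {N : ℕ} {d : Fin N → ℝ} {k : Fin N} {lo hi n : ℝ} (H : DfData d k lo hi n) :
    1 ≤ dfL d k hi := by
  unfold dfL
  rw [le_div_iff₀ H.dk]
  have := H.lo0
  have := H.lohi
  linarith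

theorem df_par {N : ℕ} {d : Fin N → ℝ} {k : Fin N} {lo hi n : ℝ} (H : DfData d k lo hi n)
    {D : ℝ} (h1 : lo / d k ≤ D) (h2 : D ≤ hi / d k) :
    DfPar (dfL d k hi) (1 / (64 * dfL d k hi ^ 2)) (lo / d k) D (Real.sqrt n * ((hi - lo) / (2 * d k)))
      ((hi - lo) / (2 * d k)) := by
  have hdk := H.dk
  have hL := dfL_ge H
  have hL0 : 0 < dfL d k hi := by linarith
  have hh : 0 ≤ (hi - lo) / (2 * d k) := div_nonneg (by linarith [H.lohi]) (by positivity)
  have hn : 0 ≤ n := by linarith [H.n1]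
  refine ⟨hL, ?_, div_pos H.lo0 hdk, h1, ?_, hh, ?_, ?_⟩
  · field_simp
  · have : dfL d k hi - 1 = hi / d k := by
      unfold dfL
      field_simp
      ring
    rw [this]
    exact h2
  · have h3 : 1 ≤ Real.sqrt n := Real.one_le_sqrt.2 H.n1
    have := mul_le_mul_of_nonneg_right h3 hh
    linarith
  · rw [mul_pow, Real.sq_sqrt hn]
    unfold dfL
    rw [div_pow, div_pow, le_div_iff₀ hdk]
    have h4 := H.cond
    have h5 : 128 * ((d k + hi) ^ 2 / d k ^ 2) * (n * ((hi - lo) ^ 2 / (2 * d k) ^ 2)) * d k =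
        (32 * n * (d k + hi) ^ 2 * (hi - lo) ^ 2) / d k ^ 3 := by
      field_simp
      ring
    rw [h5, div_le_iff₀ (by positivity)]
    exact h4

/-- Cauchy-Schwarz -/
theorem dfB_cs {N : ℕ} (k : Fin N) (s z : Fin N → ℝ) :
    dfB k s z ^ 2 ≤ dfB k s s * dfB k z z := by
  unfold dfB
  have h := Finset.sum_mul_sq_le_sq_mul_sq (Finset.univ.filter (fun j => k < j)) s z
  simp only [sq] at h ⊢
  exact h

theorem dfB_nonneg {N : ℕ} (k : Fin N) (s : Fin N → ℝ) : 0 ≤ dfB k s s :=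
  Finset.sum_nonneg fun j _ => mul_self_nonneg (s j)

theorem Sab_nonneg {N : ℕ} (k : Fin N) {s : Fin N → ℝ} (hs : ∀ j, 0 ≤ s j) : 0 ≤ Sab k s :=
  Finset.sum_nonneg fun j _ => hs j

theorem dfB_le {N : ℕ} (k : Fin N) {s : Fin N → ℝ} (hs : ∀ j, 0 ≤ s j) :
    dfB k s s ≤ Sab k s ^ 2 := by
  have h1 : dfB k s s ≤ ∑ j ∈ Finset.univ.filter (fun j => k < j), s j * Sab k s := by
    apply Finset.sum_le_sum
    intro j hj
    apply mul_le_mul_of_nonneg_left _ (hs j)
    exact Finset.single_le_sum (f := s) (fun i _ => hs i) hj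
  rw [← Finset.sum_mul] at h1
  rw [sq]
  exact h1

/-- the weighted mean of the rates -/
theorem df_mean {N : ℕ} {d : Fin N → ℝ} {k : Fin N} {lo hi n : ℝ} (H : DfData d k lo hi n)
    {s : Fin N → ℝ} (hs : ∀ j, 0 ≤ s j) :
    ∃ D : ℝ, lo / d k ≤ D ∧ D ≤ hi / d k ∧
      ∑ j ∈ Finset.univ.filter (fun j => k < j), (d j - d k) * s j = d k * D * Sab k s := by
  have hdk := H.dk
  have h1 : ∑ j ∈ Finset.univ.filter (fun j => k < j), (d j - d k) * s j ≤ hi * Sab k s := by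
    unfold Sab
    rw [Finset.mul_sum]
    apply Finset.sum_le_sum
    intro j hj
    exact mul_le_mul_of_nonneg_right (H.bd j (Finset.mem_filter.1 hj).2).2 (hs j)
  have h2 : lo * Sab k s ≤ ∑ j ∈ Finset.univ.filter (fun j => k < j), (d j - d k) * s j := by
    unfold Sab
    rw [Finset.mul_sum]
    apply Finset.sum_le_sum
    intro j hj
    exact mul_le_mul_of_nonneg_right (H.bd j (Finset.mem_filter.1 hj).2).1 (hs j)
  rcases (Sab_nonneg k hs).eq_or_lt with h0 | h0
  · rw [← h0, mul_zero] at h1 h2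
    refine ⟨lo / d k, le_rfl, ?_, ?_⟩
    · exact div_le_div_of_nonneg_right H.lohi hdk.le
    · rw [← h0, mul_zero]
      exact le_antisymm h1 h2
  · refine ⟨(∑ j ∈ Finset.univ.filter (fun j => k < j), (d j - d k) * s j) / (d k * Sab k s),
      ?_, ?_, ?_⟩
    · rw [div_le_div_iff₀ hdk (by positivity)]
      have := mul_le_mul_of_nonneg_left h2 hdk.le
      linarith
    · rw [div_le_div_iff₀ (by positivity) hdk]
      have := mul_le_mul_of_nonneg_left h1 hdk.le
      linarith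
    · field_simp

theorem df_coercive {N : ℕ} {d : Fin N → ℝ} {k : Fin N} {lo hi n : ℝ} (H : DfData d k lo hi n) :
    ∃ c : ℝ, 0 < c ∧ ∀ s : Fin N → ℝ, 0 < s k → (∀ j, 0 ≤ s j) → ∀ (z : Fin N → ℝ) (b : ℝ),
      c * ((1 - 1 / s k) ^ 2 * z k ^ 2 + (∑ j ∈ Finset.univ.filter (fun j => k < j), z j ^ 2)
        + b ^ 2 * Sab k s ^ 2) ≤
      Qf d k (dfg k (1 / (16 * dfL d k hi)) (1 / (64 * dfL d k hi ^ 2)))
        (dfh k (1 / (16 * dfL d k hi)) (1 / (64 * dfL d k hi ^ 2))) s z b := by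
  have hdk := H.dk
  have hL := dfL_ge H
  obtain ⟨L, hLd⟩ : ∃ L, L = dfL d k hi := ⟨_, rfl⟩
  rw [← hLd]
  have hL0 : 0 < L := by rw [hLd]; linarith
  have hL1 : 1 ≤ L := by rw [hLd]; exact hL
  obtain ⟨η, hη⟩ : ∃ η, η = 1 / (64 * L ^ 2) := ⟨_, rfl⟩
  obtain ⟨e, he⟩ : ∃ e, e = 1 / (16 * L) := ⟨_, rfl⟩
  rw [← hη, ← he]
  have hη0 : 0 < η := by rw [hη]; positivity
  have he0 : 0 < e := by rw [he]; positivity
  have heL : 16 * L * e = 1 := by rw [he]; field_simp
  have he1 : e ≤ 1 / 16 := by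
    rw [he]
    exact div_le_div_of_nonneg_left (by norm_num) (by norm_num) (by linarith)
  obtain ⟨l, hl⟩ : ∃ l, l = lo / d k := ⟨_, rfl⟩
  have hl0 : 0 < l := by rw [hl]; exact div_pos H.lo0 hdk
  obtain ⟨c, hc⟩ : ∃ c, c = min (min η (l / 2)) (1 / 2) := ⟨_, rfl⟩
  have hc0 : 0 < c := by
    rw [hc]
    exact lt_min (lt_min hη0 (by positivity)) (by norm_num)
  have hcη : c ≤ η := by rw [hc]; exact (min_le_left _ _).trans (min_le_left _ _)
  have hcl : c ≤ l / 2 := by rw [hc]; exact (min_le_left _ _).trans (min_le_right _ _)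
  have hc2 : c ≤ 1 / 2 := by rw [hc]; exact min_le_right _ _
  refine ⟨d k * (1 / 100) * c, by positivity, ?_⟩
  intro s hsk hs z b
  obtain ⟨D, hD1, hD2, hDs⟩ := df_mean H hs
  have hpar := df_par H hD1 hD2
  rw [← hLd, ← hη, ← hl] at hpar
  rw [← hl] at hD1
  obtain ⟨h, hh⟩ : ∃ h, h = (hi - lo) / (2 * d k) := ⟨_, rfl⟩
  rw [← hh] at hpar
  have hh0 : 0 ≤ h := hpar.hh
  obtain ⟨g, hg⟩ : ∃ g, g = Real.sqrt n * h := ⟨_, rfl⟩
  rw [← hg] at hpar
  have hn : 0 ≤ n := by linarith [H.n1]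
  have hg2 : g ^ 2 = n * h ^ 2 := by rw [hg, mul_pow, Real.sq_sqrt hn]
  -- the scalars
  obtain ⟨σ, hσ⟩ : ∃ σ, σ = Sab k s := ⟨_, rfl⟩
  obtain ⟨x, hx⟩ : ∃ x, x = Sab k z := ⟨_, rfl⟩
  obtain ⟨R, hR⟩ : ∃ R, R = Real.sqrt (dfB k s s) := ⟨_, rfl⟩
  obtain ⟨Z, hZ⟩ : ∃ Z, Z = Real.sqrt (dfB k z z) := ⟨_, rfl⟩
  have hR0 : 0 ≤ R := by rw [hR]; exact Real.sqrt_nonneg _
  have hZ0 : 0 ≤ Z := by rw [hZ]; exact Real.sqrt_nonneg _
  have hR2 : R ^ 2 = dfB k s s := by rw [hR]; exact Real.sq_sqrt (dfB_nonneg k s)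
  have hZ2 : Z ^ 2 = dfB k z z := by rw [hZ]; exact Real.sq_sqrt (dfB_nonneg k z)
  have hσ0 : 0 ≤ σ := by rw [hσ]; exact Sab_nonneg k hs
  have hRσ : R ≤ σ := by
    have h1 : R ^ 2 ≤ σ ^ 2 := by rw [hR2, hσ]; exact dfB_le k hs
    exact le_of_sq_le_sq h1 hσ0
  have hP : |dfB k s z| ≤ R * Z := by
    apply abs_le_of_sq_le_sq _ (by positivity)
    rw [mul_pow, hR2, hZ2]
    exact dfB_cs k s z
  obtain ⟨β, hβ⟩ : ∃ β, β = x + b * σ := ⟨_, rfl⟩
  -- `G`
  obtain ⟨G, hG⟩ : ∃ G, G = (∑ j ∈ Finset.univ.filter (fun j => k < j),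
      (d j - d k) * (z j + b * s j)) / d k - D * β := ⟨_, rfl⟩
  obtain ⟨A, hA⟩ : ∃ A, A = ∑ j ∈ Finset.univ.filter (fun j => k < j),
      (d j - d k) / d k * (z j + b * s j) ^ 2 := ⟨_, rfl⟩
  obtain ⟨Y, hY⟩ : ∃ Y, Y = ∑ j ∈ Finset.univ.filter (fun j => k < j),
      (d j - d k) / d k * (s j * (z j + b * s j)) := ⟨_, rfl⟩
  have hδ : ∀ j, k < j → 0 ≤ (d j - d k) / d k ∧ (d j - d k) / d k ≤ L - 1 := by
    intro j hj
    obtain ⟨h1, h2⟩ := H.bd j hj
    constructor
    · exact div_nonneg (by linarith [H.lo0]) hdk.le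
    · rw [hLd]
      unfold dfL
      rw [div_le_iff₀ hdk]
      have : ((d k + hi) / d k - 1) * d k = hi := by field_simp; ring
      linarith
  have hA0 : 0 ≤ A := by
    rw [hA]
    apply Finset.sum_nonneg
    intro j hj
    exact mul_nonneg (hδ j (Finset.mem_filter.1 hj).2).1 (sq_nonneg _)
  have hYle : Y ^ 2 ≤ (L - 1) * R ^ 2 * A := by
    have h1 := Finset.sum_mul_sq_le_sq_mul_sq (Finset.univ.filter (fun j => k < j))
      (fun j => Real.sqrt ((d j - d k) / d k) * s j)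
      (fun j => Real.sqrt ((d j - d k) / d k) * (z j + b * s j))
    have h2 : ∑ j ∈ Finset.univ.filter (fun j => k < j),
        (Real.sqrt ((d j - d k) / d k) * s j) *
          (Real.sqrt ((d j - d k) / d k) * (z j + b * s j)) = Y := by
      rw [hY]
      refine Finset.sum_congr rfl fun j hj => ?_
      have h3 := Real.mul_self_sqrt (hδ j (Finset.mem_filter.1 hj).2).1
      calc (Real.sqrt ((d j - d k) / d k) * s j) *
            (Real.sqrt ((d j - d k) / d k) * (z j + b * s j))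
          = (Real.sqrt ((d j - d k) / d k) * Real.sqrt ((d j - d k) / d k)) *
            (s j * (z j + b * s j)) := by ring
        _ = _ := by rw [h3]
    have h4 : ∑ j ∈ Finset.univ.filter (fun j => k < j),
        (Real.sqrt ((d j - d k) / d k) * (z j + b * s j)) ^ 2 = A := by
      rw [hA]
      refine Finset.sum_congr rfl fun j hj => ?_
      rw [mul_pow, Real.sq_sqrt (hδ j (Finset.mem_filter.1 hj).2).1]
    have h5 : ∑ j ∈ Finset.univ.filter (fun j => k < j),
        (Real.sqrt ((d j - d k) / d k) * s j) ^ 2 ≤ (L - 1) * R ^ 2 := by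
      rw [hR2]
      unfold dfB
      rw [Finset.mul_sum]
      apply Finset.sum_le_sum
      intro j hj
      rw [mul_pow, Real.sq_sqrt (hδ j (Finset.mem_filter.1 hj).2).1, sq]
      exact mul_le_mul_of_nonneg_right (hδ j (Finset.mem_filter.1 hj).2).2 (mul_self_nonneg _)
    rw [h2, h4] at h1
    exact h1.trans (mul_le_mul_of_nonneg_right h5 hA0)
  have hGle : |G| ≤ g * Z + h * |x| := by
    obtain ⟨m, hm⟩ : ∃ m, m = (lo + hi) / (2 * d k) := ⟨_, rfl⟩
    have h1 : G = (∑ j ∈ Finset.univ.filter (fun j => k < j), ((d j - d k) / d k - m) * z j)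
        + (m - D) * x := by
      have h2 : (∑ j ∈ Finset.univ.filter (fun j => k < j), (d j - d k) * (z j + b * s j)) =
          (∑ j ∈ Finset.univ.filter (fun j => k < j), (d j - d k) * z j)
          + b * (d k * D * Sab k s) := by
        rw [← hDs, Finset.mul_sum, ← Finset.sum_add_distrib]
        exact Finset.sum_congr rfl fun j _ => by ring
      have h3 : (∑ j ∈ Finset.univ.filter (fun j => k < j), ((d j - d k) / d k - m) * z j) =
          (∑ j ∈ Finset.univ.filter (fun j => k < j), (d j - d k) * z j) / d k - m * x := by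
        rw [hx]
        unfold Sab
        rw [Finset.sum_div, Finset.mul_sum, ← Finset.sum_sub_distrib]
        exact Finset.sum_congr rfl fun j _ => by ring
      rw [hG, h2, h3, hβ, ← hσ]
      field_simp
      ring
    have h2 : |∑ j ∈ Finset.univ.filter (fun j => k < j), ((d j - d k) / d k - m) * z j| ≤
        g * Z := by
      apply abs_le_of_sq_le_sq _ (mul_nonneg (by rw [hg]; positivity) hZ0)
      have h3 := Finset.sum_mul_sq_le_sq_mul_sq (Finset.univ.filter (fun j => k < j))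
        (fun j => (d j - d k) / d k - m) z
      have h4 : ∑ j ∈ Finset.univ.filter (fun j => k < j), ((d j - d k) / d k - m) ^ 2 ≤
          g ^ 2 := by
        have h5 : ∀ j ∈ Finset.univ.filter (fun j => k < j),
            ((d j - d k) / d k - m) ^ 2 ≤ h ^ 2 := by
          intro j hj
          obtain ⟨h6, h7⟩ := H.bd j (Finset.mem_filter.1 hj).2
          rw [← sq_abs]
          apply pow_le_pow_left₀ (abs_nonneg _)
          have h8 : (d j - d k) / d k - m = ((d j - d k) * 2 - (lo + hi)) / (2 * d k) := by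
            rw [hm]
            field_simp
          rw [h8, hh, abs_div, abs_of_pos (by positivity : (0:ℝ) < 2 * d k)]
          apply div_le_div_of_nonneg_right _ (by positivity)
          rw [abs_le]
          constructor <;> linarith
        have h6 := Finset.sum_le_card_nsmul _ _ _ h5
        rw [nsmul_eq_mul] at h6
        rw [hg2]
        exact h6.trans (mul_le_mul_of_nonneg_right H.card (sq_nonneg h))
      have h5 : ∑ j ∈ Finset.univ.filter (fun j => k < j), z j ^ 2 = Z ^ 2 := by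
        rw [hZ2]
        unfold dfB
        exact Finset.sum_congr rfl fun j _ => sq (z j)
      rw [h5] at h3
      rw [mul_pow]
      exact h3.trans (mul_le_mul_of_nonneg_right h4 (sq_nonneg Z))
    have h3 : |m - D| ≤ h := by
      have e1 : m = lo / d k + h := by
        rw [hm, hh]
        field_simp
        ring
      have e2 : m = hi / d k - h := by
        rw [hm, hh]
        field_simp
        ring
      rw [← hl] at e1
      rw [abs_le]
      constructor <;> linarith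
    have h4 := abs_add_le (∑ j ∈ Finset.univ.filter (fun j => k < j), ((d j - d k) / d k - m) * z j)
      ((m - D) * x)
    rw [← h1, abs_mul] at h4
    have h5 := mul_le_mul_of_nonneg_right h3 (abs_nonneg x)
    linarith
  -- rewriting of `Qf`
  obtain ⟨φ, hφ⟩ : ∃ φ, φ = dfp e (len k s) := ⟨_, rfl⟩
  obtain ⟨φ1, hφ1⟩ : ∃ φ1, φ1 = dfp1 e (len k s) := ⟨_, rfl⟩
  obtain ⟨φ2, hφ2⟩ : ∃ φ2, φ2 = dfp2 e (len k s) := ⟨_, rfl⟩
  obtain ⟨P, hPd⟩ : ∃ P, P = dfB k s z := ⟨_, rfl⟩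
  have hlz : len k z = z k + x := by rw [hx]; rfl
  have hls : len k s = s k + σ := by rw [hσ]; rfl
  have hQ : Qf d k (dfg k e η) (dfh k e η) s z b = d k *
      (dfc2 (s k) * z k ^ 2 + x ^ 2 + η * (φ * Z ^ 2 + 2 * φ1 * P * (z k + x)
        + 1 / 2 * R ^ 2 * φ2 * (z k + x) ^ 2)
      + (D * β + G) * (β + η * (φ1 * (P + 1 / 2 * b * R ^ 2) + 1 / 2 * R ^ 2 * φ2 * (z k + x)))
      + η * φ * A + η * φ1 * (z k + x) * Y) := by
    rw [df_Qf]
    have e1 : (∑ j ∈ Finset.univ.filter (fun j => k < j), (d j - d k) * (z j + b * s j)) =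
        d k * (D * β + G) := by
      rw [hG]
      field_simp
      ring
    have e2 : (∑ j ∈ Finset.univ.filter (fun j => k < j), (d j - d k) * (z j + b * s j) ^ 2) =
        d k * A := by
      rw [hA, Finset.mul_sum]
      refine Finset.sum_congr rfl fun j _ => ?_
      field_simp
    have e3 : (∑ j ∈ Finset.univ.filter (fun j => k < j),
        (d j - d k) * (s j * (z j + b * s j))) = d k * Y := by
      rw [hY, Finset.mul_sum]
      refine Finset.sum_congr rfl fun j _ => ?_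
      field_simp
    rw [e1, e2, e3, ← hφ, ← hφ1, ← hφ2, ← hPd, hlz, ← hR2, ← hZ2, ← hx, ← hσ, ← hβ]
    ring
  rw [hQ]
  rw [← hPd] at hP
  have main : 1 / 100 * (dfc2 (s k) * z k ^ 2 + x ^ 2 + η * Z ^ 2 + D * β ^ 2) ≤
      (dfc2 (s k) * z k ^ 2 + x ^ 2 + η * (φ * Z ^ 2 + 2 * φ1 * P * (z k + x)
        + 1 / 2 * R ^ 2 * φ2 * (z k + x) ^ 2)
      + (D * β + G) * (β + η * (φ1 * (P + 1 / 2 * b * R ^ 2) + 1 / 2 * R ^ 2 * φ2 * (z k + x)))
      + η * φ * A + η * φ1 * (z k + x) * Y) := by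
    have hφ20 : 0 ≤ φ2 := by rw [hφ2]; exact dfp2_nonneg he0 _
    have ht0 : 0 ≤ len k s := by rw [hls]; linarith
    have hRt : R ≤ len k s := by rw [hls]; linarith
    have hRt2 : R ^ 2 ≤ len k s ^ 2 := pow_le_pow_left₀ hR0 hRt 2
    rcases le_total (len k s) 1 with ht | ht
    · refine df_inside hpar hR0 hRσ hsk (by rw [← hls]; exact ht) hZ0 hA0 hβ hP hGle hYle
        (by rw [hφ]; exact dfp_in he0 ht) (by rw [hφ1]; exact dfp1_abs he0 _) hφ20 ?_ ?_
      · have h1 := dfp2_t' he0 ht0 ht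
        rw [← hφ2] at h1
        have h2 : R ^ 2 * φ2 ≤ len k s ^ 2 * φ2 := mul_le_mul_of_nonneg_right hRt2 hφ20
        have h3 : 16 * L * (e * (len k s ^ 2 * φ2)) = len k s ^ 2 * φ2 := by
          have : 16 * L * (e * (len k s ^ 2 * φ2)) = (16 * L * e) * (len k s ^ 2 * φ2) := by ring
          rw [this, heL, one_mul]
        have h4 := mul_le_mul_of_nonneg_left h1 (by positivity : 0 ≤ 16 * L)
        rw [h3] at h4
        linarith
      · rw [dfc2_mul hsk, abs_of_nonneg]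
        have h1 : s k ≤ 1 := by rw [hls] at ht; linarith
        nlinarith
    · refine df_outside hpar hR0 hRσ hZ0 hA0 hβ hP hGle hYle
        (by rw [hφ]; exact dfp_ge he0 he1 _) ?_ hφ20 ?_ ?_ (dfc2_nonneg hsk)
      · have h1 := dfp1_t he0 he1 ht
        rw [← hφ1] at h1
        exact (mul_le_mul_of_nonneg_left hRt (abs_nonneg φ1)).trans h1
      · have h1 := dfp_key he0 he1 ht
        rw [← hφ1, ← hφ2, ← hφ] at h1
        have h2 := mul_le_mul_of_nonneg_left h1 (by positivity : 0 ≤ 8 * L)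
        have h3 : 8 * L * (2 * e * (φ * φ2)) = (16 * L * e) * (φ * φ2) := by ring
        rw [h3, heL, one_mul] at h2
        exact h2
      · have h1 := dfp2_t he0 he1 ht
        rw [← hφ2] at h1
        have h2 : R ^ 2 * φ2 ≤ len k s ^ 2 * φ2 := mul_le_mul_of_nonneg_right hRt2 hφ20
        have h3 : 16 * L * (e * (len k s ^ 2 * φ2)) = len k s ^ 2 * φ2 := by
          have : 16 * L * (e * (len k s ^ 2 * φ2)) = (16 * L * e) * (len k s ^ 2 * φ2) := by ring
          rw [this, heL, one_mul]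
        have h4 := mul_le_mul_of_nonneg_left h1 (by positivity : 0 ≤ 16 * L)
        rw [h3] at h4
        linarith
  have hlow : c * ((1 - 1 / s k) ^ 2 * z k ^ 2
      + (∑ j ∈ Finset.univ.filter (fun j => k < j), z j ^ 2) + b ^ 2 * Sab k s ^ 2) ≤
      dfc2 (s k) * z k ^ 2 + x ^ 2 + η * Z ^ 2 + D * β ^ 2 := by
    have h5 : ∑ j ∈ Finset.univ.filter (fun j => k < j), z j ^ 2 = Z ^ 2 := by
      rw [hZ2]
      unfold dfB
      exact Finset.sum_congr rfl fun j _ => sq (z j)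
    rw [h5, ← hσ]
    have a1 : c * ((1 - 1 / s k) ^ 2 * z k ^ 2) ≤ dfc2 (s k) * z k ^ 2 := by
      have b1 := mul_le_mul_of_nonneg_right (dfc2_ge hsk) (sq_nonneg (z k))
      have b2 : 0 ≤ (1 - 1 / s k) ^ 2 * z k ^ 2 := by positivity
      have b3 : c * ((1 - 1 / s k) ^ 2 * z k ^ 2) ≤ 1 * ((1 - 1 / s k) ^ 2 * z k ^ 2) :=
        mul_le_mul_of_nonneg_right (by linarith) b2
      linarith
    have a2 : c * Z ^ 2 ≤ η * Z ^ 2 := mul_le_mul_of_nonneg_right hcη (sq_nonneg Z)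
    have a3 : b ^ 2 * σ ^ 2 ≤ 2 * β ^ 2 + 2 * x ^ 2 := by
      have b1 : b * σ = β - x := by rw [hβ]; ring
      have b2 : b ^ 2 * σ ^ 2 = (β - x) ^ 2 := by rw [← b1]; ring
      rw [b2]
      nlinarith [sq_nonneg (β + x)]
    have a4 : c * (b ^ 2 * σ ^ 2) ≤ D * β ^ 2 + x ^ 2 := by
      have b1 := mul_le_mul_of_nonneg_left a3 hc0.le
      have b2 : 2 * c * β ^ 2 ≤ D * β ^ 2 :=
        mul_le_mul_of_nonneg_right (by linarith) (sq_nonneg β)
      have b3 : 2 * c * x ^ 2 ≤ 1 * x ^ 2 :=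
        mul_le_mul_of_nonneg_right (by linarith) (sq_nonneg x)
      linarith
    linarith
  have h1 := mul_le_mul_of_nonneg_left main hdk.le
  have h2 := mul_le_mul_of_nonneg_left hlow (by positivity : 0 ≤ d k * (1 / 100))
  linarith

end Pool.Agent.Lib.MP_d8ef8f_an.Gd
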