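import Pool.Agent.Lib.MP_d8ef8f_an.Gd.Df6
import Pool.Agent.Lib.MP_d8ef8f_an.Gd.Df7

/-!
# The Lyapunov density: existence
-/

set_option autoImplicit false

namespace Pool.Agent.Lib.MP_d8ef8f_an.Gd

open Set Filter Topology

/-- the radial derivative -/
theorem df_rad {N : ℕ} (k : Fin N) (e η : ℝ) (s : Fin N → ℝ) :
    rad (dfg k e η) s = s k * dfc1 (s k) + Sab k s ^ 2
      + η / 2 * dfB k s s * (2 * dfp e (len k s) + len k s * dfp1 e (len k s)) := by
  unfold rad
  rw [df_split k _ (fun i hi => by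
    unfold dfg
    rw [if_pos hi, mul_zero])]
  have hk : dfg k e η k s = dfc1 (s k) + η / 2 * dfB k s s * dfp1 e (len k s) := by
    unfold dfg
    rw [if_neg (lt_irrefl k), if_pos rfl]
  have hJ : ∑ i ∈ Finset.univ.filter (fun j => k < j), s i * dfg k e η i s =
      (Sab k s + η / 2 * dfB k s s * dfp1 e (len k s)) * Sab k s
        + η * dfp e (len k s) * dfB k s s := by
    have e2 : ∀ c : ℝ, c * Sab k s = ∑ j ∈ Finset.univ.filter (fun j => k < j), c * s j :=
      fun c => by unfold Sab; rw [Finset.mul_sum]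
    have e3 : ∀ c : ℝ, c * dfB k s s = ∑ j ∈ Finset.univ.filter (fun j => k < j), c * (s j * s j) :=
      fun c => by unfold dfB; rw [Finset.mul_sum]
    rw [e2 (Sab k s + η / 2 * dfB k s s * dfp1 e (len k s)), e3 (η * dfp e (len k s)),
      ← Finset.sum_add_distrib]
    refine Finset.sum_congr rfl fun i hi => ?_
    have hi' : k < i := (Finset.mem_filter.1 hi).2
    have hg : dfg k e η i s = Sab k s + η * s i * dfp e (len k s)
        + η / 2 * dfB k s s * dfp1 e (len k s) := by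
      unfold dfg
      rw [if_neg (not_lt.2 hi'.le), if_neg hi'.ne']
    rw [hg]
    ring
  rw [hk, hJ]
  unfold len
  ring

/-- the sign condition on the radial derivative, scalar form -/
theorem df_sign {e η p σ q : ℝ} (he : 0 < e) (he1 : e ≤ 1 / 16) (hη : 0 ≤ η) (hη1 : η ≤ 1 / 64)
    (hp : 0 < p) (hσ : 0 ≤ σ) (hq : 0 ≤ q) (hqσ : q ≤ σ ^ 2) :
    1 / 2 * |p + σ - 1| ^ 3 ≤ (p + σ - 1) * ((p - 1) * |p - 1| + σ ^ 2
      + η / 2 * q * (2 * dfp e (p + σ) + (p + σ) * dfp1 e (p + σ))) := by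
  have ht0 : 0 ≤ p + σ := by linarith
  rcases le_total (p + σ) 1 with ht | ht
  · obtain ⟨_, h2⟩ := dfp_r' he ht0 ht
    obtain ⟨v, hv⟩ : ∃ v, v = 1 - (p + σ) := ⟨_, rfl⟩
    have hv0 : 0 ≤ v := by rw [hv]; linarith
    have hσ1 : σ ≤ 1 := by linarith
    rw [abs_of_nonpos (by linarith), abs_of_nonpos (by linarith)]
    have h3 : η / 2 * q * (2 * dfp e (p + σ) + (p + σ) * dfp1 e (p + σ)) ≤
        η / 2 * q * (10 * (1 - (p + σ))) := mul_le_mul_of_nonneg_left h2 (by positivity)
    have h4 : η * q ≤ 1 / 64 * σ ^ 2 := mul_le_mul hη1 hqσ hq (by norm_num)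
    have h4' : η * q ≤ 1 / 64 * σ := by nlinarith
    have h5 : η / 2 * q * (10 * (1 - (p + σ))) ≤ 5 / 64 * σ * v := by
      rw [← hv]
      have := mul_le_mul_of_nonneg_right h4' hv0
      linarith
    have h6 : (p - 1) * -(p - 1) + σ ^ 2 = -(v * (v + 2 * σ)) := by rw [hv]; ring
    have h7 : (p - 1) * -(p - 1) + σ ^ 2
        + η / 2 * q * (2 * dfp e (p + σ) + (p + σ) * dfp1 e (p + σ)) ≤ -(v * v) := by
      rw [h6]
      have : 0 ≤ σ * v := by positivity
      linarith
    have h8 : -(p + σ - 1) = v := by rw [hv]; ring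
    have h9 : p + σ - 1 = -v := by rw [hv]; ring
    rw [h8, h9]
    have h10 := mul_le_mul_of_nonneg_left h7 hv0
    have h11 : 0 ≤ v ^ 3 := by positivity
    linarith
  · have h2 := dfp_r he he1 ht
    obtain ⟨v, hv⟩ : ∃ v, v = p + σ - 1 := ⟨_, rfl⟩
    have hv0 : 0 ≤ v := by rw [hv]; linarith
    rw [← hv, abs_of_nonneg hv0]
    have h3 : 0 ≤ η / 2 * q * (2 * dfp e (p + σ) + (p + σ) * dfp1 e (p + σ)) := by positivity
    have h4 : 1 / 2 * v ^ 2 ≤ (p - 1) * |p - 1| + σ ^ 2 := by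
      rcases le_total p 1 with h | h
      · rw [abs_of_nonpos (by linarith)]
        have h5 : (p - 1) * -(p - 1) + σ ^ 2 = v * (v + 2 * (1 - p)) := by rw [hv]; ring
        rw [h5]
        have h6 : 0 ≤ v * (1 - p) := mul_nonneg hv0 (by linarith)
        nlinarith [sq_nonneg v]
      · rw [abs_of_nonneg (by linarith)]
        have h5 : v = (p - 1) + σ := by rw [hv]; ring
        rw [h5]
        nlinarith [sq_nonneg ((p - 1) - σ)]
    have h5 : v * (1 / 2 * v ^ 2) ≤ v * ((p - 1) * |p - 1| + σ ^ 2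
      + η / 2 * q * (2 * dfp e (p + σ) + (p + σ) * dfp1 e (p + σ))) :=
      mul_le_mul_of_nonneg_left (by linarith) hv0
    linarith

/-- **the Lyapunov density for the base species `k`** -/
theorem dens_of_data {N : ℕ} {d : Fin N → ℝ} {k : Fin N} {lo hi n : ℝ} (H : DfData d k lo hi n) :
    Dens d k (dff k (1 / (16 * dfL d k hi)) (1 / (64 * dfL d k hi ^ 2)))
      (dfg k (1 / (16 * dfL d k hi)) (1 / (64 * dfL d k hi ^ 2)))
      (dfh k (1 / (16 * dfL d k hi)) (1 / (64 * dfL d k hi ^ 2))) := by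
  obtain ⟨c1, hc1, hQ⟩ := df_coercive H
  have hL := dfL_ge H
  obtain ⟨η, hη⟩ : ∃ η, η = 1 / (64 * dfL d k hi ^ 2) := ⟨_, rfl⟩
  obtain ⟨e, he⟩ : ∃ e, e = 1 / (16 * dfL d k hi) := ⟨_, rfl⟩
  rw [← hη, ← he] at hQ ⊢
  have hη0 : 0 < η := by rw [hη]; positivity
  have hη1 : η ≤ 1 / 64 := by
    rw [hη]
    apply div_le_div_of_nonneg_left (by norm_num) (by norm_num)
    have : 1 ≤ dfL d k hi ^ 2 := one_le_pow₀ hL
    linarith
  have he0 : 0 < e := by rw [he]; positivity
  have he1 : e ≤ 1 / 16 := by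
    rw [he]
    exact div_le_div_of_nonneg_left (by norm_num) (by norm_num) (by linarith)
  have hfek : dff k e η (ek k) = 0 := by
    have h1 : Sab k (ek k) = 0 := by
      unfold Sab ek
      apply Finset.sum_eq_zero
      intro j hj
      rw [if_neg ((Finset.mem_filter.1 hj).2.ne')]
    have h2 : dfB k (ek k) (ek k) = 0 := by
      unfold dfB ek
      apply Finset.sum_eq_zero
      intro j hj
      rw [if_neg ((Finset.mem_filter.1 hj).2.ne'), mul_zero]
    have h3 : ek k k = 1 := by unfold ek; rw [if_pos rfl]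
    unfold dff
    rw [h1, h2, h3, dfc_one]
    ring
  refine ⟨fun s hs _ => dff_fderiv k he0 η s hs, fun i s hs _ => dfg_fderiv k he0 η i s hs,
    fun i j => dfh_cont k he0 η i j, fun j hj s => by unfold dfg; rw [if_pos hj], ?_⟩
  intro L
  obtain ⟨M, hM⟩ : ∃ M, M = max L 1 := ⟨_, rfl⟩
  have hM1 : 1 ≤ M := by rw [hM]; exact le_max_right _ _
  have hLM : L ≤ M := by rw [hM]; exact le_max_left _ _
  have hM0 : 0 < M := by linarith
  obtain ⟨c, hc⟩ : ∃ c, c = min c1 (1 / (3 * M)) := ⟨_, rfl⟩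
  have hc0 : 0 < c := by rw [hc]; exact lt_min hc1 (by positivity)
  have hcc1 : c ≤ c1 := by rw [hc]; exact min_le_left _ _
  have hcM : c ≤ 1 / (3 * M) := by rw [hc]; exact min_le_right _ _
  have hM3 : 1 / (3 * M) ≤ 1 / 3 := by
    apply div_le_div_of_nonneg_left (by norm_num) (by norm_num)
    linarith
  refine ⟨c, 20 * M ^ 3, hc0, by positivity, ?_⟩
  intro s hs
  obtain ⟨hsk, hs0, hlen⟩ := hs
  obtain ⟨p, hp⟩ : ∃ p, p = s k := ⟨_, rfl⟩
  obtain ⟨σ, hσ⟩ : ∃ σ, σ = Sab k s := ⟨_, rfl⟩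
  obtain ⟨q, hq⟩ : ∃ q, q = dfB k s s := ⟨_, rfl⟩
  have hls : len k s = p + σ := by rw [hp, hσ]; rfl
  have hσ0 : 0 ≤ σ := by rw [hσ]; exact Sab_nonneg k hs0
  have hp0 : 0 < p := by rw [hp]; exact hsk
  have hq0 : 0 ≤ q := by rw [hq]; exact dfB_nonneg k s
  have hqσ : q ≤ σ ^ 2 := by rw [hq, hσ]; exact dfB_le k hs0
  rw [hls] at hlen
  have hpM : p ≤ M := by linarith
  have hσM : σ ≤ M := by linarith
  have hqM : q ≤ M ^ 2 := hqσ.trans (pow_le_pow_left₀ hσ0 hσM 2)
  have hM2 : M ≤ M ^ 2 := by nlinarith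
  have hM3' : M ^ 2 ≤ M ^ 3 := by nlinarith [sq_nonneg M]
  have hφ0 := dfp_ge he0 he1 (p + σ)
  have hφ5 := dfp_le he0 (by linarith : 0 ≤ p + σ)
  have hφ1 := dfp1_abs he0 (p + σ)
  have hηq0 : 0 ≤ η * q := by positivity
  have hηq : η * q ≤ 1 / 64 * M ^ 2 := mul_le_mul hη1 hqM hq0 (by norm_num)
  have hf : dff k e η s = dfc p + σ ^ 2 / 2 + η / 2 * q * dfp e (p + σ) := by
    unfold dff
    rw [hls, ← hp, ← hσ, ← hq]
  have hfge : dfc p + σ ^ 2 / 2 ≤ dff k e η s := by
    rw [hf]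
    have : 0 ≤ η / 2 * q * dfp e (p + σ) := by positivity
    linarith
  have hrad : rad (dfg k e η) s = (p - 1) * |p - 1| + σ ^ 2
      + η / 2 * q * (2 * dfp e (p + σ) + (p + σ) * dfp1 e (p + σ)) := by
    rw [df_rad, hls, ← hp, ← hσ, ← hq]
    have : p * dfc1 p = (p - 1) * |p - 1| := by
      unfold dfc1
      field_simp
    rw [this]
  have habs1 : |p - 1| ≤ M := by
    rw [abs_le]
    constructor <;> linarith
  have habs0 := abs_nonneg (p - 1)
  refine ⟨?_, ?_, ?_, ?_, ?_, ?_, ?_⟩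
  · intro z b
    refine le_trans ?_ (hQ s hsk hs0 z b)
    apply mul_le_mul_of_nonneg_right hcc1
    have : 0 ≤ ∑ j ∈ Finset.univ.filter (fun j => k < j), z j ^ 2 :=
      Finset.sum_nonneg fun j _ => sq_nonneg _
    positivity
  · rw [hls, hrad]
    refine le_trans ?_ (df_sign he0 he1 hη0.le hη1 hp0 hσ0 hq0 hqσ)
    apply mul_le_mul_of_nonneg_right (by linarith)
    positivity
  · rw [hrad]
    have h1 : |((p - 1) * |p - 1|)| ≤ M * M := by
      rw [abs_mul, abs_abs]
      exact mul_le_mul habs1 habs1 habs0 hM0.le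
    have h2 : |σ ^ 2| ≤ M ^ 2 := by
      rw [abs_of_nonneg (sq_nonneg σ)]
      exact pow_le_pow_left₀ hσ0 hσM 2
    have h3 : |2 * dfp e (p + σ) + (p + σ) * dfp1 e (p + σ)| ≤ 10 + 8 * M := by
      have h4 := abs_add_le (2 * dfp e (p + σ)) ((p + σ) * dfp1 e (p + σ))
      have h5 : |2 * dfp e (p + σ)| ≤ 10 := by
        rw [abs_of_nonneg (by linarith)]
        linarith
      have h6 : |(p + σ) * dfp1 e (p + σ)| ≤ (2 * M) * 4 := by
        rw [abs_mul]
        apply mul_le_mul _ hφ1 (abs_nonneg _) (by positivity)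
        rw [abs_of_nonneg (by linarith)]
        linarith
      linarith
    have h4 : |η / 2 * q * (2 * dfp e (p + σ) + (p + σ) * dfp1 e (p + σ))| ≤
        1 / 128 * M ^ 2 * (10 + 8 * M) := by
      rw [abs_mul, abs_of_nonneg (by positivity : 0 ≤ η / 2 * q)]
      exact mul_le_mul (by linarith) h3 (abs_nonneg _) (by positivity)
    have h5 := abs_add_le ((p - 1) * |p - 1| + σ ^ 2)
      (η / 2 * q * (2 * dfp e (p + σ) + (p + σ) * dfp1 e (p + σ)))
    have h6 := abs_add_le ((p - 1) * |p - 1|) (σ ^ 2)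
    nlinarith
  · have hg : dfg k e η k s = dfc1 p + η / 2 * q * dfp1 e (p + σ) := by
      unfold dfg
      rw [if_neg (lt_irrefl k), if_pos rfl, hls, ← hp, ← hq]
    have h0 : |dfc1 p + η / 2 * q * dfp1 e (p + σ)| * p =
        |(dfc1 p + η / 2 * q * dfp1 e (p + σ)) * p| := by
      rw [abs_mul, abs_of_pos hp0]
    rw [hg, ← hp, le_div_iff₀ hp0, h0]
    have h1 : (dfc1 p + η / 2 * q * dfp1 e (p + σ)) * p =
        (p - 1) * |p - 1| + η / 2 * q * (dfp1 e (p + σ) * p) := by
      unfold dfc1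
      field_simp
    rw [h1]
    have h2 : |((p - 1) * |p - 1|)| ≤ M * M := by
      rw [abs_mul, abs_abs]
      exact mul_le_mul habs1 habs1 habs0 hM0.le
    have h3 : |η / 2 * q * (dfp1 e (p + σ) * p)| ≤ 1 / 128 * M ^ 2 * (4 * M) := by
      rw [abs_mul, abs_of_nonneg (by positivity : 0 ≤ η / 2 * q)]
      apply mul_le_mul (by linarith) _ (abs_nonneg _) (by positivity)
      rw [abs_mul, abs_of_pos hp0]
      exact mul_le_mul hφ1 hpM hp0.le (by norm_num)
    have h5 := abs_add_le ((p - 1) * |p - 1|) (η / 2 * q * (dfp1 e (p + σ) * p))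
    nlinarith
  · rw [hfek, sub_zero, ← hp, ← hσ]
    have h1 := dfc_ge hM1 hp0 hpM
    have h2 : c * |p - 1| ^ 3 ≤ |p - 1| ^ 3 / (3 * M) := by
      have := mul_le_mul_of_nonneg_right hcM (by positivity : 0 ≤ |p - 1| ^ 3)
      have e1 : 1 / (3 * M) * |p - 1| ^ 3 = |p - 1| ^ 3 / (3 * M) := by ring
      linarith
    have h3 : c * σ ^ 2 ≤ σ ^ 2 / 2 := by
      have := mul_le_mul_of_nonneg_right (by linarith : c ≤ 1 / 2) (sq_nonneg σ)
      linarith
    linarith
  · rw [hfek, sub_zero, ← hp]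
    have h1 := dfc_log hp0
    have h2 := dfc_nonneg hp0
    have h3 : 0 ≤ dff k e η s := by nlinarith [sq_nonneg σ]
    have h4 : 2 * (1 + dff k e η s) ≤ 20 * M ^ 3 * (1 + dff k e η s) := by
      apply mul_le_mul_of_nonneg_right _ (by linarith)
      linarith
    nlinarith [sq_nonneg σ]
  · rw [hfek, sub_zero, ← hp, ← hσ]
    have h1 := dfc_le hM1 hp0 hpM
    have hG : 0 ≤ Gl p := by
      unfold Gl
      linarith [Real.log_le_sub_one_of_pos hp0]
    have h2 : σ ^ 2 / 2 ≤ M / 2 * σ := by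
      have := mul_le_mul_of_nonneg_right hσM hσ0
      nlinarith
    have h3 : η / 2 * q * dfp e (p + σ) ≤ 5 / 128 * M * σ := by
      have a1 : q ≤ M * σ := hqσ.trans (by nlinarith)
      have a2 : η / 2 * q ≤ 1 / 128 * (M * σ) := by
        have := mul_le_mul hη1 a1 hq0 (by norm_num)
        linarith
      have a3 : η / 2 * q * dfp e (p + σ) ≤ 1 / 128 * (M * σ) * 5 :=
        mul_le_mul a2 hφ5 (by linarith) (by positivity)
      linarith
    have h4 : p - 1 - Real.log p = Gl p := rfl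
    rw [h4] at h1
    rw [hf]
    have a4 : Gl p ≤ 20 * M ^ 3 * Gl p := by
      have := mul_le_mul_of_nonneg_right (by linarith : 1 ≤ 20 * M ^ 3) hG
      linarith
    have a5 : M / 2 * |p - 1| ≤ 20 * M ^ 3 * |p - 1| :=
      mul_le_mul_of_nonneg_right (by linarith) habs0
    have a6 : (M / 2 + 5 / 128 * M) * σ ≤ 20 * M ^ 3 * σ :=
      mul_le_mul_of_nonneg_right (by linarith) hσ0
    linarith

/-- **existence of Lyapunov densities**: all base species, explicit region of rates -/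
theorem exists_dens {N : ℕ} (d : Fin N → ℝ) (hd : ∀ i, 0 < d i) (hmono : StrictMono d)
    (hcond : ∀ i j l : Fin N, (j : ℕ) = (i : ℕ) + 1 → j ≤ l →
      32 * ((N : ℝ) - 1) * d l ^ 2 * (d l - d j) ^ 2 ≤ d i ^ 3 * (d j - d i)) (k : Fin N) :
    ∃ f g h, Dens d k f g h := by
  by_cases hlast : ∃ j : Fin N, k < j
  · obtain ⟨j0, hj0⟩ := hlast
    have hN : (k : ℕ) + 1 < N := lt_of_le_of_lt (Nat.succ_le_of_lt hj0) j0.isLt
    obtain ⟨j, hj⟩ : ∃ j : Fin N, (j : ℕ) = (k : ℕ) + 1 := ⟨⟨(k : ℕ) + 1, hN⟩, rfl⟩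
    obtain ⟨l, hl⟩ : ∃ l : Fin N, (l : ℕ) = N - 1 := ⟨⟨N - 1, by omega⟩, rfl⟩
    have hjl : j ≤ l := by
      rw [Fin.le_def]
      omega
    have hkj : k < j := by
      rw [Fin.lt_def]
      omega
    have H : DfData d k (d j - d k) (d l - d k) ((N : ℝ) - 1) := by
      refine ⟨hd k, sub_pos.2 (hmono hkj), ?_, ?_, ?_, ?_, ?_⟩
      · have := hmono.monotone hjl
        linarith
      · intro i hi
        constructor
        · have : j ≤ i := by
            rw [Fin.le_def]
            have := Fin.lt_def.1 hi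
            omega
          have := hmono.monotone this
          linarith
        · have : i ≤ l := by
            rw [Fin.le_def]
            have := i.isLt
            omega
          have := hmono.monotone this
          linarith
      · have : (2:ℝ) ≤ N := by
          have : 2 ≤ N := by omega
          exact_mod_cast this
        linarith
      · have h1 : (Finset.univ.filter (fun j => k < j)).card ≤ N - 1 := by
          have h2 : Finset.univ.filter (fun j => k < j) ⊆ Finset.univ.erase k := by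
            intro i hi
            rw [Finset.mem_erase]
            exact ⟨(Finset.mem_filter.1 hi).2.ne', Finset.mem_univ _⟩
          have h3 := Finset.card_le_card h2
          rw [Finset.card_erase_of_mem (Finset.mem_univ k), Finset.card_univ, Fintype.card_fin] at h3
          exact h3
        have h2 : ((N - 1 : ℕ) : ℝ) = (N : ℝ) - 1 := by
          rw [Nat.cast_sub (by omega)]
          norm_num
        rw [← h2]
        exact_mod_cast h1
      · have h1 := hcond k j l hj hjl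
        have h2 : d k + (d l - d k) = d l := by ring
        have h3 : d l - d k - (d j - d k) = d l - d j := by ring
        rw [h2, h3]
        linarith
    exact ⟨_, _, _, dens_of_data H⟩
  · have H : DfData d k 1 1 1 := by
      refine ⟨hd k, one_pos, le_rfl, ?_, le_rfl, ?_, ?_⟩
      · intro i hi
        exact absurd ⟨i, hi⟩ hlast
      · have : Finset.univ.filter (fun j => k < j) = ∅ := by
          rw [Finset.filter_eq_empty_iff]
          intro i _ hi
          exact hlast ⟨i, hi⟩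
        rw [this]
        simp
      · have := hd k
        have : 0 ≤ 1 * d k ^ 3 := by positivity
        linarith
    exact ⟨_, _, _, dens_of_data H⟩

end Pool.Agent.Lib.MP_d8ef8f_an.Gd
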