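import Pool.Agent.Lib.MP_d8ef8f_an.Gd.Stm

/-!
# Piece E3: the functional is bounded after time one
-/

set_option autoImplicit false

namespace Pool.Agent.Lib.MP_d8ef8f_an.Gd

open Set Filter Topology MeasureTheory

theorem p_E3 (a2 : StmA2) : StmE3 := by
  intro n N Ω d m k θ Dθ lθ P hB f g h hD M K
  have hθc : ContinuousOn θ (closure Ω) := hB.st.lap.c1.cont
  have hcomp : IsCompact (closure Ω) := hB.bdd.isCompact_closure
  have hne : (closure Ω).Nonempty := hB.nonempty.closure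
  obtain ⟨x₀, hx₀, hmin⟩ := hcomp.exists_isMinOn hne hθc
  have hmin' : ∀ x ∈ closure Ω, θ x₀ ≤ θ x := fun x hx => hmin hx
  obtain ⟨x₁, hx₁, hmax⟩ := hcomp.exists_isMaxOn hne hθc
  have hmax' : ∀ x ∈ closure Ω, θ x ≤ θ x₁ := fun x hx => hmax hx
  have hθ0 : 0 < θ x₀ := hB.st.pos x₀ hx₀
  have hθ1 : 0 < θ x₁ := hB.st.pos x₁ hx₁
  obtain ⟨L, hL⟩ : ∃ L : ℝ, L = N * (max M 0 / θ x₀) + 1 := ⟨_, rfl⟩
  obtain ⟨c, C, hc, hC, hbd⟩ := hD.bd L
  refine ⟨(θ x₁ ^ 2 * (|f (ek k)| + C * (3 * |L| + 1))) * volume.real Ω +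
    θ x₁ ^ 2 * C * K, ?_⟩
  intro ε hε hε1 u huc hu hK
  have hθx : ∀ x ∈ closure Ω, 0 < θ x := hB.st.pos
  have hs0 : ∀ x ∈ closure Ω, ∀ j, 0 ≤ sh k ε θ (fun j => u j) x j := by
    intro x hx j
    unfold sh
    have h1 : 0 ≤ u j x / θ x := div_nonneg (hu j x hx).1 (hθx x hx).le
    split_ifs
    · linarith
    · linarith
  have hsk : ∀ x, sh k ε θ (fun j => u j) x k = u k x / θ x + ε := by
    intro x
    unfold sh
    simp
  have hskε : ∀ x ∈ closure Ω, ε ≤ sh k ε θ (fun j => u j) x k := by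
    intro x hx
    rw [hsk]
    have h1 : 0 ≤ u k x / θ x := div_nonneg (hu k x hx).1 (hθx x hx).le
    linarith
  have hAdm : ∀ x ∈ closure Ω, Adm k L (sh k ε θ (fun j => u j) x) := by
    intro x hx
    refine ⟨lt_of_lt_of_le hε (hskε x hx), hs0 x hx, ?_⟩
    have hub : ∀ j, u j x / θ x ≤ max M 0 / θ x₀ := by
      intro j
      apply div_le_div₀ (le_max_right _ _) _ hθ0 (hmin' x hx)
      exact le_trans (hu j x hx).2 (le_max_left _ _)
    have h1 : len k (sh k ε θ (fun j => u j) x) =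
        ∑ j ∈ insert k (Finset.univ.filter (fun j => k < j)), sh k ε θ (fun j => u j) x j := by
      rw [Finset.sum_insert (by simp)]
      rfl
    have h2 : ∑ j ∈ insert k (Finset.univ.filter (fun j => k < j)), sh k ε θ (fun j => u j) x j ≤
        ∑ j, sh k ε θ (fun j => u j) x j :=
      Finset.sum_le_sum_of_subset_of_nonneg (Finset.subset_univ _)
        (fun j _ _ => hs0 x hx j)
    have h3 : ∑ j, sh k ε θ (fun j => u j) x j = (∑ j, u j x / θ x) + ε := by
      unfold sh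
      rw [Finset.sum_add_distrib]
      simp
    have h4 : (∑ j, u j x / θ x) ≤ ∑ j : Fin N, max M 0 / θ x₀ :=
      Finset.sum_le_sum (fun j _ => hub j)
    rw [Finset.sum_const, Finset.card_univ, Fintype.card_fin, nsmul_eq_mul] at h4
    rw [h1, hL]
    linarith
  -- pointwise bound
  have hpt : ∀ x ∈ closure Ω, θ x ^ 2 * f (sh k ε θ (fun j => u j) x) ≤
      θ x₁ ^ 2 * (|f (ek k)| + C * (3 * |L| + 1)) +
        θ x₁ ^ 2 * C * max 0 (- Real.log (u k x / θ x + ε)) := by
    intro x hx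
    obtain ⟨-, -, -, -, -, -, h7⟩ := hbd _ (hAdm x hx)
    have hlen : sh k ε θ (fun j => u j) x k + Sab k (sh k ε θ (fun j => u j) x) ≤ L :=
      (hAdm x hx).2.2
    have hSab : 0 ≤ Sab k (sh k ε θ (fun j => u j) x) :=
      Finset.sum_nonneg (fun j _ => hs0 x hx j)
    have hk0 : 0 ≤ sh k ε θ (fun j => u j) x k := hs0 x hx k
    have hLa : L ≤ |L| := le_abs_self L
    have hmx : - Real.log (sh k ε θ (fun j => u j) x k) ≤
        max 0 (- Real.log (sh k ε θ (fun j => u j) x k)) := le_max_right _ _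
    have hmx0 : 0 ≤ max 0 (- Real.log (sh k ε θ (fun j => u j) x k)) := le_max_left _ _
    have habs : |sh k ε θ (fun j => u j) x k - 1| ≤ sh k ε θ (fun j => u j) x k + 1 := by
      rw [abs_le]
      constructor <;> linarith
    have h8 : Gl (sh k ε θ (fun j => u j) x k) + |sh k ε θ (fun j => u j) x k - 1| +
        Sab k (sh k ε θ (fun j => u j) x) ≤ (3 * |L| + 1) +
          max 0 (- Real.log (sh k ε θ (fun j => u j) x k)) := by
      unfold Gl
      linarith
    have h9 : f (sh k ε θ (fun j => u j) x) ≤ |f (ek k)| + C * ((3 * |L| + 1) +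
          max 0 (- Real.log (sh k ε θ (fun j => u j) x k))) := by
      have h10 := mul_le_mul_of_nonneg_left h8 hC.le
      have h11 := le_abs_self (f (ek k))
      linarith
    rw [← hsk x]
    have hpos : 0 ≤ |f (ek k)| + C * ((3 * |L| + 1) +
          max 0 (- Real.log (sh k ε θ (fun j => u j) x k))) := by positivity
    have hsq : θ x ^ 2 ≤ θ x₁ ^ 2 := pow_le_pow_left₀ (hθx x hx).le (hmax' x hx) 2
    calc θ x ^ 2 * f (sh k ε θ (fun j => u j) x)
        ≤ θ x ^ 2 * (|f (ek k)| + C * ((3 * |L| + 1) +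
          max 0 (- Real.log (sh k ε θ (fun j => u j) x k)))) :=
          mul_le_mul_of_nonneg_left h9 (sq_nonneg _)
      _ ≤ θ x₁ ^ 2 * (|f (ek k)| + C * ((3 * |L| + 1) +
          max 0 (- Real.log (sh k ε θ (fun j => u j) x k)))) :=
          mul_le_mul_of_nonneg_right hsq hpos
      _ = _ := by ring
  -- continuity
  have hsc : ContinuousOn (fun x => sh k ε θ (fun j => u j) x) (closure Ω) := by
    rw [continuousOn_pi]
    intro j
    unfold sh
    exact ((huc j).div hθc (fun x hx => (hθx x hx).ne')).add continuousOn_const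
  have hfc : ContinuousOn (fun x => f (sh k ε θ (fun j => u j) x)) (closure Ω) := by
    intro x hx
    have h1 : ContinuousAt f (sh k ε θ (fun j => u j) x) :=
      (hD.df _ (lt_of_lt_of_le hε (hskε x hx)) (hs0 x hx)).continuousAt
    exact ContinuousAt.comp_continuousWithinAt h1 (hsc x hx)
  have hp0 : ∀ x ∈ closure Ω, u k x / θ x + ε ≠ 0 := by
    intro x hx
    have := hskε x hx
    rw [hsk] at this
    exact (lt_of_lt_of_le hε this).ne'
  have hpc : ContinuousOn (fun x => u k x / θ x + ε) (closure Ω) :=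
    ((huc k).div hθc (fun x hx => (hθx x hx).ne')).add continuousOn_const
  have hI1 : IntegrableOn (fun x => θ x ^ 2 * f (sh k ε θ (fun j => u j) x)) Ω :=
    a2 Ω hB.bdd _ ((hθc.pow 2).mul hfc)
  have hI2 : IntegrableOn (fun x => max 0 (- Real.log (u k x / θ x + ε))) Ω :=
    a2 Ω hB.bdd _ (ContinuousOn.sup continuousOn_const (hpc.log hp0).neg)
  have hI3 : IntegrableOn (fun _ : Sp n =>
      (θ x₁ ^ 2 * (|f (ek k)| + C * (3 * |L| + 1)) : ℝ)) Ω :=
    a2 Ω hB.bdd _ continuousOn_const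
  have hint : ∫ x in Ω, θ x ^ 2 * f (sh k ε θ (fun j => u j) x) ≤
      ∫ x in Ω, (θ x₁ ^ 2 * (|f (ek k)| + C * (3 * |L| + 1)) +
        θ x₁ ^ 2 * C * max 0 (- Real.log (u k x / θ x + ε))) := by
    apply setIntegral_mono_on hI1 (hI3.add (hI2.const_mul _)) hB.isOpen.measurableSet
    intro x hx
    exact hpt x (subset_closure hx)
  rw [integral_add hI3 (hI2.const_mul _), setIntegral_const, integral_const_mul, smul_eq_mul,
    mul_comm (volume.real Ω)] at hint
  have hKC : θ x₁ ^ 2 * C * (∫ x in Ω, max 0 (- Real.log (u k x / θ x + ε))) ≤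
      θ x₁ ^ 2 * C * K := mul_le_mul_of_nonneg_left hK (by positivity)
  calc Phi Ω k f θ ε u = ∫ x in Ω, θ x ^ 2 * f (sh k ε θ (fun j => u j) x) := rfl
    _ ≤ _ := hint
    _ ≤ _ := by linarith

end Pool.Agent.Lib.MP_d8ef8f_an.Gd
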