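import Pool.Agent.Lib.MP_d8ef8f_an.Gd.Dens

/-!
# Statements of the pieces (PDE part, general domain)

Every piece is a proposition `Stm...`; a piece is finished when a file proves it.
-/

set_option autoImplicit false

namespace Pool.Agent.Lib.MP_d8ef8f_an.Gd

open Set Filter Topology MeasureTheory

/-- standing data: base species `k`, its steady state `θ`, Poincaré constant `P` -/
structure Base {n N : ℕ} (Ω : Set (Sp n)) (d : Fin N → ℝ) (m : Sp n → ℝ) (k : Fin N)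
    (θ : Sp n → ℝ) (Dθ : Sp n → Sp n) (lθ : Sp n → ℝ) (P : ℝ) : Prop where
  isOpen : IsOpen Ω
  nonempty : Ω.Nonempty
  bdd : Bornology.IsBounded Ω
  poinc : Poinc Ω P
  hP : 0 < P
  hd : ∀ j, 0 < d j
  hm : ContinuousOn m (closure Ω)
  st : Steady Ω (d k) m θ Dθ lθ
  nc : 0 < ∫ x in Ω, ‖Dθ x‖ ^ 2

/-- the shifted ratios `s_j = u_j / θ + ε δ_{jk}` -/
noncomputable def sh {n N : ℕ} (k : Fin N) (ε : ℝ) (θ : Sp n → ℝ) (u : Fin N → Sp n → ℝ)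
    (x : Sp n) : Fin N → ℝ :=
  fun j => u j x / θ x + if j = k then ε else 0

/-- gradient of `u_j / θ` -/
noncomputable def Dsh {n N : ℕ} (θ : Sp n → ℝ) (Dθ : Sp n → Sp n) (u : Fin N → Sp n → ℝ)
    (Du : Fin N → Sp n → Sp n) (j : Fin N) (x : Sp n) : Sp n :=
  (θ x)⁻¹ • Du j x - (u j x / θ x ^ 2) • Dθ x

/-- the Lyapunov functional `∫ θ² f(s)` -/
noncomputable def Phi {n N : ℕ} (Ω : Set (Sp n)) (k : Fin N) (f : (Fin N → ℝ) → ℝ)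
    (θ : Sp n → ℝ) (ε : ℝ) (u : Fin N → Sp n → ℝ) : ℝ :=
  ∫ x in Ω, θ x ^ 2 * f (sh k ε θ u x)

/-- its value at the equilibrium `E_k` -/
noncomputable def Pmin {n N : ℕ} (Ω : Set (Sp n)) (k : Fin N) (f : (Fin N → ℝ) → ℝ)
    (θ : Sp n → ℝ) : ℝ :=
  ∫ x in Ω, θ x ^ 2 * f (ek k)

/-- the density of the dissipation -/
noncomputable def dis {n N : ℕ} (k : Fin N) (θ : Sp n → ℝ) (Dθ : Sp n → Sp n) (ε : ℝ)
    (u : Fin N → Sp n → ℝ) (Du : Fin N → Sp n → Sp n) (x : Sp n) : ℝ :=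
  |len k (sh k ε θ u x) - 1| ^ 3
  + (∑ j ∈ Finset.univ.filter (fun j => k < j), ‖Dsh θ Dθ u Du j x‖ ^ 2)
  + ‖(θ x)⁻¹ • Dθ x‖ ^ 2 * Sab k (sh k ε θ u x) ^ 2
  + (1 - 1 / (sh k ε θ u x k)) ^ 2 * ‖Dsh θ Dθ u Du k x‖ ^ 2

/-- the dissipation -/
noncomputable def Dis {n N : ℕ} (Ω : Set (Sp n)) (k : Fin N) (θ : Sp n → ℝ) (Dθ : Sp n → Sp n)
    (ε : ℝ) (u : Fin N → Sp n → ℝ) (Du : Fin N → Sp n → Sp n) : ℝ :=
  ∫ x in Ω, dis k θ Dθ ε u Du x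

/-- **A1** composition of `C¹` functions.
Proof: `HasGradientAt` of the composition from the chain rule (`HasFDerivAt.comp`), continuity from
`HasFDerivAt.continuousAt`. -/
def StmA1 : Prop :=
  ∀ {n : ℕ} {ι : Type} [Fintype ι] (Ω : Set (Sp n)), IsOpen Ω →
    ∀ (φ : ι → Sp n → ℝ) (Dφ : ι → Sp n → Sp n), (∀ i, C1 Ω (φ i) (Dφ i)) →
    ∀ (F : (ι → ℝ) → ℝ) (F' : ι → (ι → ℝ) → ℝ),
      (∀ x ∈ closure Ω, HasFDerivAt F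
        (∑ i, F' i (fun j => φ j x) • (ContinuousLinearMap.proj i : (ι → ℝ) →L[ℝ] ℝ))
        (fun j => φ j x)) →
      (∀ i, ContinuousOn (fun x => F' i (fun j => φ j x)) (closure Ω)) →
      C1 Ω (fun x => F (fun j => φ j x)) (fun x => ∑ i, F' i (fun j => φ j x) • Dφ i x)

/-- **A2** a function continuous on the closure of a bounded set is integrable on the set.
Proof: the closure is compact (proper space), `ContinuousOn.integrableOn_compact`, `mono_set`. -/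
def StmA2 : Prop :=
  ∀ {n : ℕ} {E : Type} [NormedAddCommGroup E] (Ω : Set (Sp n)), Bornology.IsBounded Ω →
    ∀ F : Sp n → E, ContinuousOn F (closure Ω) → IntegrableOn F Ω

/-- **A3** differentiation under the integral.
Proof: `hasDerivAt_integral_of_dominated_loc_of_deriv_le`; a bound of `Ft` on
`closedBall t r ×ˢ closure Ω` by compactness. -/
def StmA3 : Prop :=
  ∀ {n : ℕ} (Ω : Set (Sp n)), Bornology.IsBounded Ω → MeasurableSet Ω → ∀ (T : Set ℝ), IsOpen T →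
    ∀ (F Ft : ℝ → Sp n → ℝ),
      ContinuousOn (fun p : ℝ × Sp n => F p.1 p.2) (T ×ˢ closure Ω) →
      ContinuousOn (fun p : ℝ × Sp n => Ft p.1 p.2) (T ×ˢ closure Ω) →
      (∀ t ∈ T, ∀ x ∈ closure Ω, HasDerivAt (fun s => F s x) (Ft t x) t) →
      ∀ t ∈ T, HasDerivAt (fun s => ∫ x in Ω, F s x) (∫ x in Ω, Ft t x) t

/-- **B1** the static energy identity. Here `u j`, `Du j`, `lu j` is a state, `w j` the right side of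
the system, `s = sh k ε θ u x`, `b = Dθ/θ`, and `r_ε = ∑ (u_j/θ) g_j(s)`:
`∫ θ ∑ g_j(s) w_j = - ∫ θ³ (U/θ - 1) r_ε - ∫ θ² Q(s; Ds, b)` (`Q` summed over the coordinates).
Proof. `w_j = d_j lu_j + u_j (m - U)`. Green for `lu_j` with `ψ = θ g_j(s)` (of class `C1` by A1),
Green for `lθ` with `ψ = θ r_ε`, `d_k lθ = -θ (m - θ)`; products of gradients:
`∇u_j = θ ∇s_j + s_j ∇θ` (`s_j = u_j/θ`), `∇(θ g_j) = θ ∇g_j + g_j ∇θ`,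
`∑ d_j ∇u_j·∇(θ g_j) = θ² ∑ d_j ∇s_j·∇g_j + θ ∇θ·∇R + |∇θ|² R`, `R = ∑ d_j s_j g_j = ρ + d_k r_ε`,
`d_k ∇θ·∇(θ r_ε) = d_k (θ ∇θ·∇r_ε + r_ε |∇θ|²)`, and `ρ = ∑ (d_j - d_k) s_j g_j` is the same for
shifted and unshifted `s` as the coefficient of `j = k` vanishes. -/
def StmB1 : Prop :=
  ∀ {n N : ℕ} (Ω : Set (Sp n)) (d : Fin N → ℝ) (m : Sp n → ℝ) (k : Fin N) (θ : Sp n → ℝ)
    (Dθ : Sp n → Sp n) (lθ : Sp n → ℝ) (P : ℝ), Base Ω d m k θ Dθ lθ P →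
    ∀ (f : (Fin N → ℝ) → ℝ) (g : Fin N → (Fin N → ℝ) → ℝ) (h : Fin N → Fin N → (Fin N → ℝ) → ℝ),
      Dens d k f g h →
    ∀ (ε : ℝ), 0 < ε →
    ∀ (u : Fin N → Sp n → ℝ) (Du : Fin N → Sp n → Sp n) (lu : Fin N → Sp n → ℝ),
      (∀ j, NeuLap Ω (u j) (Du j) (lu j)) → (∀ j, ∀ x ∈ closure Ω, 0 ≤ u j x) →
      ∫ x in Ω, θ x * ∑ j, g j (sh k ε θ u x) * (d j * lu j x + u j x * (m x - ∑ i, u i x))
        = - (∫ x in Ω, θ x ^ 3 * ((∑ i, u i x) / θ x - 1) *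
              ∑ j, (u j x / θ x) * g j (sh k ε θ u x))
          - ∫ x in Ω, θ x ^ 2 * ∑ c : Fin n, Qf d k g h (sh k ε θ u x)
              (fun j => Dsh θ Dθ u Du j x c) (((θ x)⁻¹ • Dθ x) c)

/-- **B2** derivative of the functional along a solution. Proof: A3 and the chain rule. -/
def StmB2 : Prop :=
  ∀ {n N : ℕ} (Ω : Set (Sp n)) (d : Fin N → ℝ) (m : Sp n → ℝ) (k : Fin N) (θ : Sp n → ℝ)
    (Dθ : Sp n → Sp n) (lθ : Sp n → ℝ) (P : ℝ), Base Ω d m k θ Dθ lθ P →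
    ∀ (f : (Fin N → ℝ) → ℝ) (g : Fin N → (Fin N → ℝ) → ℝ) (h : Fin N → Fin N → (Fin N → ℝ) → ℝ),
      Dens d k f g h →
    ∀ (ε : ℝ), 0 < ε → ∀ (T : Set ℝ), IsOpen T →
    ∀ (u ut : Fin N → ℝ → Sp n → ℝ) (Du : Fin N → ℝ → Sp n → Sp n) (lu : Fin N → ℝ → Sp n → ℝ),
      IsSol Ω d m T u ut Du lu → ∀ t ∈ T,
      HasDerivAt (fun t => Phi Ω k f θ ε (fun j => u j t))
        (∫ x in Ω, θ x * ∑ j, g j (sh k ε θ (fun j => u j t) x) * ut j t x) t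

/-- **B3** from the identity to the inequality (static form).
Proof. With `s = sh ..`, `len k s = ℓ + ε`, `U/θ = ℓ + e/θ`, `e = ∑_{j<k} u_j`,
`r_ε = rad g s - ε g_k(s)`; on `Adm k L`, `L = N M / min θ + 1`: `|rad g s| ≤ C`,
`|ε g_k(s)| ≤ C ε / s_k`, `ε ≤ L ε / s_k`, so
`(U/θ - 1) r_ε ≥ (len k s - 1) rad g s - C' ε / s_k - C' e ≥ c |len k s - 1|³ - ...`;
`Q` is bounded below by the first property of `Dens.bd` in every coordinate. -/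
def StmB3 : Prop :=
  ∀ {n N : ℕ} (Ω : Set (Sp n)) (d : Fin N → ℝ) (m : Sp n → ℝ) (k : Fin N) (θ : Sp n → ℝ)
    (Dθ : Sp n → Sp n) (lθ : Sp n → ℝ) (P : ℝ), Base Ω d m k θ Dθ lθ P →
    ∀ (f : (Fin N → ℝ) → ℝ) (g : Fin N → (Fin N → ℝ) → ℝ) (h : Fin N → Fin N → (Fin N → ℝ) → ℝ),
      Dens d k f g h → ∀ M : ℝ,
    ∃ c C : ℝ, 0 < c ∧ 0 < C ∧ ∀ (ε : ℝ), 0 < ε → ε ≤ 1 →
    ∀ (u : Fin N → Sp n → ℝ) (Du : Fin N → Sp n → Sp n),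
      (∀ j, C1 Ω (u j) (Du j)) → (∀ j, ∀ x ∈ closure Ω, 0 ≤ u j x ∧ u j x ≤ M) →
      - (∫ x in Ω, θ x ^ 3 * ((∑ i, u i x) / θ x - 1) *
              ∑ j, (u j x / θ x) * g j (sh k ε θ u x))
          - (∫ x in Ω, θ x ^ 2 * ∑ c : Fin n, Qf d k g h (sh k ε θ u x)
              (fun j => Dsh θ Dθ u Du j x c) (((θ x)⁻¹ • Dθ x) c))
        ≤ - c * Dis Ω k θ Dθ ε u Du
          + C * (∫ x in Ω, ∑ j ∈ Finset.univ.filter (fun j => j < k), u j x)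
          + C * ∫ x in Ω, ε / (u k x / θ x + ε)

/-- **C** small dissipation implies small functional.
Proof. Poincaré for `s_j`, `j > k`, and for `Gl (s_k)` (gradient `(1 - 1/s_k) ∇s_k`).
(1) `∫ (s_j - c_j)² ≤ P ν`, so with `S = Sab`, `S̄ = ∑ c_j`: `∫ (S - S̄)² ≤ N² P ν`,
`S̄² ∫ |b|² ≤ 2 ∫ |b|² S² + 2 max |b|² ∫ (S - S̄)²`, and `∫ |b|² > 0` by `nc`: hence
`∫ S² ≤ C ν`.
(2) `y² ≤ δ² + y³/δ` for `y ≥ 0`: `∫ (len - 1)² ≤ δ² |Ω| + ν/δ`; so `∫ (s_k - 1)²` is small.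
(3) On `A = {|s_k - 1| ≤ 1/2}` one has `Gl ≤ 2 (s_k - 1)²`, `|A| ≥ |Ω|/2`; with
`∫ (Gl - c)² ≤ P ν` this bounds `c` and then `∫ Gl`. (4) last property of `Dens.bd`. -/
def StmC : Prop :=
  ∀ {n N : ℕ} (Ω : Set (Sp n)) (d : Fin N → ℝ) (m : Sp n → ℝ) (k : Fin N) (θ : Sp n → ℝ)
    (Dθ : Sp n → Sp n) (lθ : Sp n → ℝ) (P : ℝ), Base Ω d m k θ Dθ lθ P →
    ∀ (f : (Fin N → ℝ) → ℝ) (g : Fin N → (Fin N → ℝ) → ℝ) (h : Fin N → Fin N → (Fin N → ℝ) → ℝ),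
      Dens d k f g h → ∀ M : ℝ, ∀ η : ℝ, 0 < η →
    ∃ ν : ℝ, 0 < ν ∧ ∀ (ε : ℝ), 0 < ε → ε ≤ 1 →
    ∀ (u : Fin N → Sp n → ℝ) (Du : Fin N → Sp n → Sp n),
      (∀ j, C1 Ω (u j) (Du j)) → (∀ j, ∀ x ∈ closure Ω, 0 ≤ u j x ∧ u j x ≤ M) →
      Dis Ω k θ Dθ ε u Du ≤ ν → Phi Ω k f θ ε u - Pmin Ω k f θ ≤ η

/-- **D0** lower and upper bound of the masses along a solution.
Proof: `y(t) = ∫ u_j` has `y' = ∫ u_j (m - U)` (A3 and Green with `ψ = 1`), `|m - U| ≤ R`,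
so `y e^{R t}` is nondecreasing and `y e^{-R t}` is nonincreasing. -/
def StmD0 : Prop :=
  ∀ {n N : ℕ} (Ω : Set (Sp n)), IsOpen Ω → Bornology.IsBounded Ω →
    ∀ (d : Fin N → ℝ) (m : Sp n → ℝ), ContinuousOn m (closure Ω) → ∀ M : ℝ, ∃ R : ℝ, 0 ≤ R ∧
    ∀ (T : Set ℝ), IsOpen T → ∀ (a b : ℝ), a ≤ b → Icc a b ⊆ T →
    ∀ (u ut : Fin N → ℝ → Sp n → ℝ) (Du : Fin N → ℝ → Sp n → Sp n) (lu : Fin N → ℝ → Sp n → ℝ),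
      IsSol Ω d m T u ut Du lu → (∀ j, ∀ t ∈ Icc a b, ∀ x ∈ closure Ω, u j t x ≤ M) → ∀ j,
      (∫ x in Ω, u j a x) * Real.exp (- R * (b - a)) ≤ (∫ x in Ω, u j b x) ∧
      (∫ x in Ω, u j b x) ≤ (∫ x in Ω, u j a x) * Real.exp (R * (b - a))

/-- **D1** Riccati: if `x' ≤ C - κ x²` while `x > 0` on `[a, a+1]` then
`x (a+1) ≤ max (√(2C/κ)) (2/κ)`. -/
def StmD1 : Prop :=
  ∀ (C κ : ℝ), 0 ≤ C → 0 < κ → ∀ (a : ℝ) (y y' : ℝ → ℝ),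
    (∀ t ∈ Icc a (a + 1), HasDerivAt y (y' t) t) →
    (∀ t ∈ Icc a (a + 1), 0 < y t → y' t ≤ C - κ * y t ^ 2) →
    y (a + 1) ≤ max (Real.sqrt (2 * C / κ)) (2 / κ)

/-- **D2** logarithmic lower bound after time one.
Proof. `v = log (u_k + ε')`, `V = ∫ v`: `V' = d_k ∫ |∇v|² + ∫ u (m-U)/(u+ε')
≥ (d_k / P) ∫ (v - c)² - R |Ω|` (Green with `ψ = 1/(u+ε')`). On `[a, a+1]` the mass is `≥ A' > 0`
(D0), so `u ≥ A'/(2|Ω|)` on a set of measure `≥ A'/(2M)`; with `λ = log (A'/(2|Ω|))` and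
`v̄ = V/|Ω|`: if `v̄ < λ` then `∫ (v - v̄)² ≥ (A'/(2M)) (λ - v̄)²` and `∫ (v - v̄)² ≤ ∫ (v - c)²`.
D1 for `λ - v̄` gives `∫ v ≥ -K` at time `a+1`, hence the bound of the negative part. -/
def StmD2 : Prop :=
  ∀ {n N : ℕ} (Ω : Set (Sp n)) (d : Fin N → ℝ) (m : Sp n → ℝ) (k : Fin N) (θ : Sp n → ℝ)
    (Dθ : Sp n → Sp n) (lθ : Sp n → ℝ) (P : ℝ), Base Ω d m k θ Dθ lθ P →
    ∀ (M A : ℝ), 0 < A → ∃ K : ℝ, ∀ (T : Set ℝ), IsOpen T → ∀ (a : ℝ), Icc a (a + 1) ⊆ T →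
    ∀ (u ut : Fin N → ℝ → Sp n → ℝ) (Du : Fin N → ℝ → Sp n → Sp n) (lu : Fin N → ℝ → Sp n → ℝ),
      IsSol Ω d m T u ut Du lu →
      (∀ j, ∀ t ∈ Icc a (a + 1), ∀ x ∈ closure Ω, u j t x ≤ M) →
      A ≤ ∫ x in Ω, u k a x → ∀ ε : ℝ, 0 < ε → ε ≤ 1 →
      ∫ x in Ω, max 0 (- Real.log (u k (a + 1) x / θ x + ε)) ≤ K

/-- **E1** the error term. Proof: with `p = u_k/θ + ε ∈ [ε, L]` and `E = log (1/ε) > 0`:
`ε / p ≤ (1 + max 0 (-log p)) / E`; and `-log p ≤ C (1 + (f s - f (ek k)))` bounds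
`∫ max 0 (-log p)` by `Phi`. -/
def StmE1 : Prop :=
  ∀ {n N : ℕ} (Ω : Set (Sp n)) (d : Fin N → ℝ) (m : Sp n → ℝ) (k : Fin N) (θ : Sp n → ℝ)
    (Dθ : Sp n → Sp n) (lθ : Sp n → ℝ) (P : ℝ), Base Ω d m k θ Dθ lθ P →
    ∀ (f : (Fin N → ℝ) → ℝ) (g : Fin N → (Fin N → ℝ) → ℝ) (h : Fin N → Fin N → (Fin N → ℝ) → ℝ),
      Dens d k f g h → ∀ M M' : ℝ, ∀ η : ℝ, 0 < η →
    ∃ ε₀ : ℝ, 0 < ε₀ ∧ ε₀ ≤ 1 ∧ ∀ (ε : ℝ), 0 < ε → ε ≤ ε₀ →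
    ∀ (u : Fin N → Sp n → ℝ), (∀ j, ContinuousOn (u j) (closure Ω)) →
      (∀ j, ∀ x ∈ closure Ω, 0 ≤ u j x ∧ u j x ≤ M) → Phi Ω k f θ ε u ≤ M' →
      ∫ x in Ω, ε / (u k x / θ x + ε) ≤ η

/-- **E2** small functional implies closeness to `E_k`.
Proof: `c (|s_k - 1|³ + S²) ≤ f s - f (ek k)`; `y² ≤ δ² + y³/δ`. -/
def StmE2 : Prop :=
  ∀ {n N : ℕ} (Ω : Set (Sp n)) (d : Fin N → ℝ) (m : Sp n → ℝ) (k : Fin N) (θ : Sp n → ℝ)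
    (Dθ : Sp n → Sp n) (lθ : Sp n → ℝ) (P : ℝ), Base Ω d m k θ Dθ lθ P →
    ∀ (f : (Fin N → ℝ) → ℝ) (g : Fin N → (Fin N → ℝ) → ℝ) (h : Fin N → Fin N → (Fin N → ℝ) → ℝ),
      Dens d k f g h → ∀ M : ℝ, ∀ η : ℝ, 0 < η →
    ∃ ν : ℝ, 0 < ν ∧ ν ≤ 1 ∧ ∀ (ε : ℝ), 0 < ε → ε ≤ ν →
    ∀ (u : Fin N → Sp n → ℝ), (∀ j, ContinuousOn (u j) (closure Ω)) →
      (∀ j, ∀ x ∈ closure Ω, 0 ≤ u j x ∧ u j x ≤ M) →
      Phi Ω k f θ ε u - Pmin Ω k f θ ≤ ν →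
      (∫ x in Ω, (u k x - θ x) ^ 2) ≤ η ∧ ∀ j, k < j → (∫ x in Ω, u j x ^ 2) ≤ η

/-- **E3** the functional is bounded after time one: from the last property of `Dens.bd` and
D2 (`Gl p ≤ p + max 0 (-log p)`). -/
def StmE3 : Prop :=
  ∀ {n N : ℕ} (Ω : Set (Sp n)) (d : Fin N → ℝ) (m : Sp n → ℝ) (k : Fin N) (θ : Sp n → ℝ)
    (Dθ : Sp n → Sp n) (lθ : Sp n → ℝ) (P : ℝ), Base Ω d m k θ Dθ lθ P →
    ∀ (f : (Fin N → ℝ) → ℝ) (g : Fin N → (Fin N → ℝ) → ℝ) (h : Fin N → Fin N → (Fin N → ℝ) → ℝ),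
      Dens d k f g h → ∀ M K : ℝ, ∃ M' : ℝ, ∀ (ε : ℝ), 0 < ε → ε ≤ 1 →
    ∀ (u : Fin N → Sp n → ℝ), (∀ j, ContinuousOn (u j) (closure Ω)) →
      (∀ j, ∀ x ∈ closure Ω, 0 ≤ u j x ∧ u j x ≤ M) →
      (∫ x in Ω, max 0 (- Real.log (u k x / θ x + ε))) ≤ K → Phi Ω k f θ ε u ≤ M'

/-- **E4** comparison lemma. -/
def StmE4 : Prop :=
  ∀ (a b κ η M' : ℝ), a ≤ b → 0 < κ → η < M' → ∀ (y y' : ℝ → ℝ),
    (∀ t ∈ Icc a b, HasDerivAt y (y' t) t) → y a ≤ M' →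
    (∀ t ∈ Icc a b, η < y t → y t ≤ M' → y' t ≤ - κ) →
    ∀ t ∈ Icc a b, a + (M' - η) / κ ≤ t → y t ≤ η

/-- **Z** attraction. Proof: given `η`, take `ν₂` from E2, `ν₁` from C (for `ν₂ / 2`), `K` from D2,
`M'` from E3, `c, C` from B3, `ε` from E1 (for `c ν₁ / (4 C)`), `ε ≤ ν₂`, `ν = c ν₁ / (4 C)`. On
`[a+1, b]` the function `Phi` has derivative `≤ - c Dis + C ν + C err ≤ - c ν₁ / 2` as long as
`ν₂/2 < Phi - Pmin` and `Phi ≤ max M' (Pmin + ν₂/2)` (B1, B2, B3, C, E1); E4. -/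
def StmZ : Prop :=
  ∀ {n N : ℕ} (Ω : Set (Sp n)) (d : Fin N → ℝ) (m : Sp n → ℝ) (k : Fin N) (θ : Sp n → ℝ)
    (Dθ : Sp n → Sp n) (lθ : Sp n → ℝ) (P : ℝ), Base Ω d m k θ Dθ lθ P →
    ∀ (f : (Fin N → ℝ) → ℝ) (g : Fin N → (Fin N → ℝ) → ℝ) (h : Fin N → Fin N → (Fin N → ℝ) → ℝ),
      Dens d k f g h → ∀ (M A : ℝ), 0 < A → ∀ η : ℝ, 0 < η →
    ∃ τ ν : ℝ, 0 < τ ∧ 0 < ν ∧ ∀ (T : Set ℝ), IsOpen T → ∀ (a b : ℝ), a + 1 ≤ b → Icc a b ⊆ T →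
    ∀ (u ut : Fin N → ℝ → Sp n → ℝ) (Du : Fin N → ℝ → Sp n → Sp n) (lu : Fin N → ℝ → Sp n → ℝ),
      IsSol Ω d m T u ut Du lu → (∀ j, ∀ t ∈ Icc a b, ∀ x ∈ closure Ω, u j t x ≤ M) →
      A ≤ (∫ x in Ω, u k a x) →
      (∀ t ∈ Icc a b, (∫ x in Ω, ∑ j ∈ Finset.univ.filter (fun j => j < k), u j t x) ≤ ν) →
      ∀ t ∈ Icc (a + 1 + τ) b,
        (∫ x in Ω, (u k t x - θ x) ^ 2) ≤ η ∧ ∀ j, k < j → (∫ x in Ω, u j t x ^ 2) ≤ η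

/-- **F1** convergence in `L²` determines the limit set in `C(closure Ω)`.
Proof: a uniform limit `v` of `u (t_i)` has `∫ (v - E)² = 0`, continuity, positivity of the measure
on open sets, closure. -/
def StmF1 : Prop :=
  ∀ {n N : ℕ} (Ω : Set (Sp n)), IsOpen Ω → Bornology.IsBounded Ω → ∀ (l : Filter ℝ)
    (u : Fin N → ℝ → Sp n → ℝ) (E : Fin N → Sp n → ℝ),
    (∀ᶠ t in l, ∀ j, ContinuousOn (u j t) (closure Ω)) → (∀ j, ContinuousOn (E j) (closure Ω)) →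
    ConvTo Ω l u E → LimIn Ω l u E

/-- **F2** the gradient of a steady state is not zero if `m` is not constant.
Proof: otherwise `Dθ = 0` on `Ω`, `θ` is constant (Poincaré), and Green gives `∫ lθ ψ = 0` for all
test functions, so `lθ = 0` on `Ω` (`ae_eq_zero_of_integral_contDiff_smul_eq_zero` or similar),
`m = θ` is constant. -/
def StmF2 : Prop :=
  ∀ {n : ℕ} (Ω : Set (Sp n)), IsOpen Ω → Ω.Nonempty → Bornology.IsBounded Ω →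
    ∀ (P : ℝ), Poinc Ω P → ∀ (d : ℝ), 0 < d → ∀ (m : Sp n → ℝ), ContinuousOn m (closure Ω) →
    (∃ x ∈ closure Ω, ∃ y ∈ closure Ω, m x ≠ m y) →
    ∀ (θ : Sp n → ℝ) (Dθ : Sp n → Sp n) (lθ : Sp n → ℝ), Steady Ω d m θ Dθ lθ →
    0 < ∫ x in Ω, ‖Dθ x‖ ^ 2

/-- **F3** equilibria are entire trajectories, pairwise different. -/
def StmF3 : Prop :=
  ∀ {n N : ℕ} (Ω : Set (Sp n)), IsOpen Ω → Ω.Nonempty → Bornology.IsBounded Ω →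
    ∀ (d : Fin N → ℝ) (m : Sp n → ℝ) (θ : Fin N → Sp n → ℝ),
    (∀ j, IsSteady Ω (d j) m (θ j)) →
    (∀ i, Entire Ω d m (fun j _ x => Eqm θ i j x)) ∧
    ∀ i i', i ≠ i' → ∃ j, ∃ x ∈ closure Ω, Eqm θ i j x ≠ Eqm θ i' j x

/-- **M** the Morse decomposition from the densities. -/
def StmM : Prop :=
  ∀ {n N : ℕ} (Ω : Set (Sp n)), IsOpen Ω → Ω.Nonempty → Bornology.IsBounded Ω →
    ∀ (P : ℝ), Poinc Ω P → ∀ (d : Fin N → ℝ), (∀ j, 0 < d j) →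
    ∀ (m : Sp n → ℝ), ContinuousOn m (closure Ω) →
    (∃ x ∈ closure Ω, ∃ y ∈ closure Ω, m x ≠ m y) →
    ∀ (θ : Fin N → Sp n → ℝ), (∀ j, IsSteady Ω (d j) m (θ j)) →
    (∀ k, ∃ f g h, Dens d k f g h) → IsMorse Ω d m (Eqm θ)

/-- **P** domains with charts satisfy a Poincaré inequality. -/
def StmP : Prop :=
  ∀ {n : ℕ} (Ω : Set (Sp n)), Domain Ω → ∃ P : ℝ, 0 < P ∧ Poinc Ω P

end Pool.Agent.Lib.MP_d8ef8f_an.Gd
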