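import Mathlib
import Pool.Agent.Lib.MP_d8ef8f_an.Gd.Stm

/-! E4: comparison lemma. -/

set_option autoImplicit false

namespace Pool.Agent.Lib.MP_d8ef8f_an.Gd

open Set Filter Topology MeasureTheory

/-- to the right of a point with negative derivative the function is smaller -/
theorem e4_right {y : ℝ → ℝ} {s c : ℝ} (h : HasDerivAt y c s) (hc : c < 0) :
    ∀ᶠ t in 𝓝[>] s, y t < y s := by
  have h1 := h.hasDerivWithinAt (s := Ioi s)
  rw [hasDerivWithinAt_iff_tendsto_slope' (by simp)] at h1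
  have h2 : ∀ᶠ t in 𝓝[>] s, slope y s t < 0 := h1.eventually (gt_mem_nhds hc)
  filter_upwards [h2, self_mem_nhdsWithin] with t ht hts
  rw [slope_def_field] at ht
  have hpos : 0 < t - s := sub_pos.2 hts
  have := (div_neg_iff.1 ht)
  rcases this with h3 | h3
  · linarith [h3.2]
  · linarith [h3.1]

/-- barrier: if the function has negative derivative at the level `L`, it stays below `L` -/
theorem e4_barrier {a b L : ℝ} {y y' : ℝ → ℝ} (hd : ∀ t ∈ Icc a b, HasDerivAt y (y' t) t)
    (ha : y a ≤ L) (hL : ∀ t ∈ Icc a b, y t = L → y' t < 0) : ∀ t ∈ Icc a b, y t ≤ L := by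
  intro t ht
  by_contra hcon
  push Not at hcon
  -- the last point before `t` where `y ≤ L`
  let S : Set ℝ := {s | s ∈ Icc a t ∧ y s ≤ L}
  have hcont : ContinuousOn y (Icc a t) := fun s hs =>
    (hd s ⟨hs.1, hs.2.trans ht.2⟩).continuousAt.continuousWithinAt
  have hclosed : IsClosed S := by
    have : S = Icc a t ∩ y ⁻¹' (Iic L) := by
      ext s; simp [S]
    rw [this]
    exact hcont.preimage_isClosed_of_isClosed isClosed_Icc isClosed_Iic
  have hne : S.Nonempty := ⟨a, ⟨le_refl a, ht.1⟩, ha⟩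
  have hbdd : BddAbove S := ⟨t, fun s hs => hs.1.2⟩
  have hmem : sSup S ∈ S := hclosed.csSup_mem hne hbdd
  set s := sSup S with hs
  have hst : s < t := by
    rcases lt_or_eq_of_le hmem.1.2 with h | h
    · exact h
    · exfalso
      have := hmem.2
      rw [h] at this
      linarith
  have hgt : ∀ r, s < r → r ≤ t → L < y r := by
    intro r hr hrt
    by_contra hcon2
    push Not at hcon2
    have : r ≤ s := le_csSup hbdd ⟨⟨hmem.1.1.trans hr.le, hrt⟩, hcon2⟩
    linarith
  have hys : y s = L := by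
    apply le_antisymm hmem.2
    have hc : Tendsto y (𝓝[>] s) (𝓝 (y s)) :=
      (hd s ⟨hmem.1.1, hmem.1.2.trans ht.2⟩).continuousAt.tendsto.mono_left nhdsWithin_le_nhds
    refine ge_of_tendsto hc ?_
    have : Ioc s t ∈ 𝓝[>] s := Ioc_mem_nhdsGT hst
    filter_upwards [this] with r hr
    exact (hgt r hr.1 hr.2).le
  have hneg := hL s ⟨hmem.1.1, hmem.1.2.trans ht.2⟩ hys
  have hev := e4_right (hd s ⟨hmem.1.1, hmem.1.2.trans ht.2⟩) hneg
  have hio : Ioc s t ∈ 𝓝[>] s := Ioc_mem_nhdsGT hst
  obtain ⟨r, hr1, hr2⟩ := (hev.and hio).exists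
  have := hgt r hr2.1 hr2.2
  linarith

theorem e4_strict (a b κ η M' : ℝ) (_hab : a ≤ b) (hκ : 0 < κ) (hη : η < M') (y y' : ℝ → ℝ)
    (hd : ∀ t ∈ Icc a b, HasDerivAt y (y' t) t) (ha : y a ≤ M')
    (hy : ∀ t ∈ Icc a b, η < y t → y t ≤ M' → y' t ≤ - κ) :
    ∀ t ∈ Icc a b, a + (M' - η) / κ ≤ t → y t ≤ η := by
  intro t ht htt
  -- `y ≤ M'` everywhere
  have hM : ∀ s ∈ Icc a b, y s ≤ M' := by
    apply e4_barrier hd ha
    intro s hs hys
    have := hy s hs (by rw [hys]; exact hη) hys.le
    linarith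
  by_contra hcon
  push Not at hcon
  -- for every level `L > η` close to `η` : once below `L`, always below `L`
  have habove : ∀ s ∈ Icc a t, η < y s := by
    intro s hs
    by_contra hcon2
    push Not at hcon2
    -- choose a level `L` between `η` and `min (y t) M'`
    have hyt := hM t ht
    have h1 : η < (η + y t) / 2 := by linarith
    have h2 : (η + y t) / 2 < y t := by linarith
    have := e4_barrier (a := s) (b := t) (L := (η + y t) / 2) (y := y) (y' := y')
      (fun r hr => hd r ⟨hs.1.trans hr.1, hr.2.trans ht.2⟩) (by linarith)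
      (fun r hr hyr => by
        have := hy r ⟨hs.1.trans hr.1, hr.2.trans ht.2⟩ (by rw [hyr]; exact h1)
          (by rw [hyr]; linarith)
        linarith) t ⟨hs.2, le_refl t⟩
    linarith
  -- then `y` decreases with speed `κ` on the whole interval
  have hat : a < t := by
    have : 0 < (M' - η) / κ := div_pos (by linarith) hκ
    linarith
  have hmv : ∃ c ∈ Ioo a t, y' c = (y t - y a) / (t - a) :=
    exists_hasDerivAt_eq_slope y y' hat
      (fun r hr => (hd r ⟨hr.1, hr.2.trans ht.2⟩).continuousAt.continuousWithinAt)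
      (fun r hr => hd r ⟨hr.1.le, hr.2.le.trans ht.2⟩)
  obtain ⟨c, hc, hceq⟩ := hmv
  have hc' : c ∈ Icc a b := ⟨hc.1.le, hc.2.le.trans ht.2⟩
  have h3 := hy c hc' (habove c ⟨hc.1.le, hc.2.le⟩) (hM c hc')
  rw [hceq, div_le_iff₀ (by linarith)] at h3
  have h4 : M' - η ≤ κ * (t - a) := by
    have : (M' - η) / κ ≤ t - a := by linarith
    rw [div_le_iff₀ hκ] at this
    linarith
  linarith

theorem p_E4 : StmE4 := by
  intro a b κ η M' hab hκ hη y y' hd ha hy
  exact e4_strict a b κ η M' hab hκ hη y y' hd ha hy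

end Pool.Agent.Lib.MP_d8ef8f_an.Gd
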