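import Pool.Agent.Lib.MP_d8ef8f_an.Gd.Stm

/-!
# F1: convergence in `L²` determines the limit set in `C(closure Ω)`
-/

set_option autoImplicit false

namespace Pool.Agent.Lib.MP_d8ef8f_an.Gd

open Set Filter Topology MeasureTheory

theorem p_F1 (a2 : StmA2) : StmF1 := by
  intro n N Ω hO hb l u E hu hE hc
  refine ⟨hc, ?_⟩
  rintro v ⟨t, ht, hv⟩ j x hx
  by_contra hne
  have hut : ∀ᶠ i in atTop, ContinuousOn (u j (t i)) (closure Ω) :=
    (ht.eventually hu).mono fun i hi => hi j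
  have hvc : ContinuousOn (v j) (closure Ω) := (hv j).continuousOn hut.frequently
  have hgc : ContinuousOn (fun y => |v j y - E j y|) (closure Ω) := (hvc.sub (hE j)).abs
  have hpos : 0 < |v j x - E j x| := abs_pos.2 (sub_ne_zero.2 hne)
  obtain ⟨δ, hδ, hδ'⟩ : ∃ δ : ℝ, 0 < δ ∧ 2 * δ < |v j x - E j x| :=
    ⟨|v j x - E j x| / 4, by positivity, by linarith⟩
  -- a neighbourhood on which `|v - E| > 2 δ`
  have hev : ∀ᶠ y in 𝓝[closure Ω] x, 2 * δ < |v j y - E j y| :=
    (hgc x hx).eventually (lt_mem_nhds hδ')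
  rw [eventually_nhdsWithin_iff, eventually_nhds_iff] at hev
  obtain ⟨U, hU, hUo, hxU⟩ := hev
  have hne' : (U ∩ Ω).Nonempty := mem_closure_iff.1 hx U hUo hxU
  have hUΩo : IsOpen (U ∩ Ω) := hUo.inter hO
  have hvol : 0 < volume.real (U ∩ Ω) := by
    refine ENNReal.toReal_pos (hUΩo.measure_pos volume hne').ne' ?_
    exact ((hb.subset inter_subset_right).measure_lt_top).ne
  -- eventually close
  have h1 : ∀ᶠ i in atTop, ∀ y ∈ closure Ω, dist (v j y) (u j (t i) y) < δ :=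
    Metric.tendstoUniformlyOn_iff.1 (hv j) δ hδ
  have h2 : Tendsto (fun i => ∫ y in Ω, (u j (t i) y - E j y) ^ 2) atTop (𝓝 0) :=
    (hc j).comp ht
  have h3 : ∀ᶠ i in atTop, (∫ y in Ω, (u j (t i) y - E j y) ^ 2) < δ ^ 2 * volume.real (U ∩ Ω) :=
    h2.eventually (gt_mem_nhds (by positivity))
  obtain ⟨i, hi1, hi2, hi3⟩ := (h1.and (h3.and hut)).exists
  have hint : IntegrableOn (fun y => (u j (t i) y - E j y) ^ 2) Ω :=
    a2 Ω hb _ ((hi3.sub (hE j)).pow 2)
  have h4 : ∫ y in U ∩ Ω, (u j (t i) y - E j y) ^ 2 ≤ ∫ y in Ω, (u j (t i) y - E j y) ^ 2 :=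
    setIntegral_mono_set hint (ae_of_all _ fun y => sq_nonneg _)
      (Filter.Eventually.of_forall fun y hy => inter_subset_right hy)
  have h5 : ∫ y in U ∩ Ω, (δ ^ 2 : ℝ) ≤ ∫ y in U ∩ Ω, (u j (t i) y - E j y) ^ 2 := by
    refine setIntegral_mono_on ?_ (hint.mono_set inter_subset_right) hUΩo.measurableSet ?_
    · exact integrableOn_const ((hb.subset inter_subset_right).measure_lt_top).ne
    · rintro y ⟨hyU, hyΩ⟩
      have hyc : y ∈ closure Ω := subset_closure hyΩ
      have h6 := hU y hyU hyc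
      have h7 := hi1 y hyc
      rw [Real.dist_eq] at h7
      have h8 : |v j y - E j y| ≤ |v j y - u j (t i) y| + |u j (t i) y - E j y| :=
        abs_sub_le _ _ _
      have h9 : δ ≤ |u j (t i) y - E j y| := by linarith
      rw [← sq_abs (u j (t i) y - E j y)]
      exact pow_le_pow_left₀ hδ.le h9 2
  rw [setIntegral_const, smul_eq_mul] at h5
  nlinarith [h4, h5, hi2]

end Pool.Agent.Lib.MP_d8ef8f_an.Gd
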