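import Pool.Agent.Lib.MP_d8ef8f_an.Gd.Stm

/-!
# F2: the gradient of a steady state is not zero if `m` is not constant
-/

set_option autoImplicit false

namespace Pool.Agent.Lib.MP_d8ef8f_an.Gd

open Set Filter Topology MeasureTheory

theorem p_F2 (a2 : StmA2) : StmF2 := by
  intro n Ω hO hne hb P hP d hd m hm hmne θ Dθ lθ st
  have h0 : 0 ≤ ∫ x in Ω, ‖Dθ x‖ ^ 2 := integral_nonneg fun x => sq_nonneg _
  rcases h0.lt_or_eq with h | h
  · exact h
  exfalso
  -- a function continuous on the closure and a.e. zero on `Ω` vanishes on the closure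
  have ext : ∀ F : Sp n → ℝ, ContinuousOn F (closure Ω) →
      F =ᵐ[volume.restrict Ω] (fun _ => (0 : ℝ)) → ∀ x ∈ closure Ω, F x = 0 := by
    intro F hF hae
    have h1 : EqOn F (fun _ => (0 : ℝ)) Ω :=
      Measure.eqOn_open_of_ae_eq hae hO (hF.mono subset_closure) continuousOn_const
    exact h1.of_subset_closure hF continuousOn_const subset_closure subset_rfl
  have key : ∀ F : Sp n → ℝ, ContinuousOn F (closure Ω) → (∀ x, 0 ≤ F x) →
      ∫ x in Ω, F x = 0 → ∀ x ∈ closure Ω, F x = 0 := by
    intro F hF hF0 hi
    refine ext F hF ?_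
    exact (setIntegral_eq_zero_iff_of_nonneg_ae (ae_of_all _ hF0) (a2 Ω hb F hF)).1 hi
  -- the gradient vanishes
  have hD : ∀ x ∈ closure Ω, Dθ x = 0 := by
    intro x hx
    have := key (fun x => ‖Dθ x‖ ^ 2) (st.lap.c1.contD.norm.pow 2) (fun x => sq_nonneg _) h.symm
      x hx
    simpa using this
  -- `θ` is constant
  obtain ⟨c, hc⟩ := hP θ Dθ st.lap.c1
  rw [← h, mul_zero] at hc
  have hθ : ∀ x ∈ closure Ω, θ x = c := by
    intro x hx
    have h1 : ∫ x in Ω, (θ x - c) ^ 2 = 0 :=
      le_antisymm hc (integral_nonneg fun x => sq_nonneg _)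
    have := key (fun x => (θ x - c) ^ 2) ((st.lap.c1.cont.sub continuousOn_const).pow 2)
      (fun x => sq_nonneg _) h1 x hx
    have h2 : θ x - c = 0 := by simpa using this
    linarith
  -- the Laplacian vanishes
  have hl : ∀ x ∈ closure Ω, lθ x = 0 := by
    refine ext lθ st.lap.cont ?_
    have h1 : ∀ᵐ x ∂(volume : Measure (Sp n)), x ∈ Ω → lθ x = 0 := by
      refine hO.ae_eq_zero_of_integral_contDiff_smul_eq_zero ?_ ?_
      · exact (a2 Ω hb lθ st.lap.cont).locallyIntegrableOn
      · intro g hg hgc hgs
        have hg1 : C1 Ω g (fun x => (InnerProductSpace.toDual ℝ (Sp n)).symm (fderiv ℝ g x)) := by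
          refine ⟨hg.continuous.continuousOn, ?_, ?_⟩
          · refine ((InnerProductSpace.toDual ℝ (Sp n)).symm.continuous.comp
              (hg.continuous_fderiv (by simp))).continuousOn
          · intro x _
            rw [hasGradientAt_iff_hasFDerivAt]
            simpa using (hg.differentiable (by simp) x).hasFDerivAt
        have h2 := st.lap.green g _ hg1
        have h3 : ∫ x in Ω, inner ℝ (Dθ x)
            ((InnerProductSpace.toDual ℝ (Sp n)).symm (fderiv ℝ g x)) = 0 := by
          rw [setIntegral_congr_fun hO.measurableSet (g := fun _ => (0 : ℝ)) (fun x hx => ?_)]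
          · simp
          · simp only [hD x (subset_closure hx), inner_zero_left]
        rw [h3, neg_zero] at h2
        rw [← setIntegral_eq_integral_of_forall_compl_eq_zero (s := Ω) (fun x hx => ?_)]
        · rw [← h2]
          refine setIntegral_congr_fun hO.measurableSet fun x _ => ?_
          simp only [smul_eq_mul]
          ring
        · have h4 : g x = 0 := by
            by_contra h5
            exact hx (hgs (subset_tsupport g h5))
          rw [h4, zero_smul]
    exact (ae_restrict_iff' hO.measurableSet).2 h1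
  -- so `m` is constant
  have hmc : ∀ x ∈ closure Ω, m x = c := by
    intro x hx
    have h1 := st.eq x hx
    have h2 := st.pos x hx
    rw [hl x hx, mul_zero, zero_add] at h1
    rcases mul_eq_zero.1 h1 with h3 | h3
    · exact absurd h3 h2.ne'
    · rw [← hθ x hx]
      linarith
  obtain ⟨x, hx, y, hy, hxy⟩ := hmne
  exact hxy ((hmc x hx).trans (hmc y hy).symm)

end Pool.Agent.Lib.MP_d8ef8f_an.Gd
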