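import Pool.Agent.Lib.MP_d8ef8f_an.Gd.Stm

/-!
# F3: equilibria are entire trajectories, pairwise different
-/

set_option autoImplicit false

namespace Pool.Agent.Lib.MP_d8ef8f_an.Gd

open Set Filter Topology MeasureTheory

private theorem f3_zero {n : ℕ} (Ω : Set (Sp n)) :
    NeuLap Ω (fun _ => (0 : ℝ)) (fun _ => (0 : Sp n)) (fun _ => (0 : ℝ)) := by
  refine ⟨⟨continuousOn_const, continuousOn_const, fun x _ => hasGradientAt_const x (0 : ℝ)⟩,
    continuousOn_const, fun ψ Dψ _ => ?_⟩
  simp

theorem p_F3 : StmF3 := by
  intro n N Ω hO hne hb d m θ hθ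
  choose Dθ lθ st using hθ
  have hcomp : IsCompact (closure Ω) := hb.isCompact_closure
  have hsnd : ∀ T : Set ℝ, MapsTo (fun p : ℝ × Sp n => p.2) (T ×ˢ closure Ω) (closure Ω) :=
    fun T p hp => hp.2
  constructor
  · intro i
    refine ⟨⟨fun _ _ _ => 0, fun j _ x => if (j : ℕ) = (i : ℕ) then Dθ j x else 0,
      fun j _ x => if (j : ℕ) = (i : ℕ) then lθ j x else 0, ?_⟩, ?_⟩
    · refine ⟨?_, ?_, ?_, ?_, ?_, ?_, ?_, ?_⟩
      · intro j
        by_cases hj : (j : ℕ) = (i : ℕ)
        · simp only [Eqm, hj, if_true]
          exact (st j).lap.c1.cont.comp continuousOn_snd (hsnd _)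
        · simp only [Eqm, hj, if_false]
          exact continuousOn_const
      · intro j
        exact continuousOn_const
      · intro j
        by_cases hj : (j : ℕ) = (i : ℕ)
        · simp only [hj, if_true]
          exact (st j).lap.c1.contD.comp continuousOn_snd (hsnd _)
        · simp only [hj, if_false]
          exact continuousOn_const
      · intro j
        by_cases hj : (j : ℕ) = (i : ℕ)
        · simp only [hj, if_true]
          exact (st j).lap.cont.comp continuousOn_snd (hsnd _)
        · simp only [hj, if_false]
          exact continuousOn_const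
      · intro j t _ x _
        exact hasDerivAt_const t _
      · intro j t _
        by_cases hj : (j : ℕ) = (i : ℕ)
        · have h1 : (fun x => Eqm θ i j x) = θ j := by
            funext x
            simp only [Eqm, hj, if_true]
          simp only [hj, if_true]
          rw [h1]
          exact (st j).lap
        · have h1 : (fun x => Eqm θ i j x) = fun _ => 0 := by
            funext x
            simp only [Eqm, hj, if_false]
          simp only [hj, if_false]
          rw [h1]
          exact f3_zero Ω
      · intro j t _ x hx
        by_cases hj : (j : ℕ) = (i : ℕ)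
        · simp only [Eqm, hj, if_true]
          exact ((st j).pos x hx).le
        · simp only [Eqm, hj, if_false]
          exact le_rfl
      · intro j t _ x hx
        by_cases hj : (j : ℕ) = (i : ℕ)
        · have h1 : ∑ k, Eqm θ i k x = θ j x := by
            rw [Finset.sum_eq_single j]
            · simp only [Eqm, hj, if_true]
            · intro k _ hk
              have : (k : ℕ) ≠ (i : ℕ) := by
                intro h
                exact hk (Fin.ext (h.trans hj.symm))
              simp only [Eqm, this, if_false]
            · intro h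
              exact absurd (Finset.mem_univ j) h
          have h2 : Eqm θ i j x = θ j x := by
            simp only [Eqm, hj, if_true]
          have h3 := (st j).eq x hx
          simp only [h1, h2, hj, if_true]
          exact h3.symm
        · have h2 : Eqm θ i j x = 0 := by
            simp only [Eqm, hj, if_false]
          simp only [h2, hj, if_false, mul_zero, zero_mul, add_zero]
    · have hbd : ∀ j : Fin N, ∃ C : ℝ, ∀ x ∈ closure Ω, θ j x ≤ C := by
        intro j
        obtain ⟨C, hC⟩ := hcomp.bddAbove_image (st j).lap.c1.cont
        exact ⟨C, fun x hx => hC ⟨x, hx, rfl⟩⟩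
      choose C hC using hbd
      refine ⟨∑ j, |C j|, fun j t x hx => ?_⟩
      have h1 : |C j| ≤ ∑ j, |C j| :=
        Finset.single_le_sum (f := fun j => |C j|) (fun i _ => abs_nonneg _) (Finset.mem_univ j)
      by_cases hj : (j : ℕ) = (i : ℕ)
      · simp only [Eqm, hj, if_true]
        exact ((hC j x hx).trans (le_abs_self _)).trans h1
      · simp only [Eqm, hj, if_false]
        exact (abs_nonneg _).trans h1
  · obtain ⟨x, hx⟩ := hne
    have hx' : x ∈ closure Ω := subset_closure hx
    have hmain : ∀ i i' : Fin (N + 1), i ≠ i' → (i : ℕ) < N →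
        ∃ j, ∃ x ∈ closure Ω, Eqm θ i j x ≠ Eqm θ i' j x := by
      intro i i' hii hi
      refine ⟨⟨i, hi⟩, x, hx', ?_⟩
      have h1 : (i : ℕ) ≠ (i' : ℕ) := fun h => hii (Fin.ext h)
      simp only [Eqm, h1, if_true, if_false]
      exact ((st _).pos x hx').ne'
    intro i i' hii
    by_cases hi : (i : ℕ) < N
    · exact hmain i i' hii hi
    · have h1 := i.isLt
      have h2 := i'.isLt
      have h3 : (i : ℕ) ≠ (i' : ℕ) := fun h => hii (Fin.ext h)
      obtain ⟨j, y, hy, hyy⟩ := hmain i' i hii.symm (by omega)
      exact ⟨j, y, hy, hyy.symm⟩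

end Pool.Agent.Lib.MP_d8ef8f_an.Gd
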