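import Pool.Agent.Lib.MP_d8ef8f_an.Gd.StmP

set_option autoImplicit false

namespace Pool.Agent.Lib.MP_d8ef8f_an.Gd

open Set Filter Topology MeasureTheory
open scoped ENNReal

lemma p2_cube_open (n : ℕ) : IsOpen (cube n) := by
  have : cube n = ⋂ i, {y : Sp n | 0 < y i ∧ y i < 1} := by
    ext y; simp [cube]
  rw [this]
  refine isOpen_iInter_of_finite fun i => ?_
  have hc : Continuous fun y : Sp n => y i := by fun_prop
  exact (isOpen_lt continuous_const hc).inter (isOpen_lt hc continuous_const)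

lemma p2_seg {n : ℕ} {x y : Sp n} (hx : x ∈ cube n) (hy : y ∈ cube n) {t : ℝ} (h0 : 0 ≤ t)
    (h1 : t ≤ 1) : y + t • (x - y) ∈ cube n := by
  intro i
  have e : (y + t • (x - y)) i = (1 - t) * y i + t * x i := by
    simp only [PiLp.add_apply, PiLp.smul_apply, PiLp.sub_apply, smul_eq_mul]
    ring
  rw [e]
  have hxi := hx i
  have hyi := hy i
  rcases eq_or_lt_of_le h0 with h | h
  · subst h; simpa using hyi
  · constructor
    · nlinarith
    · nlinarith

lemma p2_norm {n : ℕ} {x y : Sp n} (hx : x ∈ cube n) (hy : y ∈ cube n) : ‖x - y‖ ^ 2 ≤ n := by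
  rw [EuclideanSpace.norm_sq_eq]
  calc ∑ i, ‖(x - y) i‖ ^ 2 ≤ ∑ _i : Fin n, (1 : ℝ) := by
        refine Finset.sum_le_sum fun i _ => ?_
        have hxi := hx i
        have hyi := hy i
        rw [PiLp.sub_apply, Real.norm_eq_abs, sq_abs]
        nlinarith
    _ = n := by simp

lemma p2_bdd (n : ℕ) : Bornology.IsBounded (cube n) := by
  rw [Metric.isBounded_iff]
  refine ⟨Real.sqrt n, fun x hx y hy => ?_⟩
  rw [dist_eq_norm]
  exact Real.le_sqrt_of_sq_le (p2_norm hx hy)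

/-- one dimensional estimate along a segment -/
lemma p2_line {n : ℕ} {v : Sp n → ℝ} {v' : Sp n → Sp n →L[ℝ] ℝ} {B : ℝ}
    (h1 : ∀ y ∈ cube n, HasFDerivAt v (v' y) y) (h2 : ∀ y ∈ cube n, ‖v' y‖ ≤ B)
    {x y : Sp n} (hx : x ∈ cube n) (hy : y ∈ cube n) :
    IntegrableOn (fun t : ℝ => ‖fderiv ℝ v (y + t • (x - y))‖ ^ 2) (Ioc 0 1) ∧
    (v x - v y) ^ 2 ≤ n * ∫ t in Ioc (0:ℝ) 1, ‖fderiv ℝ v (y + t • (x - y))‖ ^ 2 := by
  have hB : 0 ≤ B := (norm_nonneg _).trans (h2 x hx)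
  have hseg : ∀ t ∈ Icc (0:ℝ) 1, y + t • (x - y) ∈ cube n := fun t ht => p2_seg hx hy ht.1 ht.2
  have hγc : Continuous fun t : ℝ => y + t • (x - y) := by fun_prop
  have hm : Measurable fun t : ℝ => fderiv ℝ v (y + t • (x - y)) :=
    (measurable_fderiv ℝ v).comp hγc.measurable
  have hfd : ∀ t ∈ Icc (0:ℝ) 1, fderiv ℝ v (y + t • (x - y)) = v' (y + t • (x - y)) :=
    fun t ht => (h1 _ (hseg t ht)).fderiv
  have hm1 : Measurable fun t : ℝ => fderiv ℝ v (y + t • (x - y)) (x - y) :=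
    hm.apply_continuousLinearMap (x - y)
  have hb1 : ∀ t ∈ Icc (0:ℝ) 1, ‖fderiv ℝ v (y + t • (x - y)) (x - y)‖ ≤ B * ‖x - y‖ := by
    intro t ht
    rw [hfd t ht]
    exact (ContinuousLinearMap.le_opNorm _ _).trans
      (mul_le_mul_of_nonneg_right (h2 _ (hseg t ht)) (norm_nonneg _))
  have hfin : volume (Ioc (0:ℝ) 1) ≠ ⊤ := measure_Ioc_lt_top.ne
  have hi1 : IntegrableOn (fun t : ℝ => fderiv ℝ v (y + t • (x - y)) (x - y)) (Ioc 0 1) := by
    refine Measure.integrableOn_of_bounded (M := B * ‖x - y‖) hfin hm1.aestronglyMeasurable ?_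
    filter_upwards [ae_restrict_mem measurableSet_Ioc] with t ht
    exact hb1 t ⟨ht.1.le, ht.2⟩
  have hi2 : IntegrableOn (fun t : ℝ => (fderiv ℝ v (y + t • (x - y)) (x - y)) ^ 2)
      (Ioc 0 1) := by
    refine Measure.integrableOn_of_bounded (M := (B * ‖x - y‖) ^ 2) hfin
      (hm1.pow_const 2).aestronglyMeasurable ?_
    filter_upwards [ae_restrict_mem measurableSet_Ioc] with t ht
    rw [norm_pow]
    exact pow_le_pow_left₀ (norm_nonneg _) (hb1 t ⟨ht.1.le, ht.2⟩) 2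
  have hi3 : IntegrableOn (fun t : ℝ => ‖fderiv ℝ v (y + t • (x - y))‖ ^ 2) (Ioc 0 1) := by
    refine Measure.integrableOn_of_bounded (M := B ^ 2) hfin
      (hm.norm.pow_const 2).aestronglyMeasurable ?_
    filter_upwards [ae_restrict_mem measurableSet_Ioc] with t ht
    rw [norm_pow, norm_norm, hfd t ⟨ht.1.le, ht.2⟩]
    exact pow_le_pow_left₀ (norm_nonneg _) (h2 _ (hseg t ⟨ht.1.le, ht.2⟩)) 2
  refine ⟨hi3, ?_⟩
  have hftc : ∫ t in Ioc (0:ℝ) 1, fderiv ℝ v (y + t • (x - y)) (x - y) = v x - v y := by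
    rw [← intervalIntegral.integral_of_le zero_le_one]
    have := intervalIntegral.integral_eq_sub_of_hasDerivAt (a := (0:ℝ)) (b := 1)
      (f := fun t => v (y + t • (x - y)))
      (f' := fun t : ℝ => fderiv ℝ v (y + t • (x - y)) (x - y)) ?_ ?_
    · rw [this]; simp
    · intro t ht
      rw [uIcc_of_le zero_le_one] at ht
      have hγ : HasDerivAt (fun t : ℝ => y + t • (x - y)) (x - y) t := by
        simpa using ((hasDerivAt_id t).smul_const (x - y)).const_add y
      have := (h1 _ (hseg t ht)).comp_hasDerivAt t hγ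
      rw [hfd t ht]
      exact this
    · rw [intervalIntegrable_iff_integrableOn_Ioc_of_le zero_le_one]
      exact hi1
  set I := v x - v y with hI
  have hvol : volume.real (Ioc (0:ℝ) 1) = 1 := by simp
  have hcs : I ^ 2 ≤ ∫ t in Ioc (0:ℝ) 1, (fderiv ℝ v (y + t • (x - y)) (x - y)) ^ 2 := by
    have h0 : 0 ≤ ∫ t in Ioc (0:ℝ) 1, (fderiv ℝ v (y + t • (x - y)) (x - y) - I) ^ 2 :=
      integral_nonneg fun _ => sq_nonneg _
    have e : (fun t : ℝ => (fderiv ℝ v (y + t • (x - y)) (x - y) - I) ^ 2)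
        = fun t : ℝ => ((fderiv ℝ v (y + t • (x - y)) (x - y)) ^ 2
          + (-(2 * I)) * fderiv ℝ v (y + t • (x - y)) (x - y)) + I ^ 2 := by
      funext t; ring
    have hl : IntegrableOn (fun t : ℝ => (-(2 * I)) * fderiv ℝ v (y + t • (x - y)) (x - y))
        (Ioc 0 1) := hi1.const_mul _
    have hc : IntegrableOn (fun _ : ℝ => I ^ 2) (Ioc 0 1) := integrableOn_const hfin
    have s1 : ∫ t in Ioc (0:ℝ) 1, (((fderiv ℝ v (y + t • (x - y)) (x - y)) ^ 2
          + (-(2 * I)) * fderiv ℝ v (y + t • (x - y)) (x - y)) + I ^ 2)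
        = (∫ t in Ioc (0:ℝ) 1, ((fderiv ℝ v (y + t • (x - y)) (x - y)) ^ 2
          + (-(2 * I)) * fderiv ℝ v (y + t • (x - y)) (x - y))) + ∫ _t in Ioc (0:ℝ) 1, I ^ 2 :=
      integral_add (hi2.add hl) hc
    rw [e, s1, integral_add hi2 hl, integral_const_mul, hftc, setIntegral_const, hvol,
      smul_eq_mul, one_mul] at h0
    nlinarith
  have hmono : ∫ t in Ioc (0:ℝ) 1, (fderiv ℝ v (y + t • (x - y)) (x - y)) ^ 2
      ≤ ∫ t in Ioc (0:ℝ) 1, n * ‖fderiv ℝ v (y + t • (x - y))‖ ^ 2 := by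
    refine setIntegral_mono hi2 (hi3.const_mul _) fun t => ?_
    have hle := ContinuousLinearMap.le_opNorm (fderiv ℝ v (y + t • (x - y))) (x - y)
    have hn := p2_norm hx hy
    calc (fderiv ℝ v (y + t • (x - y)) (x - y)) ^ 2
        = ‖fderiv ℝ v (y + t • (x - y)) (x - y)‖ ^ 2 := by rw [Real.norm_eq_abs, sq_abs]
      _ ≤ (‖fderiv ℝ v (y + t • (x - y))‖ * ‖x - y‖) ^ 2 :=
          pow_le_pow_left₀ (norm_nonneg _) hle 2
      _ = ‖x - y‖ ^ 2 * ‖fderiv ℝ v (y + t • (x - y))‖ ^ 2 := by ring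
      _ ≤ n * ‖fderiv ℝ v (y + t • (x - y))‖ ^ 2 :=
          mul_le_mul_of_nonneg_right hn (sq_nonneg _)
  rw [integral_const_mul] at hmono
  exact hcs.trans hmono

/-- affine change of variables -/
lemma p2_affine {n : ℕ} {G : Sp n → ℝ≥0∞} (hG : Measurable G) (c : Sp n) {t : ℝ}
    (ht : 1 / 2 ≤ t) : ∫⁻ x, G (c + t • x) ≤ 2 ^ n * ∫⁻ x, G x := by
  have ht0 : t ≠ 0 := by linarith
  have h1 : ∫⁻ x, G (c + t • x) = ∫⁻ z, G (c + z) ∂(Measure.map (t • ·) volume) := by
    rw [lintegral_map]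
    · exact hG.comp (measurable_const_add c)
    · exact measurable_const_smul t
  rw [h1, Measure.map_addHaar_smul _ ht0, lintegral_smul_measure, lintegral_add_left_eq_self]
  rw [smul_eq_mul]
  refine mul_le_mul_left ?_ _
  rw [finrank_euclideanSpace, Fintype.card_fin]
  have h2 : |(t ^ n)⁻¹| ≤ 2 ^ n := by
    rw [abs_inv, abs_pow, ← inv_pow]
    refine pow_le_pow_left₀ (by positivity) ?_ n
    rw [abs_of_nonneg (by linarith)]
    rw [inv_le_comm₀ (by linarith) (by norm_num)]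
    linarith
  calc ENNReal.ofReal |(t ^ n)⁻¹| ≤ ENNReal.ofReal (2 ^ n) := ENNReal.ofReal_le_ofReal h2
    _ = 2 ^ n := by
        rw [ENNReal.ofReal_pow (by norm_num)]
        norm_num

/-- the bound for fixed `t` -/
lemma p2_fixed {n : ℕ} {G : Sp n → ℝ≥0∞} (hG : Measurable G) (t : ℝ) :
    ∫⁻ x in cube n, ∫⁻ y in cube n, G (y + t • (x - y))
      ≤ (2 ^ n * ∫⁻ w, G w) * volume (cube n) := by
  have hm : Measurable fun p : Sp n × Sp n => G (p.2 + t • (p.1 - p.2)) := by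
    apply hG.comp
    fun_prop
  rcases le_total (1 / 2) t with ht | ht
  · rw [lintegral_lintegral_swap (f := fun x y => G (y + t • (x - y))) hm.aemeasurable]
    calc ∫⁻ y in cube n, ∫⁻ x in cube n, G (y + t • (x - y))
        ≤ ∫⁻ _y in cube n, (2 ^ n * ∫⁻ w, G w) := by
          refine lintegral_mono fun y => ?_
          calc ∫⁻ x in cube n, G (y + t • (x - y)) ≤ ∫⁻ x, G (y + t • (x - y)) :=
                setLIntegral_le_lintegral _ _
            _ = ∫⁻ x, G ((y - t • y) + t • x) := by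
                refine lintegral_congr fun x => ?_
                congr 1
                rw [smul_sub]
                abel
            _ ≤ _ := p2_affine hG _ ht
      _ = _ := setLIntegral_const _ _
  · calc ∫⁻ x in cube n, ∫⁻ y in cube n, G (y + t • (x - y))
        ≤ ∫⁻ _x in cube n, (2 ^ n * ∫⁻ w, G w) := by
          refine lintegral_mono fun x => ?_
          calc ∫⁻ y in cube n, G (y + t • (x - y)) ≤ ∫⁻ y, G (y + t • (x - y)) :=
                setLIntegral_le_lintegral _ _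
            _ = ∫⁻ y, G (t • x + (1 - t) • y) := by
                refine lintegral_congr fun y => ?_
                congr 1
                rw [smul_sub, sub_smul, one_smul]
                abel
            _ ≤ _ := p2_affine hG _ (by linarith)
      _ = _ := setLIntegral_const _ _

theorem p_P2 : StmP2 := by
  intro n
  have hVfin : volume (cube n) ≠ ⊤ := (p2_bdd n).measure_lt_top.ne
  have hms : MeasurableSet (cube n) := (p2_cube_open n).measurableSet
  refine ⟨n * (2 ^ n * volume.real (cube n)), by positivity, ?_⟩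
  intro v v' B h1 h2
  set G : Sp n → ℝ≥0∞ := (cube n).indicator (fun w => ENNReal.ofReal (‖fderiv ℝ v w‖ ^ 2))
    with hGdef
  have hfm : Measurable fun w : Sp n => ‖fderiv ℝ v w‖ ^ 2 :=
    (measurable_fderiv ℝ v).norm.pow_const 2
  have hGm : Measurable G := hfm.ennreal_ofReal.indicator hms
  have hI0 : 0 ≤ ∫ w in cube n, ‖v' w‖ ^ 2 := integral_nonneg fun _ => sq_nonneg _
  have hGi : ∫⁻ w, G w = ENNReal.ofReal (∫ w in cube n, ‖v' w‖ ^ 2) := by
    have e : ∫ w in cube n, ‖v' w‖ ^ 2 = ∫ w in cube n, ‖fderiv ℝ v w‖ ^ 2 :=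
      setIntegral_congr_fun hms fun w hw => by
        show ‖v' w‖ ^ 2 = ‖fderiv ℝ v w‖ ^ 2
        rw [(h1 w hw).fderiv]
    have hint : IntegrableOn (fun w => ‖fderiv ℝ v w‖ ^ 2) (cube n) := by
      refine Measure.integrableOn_of_bounded (M := B ^ 2) hVfin hfm.aestronglyMeasurable ?_
      filter_upwards [ae_restrict_mem hms] with w hw
      rw [norm_pow, norm_norm, (h1 w hw).fderiv]
      exact pow_le_pow_left₀ (norm_nonneg _) (h2 w hw) 2
    rw [e, hGdef, lintegral_indicator hms,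
      ofReal_integral_eq_lintegral_ofReal hint (Eventually.of_forall fun _ => sq_nonneg _)]
  have hpt : ∀ x ∈ cube n, ∀ y ∈ cube n, ‖(v x - v y) ^ 2‖ₑ
      ≤ (n : ℝ≥0∞) * ∫⁻ t in Ioc (0:ℝ) 1, G (y + t • (x - y)) := by
    intro x hx y hy
    obtain ⟨hi, hle⟩ := p2_line h1 h2 hx hy
    rw [Real.enorm_eq_ofReal (sq_nonneg _)]
    calc ENNReal.ofReal ((v x - v y) ^ 2)
        ≤ ENNReal.ofReal (n * ∫ t in Ioc (0:ℝ) 1, ‖fderiv ℝ v (y + t • (x - y))‖ ^ 2) :=
          ENNReal.ofReal_le_ofReal hle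
      _ = (n : ℝ≥0∞) * ∫⁻ t in Ioc (0:ℝ) 1,
            ENNReal.ofReal (‖fderiv ℝ v (y + t • (x - y))‖ ^ 2) := by
          rw [ENNReal.ofReal_mul (Nat.cast_nonneg n), ENNReal.ofReal_natCast,
            ofReal_integral_eq_lintegral_ofReal hi (Eventually.of_forall fun _ => sq_nonneg _)]
      _ = (n : ℝ≥0∞) * ∫⁻ t in Ioc (0:ℝ) 1, G (y + t • (x - y)) := by
          congr 1
          refine setLIntegral_congr_fun measurableSet_Ioc fun t ht => ?_
          show _ = G (y + t • (x - y))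
          rw [hGdef, indicator_of_mem (p2_seg hx hy ht.1.le ht.2)]
  have hm3 : Measurable fun p : (Sp n × ℝ) × Sp n => G (p.2 + p.1.2 • (p.1.1 - p.2)) := by
    apply hGm.comp
    fun_prop
  have hm2 : Measurable fun p : Sp n × ℝ => ∫⁻ y in cube n, G (y + p.2 • (p.1 - y)) :=
    hm3.lintegral_prod_right'
  have hmain : ‖∫ x in cube n, ∫ y in cube n, (v x - v y) ^ 2‖ₑ
      ≤ (n : ℝ≥0∞) * ((2 ^ n * ∫⁻ w, G w) * volume (cube n)) := by
    calc ‖∫ x in cube n, ∫ y in cube n, (v x - v y) ^ 2‖ₑ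
        ≤ ∫⁻ x in cube n, ‖∫ y in cube n, (v x - v y) ^ 2‖ₑ :=
          enorm_integral_le_lintegral_enorm _
      _ ≤ ∫⁻ x in cube n, ∫⁻ y in cube n, ‖(v x - v y) ^ 2‖ₑ :=
          lintegral_mono fun x => enorm_integral_le_lintegral_enorm _
      _ ≤ ∫⁻ x in cube n, ∫⁻ y in cube n,
            (n : ℝ≥0∞) * ∫⁻ t in Ioc (0:ℝ) 1, G (y + t • (x - y)) :=
          setLIntegral_mono' hms fun x hx => setLIntegral_mono' hms fun y hy => hpt x hx y hy
      _ = ∫⁻ x in cube n, (n : ℝ≥0∞) * ∫⁻ t in Ioc (0:ℝ) 1,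
            ∫⁻ y in cube n, G (y + t • (x - y)) := by
          refine lintegral_congr fun x => ?_
          rw [lintegral_const_mul' _ _ (ENNReal.natCast_ne_top n)]
          congr 1
          have hmx : Measurable fun p : Sp n × ℝ => G (p.1 + p.2 • (x - p.1)) := by
            apply hGm.comp
            fun_prop
          exact lintegral_lintegral_swap (f := fun y t => G (y + t • (x - y))) hmx.aemeasurable
      _ = (n : ℝ≥0∞) * ∫⁻ x in cube n, ∫⁻ t in Ioc (0:ℝ) 1,
            ∫⁻ y in cube n, G (y + t • (x - y)) :=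
          lintegral_const_mul' _ _ (ENNReal.natCast_ne_top n)
      _ = (n : ℝ≥0∞) * ∫⁻ t in Ioc (0:ℝ) 1, ∫⁻ x in cube n,
            ∫⁻ y in cube n, G (y + t • (x - y)) := by
          congr 1
          exact lintegral_lintegral_swap
            (f := fun x t => ∫⁻ y in cube n, G (y + t • (x - y))) hm2.aemeasurable
      _ ≤ (n : ℝ≥0∞) * ∫⁻ _t in Ioc (0:ℝ) 1, ((2 ^ n * ∫⁻ w, G w) * volume (cube n)) := by
          refine mul_le_mul_right ?_ _
          exact lintegral_mono fun t => p2_fixed hGm t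
      _ = (n : ℝ≥0∞) * ((2 ^ n * ∫⁻ w, G w) * volume (cube n)) := by
          rw [setLIntegral_const]
          simp
  have hL0 : 0 ≤ ∫ x in cube n, ∫ y in cube n, (v x - v y) ^ 2 :=
    integral_nonneg fun _ => integral_nonneg fun _ => sq_nonneg _
  rw [Real.enorm_eq_ofReal hL0, hGi] at hmain
  have e2 : (n : ℝ≥0∞) * ((2 ^ n * ENNReal.ofReal (∫ w in cube n, ‖v' w‖ ^ 2)) * volume (cube n))
      = ENNReal.ofReal (n * (2 ^ n * volume.real (cube n)) * ∫ w in cube n, ‖v' w‖ ^ 2) := by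
    have e3 : volume (cube n) = ENNReal.ofReal (volume.real (cube n)) :=
      (ENNReal.ofReal_toReal hVfin).symm
    rw [e3, ENNReal.ofReal_mul (by positivity), ENNReal.ofReal_mul (by positivity),
      ENNReal.ofReal_mul (by positivity), ENNReal.ofReal_natCast,
      ENNReal.ofReal_pow (by norm_num), ENNReal.ofReal_ofNat, ← e3]
    ring
  rw [e2] at hmain
  exact (ENNReal.ofReal_le_ofReal_iff (by positivity)).1 hmain

end Pool.Agent.Lib.MP_d8ef8f_an.Gd
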