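import Pool.Agent.Lib.MP_d8ef8f_an.Gd.StmP

set_option autoImplicit false

namespace Pool.Agent.Lib.MP_d8ef8f_an.Gd

open Set Filter Topology MeasureTheory

/-- data needed on a set for the computations -/
structure P4Ok {n : ℕ} (φ : Sp n → ℝ) (A : Set (Sp n)) : Prop where
  meas : MeasurableSet A
  fin : volume A ≠ ⊤
  i1 : IntegrableOn φ A
  i2 : IntegrableOn (fun x => φ x ^ 2) A

lemma p4_ok {n : ℕ} {Ω : Set (Sp n)} (hΩo : IsOpen Ω) (hΩb : Bornology.IsBounded Ω)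
    {φ : Sp n → ℝ} {Dφ : Sp n → Sp n} (hφ : C1 Ω φ Dφ) {A : Set (Sp n)} (hA : MeasurableSet A)
    (hAΩ : A ⊆ Ω) : P4Ok φ A := by
  have hfinΩ : volume Ω ≠ ⊤ := hΩb.measure_lt_top.ne
  have hc : IsCompact (closure Ω) := hΩb.isCompact_closure
  have h1 : IntegrableOn φ (closure Ω) := hφ.cont.integrableOn_compact hc
  have h2 : IntegrableOn (fun x => φ x ^ 2) (closure Ω) :=
    (hφ.cont.pow 2).integrableOn_compact hc
  have hsub : A ⊆ closure Ω := hAΩ.trans subset_closure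
  exact ⟨hA, ne_top_of_le_ne_top hfinΩ (measure_mono hAΩ), h1.mono_set hsub, h2.mono_set hsub⟩

lemma p4_add3 {n : ℕ} {A : Set (Sp n)} {f g h : Sp n → ℝ} (hf : IntegrableOn f A)
    (hg : IntegrableOn g A) (hh : IntegrableOn h A) :
    ∫ x in A, ((f x + g x) + h x) = (∫ x in A, f x) + (∫ x in A, g x) + ∫ x in A, h x := by
  have h1 : ∫ x in A, ((f x + g x) + h x) = (∫ x in A, (f x + g x)) + ∫ x in A, h x :=
    integral_add (hf.add hg) hh
  rw [h1, integral_add hf hg]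

lemma p4_inner {n : ℕ} {φ : Sp n → ℝ} {B : Set (Sp n)} (hB : P4Ok φ B) (t : ℝ) :
    ∫ y in B, (t - φ y) ^ 2
      = t ^ 2 * volume.real B - 2 * t * (∫ y in B, φ y) + ∫ y in B, φ y ^ 2 := by
  have e : (fun y => (t - φ y) ^ 2) = fun y => (t ^ 2 + (-(2 * t)) * φ y) + φ y ^ 2 := by
    funext y; ring
  have hc : IntegrableOn (fun _ : Sp n => t ^ 2) B := integrableOn_const hB.fin
  have hl : IntegrableOn (fun y => (-(2 * t)) * φ y) B := hB.i1.const_mul _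
  rw [e, p4_add3 hc hl hB.i2, integral_const_mul, setIntegral_const, smul_eq_mul]
  ring

lemma p4_gint {n : ℕ} {φ : Sp n → ℝ} {A B : Set (Sp n)} (hA : P4Ok φ A) (hB : P4Ok φ B) :
    IntegrableOn (fun x => ∫ y in B, (φ x - φ y) ^ 2) A := by
  have e : (fun x => ∫ y in B, (φ x - φ y) ^ 2)
      = fun x => (φ x ^ 2 * volume.real B - 2 * (∫ y in B, φ y) * φ x) + ∫ y in B, φ y ^ 2 := by
    funext x
    rw [p4_inner hB]
    ring
  rw [e]
  exact ((hA.i2.mul_const _).sub (hA.i1.const_mul _)).add (integrableOn_const hA.fin)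

lemma p4_En {n : ℕ} {φ : Sp n → ℝ} {A B : Set (Sp n)} (hA : P4Ok φ A) (hB : P4Ok φ B) :
    En A B φ = (∫ x in A, φ x ^ 2) * volume.real B - 2 * (∫ x in A, φ x) * (∫ y in B, φ y)
      + volume.real A * ∫ y in B, φ y ^ 2 := by
  have e : (fun x => ∫ y in B, (φ x - φ y) ^ 2)
      = fun x => (φ x ^ 2 * volume.real B + (-(2 * (∫ y in B, φ y))) * φ x)
        + ∫ y in B, φ y ^ 2 := by
    funext x
    rw [p4_inner hB]
    ring
  have h1 : IntegrableOn (fun x => φ x ^ 2 * volume.real B) A := hA.i2.mul_const _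
  have h2 : IntegrableOn (fun x => (-(2 * (∫ y in B, φ y))) * φ x) A := hA.i1.const_mul _
  have h3 : IntegrableOn (fun _ : Sp n => ∫ y in B, φ y ^ 2) A := integrableOn_const hA.fin
  unfold En
  rw [e, p4_add3 h1 h2 h3, integral_mul_const, integral_const_mul, setIntegral_const, smul_eq_mul]
  ring

lemma p4_nonneg {n : ℕ} {φ : Sp n → ℝ} {A B : Set (Sp n)} : 0 ≤ En A B φ :=
  integral_nonneg fun _ => integral_nonneg fun _ => sq_nonneg _

lemma p4_symm {n : ℕ} {φ : Sp n → ℝ} {A B : Set (Sp n)} (hA : P4Ok φ A) (hB : P4Ok φ B) :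
    En A B φ = En B A φ := by
  rw [p4_En hA hB, p4_En hB hA]
  ring

lemma p4_monoL {n : ℕ} {φ : Sp n → ℝ} {A A' B : Set (Sp n)} (hA : P4Ok φ A) (hB : P4Ok φ B)
    (h : A' ⊆ A) : En A' B φ ≤ En A B φ := by
  unfold En
  apply setIntegral_mono_set (p4_gint hA hB)
  · exact Eventually.of_forall fun _ => integral_nonneg fun _ => sq_nonneg _
  · exact h.eventuallyLE

lemma p4_mono {n : ℕ} {φ : Sp n → ℝ} {A A' B B' : Set (Sp n)} (hA : P4Ok φ A) (hB : P4Ok φ B)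
    (hA' : P4Ok φ A') (hB' : P4Ok φ B') (h : A' ⊆ A) (h' : B' ⊆ B) :
    En A' B' φ ≤ En A B φ := by
  calc En A' B' φ = En B' A' φ := p4_symm hA' hB'
    _ ≤ En B A' φ := p4_monoL hB hA' h'
    _ = En A' B φ := p4_symm hB hA'
    _ ≤ En A B φ := p4_monoL hA hB h

lemma p4_union {n : ℕ} {φ : Sp n → ℝ} {A A' B : Set (Sp n)} (hA : P4Ok φ A) (hA' : P4Ok φ A')
    (hB : P4Ok φ B) : En (A ∪ A') B φ ≤ En A B φ + En A' B φ := by
  have e : A ∪ A' = A ∪ (A' \ A) := by rw [union_diff_self]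
  have hg := p4_gint hA hB
  have hg' := p4_gint hA' hB
  unfold En
  rw [e, setIntegral_union disjoint_sdiff_right (hA'.meas.diff hA.meas) hg
    (hg'.mono_set diff_subset)]
  have : ∫ x in A' \ A, ∫ y in B, (φ x - φ y) ^ 2 ≤ ∫ x in A', ∫ y in B, (φ x - φ y) ^ 2 := by
    apply setIntegral_mono_set hg'
    · exact Eventually.of_forall fun _ => integral_nonneg fun _ => sq_nonneg _
    · exact (diff_subset).eventuallyLE
  linarith

/-- the triple integral of `(φ x + φ z - 2 φ y)²` -/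
lemma p4_inner2 {n : ℕ} {φ : Sp n → ℝ} {B : Set (Sp n)} (hB : P4Ok φ B) (t s : ℝ) :
    ∫ y in B, (t - s * φ y) ^ 2
      = t ^ 2 * volume.real B - 2 * t * s * (∫ y in B, φ y) + s ^ 2 * ∫ y in B, φ y ^ 2 := by
  have e : (fun y => (t - s * φ y) ^ 2)
      = fun y => (t ^ 2 + (-(2 * t * s)) * φ y) + s ^ 2 * φ y ^ 2 := by
    funext y; ring
  have hc : IntegrableOn (fun _ : Sp n => t ^ 2) B := integrableOn_const hB.fin
  have hl : IntegrableOn (fun y => (-(2 * t * s)) * φ y) B := hB.i1.const_mul _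
  have hq : IntegrableOn (fun y => s ^ 2 * φ y ^ 2) B := hB.i2.const_mul _
  rw [e, p4_add3 hc hl hq, integral_const_mul, integral_const_mul, setIntegral_const,
    smul_eq_mul]
  ring

lemma p4_tri {n : ℕ} {φ : Sp n → ℝ} {A B C : Set (Sp n)} (hA : P4Ok φ A) (hB : P4Ok φ B)
    (hC : P4Ok φ C) :
    volume.real B * En A C φ ≤ 2 * volume.real C * En A B φ + 2 * volume.real A * En B C φ := by
  have h0 : 0 ≤ ∫ x in A, ∫ z in C, ∫ y in B, ((φ x + φ z) - 2 * φ y) ^ 2 :=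
    integral_nonneg fun _ => integral_nonneg fun _ => integral_nonneg fun _ => sq_nonneg _
  set a0 := volume.real A with ha0
  set b0 := volume.real B with hb0
  set c0 := volume.real C with hc0
  set a1 := ∫ x in A, φ x with ha1
  set b1 := ∫ x in B, φ x with hb1
  set c1 := ∫ x in C, φ x with hc1
  set a2 := ∫ x in A, φ x ^ 2 with ha2
  set b2 := ∫ x in B, φ x ^ 2 with hb2
  set c2 := ∫ x in C, φ x ^ 2 with hc2
  have e1 : ∀ x, ∫ z in C, ∫ y in B, ((φ x + φ z) - 2 * φ y) ^ 2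
      = (φ x ^ 2 * (b0 * c0) + φ x * (2 * c1 * b0 - 4 * b1 * c0))
        + (c2 * b0 - 4 * c1 * b1 + 4 * b2 * c0) := by
    intro x
    have e2 : (fun z => ∫ y in B, ((φ x + φ z) - 2 * φ y) ^ 2)
        = fun z => (b0 * φ z ^ 2 + (2 * φ x * b0 - 4 * b1) * φ z)
          + (φ x ^ 2 * b0 - 4 * φ x * b1 + 4 * b2) := by
      funext z
      rw [p4_inner2 hB, ← hb0, ← hb1, ← hb2]
      ring
    have i1 : IntegrableOn (fun z => b0 * φ z ^ 2) C := hC.i2.const_mul _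
    have i2 : IntegrableOn (fun z => (2 * φ x * b0 - 4 * b1) * φ z) C := hC.i1.const_mul _
    have i3 : IntegrableOn (fun _ : Sp n => φ x ^ 2 * b0 - 4 * φ x * b1 + 4 * b2) C :=
      integrableOn_const hC.fin
    rw [e2, p4_add3 i1 i2 i3, integral_const_mul, integral_const_mul, setIntegral_const,
      smul_eq_mul, ← hc0, ← hc1, ← hc2]
    ring
  have e3 : ∫ x in A, ∫ z in C, ∫ y in B, ((φ x + φ z) - 2 * φ y) ^ 2
      = a2 * (b0 * c0) + a1 * (2 * c1 * b0 - 4 * b1 * c0)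
        + a0 * (c2 * b0 - 4 * c1 * b1 + 4 * b2 * c0) := by
    have i1 : IntegrableOn (fun x => φ x ^ 2 * (b0 * c0)) A := hA.i2.mul_const _
    have i2 : IntegrableOn (fun x => φ x * (2 * c1 * b0 - 4 * b1 * c0)) A := hA.i1.mul_const _
    have i3 : IntegrableOn (fun _ : Sp n => c2 * b0 - 4 * c1 * b1 + 4 * b2 * c0) A :=
      integrableOn_const hA.fin
    simp_rw [e1]
    rw [p4_add3 i1 i2 i3, integral_mul_const, integral_mul_const, setIntegral_const,
      smul_eq_mul, ← ha0, ← ha1, ← ha2]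
  rw [e3] at h0
  rw [p4_En hA hC, p4_En hA hB, p4_En hB hC, ← ha0, ← ha1, ← ha2, ← hb0, ← hb1, ← hb2, ← hc0,
    ← hc1, ← hc2]
  nlinarith [h0]

theorem p_P4 : StmP4 := by
  intro n Ω hΩo hΩb
  refine ⟨?_, ?_, ?_, ?_⟩
  · rintro A B hA hB hAΩ hBΩ ⟨K, hK, h⟩
    refine ⟨K, hK, fun φ Dφ hφ => ?_⟩
    have oA := p4_ok hΩo hΩb hφ hA hAΩ
    have oB := p4_ok hΩo hΩb hφ hB hBΩ
    rw [p4_symm oB oA]
    exact h φ Dφ hφ
  · rintro A B A' B' hA hB hA' hB' hAΩ hBΩ hAA hBB ⟨K, hK, h⟩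
    refine ⟨K, hK, fun φ Dφ hφ => ?_⟩
    have oA := p4_ok hΩo hΩb hφ hA hAΩ
    have oB := p4_ok hΩo hΩb hφ hB hBΩ
    have oA' := p4_ok hΩo hΩb hφ hA' (hAA.trans hAΩ)
    have oB' := p4_ok hΩo hΩb hφ hB' (hBB.trans hBΩ)
    exact (p4_mono oA oB oA' oB' hAA hBB).trans (h φ Dφ hφ)
  · rintro A B C hA hB hC hAΩ hBΩ hCΩ hB0 ⟨K, hK, h⟩ ⟨K', hK', h'⟩
    have hΩfin : volume Ω ≠ ⊤ := hΩb.measure_lt_top.ne
    have hBfin : volume B ≠ ⊤ := ne_top_of_le_ne_top hΩfin (measure_mono hBΩ)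
    have hb : 0 < volume.real B := ENNReal.toReal_pos hB0 hBfin
    have hc : 0 ≤ volume.real C := measureReal_nonneg
    have ha : 0 ≤ volume.real A := measureReal_nonneg
    refine ⟨(2 * volume.real C * K + 2 * volume.real A * K') / volume.real B, by positivity,
      fun φ Dφ hφ => ?_⟩
    have oA := p4_ok hΩo hΩb hφ hA hAΩ
    have oB := p4_ok hΩo hΩb hφ hB hBΩ
    have oC := p4_ok hΩo hΩb hφ hC hCΩ
    have t := p4_tri oA oB oC
    have t1 := mul_le_mul_of_nonneg_left (h φ Dφ hφ) (show 0 ≤ 2 * volume.real C by positivity)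
    have t2 := mul_le_mul_of_nonneg_left (h' φ Dφ hφ) (show 0 ≤ 2 * volume.real A by positivity)
    rw [div_mul_eq_mul_div, le_div_iff₀ hb]
    calc En A C φ * volume.real B = volume.real B * En A C φ := mul_comm _ _
      _ ≤ 2 * volume.real C * En A B φ + 2 * volume.real A * En B C φ := t
      _ ≤ 2 * volume.real C * (K * ∫ x in Ω, ‖Dφ x‖ ^ 2)
          + 2 * volume.real A * (K' * ∫ x in Ω, ‖Dφ x‖ ^ 2) := add_le_add t1 t2
      _ = (2 * volume.real C * K + 2 * volume.real A * K') * ∫ x in Ω, ‖Dφ x‖ ^ 2 := by ring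
  · rintro A A' B hA hA' hB hAΩ hAΩ' hBΩ ⟨K, hK, h⟩ ⟨K', hK', h'⟩
    refine ⟨K + K', add_nonneg hK hK', fun φ Dφ hφ => ?_⟩
    have oA := p4_ok hΩo hΩb hφ hA hAΩ
    have oA' := p4_ok hΩo hΩb hφ hA' hAΩ'
    have oB := p4_ok hΩo hΩb hφ hB hBΩ
    have := p4_union oA oA' oB
    have t1 := h φ Dφ hφ
    have t2 := h' φ Dφ hφ
    linarith [this, t1, t2, add_mul K K' (∫ x in Ω, ‖Dφ x‖ ^ 2)]

end Pool.Agent.Lib.MP_d8ef8f_an.Gd
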