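import Pool.Agent.Lib.MP_d8ef8f_an.Gd.StmP
import Pool.Agent.Lib.MP_d8ef8f_an.Gd.P2
import Pool.Agent.Lib.MP_d8ef8f_an.Gd.P4

set_option autoImplicit false

namespace Pool.Agent.Lib.MP_d8ef8f_an.Gd

open Set Filter Topology MeasureTheory
open scoped ENNReal

lemma p3_det {n : ℕ} (A : Sp n →L[ℝ] Sp n) : |A.det| ≤ ‖A‖ ^ n := by
  have h1 : volume (A '' Metric.ball 0 1) = ENNReal.ofReal |A.det| * volume (Metric.ball (0 : Sp n) 1) :=
    Measure.addHaar_image_continuousLinearMap _ _ _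
  have h2 : A '' Metric.ball 0 1 ⊆ Metric.closedBall 0 ‖A‖ := by
    rintro _ ⟨x, hx, rfl⟩
    rw [mem_closedBall_zero_iff]
    rw [mem_ball_zero_iff] at hx
    calc ‖A x‖ ≤ ‖A‖ * ‖x‖ := A.le_opNorm x
      _ ≤ ‖A‖ * 1 := mul_le_mul_of_nonneg_left hx.le (norm_nonneg _)
      _ = ‖A‖ := mul_one _
  have h3 : volume (Metric.closedBall (0 : Sp n) ‖A‖)
      = ENNReal.ofReal (‖A‖ ^ n) * volume (Metric.ball (0 : Sp n) 1) := by
    rw [Measure.addHaar_closedBall _ _ (norm_nonneg _), finrank_euclideanSpace, Fintype.card_fin]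
  have h4 := (h1 ▸ measure_mono h2).trans h3.le
  have hb0 : volume (Metric.ball (0 : Sp n) 1) ≠ 0 :=
    (Metric.measure_ball_pos volume _ one_pos).ne'
  have hbt : volume (Metric.ball (0 : Sp n) 1) ≠ ⊤ := measure_ball_lt_top.ne
  have h5 : ENNReal.ofReal |A.det| ≤ ENNReal.ofReal (‖A‖ ^ n) :=
    (ENNReal.mul_le_mul_iff_left hb0 hbt).1 h4
  exact (ENNReal.ofReal_le_ofReal_iff (by positivity)).1 h5

theorem p_P3 (p2 : StmP2) : StmP3 := by
  intro n Ω hΩo hΩb W Ψ Ψ' M hM hinj himg hΨ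
  obtain ⟨K2, hK2, hP2⟩ := p2 n
  have hms : MeasurableSet (cube n) := (p2_cube_open n).measurableSet
  have hVfin : volume (cube n) ≠ ⊤ := (p2_bdd n).measure_lt_top.ne
  have hcc : IsCompact (closure Ω) := hΩb.isCompact_closure
  have hsubΩ : ∀ y ∈ cube n, Ψ y ∈ Ω := fun y hy => by
    have : Ψ y ∈ W ∩ Ω := himg ▸ mem_image_of_mem Ψ hy
    exact this.2
  have hfd : ∀ y ∈ cube n, HasFDerivWithinAt Ψ (Ψ' y) (cube n) y :=
    fun y hy => (hΨ y hy).1.hasFDerivWithinAt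
  have hJ : ∀ y ∈ cube n, |(Ψ' y).det| ≤ M ^ n := fun y hy =>
    (p3_det _).trans (pow_le_pow_left₀ (norm_nonneg _) (hΨ y hy).2.1 n)
  have hΨc : ContinuousOn Ψ (cube n) := fun y hy => (hΨ y hy).1.continuousAt.continuousWithinAt
  refine ⟨M ^ n * (M ^ n * (K2 * (M ^ 2 * M))), by positivity, ?_⟩
  intro φ Dφ hφ
  obtain ⟨Cφ, hCφ⟩ := hcc.exists_bound_of_continuousOn hφ.cont
  obtain ⟨CD, hCD⟩ := hcc.exists_bound_of_continuousOn hφ.contD
  set v : Sp n → ℝ := fun y => φ (Ψ y) with hv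
  set v' : Sp n → Sp n →L[ℝ] ℝ := fun y => (innerSL ℝ (Dφ (Ψ y))).comp (Ψ' y) with hv'
  have hvd : ∀ y ∈ cube n, HasFDerivAt v (v' y) y := by
    intro y hy
    have h1 : HasFDerivAt φ (innerSL ℝ (Dφ (Ψ y))) (Ψ y) :=
      (hφ.grad _ (hsubΩ y hy)).hasFDerivAt
    exact h1.comp y (hΨ y hy).1
  have hvn : ∀ y ∈ cube n, ‖v' y‖ ≤ M * ‖Dφ (Ψ y)‖ := by
    intro y hy
    calc ‖v' y‖ ≤ ‖innerSL ℝ (Dφ (Ψ y))‖ * ‖Ψ' y‖ := ContinuousLinearMap.opNorm_comp_le _ _
      _ = ‖Dφ (Ψ y)‖ * ‖Ψ' y‖ := by rw [innerSL_apply_norm]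
      _ ≤ ‖Dφ (Ψ y)‖ * M := mul_le_mul_of_nonneg_left (hΨ y hy).2.1 (norm_nonneg _)
      _ = M * ‖Dφ (Ψ y)‖ := mul_comm _ _
  have hvB : ∀ y ∈ cube n, ‖v' y‖ ≤ M * CD := fun y hy =>
    (hvn y hy).trans (mul_le_mul_of_nonneg_left (hCD _ (subset_closure (hsubΩ y hy))) hM.le)
  have hbase := hP2 v v' (M * CD) hvd hvB
  have hvc : ContinuousOn v (cube n) := fun y hy => (hvd y hy).continuousAt.continuousWithinAt
  have hok : P4Ok v (cube n) := by
    haveI : IsFiniteMeasure (volume.restrict (cube n)) :=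
      ⟨by rw [Measure.restrict_apply_univ]; exact hVfin.lt_top⟩
    refine ⟨hms, hVfin, ?_, ?_⟩
    · refine Integrable.of_bound (hvc.aestronglyMeasurable hms) Cφ ?_
      filter_upwards [ae_restrict_mem hms] with y hy
      exact hCφ _ (subset_closure (hsubΩ y hy))
    · refine Integrable.of_bound ((hvc.pow 2).aestronglyMeasurable hms) (Cφ ^ 2) ?_
      filter_upwards [ae_restrict_mem hms] with y hy
      rw [norm_pow]
      exact pow_le_pow_left₀ (norm_nonneg _) (hCφ _ (subset_closure (hsubΩ y hy))) 2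
  have hDint : IntegrableOn (fun x => ‖Dφ x‖ ^ 2) (closure Ω) :=
    (hφ.contD.norm.pow 2).integrableOn_compact hcc
  have hDimg : IntegrableOn (fun x => ‖Dφ x‖ ^ 2) (Ψ '' cube n) := by
    refine hDint.mono_set ?_
    rw [himg]
    exact inter_subset_right.trans subset_closure
  have hDcube : IntegrableOn (fun y => |(Ψ' y).det| • ‖Dφ (Ψ y)‖ ^ 2) (cube n) :=
    (integrableOn_image_iff_integrableOn_abs_det_fderiv_smul volume hms hfd hinj _).1 hDimg
  -- the double integral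
  have hE : En (W ∩ Ω) (W ∩ Ω) φ ≤ M ^ n * (M ^ n * ∫ x in cube n, ∫ y in cube n, (v x - v y) ^ 2) := by
    unfold En
    rw [← himg, integral_image_eq_integral_abs_det_fderiv_smul volume hms hfd hinj]
    have hin : ∀ x ∈ cube n, ∫ z in Ψ '' cube n, (φ (Ψ x) - φ z) ^ 2
        ≤ M ^ n * ∫ y in cube n, (v x - v y) ^ 2 := by
      intro x hx
      rw [integral_image_eq_integral_abs_det_fderiv_smul volume hms hfd hinj,
        ← integral_const_mul]
      have hint : IntegrableOn (fun y => M ^ n * (v x - v y) ^ 2) (cube n) := by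
        have e : (fun y => M ^ n * (v x - v y) ^ 2)
            = fun y => M ^ n * ((v x ^ 2 + (-(2 * v x)) * v y) + v y ^ 2) := by
          funext y; ring
        rw [e]
        exact (((integrableOn_const hVfin).add (hok.i1.const_mul _)).add hok.i2).const_mul _
      refine integral_mono_of_nonneg (Eventually.of_forall fun y => ?_) hint ?_
      · exact smul_nonneg (abs_nonneg _) (sq_nonneg _)
      · filter_upwards [ae_restrict_mem hms] with y hy
        rw [smul_eq_mul]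
        exact mul_le_mul_of_nonneg_right (hJ y hy) (sq_nonneg _)
    rw [← integral_const_mul, ← integral_const_mul]
    have hint2 : IntegrableOn (fun x => M ^ n * (M ^ n * ∫ y in cube n, (v x - v y) ^ 2))
        (cube n) := ((p4_gint hok hok).const_mul _).const_mul _
    refine integral_mono_of_nonneg (Eventually.of_forall fun x => ?_) hint2 ?_
    · exact smul_nonneg (abs_nonneg _) (integral_nonneg fun _ => sq_nonneg _)
    · filter_upwards [ae_restrict_mem hms] with x hx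
      rw [smul_eq_mul]
      exact mul_le_mul (hJ x hx) (hin x hx) (integral_nonneg fun _ => sq_nonneg _)
        (by positivity)
  have hV : ∫ y in cube n, ‖v' y‖ ^ 2 ≤ M ^ 2 * M * ∫ x in Ω, ‖Dφ x‖ ^ 2 := by
    have s1 : ∫ y in cube n, ‖v' y‖ ^ 2
        ≤ ∫ y in cube n, (M ^ 2 * M) * (|(Ψ' y).det| • ‖Dφ (Ψ y)‖ ^ 2) := by
      refine integral_mono_of_nonneg (Eventually.of_forall fun y => sq_nonneg _)
        (hDcube.const_mul _) ?_
      filter_upwards [ae_restrict_mem hms] with y hy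
      have h1 : ‖v' y‖ ^ 2 ≤ (M * ‖Dφ (Ψ y)‖) ^ 2 :=
        pow_le_pow_left₀ (norm_nonneg _) (hvn y hy) 2
      have h2 := (hΨ y hy).2.2
      calc ‖v' y‖ ^ 2 ≤ (M * ‖Dφ (Ψ y)‖) ^ 2 := h1
        _ = M ^ 2 * ‖Dφ (Ψ y)‖ ^ 2 * 1 := by ring
        _ ≤ M ^ 2 * ‖Dφ (Ψ y)‖ ^ 2 * (M * |(Ψ' y).det|) :=
            mul_le_mul_of_nonneg_left h2 (by positivity)
        _ = (M ^ 2 * M) * (|(Ψ' y).det| • ‖Dφ (Ψ y)‖ ^ 2) := by
            rw [smul_eq_mul]; ring
    have cv := integral_image_eq_integral_abs_det_fderiv_smul volume hms hfd hinj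
      (fun x => ‖Dφ x‖ ^ 2)
    rw [integral_const_mul, ← cv] at s1
    have s2 : ∫ x in Ψ '' cube n, ‖Dφ x‖ ^ 2 ≤ ∫ x in Ω, ‖Dφ x‖ ^ 2 := by
      refine setIntegral_mono_set (hDint.mono_set subset_closure)
        (Eventually.of_forall fun _ => sq_nonneg _) ?_
      rw [himg]
      exact inter_subset_right.eventuallyLE
    exact s1.trans (mul_le_mul_of_nonneg_left s2 (by positivity))
  calc En (W ∩ Ω) (W ∩ Ω) φ
      ≤ M ^ n * (M ^ n * ∫ x in cube n, ∫ y in cube n, (v x - v y) ^ 2) := hE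
    _ ≤ M ^ n * (M ^ n * (K2 * ∫ y in cube n, ‖v' y‖ ^ 2)) := by gcongr
    _ ≤ M ^ n * (M ^ n * (K2 * (M ^ 2 * M * ∫ x in Ω, ‖Dφ x‖ ^ 2))) := by gcongr
    _ = M ^ n * (M ^ n * (K2 * (M ^ 2 * M))) * ∫ x in Ω, ‖Dφ x‖ ^ 2 := by ring

end Pool.Agent.Lib.MP_d8ef8f_an.Gd
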