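import Pool.Agent.Lib.MP_d8ef8f_an.Gd.StmP

set_option autoImplicit false

namespace Pool.Agent.Lib.MP_d8ef8f_an.Gd

open Set Filter Topology MeasureTheory

theorem p_P5 : StmP5 := by
  intro n Ω hΩ ι _ G hGo hGn hGs hcov R hsymm htr hov i j
  by_contra hij
  have hUo : IsOpen (⋃ l ∈ {l | R i l}, G l) :=
    isOpen_biUnion fun l _ => hGo l
  have hVo : IsOpen (⋃ l ∈ {l | ¬ R i l}, G l) :=
    isOpen_biUnion fun l _ => hGo l
  have hcov' : Ω ⊆ (⋃ l ∈ {l | R i l}, G l) ∪ (⋃ l ∈ {l | ¬ R i l}, G l) := by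
    intro x hx
    obtain ⟨l, hl⟩ := mem_iUnion.1 (hcov hx)
    by_cases h : R i l
    · exact Or.inl (mem_biUnion (show l ∈ {l | R i l} from h) hl)
    · exact Or.inr (mem_biUnion (show l ∈ {l | ¬ R i l} from h) hl)
  have hii : R i i := by
    apply hov i i
    rw [inter_self]
    exact hGn i
  have h1 : (Ω ∩ ⋃ l ∈ {l | R i l}, G l).Nonempty := by
    obtain ⟨x, hx⟩ := hGn i
    exact ⟨x, hGs i hx, mem_biUnion (show i ∈ {l | R i l} from hii) hx⟩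
  have h2 : (Ω ∩ ⋃ l ∈ {l | ¬ R i l}, G l).Nonempty := by
    obtain ⟨x, hx⟩ := hGn j
    exact ⟨x, hGs j hx, mem_biUnion (show j ∈ {l | ¬ R i l} from hij) hx⟩
  obtain ⟨x, -, hxU, hxV⟩ := hΩ _ _ hUo hVo hcov' h1 h2
  obtain ⟨l, hl, hxl⟩ := mem_iUnion₂.1 hxU
  obtain ⟨l', hl', hxl'⟩ := mem_iUnion₂.1 hxV
  exact hl' (htr i l l' hl (hov l l' ⟨x, hxl, hxl'⟩))

end Pool.Agent.Lib.MP_d8ef8f_an.Gd
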