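import Pool.Agent.Lib.MP_d8ef8f_an.Gd.Defs

/-!
# Statements of the pieces: Poincaré inequality on domains with charts
-/

set_option autoImplicit false

namespace Pool.Agent.Lib.MP_d8ef8f_an.Gd

open Set Filter Topology MeasureTheory

/-- `∫_A ∫_B (φ x - φ y)² dy dx` -/
noncomputable def En {n : ℕ} (A B : Set (Sp n)) (φ : Sp n → ℝ) : ℝ :=
  ∫ x in A, ∫ y in B, (φ x - φ y) ^ 2

/-- `A` and `B` are linked in `Ω`: `En A B φ ≤ K ∫_Ω |∇φ|²` for all `φ` in `C¹(closure Ω)`. -/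
def Linked {n : ℕ} (Ω A B : Set (Sp n)) : Prop :=
  ∃ K : ℝ, 0 ≤ K ∧ ∀ (φ : Sp n → ℝ) (Dφ : Sp n → Sp n), C1 Ω φ Dφ →
    En A B φ ≤ K * ∫ x in Ω, ‖Dφ x‖ ^ 2

/-- **P2** Poincaré on the cube, for differentiable functions with bounded derivative.
Proof: go from `x` to `y` changing one coordinate at a time; along a coordinate segment
`(v(b) - v(a))² ≤ ∫₀¹ (∂_i v)²` (fundamental theorem of calculus, Cauchy-Schwarz); integrate over
`x, y` (Fubini). `v` is Lipschitz on the cube, `v' = fderiv v` is measurable there. -/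
def StmP2 : Prop :=
  ∀ (n : ℕ), ∃ K : ℝ, 0 ≤ K ∧ ∀ (v : Sp n → ℝ) (v' : Sp n → Sp n →L[ℝ] ℝ) (B : ℝ),
    (∀ y ∈ cube n, HasFDerivAt v (v' y) y) → (∀ y ∈ cube n, ‖v' y‖ ≤ B) →
    ∫ x in cube n, ∫ y in cube n, (v x - v y) ^ 2 ≤ K * ∫ y in cube n, ‖v' y‖ ^ 2

/-- **P3** a chart piece is linked to itself. Proof: change of variables
(`integral_image_eq_integral_abs_det_fderiv_smul`), `1/M ≤ |det Ψ'| ≤ M^n` (the upper bound by
volumes of images of balls), chain rule for `φ ∘ Ψ`, P2. -/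
def StmP3 : Prop :=
  ∀ {n : ℕ} (Ω : Set (Sp n)), IsOpen Ω → Bornology.IsBounded Ω →
    ∀ (W : Set (Sp n)) (Ψ : Sp n → Sp n) (Ψ' : Sp n → Sp n →L[ℝ] Sp n) (M : ℝ), 0 < M →
      InjOn Ψ (cube n) → Ψ '' cube n = W ∩ Ω →
      (∀ y ∈ cube n, HasFDerivAt Ψ (Ψ' y) y ∧ ‖Ψ' y‖ ≤ M ∧ 1 ≤ M * |(Ψ' y).det|) →
      Linked Ω (W ∩ Ω) (W ∩ Ω)

/-- **P4** linked sets: symmetry, monotonicity, transitivity through a set of positive measure,
unions. Proof of transitivity: `(φ x - φ z)² ≤ 2 (φ x - φ y)² + 2 (φ y - φ z)²`, integrate over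
`y ∈ B`. All sets are measurable subsets of the bounded open set `Ω`, `φ` is bounded. -/
def StmP4 : Prop :=
  ∀ {n : ℕ} (Ω : Set (Sp n)), IsOpen Ω → Bornology.IsBounded Ω →
    (∀ A B, MeasurableSet A → MeasurableSet B → A ⊆ Ω → B ⊆ Ω → Linked Ω A B → Linked Ω B A) ∧
    (∀ A B A' B', MeasurableSet A → MeasurableSet B → MeasurableSet A' → MeasurableSet B' →
      A ⊆ Ω → B ⊆ Ω → A' ⊆ A → B' ⊆ B → Linked Ω A B → Linked Ω A' B') ∧
    (∀ A B C, MeasurableSet A → MeasurableSet B → MeasurableSet C → A ⊆ Ω → B ⊆ Ω → C ⊆ Ω →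
      volume B ≠ 0 → Linked Ω A B → Linked Ω B C → Linked Ω A C) ∧
    (∀ A A' B, MeasurableSet A → MeasurableSet A' → MeasurableSet B → A ⊆ Ω → A' ⊆ Ω → B ⊆ Ω →
      Linked Ω A B → Linked Ω A' B → Linked Ω (A ∪ A') B)

/-- **P5** finite open covers of a connected set: if nonempty open sets `G i`, `i` in a finite
type, cover the preconnected set `Ω` and `R` is an equivalence-like relation containing all
overlapping pairs, then `R` holds for all pairs. -/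
def StmP5 : Prop :=
  ∀ {n : ℕ} (Ω : Set (Sp n)), IsPreconnected Ω → ∀ {ι : Type} [Fintype ι] (G : ι → Set (Sp n)),
    (∀ i, IsOpen (G i)) → (∀ i, (G i).Nonempty) → (∀ i, G i ⊆ Ω) → Ω ⊆ ⋃ i, G i →
    ∀ R : ι → ι → Prop, (∀ i j, R i j → R j i) → (∀ i j l, R i j → R j l → R i l) →
    (∀ i j, (G i ∩ G j).Nonempty → R i j) → ∀ i j, R i j

end Pool.Agent.Lib.MP_d8ef8f_an.Gd
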