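import Pool.Agent.Lib.MP_d8ef8f_an.Gd.Stm
import Pool.Agent.Lib.MP_d8ef8f_an.Gd.StmP
import Pool.Agent.Lib.MP_d8ef8f_an.Gd.P3
import Pool.Agent.Lib.MP_d8ef8f_an.Gd.P4
import Pool.Agent.Lib.MP_d8ef8f_an.Gd.P5
import Pool.Agent.Lib.MP_d8ef8f_an.Gd.A2

/-!
# Poincaré inequality on domains with charts
-/

set_option autoImplicit false

namespace Pool.Agent.Lib.MP_d8ef8f_an.Gd

open Set Filter Topology MeasureTheory

theorem cube_nonempty (n : ℕ) : (cube n).Nonempty :=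
  ⟨WithLp.toLp 2 (fun _ => (1/2 : ℝ)), fun i => by constructor <;> simp <;> norm_num⟩

theorem vol_ne_zero {n : ℕ} {G : Set (Sp n)} (h : IsOpen G) (hne : G.Nonempty) :
    volume G ≠ 0 := (h.measure_pos volume hne).ne'

theorem linked_empty {n : ℕ} (Ω B : Set (Sp n)) : Linked Ω ∅ B := by
  refine ⟨0, le_refl 0, fun φ Dφ _ => ?_⟩
  simp [En]

/-- Linked sets, union over a finite set on the left. -/
theorem linked_biUnion (p4 : StmP4) {n : ℕ} {Ω : Set (Sp n)} (hΩ : IsOpen Ω)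
    (hb : Bornology.IsBounded Ω) {ι : Type} (G : ι → Set (Sp n)) (hG : ∀ i, IsOpen (G i))
    (hGΩ : ∀ i, G i ⊆ Ω) (B : Set (Sp n)) (hB : MeasurableSet B) (hBΩ : B ⊆ Ω)
    (h : ∀ i, Linked Ω (G i) B) (s : Finset ι) : Linked Ω (⋃ i ∈ s, G i) B := by
  classical
  induction s using Finset.induction_on with
  | empty => simpa using linked_empty Ω B
  | insert a s ha ih =>
    have : (⋃ i ∈ insert a s, G i) = G a ∪ ⋃ i ∈ s, G i := by
      simp [Finset.set_biUnion_insert]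
    rw [this]
    refine (p4 Ω hΩ hb).2.2.2 _ _ B (hG a).measurableSet ?_ hB (hGΩ a) ?_ hBΩ (h a) ih
    · exact (isOpen_biUnion fun i _ => hG i).measurableSet
    · exact iUnion₂_subset fun i _ => hGΩ i

theorem linked_self (p3 : StmP3) (p4 : StmP4) (p5 : StmP5) {n : ℕ} {Ω : Set (Sp n)}
    (hΩ : Domain Ω) : Linked Ω Ω Ω := by
  classical
  have hcomp : IsCompact (closure Ω) := hΩ.bdd.isCompact_closure
  choose! W hWo hxW hW using hΩ.chart
  obtain ⟨t, htcov⟩ := hcomp.elim_nhds_subcover' (fun x _ => W x)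
    (fun x hx => (hWo x hx).mem_nhds (hxW x hx))
  let G : t → Set (Sp n) := fun i => W i ∩ Ω
  have hGdef : ∀ i : t, G i = W i ∩ Ω := fun _ => rfl
  have hcl : ∀ i : t, ((i : closure Ω) : Sp n) ∈ closure Ω := fun i => (i : closure Ω).2
  have hGo : ∀ i, IsOpen (G i) := fun i => (hWo _ (hcl i)).inter hΩ.isOpen
  have hGΩ : ∀ i, G i ⊆ Ω := fun i => inter_subset_right
  have hGlink : ∀ i, Linked Ω (G i) (G i) := by
    intro i
    obtain ⟨Ψ, Ψ', M, hM, hinj, him, hder⟩ := hW _ (hcl i)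
    exact p3 Ω hΩ.isOpen hΩ.bdd (W i) Ψ Ψ' M hM hinj him hder
  have hGne : ∀ i, (G i).Nonempty := by
    intro i
    obtain ⟨Ψ, Ψ', M, hM, hinj, him, hder⟩ := hW _ (hcl i)
    rw [hGdef, ← him]
    exact (cube_nonempty n).image _
  have hcov : Ω ⊆ ⋃ i, G i := by
    intro x hx
    have := htcov (subset_closure hx)
    simp only [mem_iUnion] at this
    obtain ⟨i, hi, hxi⟩ := this
    exact mem_iUnion.2 ⟨⟨i, hi⟩, hxi, hx⟩
  obtain ⟨q1, q2, q3, q4⟩ := p4 Ω hΩ.isOpen hΩ.bdd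
  have hall : ∀ i j, Linked Ω (G i) (G j) := by
    refine p5 Ω hΩ.conn G hGo hGne hGΩ hcov (fun i j => Linked Ω (G i) (G j)) ?_ ?_ ?_
    · intro i j h
      exact q1 _ _ (hGo i).measurableSet (hGo j).measurableSet (hGΩ i) (hGΩ j) h
    · intro i j l h1 h2
      exact q3 _ _ _ (hGo i).measurableSet (hGo j).measurableSet (hGo l).measurableSet
        (hGΩ i) (hGΩ j) (hGΩ l) (vol_ne_zero (hGo j) (hGne j)) h1 h2
    · intro i j hij
      have ho : IsOpen (G i ∩ G j) := (hGo i).inter (hGo j)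
      have hs : G i ∩ G j ⊆ Ω := inter_subset_left.trans (hGΩ i)
      have h1 : Linked Ω (G i) (G i ∩ G j) :=
        q2 _ _ _ _ (hGo i).measurableSet (hGo i).measurableSet (hGo i).measurableSet
          ho.measurableSet (hGΩ i) (hGΩ i) (Subset.refl _) inter_subset_left (hGlink i)
      have h2 : Linked Ω (G i ∩ G j) (G j) :=
        q2 _ _ _ _ (hGo j).measurableSet (hGo j).measurableSet ho.measurableSet
          (hGo j).measurableSet (hGΩ j) (hGΩ j) inter_subset_right (Subset.refl _) (hGlink j)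
      exact q3 _ _ _ (hGo i).measurableSet ho.measurableSet (hGo j).measurableSet
        (hGΩ i) hs (hGΩ j) (vol_ne_zero ho hij) h1 h2
  have hun : (⋃ i ∈ (Finset.univ : Finset t), G i) = Ω := by
    apply Subset.antisymm
    · exact iUnion₂_subset fun i _ => hGΩ i
    · intro x hx
      obtain ⟨i, hi⟩ := mem_iUnion.1 (hcov hx)
      exact mem_iUnion₂.2 ⟨i, Finset.mem_univ _, hi⟩
  have hstep1 : ∀ j, Linked Ω Ω (G j) := by
    intro j
    have := linked_biUnion p4 hΩ.isOpen hΩ.bdd G hGo hGΩ (G j) (hGo j).measurableSet (hGΩ j)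
      (fun i => hall i j) Finset.univ
    rwa [hun] at this
  have hstep2 : ∀ j, Linked Ω (G j) Ω := fun j =>
    q1 _ _ hΩ.isOpen.measurableSet (hGo j).measurableSet (Subset.refl _) (hGΩ j) (hstep1 j)
  have := linked_biUnion p4 hΩ.isOpen hΩ.bdd G hGo hGΩ Ω hΩ.isOpen.measurableSet (Subset.refl _)
      hstep2 Finset.univ
  rwa [hun] at this

/-- **P** -/
theorem p_P_of (a2 : StmA2) (p3 : StmP3) (p4 : StmP4) (p5 : StmP5) : StmP := by
  intro n Ω hΩ
  obtain ⟨K, hK, hlink⟩ := linked_self p3 p4 p5 hΩ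
  have hfin : volume Ω ≠ ⊤ := hΩ.bdd.measure_lt_top.ne
  have hpos : 0 < volume.real Ω := by
    rw [Measure.real, ENNReal.toReal_pos_iff]
    exact ⟨hΩ.isOpen.measure_pos volume hΩ.nonempty, hΩ.bdd.measure_lt_top⟩
  set V := volume.real Ω with hV
  refine ⟨K / (2 * V) + 1, by positivity, fun φ Dφ hφ => ?_⟩
  have hD : 0 ≤ ∫ x in Ω, ‖Dφ x‖ ^ 2 := integral_nonneg fun x => by positivity
  have hI : IntegrableOn φ Ω := a2 Ω hΩ.bdd φ hφ.cont
  have hI2 : IntegrableOn (fun x => φ x ^ 2) Ω := a2 Ω hΩ.bdd _ (hφ.cont.pow 2)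
  set I := ∫ x in Ω, φ x with hIdef
  set J := ∫ x in Ω, φ x ^ 2 with hJdef
  have hconst : ∀ c : ℝ, ∫ _ in Ω, c = V * c := by
    intro c
    rw [setIntegral_const, smul_eq_mul]
  have hcI : ∀ c : ℝ, IntegrableOn (fun _ => c) Ω := fun c => integrableOn_const hfin
  have hgen : ∀ a b c : ℝ, ∫ x in Ω, (a * φ x ^ 2 - b * φ x + c) = a * J - b * I + V * c := by
    intro a b c
    have h1 : IntegrableOn (fun x => a * φ x ^ 2) Ω := hI2.const_mul a
    have h2 : IntegrableOn (fun x => b * φ x) Ω := hI.const_mul b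
    have h3 : IntegrableOn (fun x => a * φ x ^ 2 - b * φ x) Ω := h1.sub h2
    rw [integral_add h3 (hcI _), integral_sub h1 h2, integral_const_mul, integral_const_mul,
      hconst]
  have hexp : ∀ c : ℝ, ∫ x in Ω, (φ x - c) ^ 2 = J - 2 * c * I + V * c ^ 2 := by
    intro c
    have : (fun x => (φ x - c) ^ 2) = fun x => 1 * φ x ^ 2 - (2 * c) * φ x + c ^ 2 := by
      funext x; ring
    rw [this, hgen]; ring
  have hinner : ∀ x, ∫ y in Ω, (φ x - φ y) ^ 2 = V * φ x ^ 2 - 2 * I * φ x + J := by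
    intro x
    have : (fun y => (φ x - φ y) ^ 2) = fun y => (φ y - φ x) ^ 2 := by
      funext y; ring
    rw [this, hexp]; ring
  have hEn : En Ω Ω φ = 2 * V * J - 2 * I ^ 2 := by
    unfold En
    simp_rw [hinner]
    rw [hgen]
    ring
  refine ⟨I / V, ?_⟩
  rw [hexp]
  have h1 := hlink φ Dφ hφ
  rw [hEn] at h1
  have h2 : J - 2 * (I / V) * I + V * (I / V) ^ 2 = (2 * V * J - 2 * I ^ 2) / (2 * V) := by
    field_simp
    ring
  rw [h2, div_le_iff₀ (by positivity)]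
  calc 2 * V * J - 2 * I ^ 2 ≤ K * ∫ x in Ω, ‖Dφ x‖ ^ 2 := h1
    _ = (K / (2 * V)) * (∫ x in Ω, ‖Dφ x‖ ^ 2) * (2 * V) := by field_simp
    _ ≤ (K / (2 * V) + 1) * (∫ x in Ω, ‖Dφ x‖ ^ 2) * (2 * V) := by
        gcongr
        linarith

theorem p_P : StmP := p_P_of p_A2 (p_P3 p_P2) p_P4 p_P5

end Pool.Agent.Lib.MP_d8ef8f_an.Gd
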