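import Pool.Agent.Lib.MP_d8ef8f_an.Gd.A1
import Pool.Agent.Lib.MP_d8ef8f_an.Gd.A2
import Pool.Agent.Lib.MP_d8ef8f_an.Gd.A3
import Pool.Agent.Lib.MP_d8ef8f_an.Gd.B1
import Pool.Agent.Lib.MP_d8ef8f_an.Gd.B2
import Pool.Agent.Lib.MP_d8ef8f_an.Gd.B3
import Pool.Agent.Lib.MP_d8ef8f_an.Gd.C
import Pool.Agent.Lib.MP_d8ef8f_an.Gd.D0
import Pool.Agent.Lib.MP_d8ef8f_an.Gd.D1
import Pool.Agent.Lib.MP_d8ef8f_an.Gd.D2
import Pool.Agent.Lib.MP_d8ef8f_an.Gd.E1
import Pool.Agent.Lib.MP_d8ef8f_an.Gd.E2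
import Pool.Agent.Lib.MP_d8ef8f_an.Gd.E3
import Pool.Agent.Lib.MP_d8ef8f_an.Gd.E4
import Pool.Agent.Lib.MP_d8ef8f_an.Gd.F1
import Pool.Agent.Lib.MP_d8ef8f_an.Gd.F2
import Pool.Agent.Lib.MP_d8ef8f_an.Gd.F3
import Pool.Agent.Lib.MP_d8ef8f_an.Gd.Z
import Pool.Agent.Lib.MP_d8ef8f_an.Gd.P
import Pool.Agent.Lib.MP_d8ef8f_an.Gd.At
import Pool.Agent.Lib.MP_d8ef8f_an.Gd.Df8

/-!
# Assembly: general domains, explicit region of rates
-/

set_option autoImplicit false

namespace Pool.Agent.Lib.MP_d8ef8f_an.Gd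

open Set Filter Topology MeasureTheory

theorem z_all : StmZ :=
  p_Z (p_B1 p_A1 p_A2) (p_B2 p_A3) (p_B3 p_A2) (p_C p_A1 p_A2)
    (p_D2 p_A1 p_A2 p_A3 (p_D0 p_A2 p_A3) p_D1) (p_E1 p_A2) (p_E2 p_A2) (p_E3 p_A2) p_E4

/-- existence of a density for one base species -/
theorem exists_dens_base {N : ℕ} (d : Fin N → ℝ) (hd : ∀ i, 0 < d i) (hmono : StrictMono d)
    (k : Fin N) (hcond : ∀ j l : Fin N, (j : ℕ) = (k : ℕ) + 1 → j ≤ l →
      32 * ((N : ℝ) - 1) * d l ^ 2 * (d l - d j) ^ 2 ≤ d k ^ 3 * (d j - d k)) :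
    ∃ f g h, Dens d k f g h := by
  by_cases hlast : ∃ j : Fin N, k < j
  · obtain ⟨j0, hj0⟩ := hlast
    have hN : (k : ℕ) + 1 < N := lt_of_le_of_lt (Nat.succ_le_of_lt hj0) j0.isLt
    obtain ⟨j, hj⟩ : ∃ j : Fin N, (j : ℕ) = (k : ℕ) + 1 := ⟨⟨(k : ℕ) + 1, hN⟩, rfl⟩
    obtain ⟨l, hl⟩ : ∃ l : Fin N, (l : ℕ) = N - 1 := ⟨⟨N - 1, by omega⟩, rfl⟩
    have hjl : j ≤ l := by
      rw [Fin.le_def]
      omega
    have hkj : k < j := by
      rw [Fin.lt_def]
      omega
    have H : DfData d k (d j - d k) (d l - d k) ((N : ℝ) - 1) := by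
      refine ⟨hd k, sub_pos.2 (hmono hkj), ?_, ?_, ?_, ?_, ?_⟩
      · have := hmono.monotone hjl
        linarith
      · intro i hi
        constructor
        · have : j ≤ i := by
            rw [Fin.le_def]
            have := Fin.lt_def.1 hi
            omega
          have := hmono.monotone this
          linarith
        · have : i ≤ l := by
            rw [Fin.le_def]
            have := i.isLt
            omega
          have := hmono.monotone this
          linarith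
      · have : (2:ℝ) ≤ N := by
          have : 2 ≤ N := by omega
          exact_mod_cast this
        linarith
      · have h1 : (Finset.univ.filter (fun j => k < j)).card ≤ N - 1 := by
          have h2 : Finset.univ.filter (fun j => k < j) ⊆ Finset.univ.erase k := by
            intro i hi
            rw [Finset.mem_erase]
            exact ⟨(Finset.mem_filter.1 hi).2.ne', Finset.mem_univ _⟩
          have h3 := Finset.card_le_card h2
          rw [Finset.card_erase_of_mem (Finset.mem_univ k), Finset.card_univ, Fintype.card_fin] at h3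
          exact h3
        have h2 : ((N - 1 : ℕ) : ℝ) = (N : ℝ) - 1 := by
          rw [Nat.cast_sub (by omega)]
          norm_num
        rw [← h2]
        exact_mod_cast h1
      · have h1 := hcond j l hj hjl
        have h2 : d k + (d l - d k) = d l := by ring
        have h3 : d l - d k - (d j - d k) = d l - d j := by ring
        rw [h2, h3]
        linarith
    exact ⟨_, _, _, dens_of_data H⟩
  · have H : DfData d k 1 1 1 := by
      refine ⟨hd k, one_pos, le_rfl, ?_, le_rfl, ?_, ?_⟩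
      · intro i hi
        exact absurd ⟨i, hi⟩ hlast
      · have : Finset.univ.filter (fun j => k < j) = ∅ := by
          rw [Finset.filter_eq_empty_iff]
          intro i _ hi
          exact hlast ⟨i, hi⟩
        rw [this]
        simp
      · have := hd k
        have : 0 ≤ 1 * d k ^ 3 := by positivity
        linarith
    exact ⟨_, _, _, dens_of_data H⟩

/-- attraction property of the base species `k` -/
theorem attr_all {n N : ℕ} {Ω : Set (Sp n)} (hΩ : Domain Ω) {m : Sp n → ℝ}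
    (hm : ContinuousOn m (closure Ω)) (hnc : ∃ x ∈ closure Ω, ∃ y ∈ closure Ω, m x ≠ m y)
    {d : Fin N → ℝ} (hd : ∀ i, 0 < d i) (k : Fin N)
    (hD : ∃ f g h, Dens d k f g h) {θ : Sp n → ℝ} (hθ : IsSteady Ω (d k) m θ) :
    Attr Ω d m k θ := by
  obtain ⟨P, -, hP⟩ := p_P Ω hΩ
  exact attr_of_dens z_all (p_F2 p_A2) Ω hΩ.isOpen hΩ.nonempty hΩ.bdd P hP d hd m hm hnc k θ
    hθ hD

end Pool.Agent.Lib.MP_d8ef8f_an.Gd
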