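import Pool.Agent.Lib.MP_d8ef8f_an.Gd.StT

/-! # Piece Ta: the cut-off -/

set_option autoImplicit false

namespace Pool.Agent.Lib.MP_d8ef8f_an.Gd

open Set Filter Topology MeasureTheory

private lemma ta_max (u : ℝ) : HasDerivAt (fun u : ℝ => (max 0 u) ^ 2) (2 * max 0 u) u := by
  rcases lt_trichotomy u 0 with h | h | h
  · have h1 : HasDerivAt (fun _ : ℝ => (0 : ℝ)) 0 u := hasDerivAt_const u 0
    have h2 : 2 * max 0 u = 0 := by rw [max_eq_left h.le]; ring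
    rw [h2]
    refine h1.congr_of_eventuallyEq ?_
    filter_upwards [Iio_mem_nhds h] with v hv
    rw [max_eq_left (le_of_lt hv)]
    ring
  · subst h
    have h2 : 2 * max (0 : ℝ) 0 = 0 := by rw [max_self]; ring
    rw [h2, hasDerivAt_iff_isLittleO_nhds_zero]
    have h3 : (fun h : ℝ => max 0 (0 + h) ^ 2 - max (0 : ℝ) 0 ^ 2 - h • (0 : ℝ)) =
        fun h : ℝ => (max 0 h) ^ 2 := by
      funext h
      simp
    rw [h3]
    rw [Asymptotics.isLittleO_iff]
    intro c hc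
    filter_upwards [Metric.ball_mem_nhds (0 : ℝ) hc] with h hh
    rw [mem_ball_zero_iff, Real.norm_eq_abs] at hh
    rw [Real.norm_eq_abs, Real.norm_eq_abs, abs_of_nonneg (by positivity)]
    have h4 : max 0 h ≤ |h| := max_le (abs_nonneg h) (le_abs_self h)
    have h5 : 0 ≤ max 0 h := le_max_left _ _
    nlinarith [abs_nonneg h]
  · have h1 : HasDerivAt (fun v : ℝ => v ^ 2) (2 * u) u := by
      simpa using hasDerivAt_pow 2 u
    rw [max_eq_right h.le]
    refine h1.congr_of_eventuallyEq ?_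
    filter_upwards [Ioi_mem_nhds h] with v hv
    rw [max_eq_right (le_of_lt hv)]

private lemma ta_th1 (t : ℝ) : HasDerivAt th1 (th2 t) t := by
  have h1 : HasDerivAt (fun t : ℝ => 1 - t ^ 2) (-(2 * t)) t := by
    have := (hasDerivAt_pow 2 t).const_sub 1
    simpa using this
  have h2 := (ta_max (1 - t ^ 2)).comp t h1
  have h3 : 2 * max 0 (1 - t ^ 2) * (-(2 * t)) = th2 t := by
    unfold th2
    ring
  rw [h3] at h2
  exact h2

private lemma ta_c1 : Continuous th1 := by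
  unfold th1
  fun_prop

private lemma ta_th (t : ℝ) : HasDerivAt th (th1 t) t := by
  have := intervalIntegral.integral_hasDerivAt_right (ta_c1.intervalIntegrable 0 t)
    (ta_c1.stronglyMeasurableAtFilter _ _) ta_c1.continuousAt
  exact this

private lemma ta_in {t : ℝ} (h : |t| ≤ 1) : th1 t = (1 - t ^ 2) ^ 2 := by
  have h1 : 0 ≤ 1 - t ^ 2 := by
    have := sq_abs t
    nlinarith [abs_nonneg t]
  unfold th1
  rw [max_eq_right h1]

private lemma ta_out {t : ℝ} (h : 1 ≤ |t|) : max 0 (1 - t ^ 2) = 0 := by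
  apply max_eq_left
  have := sq_abs t
  nlinarith [abs_nonneg t]

private lemma ta_val {t : ℝ} (h : |t| ≤ 1) : th t = t - 2 / 3 * t ^ 3 + 1 / 5 * t ^ 5 := by
  unfold th
  have h1 : ∫ u in (0:ℝ)..t, th1 u = ∫ u in (0:ℝ)..t, (1 - u ^ 2) ^ 2 := by
    refine intervalIntegral.integral_congr fun u hu => ?_
    apply ta_in
    have h2 : |u| ≤ |t| := by
      rcases le_total 0 t with h3 | h3
      · rw [Set.uIcc_of_le h3] at hu
        rw [abs_of_nonneg hu.1, abs_of_nonneg h3]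
        exact hu.2
      · rw [Set.uIcc_of_ge h3] at hu
        rw [abs_of_nonpos hu.2, abs_of_nonpos h3]
        linarith [hu.1]
    linarith
  rw [h1]
  have h2 : ∀ u ∈ Set.uIcc 0 t, HasDerivAt (fun u : ℝ => u - 2 / 3 * u ^ 3 + 1 / 5 * u ^ 5)
      ((1 - u ^ 2) ^ 2) u := by
    intro u _
    have := ((hasDerivAt_id u).sub ((hasDerivAt_pow 3 u).const_mul (2 / 3 : ℝ))).add
      ((hasDerivAt_pow 5 u).const_mul (1 / 5 : ℝ))
    have e : (1 : ℝ) - 2 / 3 * (((3 : ℕ) : ℝ) * u ^ (3 - 1)) + 1 / 5 * (((5 : ℕ) : ℝ) * u ^ (5 - 1)) =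
        (1 - u ^ 2) ^ 2 := by
      norm_num
      ring
    rw [e] at this
    exact this
  rw [intervalIntegral.integral_eq_sub_of_hasDerivAt h2 (by
    apply Continuous.intervalIntegrable
    fun_prop)]
  ring

private lemma ta_ge {t : ℝ} (h : 1 ≤ t) : th t = 8 / 15 := by
  have h1 : th t = th 1 + ∫ u in (1:ℝ)..t, th1 u := by
    unfold th
    rw [intervalIntegral.integral_add_adjacent_intervals (ta_c1.intervalIntegrable _ _)
      (ta_c1.intervalIntegrable _ _)]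
  have h2 : ∫ u in (1:ℝ)..t, th1 u = ∫ u in (1:ℝ)..t, (0 : ℝ) := by
    refine intervalIntegral.integral_congr fun u hu => ?_
    rw [Set.uIcc_of_le h] at hu
    show th1 u = 0
    unfold th1
    rw [ta_out (by rw [abs_of_nonneg (by linarith [hu.1])]; exact hu.1)]
    ring
  rw [h1, h2, ta_val (by norm_num)]
  simp
  norm_num

private lemma ta_le {t : ℝ} (h : t ≤ -1) : th t = - (8 / 15) := by
  have h1 : th t = th (-1) + ∫ u in (-1:ℝ)..t, th1 u := by
    unfold th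
    rw [intervalIntegral.integral_add_adjacent_intervals (ta_c1.intervalIntegrable _ _)
      (ta_c1.intervalIntegrable _ _)]
  have h2 : ∫ u in (-1:ℝ)..t, th1 u = ∫ u in (-1:ℝ)..t, (0 : ℝ) := by
    refine intervalIntegral.integral_congr fun u hu => ?_
    rw [Set.uIcc_of_ge h] at hu
    show th1 u = 0
    unfold th1
    rw [ta_out (by rw [abs_of_nonpos (by linarith [hu.2])]; linarith [hu.2])]
    ring
  rw [h1, h2, ta_val (by norm_num)]
  simp
  norm_num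

private lemma ta_kin {t : ℝ} (h : |t| ≤ 1) : thk t = 4 / 3 * t ^ 3 - 4 / 5 * t ^ 5 := by
  unfold thk
  rw [ta_val h, ta_in h]
  ring

private lemma ta_kout {t : ℝ} (h : 1 ≤ |t|) : thk t = th t := by
  unfold thk th1
  rw [ta_out h]
  ring

private lemma ta_p1 {s : ℝ} (h0 : 0 ≤ s) (h1 : s ≤ 1) :
    0 ≤ s - 2 / 3 * s ^ 3 + 1 / 5 * s ^ 5 ∧ s - 2 / 3 * s ^ 3 + 1 / 5 * s ^ 5 ≤ 8 / 15 := by
  have h2 : s ^ 2 ≤ 1 := by nlinarith
  have e1 : s - 2 / 3 * s ^ 3 + 1 / 5 * s ^ 5 =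
      s * ((1 - s ^ 2) * (1 / 3) + 2 / 3 * (1 - s ^ 2) + 1 / 5 * (s ^ 2) ^ 2 + 1 / 3 * s ^ 2) := by
    ring
  have e2 : 8 / 15 - (s - 2 / 3 * s ^ 3 + 1 / 5 * s ^ 5) =
      (1 - s) ^ 3 * (8 / 15 + 3 / 5 * s + 1 / 5 * s ^ 2) := by
    ring
  constructor
  · rw [e1]
    have : 0 ≤ 1 - s ^ 2 := by linarith
    positivity
  · have h3 : 0 ≤ (1 - s) ^ 3 * (8 / 15 + 3 / 5 * s + 1 / 5 * s ^ 2) := by
      have : 0 ≤ 1 - s := by linarith
      positivity
    linarith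

private lemma ta_p2 {s : ℝ} (h0 : 0 ≤ s) (h1 : s ≤ 1) :
    0 ≤ 4 / 3 * s ^ 3 - 4 / 5 * s ^ 5 ∧ 4 / 3 * s ^ 3 - 4 / 5 * s ^ 5 ≤ 8 / 15 := by
  have h2 : s ^ 2 ≤ 1 := by nlinarith
  have e1 : 4 / 3 * s ^ 3 - 4 / 5 * s ^ 5 = s ^ 3 * (4 / 5 * (1 - s ^ 2) + 8 / 15) := by ring
  have e2 : 8 / 15 - (4 / 3 * s ^ 3 - 4 / 5 * s ^ 5) =
      (1 - s) ^ 2 * (8 / 15 + 16 / 15 * s + 8 / 5 * s ^ 2 + 4 / 5 * s ^ 3) := by ring
  constructor
  · rw [e1]
    have : 0 ≤ 1 - s ^ 2 := by linarith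
    positivity
  · have h3 : 0 ≤ (1 - s) ^ 2 * (8 / 15 + 16 / 15 * s + 8 / 5 * s ^ 2 + 4 / 5 * s ^ 3) := by
      positivity
    linarith

theorem p_Ta : StmTa := by
  have hp : ∀ t : ℝ, 0 ≤ t → (0 ≤ th t ∧ th t ≤ 8 / 15) ∧ (0 ≤ thk t ∧ thk t ≤ 8 / 15) := by
    intro t ht
    rcases le_total t 1 with h | h
    · have ha : |t| ≤ 1 := by rw [abs_of_nonneg ht]; exact h
      rw [ta_kin ha, ta_val ha]
      exact ⟨ta_p1 ht h, ta_p2 ht h⟩
    · have ha : 1 ≤ |t| := by rw [abs_of_nonneg ht]; exact h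
      rw [ta_kout ha, ta_ge h]
      norm_num
  have hn : ∀ t : ℝ, t ≤ 0 → (th t ≤ 0 ∧ -(8 / 15) ≤ th t) ∧ (thk t ≤ 0 ∧ -(8 / 15) ≤ thk t) := by
    intro t ht
    rcases le_total (-1) t with h | h
    · have ha : |t| ≤ 1 := by rw [abs_of_nonpos ht]; linarith
      have h1 := ta_p1 (s := -t) (by linarith) (by linarith)
      have h2 := ta_p2 (s := -t) (by linarith) (by linarith)
      rw [ta_kin ha, ta_val ha]
      have e1 : (-t) - 2 / 3 * (-t) ^ 3 + 1 / 5 * (-t) ^ 5 =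
          -(t - 2 / 3 * t ^ 3 + 1 / 5 * t ^ 5) := by ring
      have e2 : 4 / 3 * (-t) ^ 3 - 4 / 5 * (-t) ^ 5 = -(4 / 3 * t ^ 3 - 4 / 5 * t ^ 5) := by ring
      rw [e1] at h1
      rw [e2] at h2
      refine ⟨⟨by linarith [h1.1], by linarith [h1.2]⟩, ⟨by linarith [h2.1], by linarith [h2.2]⟩⟩
    · have ha : 1 ≤ |t| := by rw [abs_of_nonpos ht]; linarith
      rw [ta_kout ha, ta_le h]
      norm_num
  refine ⟨ta_th, ta_th1, ?_, ?_, ?_, ?_, ?_, ?_, ?_, ?_, ?_⟩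
  · unfold th2
    fun_prop
  · intro t
    unfold th1
    have h1 : 0 ≤ max 0 (1 - t ^ 2) := le_max_left _ _
    have h2 : max 0 (1 - t ^ 2) ≤ 1 := max_le (by norm_num) (by nlinarith [sq_nonneg t])
    exact ⟨by positivity, by nlinarith⟩
  · intro t ht
    unfold th1 th2
    rw [ta_out ht]
    constructor <;> ring
  · intro t
    rcases le_total |t| 1 with h | h
    · have h1 : 0 ≤ 1 - t ^ 2 := by
        have := sq_abs t
        nlinarith [abs_nonneg t]
      unfold th2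
      rw [max_eq_right h1, abs_mul, abs_mul, abs_of_nonneg h1]
      have h2 : |(-4 : ℝ)| = 4 := by norm_num
      rw [h2, ← sq_abs t]
      have h3 := abs_nonneg t
      set s := |t| with hs
      have h4 : 0 ≤ (s - 577 / 1000) ^ 2 * (s + 2 * (577 / 1000)) := by positivity
      nlinarith [h4]
    · unfold th2
      rw [ta_out h]
      norm_num
  · intro t
    rcases le_total 0 t with h | h
    · obtain ⟨⟨h1, h2⟩, _⟩ := hp t h
      exact abs_le.2 ⟨by linarith, h2⟩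
    · obtain ⟨⟨h1, h2⟩, _⟩ := hn t h
      exact abs_le.2 ⟨h2, by linarith⟩
  · intro t
    rcases le_total 0 t with h | h
    · obtain ⟨_, ⟨h1, h2⟩⟩ := hp t h
      exact abs_le.2 ⟨by linarith, h2⟩
    · obtain ⟨_, ⟨h1, h2⟩⟩ := hn t h
      exact abs_le.2 ⟨h2, by linarith⟩
  · intro t ht
    exact ⟨(hp t ht).1.1, (hp t ht).2.1⟩
  · intro t ht
    exact ⟨(hn t ht).1.1, (hn t ht).2.1⟩
  · intro t
    rcases le_total |t| 1 with h | h
    · rw [ta_in h]
      nlinarith [sq_nonneg (t ^ 2)]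
    · have h1 : th1 t = 0 := by
        unfold th1
        rw [ta_out h]
        ring
      rw [h1]
      have := sq_abs t
      nlinarith [abs_nonneg t]

end Pool.Agent.Lib.MP_d8ef8f_an.Gd
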