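import Pool.Agent.Lib.MP_d8ef8f_an.Gd.StT

/-!
# Tb: the jets of one species
-/

set_option autoImplicit false

namespace Pool.Agent.Lib.MP_d8ef8f_an.Gd

open Set Filter Topology

private theorem jt_congr {N : ℕ} {U : Set (Fin N → ℝ)} (hU : IsOpen U)
    {φ ψ : (Fin N → ℝ) → ℝ} {D D' : (Fin N → ℝ) → (Fin N → ℝ) → ℝ}
    {DD DD' : (Fin N → ℝ) → (Fin N → ℝ) → (Fin N → ℝ) → ℝ} (h : Jt U φ D DD)
    (e0 : ∀ s ∈ U, ψ s = φ s) (e1 : ∀ s ∈ U, ∀ a, D' s a = D s a)
    (e2 : ∀ s ∈ U, ∀ a b, DD' s a b = DD s a b) : Jt U ψ D' DD' := by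
  refine ⟨?_, ?_, ?_⟩
  · intro s hs
    obtain ⟨L, hL, hd⟩ := h.d1 s hs
    refine ⟨L, fun a => by rw [hL, e1 s hs], hd.congr_of_eventuallyEq ?_⟩
    exact Filter.eventuallyEq_of_mem (hU.mem_nhds hs) (fun x hx => e0 x hx)
  · intro a s hs
    obtain ⟨L, hL, hd⟩ := h.d2 a s hs
    refine ⟨L, fun b => by rw [hL, e2 s hs], hd.congr_of_eventuallyEq ?_⟩
    exact Filter.eventuallyEq_of_mem (hU.mem_nhds hs) (fun x hx => e1 x hx a)
  · intro a b
    exact (h.c2 a b).congr (fun s hs => e2 s hs a b)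

private theorem jt_const {N : ℕ} (U : Set (Fin N → ℝ)) (c : ℝ) :
    Jt U (fun _ => c) (fun _ _ => 0) (fun _ _ _ => 0) := by
  refine ⟨fun s _ => ⟨0, fun a => rfl, hasFDerivAt_const c s⟩,
    fun a s _ => ⟨0, fun b => rfl, hasFDerivAt_const (0:ℝ) s⟩,
    fun a b => continuousOn_const⟩

private theorem jt_aff {N : ℕ} (U : Set (Fin N → ℝ)) {φ : (Fin N → ℝ) → ℝ}
    (L : (Fin N → ℝ) →L[ℝ] ℝ) (h : ∀ s, HasFDerivAt φ L s) :
    Jt U φ (fun _ a => L a) (fun _ _ _ => 0) := by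
  refine ⟨fun s _ => ⟨L, fun a => rfl, h s⟩,
    fun a s _ => ⟨0, fun b => rfl, hasFDerivAt_const (L a) s⟩,
    fun a b => continuousOn_const⟩

section
variable {N : ℕ} {U : Set (Fin N → ℝ)} {φ ψ : (Fin N → ℝ) → ℝ}
  {D D' : (Fin N → ℝ) → (Fin N → ℝ) → ℝ} {DD DD' : (Fin N → ℝ) → (Fin N → ℝ) → (Fin N → ℝ) → ℝ}

private theorem jt_c0 (h : Jt U φ D DD) : ContinuousOn φ U := by
  intro s hs
  obtain ⟨L, -, hd⟩ := h.d1 s hs
  exact hd.continuousAt.continuousWithinAt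

private theorem jt_c1 (h : Jt U φ D DD) (a : Fin N → ℝ) : ContinuousOn (fun s => D s a) U := by
  intro s hs
  obtain ⟨L, -, hd⟩ := h.d2 a s hs
  exact hd.continuousAt.continuousWithinAt

private theorem jt_add (h : Jt U φ D DD) (h' : Jt U ψ D' DD') :
    Jt U (fun s => φ s + ψ s) (fun s a => D s a + D' s a) (fun s a b => DD s a b + DD' s a b) := by
  refine ⟨?_, ?_, ?_⟩
  · intro s hs
    obtain ⟨L, hL, hd⟩ := h.d1 s hs
    obtain ⟨L', hL', hd'⟩ := h'.d1 s hs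
    exact ⟨L + L', fun a => by rw [_root_.add_apply, hL, hL'], hd.add hd'⟩
  · intro a s hs
    obtain ⟨L, hL, hd⟩ := h.d2 a s hs
    obtain ⟨L', hL', hd'⟩ := h'.d2 a s hs
    exact ⟨L + L', fun a => by rw [_root_.add_apply, hL, hL'], hd.add hd'⟩
  · intro a b
    exact (h.c2 a b).add (h'.c2 a b)

private theorem jt_cmul (c : ℝ) (h : Jt U φ D DD) :
    Jt U (fun s => c * φ s) (fun s a => c * D s a) (fun s a b => c * DD s a b) := by
  refine ⟨?_, ?_, ?_⟩
  · intro s hs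
    obtain ⟨L, hL, hd⟩ := h.d1 s hs
    exact ⟨c • L, fun a => by rw [_root_.smul_apply, hL, smul_eq_mul],
      hd.const_mul c⟩
  · intro a s hs
    obtain ⟨L, hL, hd⟩ := h.d2 a s hs
    exact ⟨c • L, fun a => by rw [_root_.smul_apply, hL, smul_eq_mul],
      hd.const_mul c⟩
  · intro a b
    exact continuousOn_const.mul (h.c2 a b)

private theorem jt_mul (h : Jt U φ D DD) (h' : Jt U ψ D' DD') :
    Jt U (fun s => φ s * ψ s) (fun s a => φ s * D' s a + ψ s * D s a)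
      (fun s a b => (φ s * DD' s a b + D' s a * D s b) + (ψ s * DD s a b + D s a * D' s b)) := by
  refine ⟨?_, ?_, ?_⟩
  · intro s hs
    obtain ⟨L, hL, hd⟩ := h.d1 s hs
    obtain ⟨L', hL', hd'⟩ := h'.d1 s hs
    refine ⟨φ s • L' + ψ s • L, fun a => ?_, hd.mul hd'⟩
    simp only [_root_.add_apply, _root_.smul_apply, smul_eq_mul, hL, hL']
  · intro a s hs
    obtain ⟨L, hL, hd⟩ := h.d1 s hs
    obtain ⟨L', hL', hd'⟩ := h'.d1 s hs
    obtain ⟨M, hM, hm⟩ := h.d2 a s hs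
    obtain ⟨M', hM', hm'⟩ := h'.d2 a s hs
    refine ⟨(φ s • M' + D' s a • L) + (ψ s • M + D s a • L'), fun b => ?_,
      (hd.mul hm').add (hd'.mul hm)⟩
    simp only [_root_.add_apply, _root_.smul_apply, smul_eq_mul, hL, hL',
      hM, hM']
  · intro a b
    exact (((jt_c0 h).mul (h'.c2 a b)).add ((jt_c1 h' a).mul (jt_c1 h b))).add
      (((jt_c0 h').mul (h.c2 a b)).add ((jt_c1 h a).mul (jt_c1 h' b)))

private theorem jt_comp (g g1 g2 : ℝ → ℝ) (h : Jt U φ D DD)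
    (h1 : ∀ s ∈ U, HasDerivAt g (g1 (φ s)) (φ s)) (h2 : ∀ s ∈ U, HasDerivAt g1 (g2 (φ s)) (φ s))
    (h3 : ContinuousOn (fun s => g2 (φ s)) U) :
    Jt U (fun s => g (φ s)) (fun s a => g1 (φ s) * D s a)
      (fun s a b => g1 (φ s) * DD s a b + D s a * (g2 (φ s) * D s b)) := by
  refine ⟨?_, ?_, ?_⟩
  · intro s hs
    obtain ⟨L, hL, hd⟩ := h.d1 s hs
    refine ⟨g1 (φ s) • L, fun a => ?_, (h1 s hs).comp_hasFDerivAt s hd⟩
    simp only [_root_.smul_apply, smul_eq_mul, hL]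
  · intro a s hs
    obtain ⟨L, hL, hd⟩ := h.d1 s hs
    obtain ⟨M, hM, hm⟩ := h.d2 a s hs
    refine ⟨g1 (φ s) • M + D s a • (g2 (φ s) • L), fun b => ?_,
      ((h2 s hs).comp_hasFDerivAt s hd).mul hm⟩
    simp only [_root_.add_apply, _root_.smul_apply, smul_eq_mul, hL, hM]
  · intro a b
    have c : ContinuousOn (fun s => g1 (φ s)) U := by
      intro s hs
      obtain ⟨L, hL, hd⟩ := h.d1 s hs
      exact ((h2 s hs).comp_hasFDerivAt s hd).continuousAt.continuousWithinAt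
    exact (c.mul (h.c2 a b)).add ((jt_c1 h a).mul (h3.mul (jt_c1 h b)))

private theorem jt_exp (h : Jt U φ D DD) :
    Jt U (fun s => Real.exp (φ s)) (fun s a => Real.exp (φ s) * D s a)
      (fun s a b => Real.exp (φ s) * DD s a b + D s a * (Real.exp (φ s) * D s b)) :=
  jt_comp Real.exp Real.exp Real.exp h (fun s _ => Real.hasDerivAt_exp _)
    (fun s _ => Real.hasDerivAt_exp _) (Real.continuous_exp.comp_continuousOn (jt_c0 h))

private theorem jt_log (h : Jt U φ D DD) (hp : ∀ s ∈ U, 0 < φ s) :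
    Jt U (fun s => Real.log (φ s)) (fun s a => (φ s)⁻¹ * D s a)
      (fun s a b => (φ s)⁻¹ * DD s a b + D s a * (-((φ s) ^ 2)⁻¹ * D s b)) :=
  jt_comp Real.log (fun t => t⁻¹) (fun t => -(t ^ 2)⁻¹) h
    (fun s hs => Real.hasDerivAt_log (hp s hs).ne') (fun s hs => hasDerivAt_inv (hp s hs).ne')
    (ContinuousOn.neg (ContinuousOn.inv₀ ((jt_c0 h).pow 2) (fun s hs => by
      have := hp s hs
      positivity)))

end

section
variable {N : ℕ} {U : Set (Fin N → ℝ)} {r S x : (Fin N → ℝ) → ℝ} {lr lS lx : (Fin N → ℝ) →L[ℝ] ℝ}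

/-- `β (log r - log S)` -/
private theorem jt_y (β : ℝ) (hU : IsOpen U) (hr : ∀ s, HasFDerivAt r lr s)
    (hS : ∀ s, HasFDerivAt S lS s) (r0 : ∀ s ∈ U, 0 < r s) (S0 : ∀ s ∈ U, 0 < S s) :
    Jt U (fun s => β * (Real.log (r s) - Real.log (S s)))
      (fun s a => β * (lr a / r s - lS a / S s))
      (fun s a b => -β * ((lr a / r s) * (lr b / r s) - (lS a / S s) * (lS b / S s))) := by
  refine jt_congr hU (jt_cmul β (jt_add (jt_log (jt_aff U lr hr) r0)
    (jt_cmul (-1) (jt_log (jt_aff U lS hS) S0)))) ?_ ?_ ?_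
  · intro s hs; ring
  · intro s hs a
    have h1 := (r0 s hs).ne'
    have h2 := (S0 s hs).ne'
    field_simp
    ring
  · intro s hs a b
    have h1 := (r0 s hs).ne'
    have h2 := (S0 s hs).ne'
    field_simp
    ring

/-- `log w` -/
private theorem jt_lw (β : ℝ) (hU : IsOpen U) (hr : ∀ s, HasFDerivAt r lr s)
    (hS : ∀ s, HasFDerivAt S lS s) (r0 : ∀ s ∈ U, 0 < r s) (S0 : ∀ s ∈ U, 0 < S s) :
    Jt U (fun s => β * (Real.log (r s) - Real.log (S s)) +
        (Real.log (S s) + -1 * Real.log (1 + S s)) + -Real.log 32)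
      (fun s a => β * (lr a / r s - lS a / S s) + lS a / S s / (1 + S s))
      (fun s a b => -β * ((lr a / r s) * (lr b / r s) - (lS a / S s) * (lS b / S s))
        - (lS a / S s) * (lS b / S s) * (1 - S s ^ 2 / (1 + S s) ^ 2)) := by
  have q1 : ∀ s ∈ U, 0 < 1 + S s := fun s hs => by linarith [S0 s hs]
  refine jt_congr hU (jt_add (jt_add (jt_y β hU hr hS r0 S0) (jt_add (jt_log (jt_aff U lS hS) S0)
    (jt_cmul (-1) (jt_log (jt_add (jt_const U 1) (jt_aff U lS hS)) q1))))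
    (jt_const U (-Real.log 32))) ?_ ?_ ?_
  · intro s hs; ring
  · intro s hs a
    have h1 := (r0 s hs).ne'
    have h2 := (S0 s hs).ne'
    have h3 := (q1 s hs).ne'
    field_simp
    ring
  · intro s hs a b
    have h1 := (r0 s hs).ne'
    have h2 := (S0 s hs).ne'
    have h3 := (q1 s hs).ne'
    field_simp
    ring

private theorem w_eq (β R T : ℝ) (hT : 0 < T) :
    Real.exp (β * (Real.log R - Real.log T)) * T / (32 * (1 + T)) =
    Real.exp (β * (Real.log R - Real.log T) +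
        (Real.log T + -1 * Real.log (1 + T)) + -Real.log 32) := by
  rw [Real.exp_add, Real.exp_add, Real.exp_add, neg_one_mul, Real.exp_neg, Real.exp_neg,
    Real.exp_log hT, Real.exp_log (by linarith), Real.exp_log (by norm_num)]
  field_simp

/-- `w` -/
private theorem jt_w (β : ℝ) (hU : IsOpen U) (hr : ∀ s, HasFDerivAt r lr s)
    (hS : ∀ s, HasFDerivAt S lS s) (r0 : ∀ s ∈ U, 0 < r s) (S0 : ∀ s ∈ U, 0 < S s) :
    Jt U (fun s => (Atm.mk' β (r s) (S s) (x s)).w)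
      (fun s a => (Atm.mk' β (r s) (S s) (x s)).w *
        (β * (lr a / r s - lS a / S s) + lS a / S s / (1 + S s)))
      (fun s a b => (Atm.mk' β (r s) (S s) (x s)).w *
        (-β * ((lr a / r s) * (lr b / r s) - (lS a / S s) * (lS b / S s))
        - (lS a / S s) * (lS b / S s) * (1 - S s ^ 2 / (1 + S s) ^ 2)
        + (β * (lr a / r s - lS a / S s) + lS a / S s / (1 + S s)) *
          (β * (lr b / r s - lS b / S s) + lS b / S s / (1 + S s)))) := by
  refine jt_congr hU (jt_exp (jt_lw β hU hr hS r0 S0)) ?_ ?_ ?_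
  · intro s hs
    exact w_eq β (r s) (S s) (S0 s hs)
  · intro s hs a
    have : (Atm.mk' β (r s) (S s) (x s)).w = _ := w_eq β (r s) (S s) (S0 s hs)
    rw [this]
  · intro s hs a b
    have : (Atm.mk' β (r s) (S s) (x s)).w = _ := w_eq β (r s) (S s) (S0 s hs)
    rw [this]
    ring

/-- `1 / w` -/
private theorem jt_wi (β : ℝ) (hU : IsOpen U) (hr : ∀ s, HasFDerivAt r lr s)
    (hS : ∀ s, HasFDerivAt S lS s) (r0 : ∀ s ∈ U, 0 < r s) (S0 : ∀ s ∈ U, 0 < S s) :
    Jt U (fun s => ((Atm.mk' β (r s) (S s) (x s)).w)⁻¹)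
      (fun s a => -(((Atm.mk' β (r s) (S s) (x s)).w)⁻¹ *
        (β * (lr a / r s - lS a / S s) + lS a / S s / (1 + S s))))
      (fun s a b => ((Atm.mk' β (r s) (S s) (x s)).w)⁻¹ *
        (-(-β * ((lr a / r s) * (lr b / r s) - (lS a / S s) * (lS b / S s))
        - (lS a / S s) * (lS b / S s) * (1 - S s ^ 2 / (1 + S s) ^ 2))
        + (β * (lr a / r s - lS a / S s) + lS a / S s / (1 + S s)) *
          (β * (lr b / r s - lS b / S s) + lS b / S s / (1 + S s)))) := by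
  have key : ∀ s ∈ U, ((Atm.mk' β (r s) (S s) (x s)).w)⁻¹ =
      Real.exp (-1 * (β * (Real.log (r s) - Real.log (S s)) +
        (Real.log (S s) + -1 * Real.log (1 + S s)) + -Real.log 32)) := by
    intro s hs
    have : (Atm.mk' β (r s) (S s) (x s)).w = _ := w_eq β (r s) (S s) (S0 s hs)
    rw [this, neg_one_mul (_ + _), Real.exp_neg]
  refine jt_congr hU (jt_exp (jt_cmul (-1) (jt_lw β hU hr hS r0 S0))) ?_ ?_ ?_
  · intro s hs
    exact key s hs
  · intro s hs a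
    rw [key s hs]
    ring
  · intro s hs a b
    rw [key s hs]
    ring

/-- `v` -/
private theorem jt_v (hU : IsOpen U) (β : ℝ)
    (hS : ∀ s, HasFDerivAt S lS s) (hx : ∀ s, HasFDerivAt x lx s) :
    Jt U (fun s => (Atm.mk' β (r s) (S s) (x s)).v) (fun _ a => lS a + lx a) (fun _ _ _ => 0) := by
  refine jt_congr hU (jt_add (jt_add (jt_aff U lS hS) (jt_aff U lx hx)) (jt_const U (-1))) ?_ ?_ ?_
  · intro s hs
    show S s + x s - 1 = _
    ring
  · intro s hs a; ring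
  · intro s hs a b; ring

/-- `H` -/
private theorem jt_H (ta : StmTa) (β : ℝ) (hU : IsOpen U) (hr : ∀ s, HasFDerivAt r lr s)
    (hS : ∀ s, HasFDerivAt S lS s) (hx : ∀ s, HasFDerivAt x lx s)
    (r0 : ∀ s ∈ U, 0 < r s) (S0 : ∀ s ∈ U, 0 < S s) :
    Jt U (fun s => (Atm.mk' β (r s) (S s) (x s)).H)
      (fun s a => (Atm.mk' β (r s) (S s) (x s)).DH (lS a) (S s * (lr a / r s) - lS a)
          (lS a + lx a))
      (fun s a b => (Atm.mk' β (r s) (S s) (x s)).DDH (lS a) (S s * (lr a / r s) - lS a)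
          (lS a + lx a) (lS b) (S s * (lr b / r s) - lS b) (lS b + lx b)) := by
  obtain ⟨t1, t2, t3, -⟩ := ta
  have Jv := jt_v (r := r) (U := U) hU β hS hx
  have Jwi := jt_wi (x := x) β hU hr hS r0 S0
  have Jw := jt_w (x := x) β hU hr hS r0 S0
  have Jt' := jt_mul Jv Jwi
  have Jh := jt_comp th th1 th2 Jt' (fun s _ => t1 _) (fun s _ => t2 _)
    (t3.comp_continuousOn (jt_c0 Jt'))
  have w0 : ∀ s ∈ U, (Atm.mk' β (r s) (S s) (x s)).w ≠ 0 := by
    intro s hs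
    have := S0 s hs
    have : 0 < Real.exp (β * (Real.log (r s) - Real.log (S s))) * S s / (32 * (1 + S s)) := by
      positivity
    exact this.ne'
  refine jt_congr hU (jt_mul Jw Jh) ?_ ?_ ?_
  · intro s hs
    show (Atm.mk' β (r s) (S s) (x s)).w * th ((Atm.mk' β (r s) (S s) (x s)).v /
      (Atm.mk' β (r s) (S s) (x s)).w) = _
    rw [div_eq_mul_inv]
  · intro s hs a
    have hw := w0 s hs
    have hr1 := (r0 s hs).ne'
    have hS1 := (S0 s hs).ne'
    have hS2 : 1 + S s ≠ 0 := by linarith [S0 s hs]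
    have eκ : (Atm.mk' β (r s) (S s) (x s)).κ = th ((Atm.mk' β (r s) (S s) (x s)).v *
      ((Atm.mk' β (r s) (S s) (x s)).w)⁻¹) - ((Atm.mk' β (r s) (S s) (x s)).v *
      ((Atm.mk' β (r s) (S s) (x s)).w)⁻¹) * th1 ((Atm.mk' β (r s) (S s) (x s)).v *
      ((Atm.mk' β (r s) (S s) (x s)).w)⁻¹) := by
      rw [← div_eq_mul_inv]; rfl
    have e1 : (Atm.mk' β (r s) (S s) (x s)).h1 = th1 ((Atm.mk' β (r s) (S s) (x s)).v *
      ((Atm.mk' β (r s) (S s) (x s)).w)⁻¹) := by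
      rw [← div_eq_mul_inv]; rfl
    have eS : (Atm.mk' β (r s) (S s) (x s)).S = S s := rfl
    have eβ : (Atm.mk' β (r s) (S s) (x s)).β = β := rfl
    unfold Atm.DH Atm.al
    rw [eκ, e1, eS, eβ]
    generalize th ((Atm.mk' β (r s) (S s) (x s)).v * ((Atm.mk' β (r s) (S s) (x s)).w)⁻¹) = T
    generalize th1 ((Atm.mk' β (r s) (S s) (x s)).v * ((Atm.mk' β (r s) (S s) (x s)).w)⁻¹) = T1
    generalize (Atm.mk' β (r s) (S s) (x s)).v = v
    generalize (Atm.mk' β (r s) (S s) (x s)).w = w at hw ⊢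
    field_simp
    ring
  · intro s hs a b
    have hw := w0 s hs
    have hr1 := (r0 s hs).ne'
    have hS1 := (S0 s hs).ne'
    have hS2 : 1 + S s ≠ 0 := by linarith [S0 s hs]
    have eκ : (Atm.mk' β (r s) (S s) (x s)).κ = th ((Atm.mk' β (r s) (S s) (x s)).v *
      ((Atm.mk' β (r s) (S s) (x s)).w)⁻¹) - ((Atm.mk' β (r s) (S s) (x s)).v *
      ((Atm.mk' β (r s) (S s) (x s)).w)⁻¹) * th1 ((Atm.mk' β (r s) (S s) (x s)).v *
      ((Atm.mk' β (r s) (S s) (x s)).w)⁻¹) := by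
      rw [← div_eq_mul_inv]; rfl
    have e1 : (Atm.mk' β (r s) (S s) (x s)).h1 = th1 ((Atm.mk' β (r s) (S s) (x s)).v *
      ((Atm.mk' β (r s) (S s) (x s)).w)⁻¹) := by
      rw [← div_eq_mul_inv]; rfl
    have e2 : (Atm.mk' β (r s) (S s) (x s)).h2 = th2 ((Atm.mk' β (r s) (S s) (x s)).v *
      ((Atm.mk' β (r s) (S s) (x s)).w)⁻¹) := by
      rw [← div_eq_mul_inv]; rfl
    have eS : (Atm.mk' β (r s) (S s) (x s)).S = S s := rfl
    have eβ : (Atm.mk' β (r s) (S s) (x s)).β = β := rfl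
    unfold Atm.DDH Atm.al
    rw [eκ, e2, eS, eβ]
    generalize th ((Atm.mk' β (r s) (S s) (x s)).v * ((Atm.mk' β (r s) (S s) (x s)).w)⁻¹) = T
    generalize th1 ((Atm.mk' β (r s) (S s) (x s)).v * ((Atm.mk' β (r s) (S s) (x s)).w)⁻¹) = T1
    generalize th2 ((Atm.mk' β (r s) (S s) (x s)).v * ((Atm.mk' β (r s) (S s) (x s)).w)⁻¹) = T2
    generalize (Atm.mk' β (r s) (S s) (x s)).v = v
    generalize (Atm.mk' β (r s) (S s) (x s)).w = w at hw ⊢
    generalize lr a = A1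
    generalize lr b = B1
    generalize lS a = A2
    generalize lS b = B2
    generalize lx a = A3
    generalize lx b = B3
    generalize r s = R at hr1 ⊢
    generalize S s = Q at hS1 hS2 ⊢
    have q1 : ∃ θ, θ = A1 / R - A2 / Q := ⟨_, rfl⟩
    obtain ⟨θ, hθ⟩ := q1
    have q2 : ∃ θ', θ' = B1 / R - B2 / Q := ⟨_, rfl⟩
    obtain ⟨θ', hθ'⟩ := q2
    have q3 : ∃ ρ, ρ = A2 / Q := ⟨_, rfl⟩
    obtain ⟨ρ, hρ⟩ := q3
    have q4 : ∃ ρ', ρ' = B2 / Q := ⟨_, rfl⟩
    obtain ⟨ρ', hρ'⟩ := q4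
    have k1 : A1 / R = θ + ρ := by rw [hθ, hρ]; ring
    have k2 : B1 / R = θ' + ρ' := by rw [hθ', hρ']; ring
    have k3 : A2 = Q * ρ := by rw [hρ]; field_simp
    have k4 : B2 = Q * ρ' := by rw [hρ']; field_simp
    rw [k1, k2, k3, k4]
    have k5 : Q * ρ / Q = ρ := by field_simp
    have k6 : Q * ρ' / Q = ρ' := by field_simp
    rw [k5, k6]
    clear k1 k2 k3 k4 k5 k6 hθ hθ' hρ hρ' eκ e1 e2 eS eβ Jv Jwi Jw Jt' Jh
    field_simp
    ring

/-- `E` -/
private theorem jt_E (β : ℝ) (hβ : 0 < β) (hU : IsOpen U) (hr : ∀ s, HasFDerivAt r lr s)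
    (hS : ∀ s, HasFDerivAt S lS s) (r0 : ∀ s ∈ U, 0 < r s) (S0 : ∀ s ∈ U, 0 < S s) :
    Jt U (fun s => (Atm.mk' β (r s) (S s) (x s)).E)
      (fun s a => (Atm.mk' β (r s) (S s) (x s)).DE (lS a) (S s * (lr a / r s) - lS a))
      (fun s a b => (Atm.mk' β (r s) (S s) (x s)).DDE (lS a) (S s * (lr a / r s) - lS a)
          (lS b) (S s * (lr b / r s) - lS b)) := by
  have Jr := jt_aff U lr hr
  have JS := jt_aff U lS hS
  have Jx := jt_exp (jt_y β hU hr hS r0 S0)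
  have Jη := jt_add (jt_const U 1) (jt_cmul (-(1 + β)⁻¹) Jx)
  have hb : 1 + β ≠ 0 := by linarith
  refine jt_congr hU (jt_mul (jt_mul JS Jr) Jη) ?_ ?_ ?_
  · intro s hs
    have hr1 := (r0 s hs).ne'
    have hS1 := (S0 s hs).ne'
    unfold Atm.E Atm.η
    show S s ^ 2 * (r s / S s) * (1 - Real.exp (β * (Real.log (r s) - Real.log (S s))) / (1 + β))
      = _
    field_simp
    ring
  · intro s hs a
    have hr1 := (r0 s hs).ne'
    have hS1 := (S0 s hs).ne'
    unfold Atm.DE Atm.η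
    show S s * (r s / S s) * (2 * (1 - Real.exp (β * (Real.log (r s) - Real.log (S s))) / (1 + β))
      * lS a + (1 - Real.exp (β * (Real.log (r s) - Real.log (S s))))
      * (S s * (lr a / r s) - lS a)) = _
    generalize Real.exp (β * (Real.log (r s) - Real.log (S s))) = ξ
    field_simp
    ring
  · intro s hs a b
    have hr1 := (r0 s hs).ne'
    have hS1 := (S0 s hs).ne'
    unfold Atm.DDE Atm.η
    show (r s / S s) * (2 * (1 - Real.exp (β * (Real.log (r s) - Real.log (S s))) / (1 + β))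
      * lS a * lS b + (1 - Real.exp (β * (Real.log (r s) - Real.log (S s))))
      * (lS a * (S s * (lr b / r s) - lS b) + (S s * (lr a / r s) - lS a) * lS b)
      - β * Real.exp (β * (Real.log (r s) - Real.log (S s))) * (S s * (lr a / r s) - lS a)
        * (S s * (lr b / r s) - lS b)) = _
    generalize Real.exp (β * (Real.log (r s) - Real.log (S s))) = ξ
    generalize lr a = A1
    generalize lr b = B1
    generalize lS a = A2
    generalize lS b = B2
    generalize r s = R at hr1 ⊢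
    generalize S s = Q at hS1 ⊢
    field_simp
    ring

end

/-- **Tb** -/
theorem p_Tb (ta : StmTa) : StmTb := by
  intro N β hβ U hU r S x lr lS lx hr hS hx r0 S0
  have JE := jt_E (x := x) β hβ hU hr hS r0 S0
  have JH := jt_H ta β hU hr hS hx r0 S0
  refine jt_congr hU (jt_mul JE (jt_add (jt_const U 1) (jt_cmul (-2) JH))) ?_ ?_ ?_
  · intro s hs
    unfold Atm.Ph
    ring
  · intro s hs a
    unfold Atm.DP
    ring
  · intro s hs a b
    unfold Atm.DDP Atm.rr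
    ring

end Pool.Agent.Lib.MP_d8ef8f_an.Gd
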