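import Pool.Agent.Lib.MP_d8ef8f_an.Gd.Df5

/-!
# The Lyapunov density: differentiability
-/

set_option autoImplicit false

namespace Pool.Agent.Lib.MP_d8ef8f_an.Gd

open Set Filter Topology

/-- the functional `z ↦ ∑_{j>k} z_j` -/
noncomputable def dfS' {N : ℕ} (k : Fin N) : (Fin N → ℝ) →L[ℝ] ℝ :=
  ∑ j ∈ Finset.univ.filter (fun j => k < j), (ContinuousLinearMap.proj j : (Fin N → ℝ) →L[ℝ] ℝ)

/-- the functional `z ↦ 2 ∑_{j>k} s_j z_j` -/
noncomputable def dfq' {N : ℕ} (k : Fin N) (s : Fin N → ℝ) : (Fin N → ℝ) →L[ℝ] ℝ :=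
  ∑ j ∈ Finset.univ.filter (fun j => k < j),
    (s j • (ContinuousLinearMap.proj j : (Fin N → ℝ) →L[ℝ] ℝ)
      + s j • (ContinuousLinearMap.proj j : (Fin N → ℝ) →L[ℝ] ℝ))

theorem dfS'_apply {N : ℕ} (k : Fin N) (z : Fin N → ℝ) : dfS' k z = Sab k z := by
  unfold dfS' Sab
  rw [sum_apply]
  rfl

theorem dfq'_apply {N : ℕ} (k : Fin N) (s z : Fin N → ℝ) : dfq' k s z = 2 * dfB k s z := by
  unfold dfq' dfB
  rw [sum_apply, Finset.mul_sum]
  refine Finset.sum_congr rfl fun j _ => ?_
  simp only [add_apply, smul_apply,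
    ContinuousLinearMap.proj_apply, smul_eq_mul]
  ring

theorem df_dk {N : ℕ} (i : Fin N) (s : Fin N → ℝ) :
    HasFDerivAt (fun s : Fin N → ℝ => s i) (ContinuousLinearMap.proj i : (Fin N → ℝ) →L[ℝ] ℝ) s :=
  hasFDerivAt_apply i s

theorem df_dS {N : ℕ} (k : Fin N) (s : Fin N → ℝ) : HasFDerivAt (Sab k) (dfS' k) s := by
  have h := HasFDerivAt.fun_sum (u := Finset.univ.filter (fun j => k < j))
    (A := fun (j : Fin N) (s : Fin N → ℝ) => s j)
    (A' := fun j => (ContinuousLinearMap.proj j : (Fin N → ℝ) →L[ℝ] ℝ)) (x := s)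
    (fun i _ => df_dk i s)
  exact h

theorem df_dq {N : ℕ} (k : Fin N) (s : Fin N → ℝ) :
    HasFDerivAt (fun s : Fin N → ℝ => dfB k s s) (dfq' k s) s := by
  have h := HasFDerivAt.fun_sum (u := Finset.univ.filter (fun j => k < j))
    (A := fun (j : Fin N) (s : Fin N → ℝ) => s j * s j)
    (A' := fun j => s j • (ContinuousLinearMap.proj j : (Fin N → ℝ) →L[ℝ] ℝ)
      + s j • (ContinuousLinearMap.proj j : (Fin N → ℝ) →L[ℝ] ℝ)) (x := s)
    (fun i _ => (df_dk i s).mul (df_dk i s))
  exact h

theorem df_dlen {N : ℕ} (k : Fin N) (s : Fin N → ℝ) :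
    HasFDerivAt (len k) ((ContinuousLinearMap.proj k : (Fin N → ℝ) →L[ℝ] ℝ) + dfS' k) s :=
  (df_dk k s).add (df_dS k s)

theorem df_apply_sum {N : ℕ} (F : Fin N → ℝ) (z : Fin N → ℝ) :
    (∑ i, F i • (ContinuousLinearMap.proj i : (Fin N → ℝ) →L[ℝ] ℝ)) z = ∑ i, F i * z i := by
  rw [sum_apply]
  rfl

theorem dff_fderiv {N : ℕ} (k : Fin N) {e : ℝ} (he : 0 < e) (η : ℝ) (s : Fin N → ℝ)
    (hs : 0 < s k) :
    HasFDerivAt (dff k e η)
      (∑ i, dfg k e η i s • (ContinuousLinearMap.proj i : (Fin N → ℝ) →L[ℝ] ℝ)) s := by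
  have h1 := (dfc_deriv hs).comp_hasFDerivAt s (df_dk k s)
  have h2 := (df_dS k s).mul (df_dS k s)
  have h3 := (dfp_deriv he (len k s)).comp_hasFDerivAt s (df_dlen k s)
  have h4 := (((df_dq k s).mul h3).const_mul (η / 2))
  have h5 := (h1.add (h2.const_mul (1 / 2))).add h4
  have h6 : dff k e η = fun s : Fin N → ℝ => (dfc (s k) + 1 / 2 * (Sab k s * Sab k s))
      + η / 2 * (dfB k s s * dfp e (len k s)) := by
    funext s
    unfold dff
    ring
  rw [h6]
  refine HasFDerivAt.congr_fderiv h5 ?_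
  ext z
  rw [df_apply_sum, df_split k _ (fun i hi => by
    unfold dfg
    rw [if_pos hi, zero_mul])]
  have hk : dfg k e η k s = dfc1 (s k) + η / 2 * dfB k s s * dfp1 e (len k s) := by
    unfold dfg
    rw [if_neg (lt_irrefl k), if_pos rfl]
  have hJ : ∑ i ∈ Finset.univ.filter (fun j => k < j), dfg k e η i s * z i =
      (Sab k s + η / 2 * dfB k s s * dfp1 e (len k s)) * Sab k z
        + η * dfp e (len k s) * dfB k s z := by
    have e2 : ∀ c : ℝ, c * Sab k z = ∑ j ∈ Finset.univ.filter (fun j => k < j), c * z j :=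
      fun c => by unfold Sab; rw [Finset.mul_sum]
    have e3 : ∀ c : ℝ, c * dfB k s z = ∑ j ∈ Finset.univ.filter (fun j => k < j), c * (s j * z j) :=
      fun c => by unfold dfB; rw [Finset.mul_sum]
    rw [e2 (Sab k s + η / 2 * dfB k s s * dfp1 e (len k s)), e3, ← Finset.sum_add_distrib]
    refine Finset.sum_congr rfl fun i hi => ?_
    have hi' : k < i := (Finset.mem_filter.1 hi).2
    have hg : dfg k e η i s = Sab k s + η * s i * dfp e (len k s)
        + η / 2 * dfB k s s * dfp1 e (len k s) := by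
      unfold dfg
      rw [if_neg (not_lt.2 hi'.le), if_neg hi'.ne']
    rw [hg]
    ring
  rw [hk, hJ]
  simp only [add_apply, smul_apply,
    ContinuousLinearMap.proj_apply, smul_eq_mul, dfS'_apply, dfq'_apply, Function.comp_apply]
  ring

theorem dfg_fderiv {N : ℕ} (k : Fin N) {e : ℝ} (he : 0 < e) (η : ℝ) (i : Fin N) (s : Fin N → ℝ)
    (hs : 0 < s k) :
    HasFDerivAt (dfg k e η i)
      (∑ j, dfh k e η i j s • (ContinuousLinearMap.proj j : (Fin N → ℝ) →L[ℝ] ℝ)) s := by
  have h3 := (dfp_deriv he (len k s)).comp_hasFDerivAt s (df_dlen k s)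
  have h3' := (dfp1_deriv he (len k s)).comp_hasFDerivAt s (df_dlen k s)
  have h4 := (((df_dq k s).mul h3').const_mul (η / 2))
  by_cases hi : i < k
  · have h6 : dfg k e η i = fun _ : Fin N → ℝ => (0:ℝ) := by
      funext s
      unfold dfg
      rw [if_pos hi]
    rw [h6]
    refine HasFDerivAt.congr_fderiv (hasFDerivAt_const (0:ℝ) s) ?_
    ext z
    rw [df_apply_sum, dfh_row, if_pos hi]
    rfl
  by_cases hik : i = k
  · have h6 : dfg k e η i = fun s : Fin N → ℝ => dfc1 (s k)
        + η / 2 * (dfB k s s * dfp1 e (len k s)) := by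
      funext s
      unfold dfg
      rw [if_neg hi, if_pos hik]
      ring
    rw [h6]
    have h1 := (dfc1_deriv hs).comp_hasFDerivAt s (df_dk k s)
    refine HasFDerivAt.congr_fderiv (h1.add h4) ?_
    ext z
    rw [df_apply_sum, dfh_row, if_neg hi, if_pos hik]
    simp only [add_apply, smul_apply,
      ContinuousLinearMap.proj_apply, smul_eq_mul, dfS'_apply, dfq'_apply, Function.comp_apply]
    unfold len
    ring
  · have h6 : dfg k e η i = fun s : Fin N → ℝ => (Sab k s + η * (s i * dfp e (len k s)))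
        + η / 2 * (dfB k s s * dfp1 e (len k s)) := by
      funext s
      unfold dfg
      rw [if_neg hi, if_neg hik]
      ring
    rw [h6]
    have h1 := (df_dS k s).add (((df_dk i s).mul h3).const_mul η)
    refine HasFDerivAt.congr_fderiv (h1.add h4) ?_
    ext z
    rw [df_apply_sum, dfh_row, if_neg hi, if_neg hik]
    simp only [add_apply, smul_apply,
      ContinuousLinearMap.proj_apply, smul_eq_mul, dfS'_apply, dfq'_apply, Function.comp_apply]
    unfold len
    ring

theorem dfh_cont {N : ℕ} (k : Fin N) {e : ℝ} (he : 0 < e) (η : ℝ) (i j : Fin N) :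
    ContinuousOn (dfh k e η i j) {s | 0 < s k ∧ ∀ j, 0 ≤ s j} := by
  have hS : Continuous (Sab k) := by
    unfold Sab
    fun_prop
  have hlen : Continuous (len k) := by
    unfold len
    fun_prop
  have hB : Continuous (fun s : Fin N → ℝ => dfB k s s) := by
    unfold dfB
    fun_prop
  have hp : Continuous (dfp e) :=
    continuous_iff_continuousAt.2 fun t => (dfp_deriv he t).continuousAt
  have hp1 : Continuous (dfp1 e) :=
    continuous_iff_continuousAt.2 fun t => (dfp1_deriv he t).continuousAt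
  have hp2 := dfp2_cont he
  have c0 : Continuous (fun s : Fin N → ℝ => dfp e (len k s)) := hp.comp hlen
  have c1 : Continuous (fun s : Fin N → ℝ => dfp1 e (len k s)) := hp1.comp hlen
  have c2 : Continuous (fun s : Fin N → ℝ => dfp2 e (len k s)) := hp2.comp hlen
  have cc : ContinuousOn (fun s : Fin N → ℝ => dfc2 (s k)) {s | 0 < s k ∧ ∀ j, 0 ≤ s j} :=
    dfc2_cont.comp (by fun_prop) (fun s hs => hs.1)
  unfold dfh
  split_ifs
  · exact continuousOn_const
  · exact continuousOn_const
  · exact cc.add (((continuous_const.mul hB).mul c2).continuousOn)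
  · exact (((continuous_const.mul (continuous_apply j)).mul c1).add
      ((continuous_const.mul hB).mul c2)).continuousOn
  · exact (((continuous_const.mul (continuous_apply i)).mul c1).add
      ((continuous_const.mul hB).mul c2)).continuousOn
  · exact (((continuous_const.add (continuous_const.mul c0)).add
      ((continuous_const.mul ((continuous_apply i).add (continuous_apply j))).mul c1)).add
      ((continuous_const.mul hB).mul c2)).continuousOn
  · exact (((continuous_const.add (continuous_const.mul continuous_const)).add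
      ((continuous_const.mul ((continuous_apply i).add (continuous_apply j))).mul c1)).add
      ((continuous_const.mul hB).mul c2)).continuousOn

end Pool.Agent.Lib.MP_d8ef8f_an.Gd
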