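import Pool.Agent.Lib.MP_d8ef8f_an.Gd.StT
import Pool.Agent.Lib.MP_d8ef8f_an.Gd.Df6

/-!
# Piece Tc: smoothness of the density and the quadratic form
-/

set_option autoImplicit false

namespace Pool.Agent.Lib.MP_d8ef8f_an.Gd

open Set Filter Topology

private theorem tc_DP_add (m : Atm) (A a V A' a' V' : ℝ) :
    m.DP (A + A') (a + a') (V + V') = m.DP A a V + m.DP A' a' V' := by
  unfold Atm.DP Atm.DE Atm.DH Atm.al
  ring

private theorem tc_DP_smul (m : Atm) (c A a V : ℝ) :
    m.DP (c * A) (c * a) (c * V) = c * m.DP A a V := by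
  unfold Atm.DP Atm.DE Atm.DH Atm.al
  ring

private theorem tc_DDP_add1 (m : Atm) (A a V B b W A' a' V' : ℝ) :
    m.DDP (A + B) (a + b) (V + W) A' a' V' =
      m.DDP A a V A' a' V' + m.DDP B b W A' a' V' := by
  unfold Atm.DDP Atm.rr Atm.DDE Atm.DDH Atm.DE Atm.DH Atm.al
  ring

private theorem tc_DDP_smul1 (m : Atm) (c A a V A' a' V' : ℝ) :
    m.DDP (c * A) (c * a) (c * V) A' a' V' = c * m.DDP A a V A' a' V' := by
  unfold Atm.DDP Atm.rr Atm.DDE Atm.DDH Atm.DE Atm.DH Atm.al
  ring

private theorem tc_DDP_add2 (m : Atm) (A' a' V' A a V B b W : ℝ) :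
    m.DDP A' a' V' (A + B) (a + b) (V + W) =
      m.DDP A' a' V' A a V + m.DDP A' a' V' B b W := by
  unfold Atm.DDP Atm.rr Atm.DDE Atm.DDH Atm.DE Atm.DH Atm.al
  ring

private theorem tc_DDP_smul2 (m : Atm) (c A' a' V' A a V : ℝ) :
    m.DDP A' a' V' (c * A) (c * a) (c * V) = c * m.DDP A' a' V' A a V := by
  unfold Atm.DDP Atm.rr Atm.DDE Atm.DDH Atm.DE Atm.DH Atm.al
  ring

private theorem tc_Sab_add {N : ℕ} (k : Fin N) (z y : Fin N → ℝ) :
    Sab k (z + y) = Sab k z + Sab k y := by
  unfold Sab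
  rw [← Finset.sum_add_distrib]
  rfl

private theorem tc_Sab_smul {N : ℕ} (k : Fin N) (c : ℝ) (z : Fin N → ℝ) :
    Sab k (c • z) = c * Sab k z := by
  unfold Sab
  rw [Finset.mul_sum]
  rfl

private theorem tc_tn_add {N : ℕ} (k : Fin N) (e : ℝ) (s z y : Fin N → ℝ) (j : Fin N) :
    tn k e s (z + y) j = tn k e s z j + tn k e s y j := by
  unfold tn
  rw [tc_Sab_add, Pi.add_apply]
  ring

private theorem tc_tn_smul {N : ℕ} (k : Fin N) (e c : ℝ) (s z : Fin N → ℝ) (j : Fin N) :
    tn k e s (c • z) j = c * tn k e s z j := by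
  unfold tn
  rw [tc_Sab_smul, Pi.smul_apply, smul_eq_mul]
  ring

/-- `tD` as a linear map -/
private noncomputable def tcD {N : ℕ} (d : Fin N → ℝ) (k : Fin N) (e : ℝ) (s : Fin N → ℝ) :
    (Fin N → ℝ) →ₗ[ℝ] ℝ where
  toFun := fun z => tD d k e s z
  map_add' := by
    intro z y
    unfold tD
    have h1 : ∀ j, (tA d k e s j).DP (Sab k (z + y)) (tn k e s (z + y) j)
        (Sab k (z + y) + (z + y) k) =
        (tA d k e s j).DP (Sab k z) (tn k e s z j) (Sab k z + z k) +
        (tA d k e s j).DP (Sab k y) (tn k e s y j) (Sab k y + y k) := by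
      intro j
      rw [← tc_DP_add, tc_Sab_add, tc_tn_add, Pi.add_apply]
      congr 1
      ring
    simp only [h1, Finset.sum_add_distrib]
    rw [tc_Sab_add, Pi.add_apply]
    ring
  map_smul' := by
    intro c z
    unfold tD
    have h1 : ∀ j, (tA d k e s j).DP (Sab k (c • z)) (tn k e s (c • z) j)
        (Sab k (c • z) + (c • z) k) =
        c * (tA d k e s j).DP (Sab k z) (tn k e s z j) (Sab k z + z k) := by
      intro j
      rw [← tc_DP_smul, tc_Sab_smul, tc_tn_smul, Pi.smul_apply, smul_eq_mul]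
      congr 1
      ring
    simp only [h1, ← Finset.mul_sum, RingHom.id_apply, smul_eq_mul]
    rw [tc_Sab_smul, Pi.smul_apply, smul_eq_mul]
    ring

/-- `tDD` as a linear map of the first direction -/
private noncomputable def tcD1 {N : ℕ} (d : Fin N → ℝ) (k : Fin N) (e : ℝ) (s c : Fin N → ℝ) :
    (Fin N → ℝ) →ₗ[ℝ] ℝ where
  toFun := fun z => tDD d k e s z c
  map_add' := by
    intro z y
    unfold tDD
    have h1 : ∀ j, (tA d k e s j).DDP (Sab k (z + y)) (tn k e s (z + y) j)
        (Sab k (z + y) + (z + y) k) (Sab k c) (tn k e s c j) (Sab k c + c k) =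
        (tA d k e s j).DDP (Sab k z) (tn k e s z j) (Sab k z + z k)
          (Sab k c) (tn k e s c j) (Sab k c + c k) +
        (tA d k e s j).DDP (Sab k y) (tn k e s y j) (Sab k y + y k)
          (Sab k c) (tn k e s c j) (Sab k c + c k) := by
      intro j
      rw [← tc_DDP_add1, tc_Sab_add, tc_tn_add, Pi.add_apply]
      congr 1
      ring
    simp only [h1, Finset.sum_add_distrib]
    rw [tc_Sab_add, Pi.add_apply]
    ring
  map_smul' := by
    intro r z
    unfold tDD
    have h1 : ∀ j, (tA d k e s j).DDP (Sab k (r • z)) (tn k e s (r • z) j)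
        (Sab k (r • z) + (r • z) k) (Sab k c) (tn k e s c j) (Sab k c + c k) =
        r * (tA d k e s j).DDP (Sab k z) (tn k e s z j) (Sab k z + z k)
          (Sab k c) (tn k e s c j) (Sab k c + c k) := by
      intro j
      rw [← tc_DDP_smul1, tc_Sab_smul, tc_tn_smul, Pi.smul_apply, smul_eq_mul]
      congr 1
      ring
    simp only [h1, ← Finset.mul_sum, RingHom.id_apply, smul_eq_mul]
    rw [tc_Sab_smul, Pi.smul_apply, smul_eq_mul]
    ring

/-- `tDD` as a linear map of the second direction -/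
private noncomputable def tcD2 {N : ℕ} (d : Fin N → ℝ) (k : Fin N) (e : ℝ) (s c : Fin N → ℝ) :
    (Fin N → ℝ) →ₗ[ℝ] ℝ where
  toFun := fun z => tDD d k e s c z
  map_add' := by
    intro z y
    unfold tDD
    have h1 : ∀ j, (tA d k e s j).DDP (Sab k c) (tn k e s c j) (Sab k c + c k)
        (Sab k (z + y)) (tn k e s (z + y) j) (Sab k (z + y) + (z + y) k) =
        (tA d k e s j).DDP (Sab k c) (tn k e s c j) (Sab k c + c k)
          (Sab k z) (tn k e s z j) (Sab k z + z k) +
        (tA d k e s j).DDP (Sab k c) (tn k e s c j) (Sab k c + c k)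
          (Sab k y) (tn k e s y j) (Sab k y + y k) := by
      intro j
      rw [← tc_DDP_add2, tc_Sab_add, tc_tn_add, Pi.add_apply]
      congr 1
      ring
    simp only [h1, Finset.sum_add_distrib]
    rw [tc_Sab_add, Pi.add_apply]
    ring
  map_smul' := by
    intro r z
    unfold tDD
    have h1 : ∀ j, (tA d k e s j).DDP (Sab k c) (tn k e s c j) (Sab k c + c k)
        (Sab k (r • z)) (tn k e s (r • z) j) (Sab k (r • z) + (r • z) k) =
        r * (tA d k e s j).DDP (Sab k c) (tn k e s c j) (Sab k c + c k)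
          (Sab k z) (tn k e s z j) (Sab k z + z k) := by
      intro j
      rw [← tc_DDP_smul2, tc_Sab_smul, tc_tn_smul, Pi.smul_apply, smul_eq_mul]
      congr 1
      ring
    simp only [h1, ← Finset.mul_sum, RingHom.id_apply, smul_eq_mul]
    rw [tc_Sab_smul, Pi.smul_apply, smul_eq_mul]
    ring

private theorem tc_lin {N : ℕ} (f : (Fin N → ℝ) →ₗ[ℝ] ℝ) (z : Fin N → ℝ) :
    f z = ∑ i, z i * f (Pi.single i 1) := by
  rw [LinearMap.pi_apply_eq_sum_univ f z]
  refine Finset.sum_congr rfl fun i _ => ?_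
  rw [smul_eq_mul]
  congr 2
  funext j
  rw [Pi.single_apply]
  by_cases h : i = j
  · rw [if_pos h, if_pos h.symm]
  · rw [if_neg h, if_neg (fun h' => h h'.symm)]

private theorem tc_tD {N : ℕ} (d : Fin N → ℝ) (k : Fin N) (e : ℝ) (s z : Fin N → ℝ) :
    tD d k e s z = ∑ i, z i * tg d k e i s :=
  tc_lin (tcD d k e s) z

private theorem tc_tDD1 {N : ℕ} (d : Fin N → ℝ) (k : Fin N) (e : ℝ) (s z c : Fin N → ℝ) :
    tDD d k e s z c = ∑ i, z i * tDD d k e s (Pi.single i 1) c :=
  tc_lin (tcD1 d k e s c) z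

private theorem tc_tDD2 {N : ℕ} (d : Fin N → ℝ) (k : Fin N) (e : ℝ) (s c z : Fin N → ℝ) :
    tDD d k e s c z = ∑ i, z i * tDD d k e s c (Pi.single i 1) :=
  tc_lin (tcD2 d k e s c) z

private theorem tc_low {N : ℕ} (k : Fin N) (e : ℝ) (j : Fin N) (hj : j < k)
    (s : Fin N → ℝ) : Sab k (Pi.single j 1) = 0 ∧ (Pi.single j (1:ℝ) : Fin N → ℝ) k = 0 ∧
      ∀ i ∈ Jk k, tn k e s (Pi.single j 1) i = 0 := by
  have h1 : Sab k (Pi.single j 1) = 0 := by
    unfold Sab
    refine Finset.sum_eq_zero fun i hi => ?_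
    have hi' : k < i := (Finset.mem_filter.1 hi).2
    rw [Pi.single_apply, if_neg (hj.trans hi').ne']
  refine ⟨h1, ?_, ?_⟩
  · rw [Pi.single_apply, if_neg hj.ne']
  · intro i hi
    have hi' : k < i := (Finset.mem_filter.1 hi).2
    unfold tn
    rw [h1, Pi.single_apply, if_neg (hj.trans hi').ne']
    ring

private theorem tc_low1 {N : ℕ} (d : Fin N → ℝ) (k : Fin N) (e : ℝ) (j : Fin N) (hj : j < k)
    (s : Fin N → ℝ) : tg d k e j s = 0 := by
  obtain ⟨h1, h2, h3⟩ := tc_low k e j hj s
  unfold tg tD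
  rw [h1, h2]
  have h4 : ∑ i ∈ Jk k, (tA d k e s i).DP 0 (tn k e s (Pi.single j 1) i) (0 + 0) = 0 := by
    refine Finset.sum_eq_zero fun i hi => ?_
    rw [h3 i hi]
    unfold Atm.DP Atm.DE Atm.DH Atm.al
    ring
  rw [h4]
  ring

private theorem tc_low2 {N : ℕ} (d : Fin N → ℝ) (k : Fin N) (e : ℝ) (j : Fin N) (hj : j < k)
    (s c : Fin N → ℝ) : tDD d k e s (Pi.single j 1) c = 0 := by
  obtain ⟨h1, h2, h3⟩ := tc_low k e j hj s
  unfold tDD
  rw [h1, h2]
  have h4 : ∑ i ∈ Jk k, (tA d k e s i).DDP 0 (tn k e s (Pi.single j 1) i) (0 + 0)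
      (Sab k c) (tn k e s c i) (Sab k c + c k) = 0 := by
    refine Finset.sum_eq_zero fun i hi => ?_
    rw [h3 i hi]
    unfold Atm.DDP Atm.rr Atm.DDE Atm.DDH Atm.DE Atm.DH Atm.al
    ring
  rw [h4]
  ring

private theorem tc_dS {N : ℕ} (k : Fin N) (e : ℝ) (s : Fin N → ℝ) :
    HasFDerivAt (tS k e) (dfS' k) s := by
  have h := HasFDerivAt.fun_sum (u := Finset.univ.filter (fun j => k < j))
    (A := fun (j : Fin N) (s : Fin N → ℝ) => s j + e)
    (A' := fun j => (ContinuousLinearMap.proj j : (Fin N → ℝ) →L[ℝ] ℝ)) (x := s)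
    (fun i _ => (df_dk i s).add_const e)
  exact h

private theorem tc_open {N : ℕ} (k : Fin N) (e : ℝ) :
    IsOpen {s : Fin N → ℝ | 0 < s k ∧ ∀ j, -e < s j} := by
  have h1 : {s : Fin N → ℝ | 0 < s k ∧ ∀ j, -e < s j} =
      {s : Fin N → ℝ | 0 < s k} ∩ ⋂ j, {s : Fin N → ℝ | -e < s j} := by
    ext s
    simp
  rw [h1]
  exact (isOpen_lt continuous_const (continuous_apply k)).inter
    (isOpen_iInter_of_finite fun j => isOpen_lt continuous_const (continuous_apply j))

private theorem tc_jet (tb : StmTb) {N : ℕ} (d : Fin N → ℝ) (k : Fin N) (hk : 0 < d k)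
    (hd : ∀ j, k < j → d k < d j) (e : ℝ) (j : Fin N) (hj : j ∈ Jk k) :
    Jt {s : Fin N → ℝ | 0 < s k ∧ ∀ j, -e < s j} (fun s => (tA d k e s j).Ph)
      (fun s a => (tA d k e s j).DP (Sab k a) (tn k e s a j) (Sab k a + a k))
      (fun s a b => (tA d k e s j).DDP (Sab k a) (tn k e s a j) (Sab k a + a k)
        (Sab k b) (tn k e s b j) (Sab k b + b k)) := by
  have hj' : k < j := (Finset.mem_filter.1 hj).2
  have hβ : 0 < tδ d k j := div_pos (sub_pos.2 (hd j hj')) hk
  have h := tb (N := N) (tδ d k j) hβ {s : Fin N → ℝ | 0 < s k ∧ ∀ j, -e < s j} (tc_open k e)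
    (fun s => s j + e) (tS k e) (fun s => s k)
    (ContinuousLinearMap.proj j : (Fin N → ℝ) →L[ℝ] ℝ) (dfS' k)
    (ContinuousLinearMap.proj k : (Fin N → ℝ) →L[ℝ] ℝ)
    (fun s => (df_dk j s).add_const e) (fun s => tc_dS k e s) (fun s => df_dk k s)
    (fun s hs => by linarith [hs.2 j]) (fun s hs => by
      unfold tS
      exact Finset.sum_pos (fun i _ => by linarith [hs.2 i]) ⟨j, hj⟩)
  simp only [dfS'_apply, ContinuousLinearMap.proj_apply] at h
  exact h

/-- **Tc** -/
theorem p_Tc (tb : StmTb) : StmTc := by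
  intro N d k hk hd e he
  set U : Set (Fin N → ℝ) := {s : Fin N → ℝ | 0 < s k ∧ ∀ j, -e < s j} with hU
  have hsub : ∀ s : Fin N → ℝ, 0 < s k → (∀ j, 0 ≤ s j) → s ∈ U :=
    fun s h1 h2 => ⟨h1, fun j => by linarith [h2 j]⟩
  have hjet := tc_jet tb d k hk hd e
  refine ⟨?_, ?_, ?_, ?_, ?_, ?_⟩
  · intro s h1 h2
    have hs := hsub s h1 h2
    choose! L hL1 hL2 using fun j hj => (hjet j hj).d1 s hs
    have e1 := (dfc_deriv h1).comp_hasFDerivAt s (df_dk k s)
    have e2 := ((tc_dS k e s).mul (tc_dS k e s)).const_mul (1 / 2)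
    have e3 := HasFDerivAt.fun_sum (u := Jk k) (A := fun j s => (tA d k e s j).Ph)
      (A' := L) (x := s) (fun j hj => hL2 j hj)
    have h6 : tf d k e = fun s : Fin N → ℝ => (dfc (s k) + 1 / 2 * (tS k e s * tS k e s))
        - ∑ j ∈ Jk k, (tA d k e s j).Ph := by
      funext s
      unfold tf
      ring
    rw [h6]
    refine HasFDerivAt.congr_fderiv ((e1.add e2).sub e3) ?_
    ext z
    rw [df_apply_sum]
    have h7 : ∑ i, tg d k e i s * z i = tD d k e s z := by
      rw [tc_tD]
      exact Finset.sum_congr rfl fun i _ => mul_comm _ _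
    rw [h7]
    unfold tD
    have h8 : (∑ j ∈ Jk k, L j) z = ∑ j ∈ Jk k, (tA d k e s j).DP (Sab k z) (tn k e s z j)
        (Sab k z + z k) := by
      rw [sum_apply]
      exact Finset.sum_congr rfl fun j hj => hL1 j hj z
    simp only [sub_apply, add_apply, smul_apply,
      ContinuousLinearMap.proj_apply, smul_eq_mul, dfS'_apply, h8]
    ring
  · intro i s h1 h2
    have hs := hsub s h1 h2
    choose! L hL1 hL2 using fun j hj => (hjet j hj).d2 (Pi.single i 1) s hs
    have e1 := ((dfc1_deriv h1).comp_hasFDerivAt s (df_dk k s)).mul_const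
      ((Pi.single i (1:ℝ) : Fin N → ℝ) k)
    have e2 := (tc_dS k e s).mul_const (Sab k (Pi.single i 1))
    have e3 := HasFDerivAt.fun_sum (u := Jk k) (A := fun j s => (tA d k e s j).DP
        (Sab k (Pi.single i 1)) (tn k e s (Pi.single i 1) j)
        (Sab k (Pi.single i 1) + (Pi.single i (1:ℝ) : Fin N → ℝ) k))
      (A' := L) (x := s) (fun j hj => hL2 j hj)
    refine HasFDerivAt.congr_fderiv ((e1.add e2).sub e3) ?_
    ext z
    rw [df_apply_sum]
    have h7 : ∑ j, thh d k e i j s * z j = tDD d k e s (Pi.single i 1) z := by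
      rw [tc_tDD2]
      exact Finset.sum_congr rfl fun i _ => mul_comm _ _
    rw [h7]
    unfold tDD
    have h8 : (∑ j ∈ Jk k, L j) z = ∑ j ∈ Jk k, (tA d k e s j).DDP (Sab k (Pi.single i 1))
        (tn k e s (Pi.single i 1) j) (Sab k (Pi.single i 1) + (Pi.single i (1:ℝ) : Fin N → ℝ) k)
        (Sab k z) (tn k e s z j) (Sab k z + z k) := by
      rw [sum_apply]
      exact Finset.sum_congr rfl fun j hj => hL1 j hj z
    simp only [sub_apply, add_apply, smul_apply,
      ContinuousLinearMap.proj_apply, smul_eq_mul, dfS'_apply, h8]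
    ring
  · intro i j
    have hUsub : {s : Fin N → ℝ | 0 < s k ∧ ∀ j, 0 ≤ s j} ⊆ U := fun s hs => hsub s hs.1 hs.2
    have cc : ContinuousOn (fun s : Fin N → ℝ => dfc2 (s k)) {s | 0 < s k ∧ ∀ j, 0 ≤ s j} :=
      dfc2_cont.comp (by fun_prop) (fun s hs => hs.1)
    have c1 : ContinuousOn (fun s : Fin N → ℝ => ∑ l ∈ Jk k, (tA d k e s l).DDP
        (Sab k (Pi.single i 1)) (tn k e s (Pi.single i 1) l)
        (Sab k (Pi.single i 1) + (Pi.single i (1:ℝ) : Fin N → ℝ) k)
        (Sab k (Pi.single j 1)) (tn k e s (Pi.single j 1) l)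
        (Sab k (Pi.single j 1) + (Pi.single j (1:ℝ) : Fin N → ℝ) k))
        {s | 0 < s k ∧ ∀ j, 0 ≤ s j} :=
      continuousOn_finsetSum _ (fun l hl => ((hjet l hl).c2 (Pi.single i 1)
        (Pi.single j 1)).mono hUsub)
    exact (((cc.mul continuousOn_const).mul continuousOn_const).add continuousOn_const).sub c1
  · intro j hj s
    exact tc_low1 d k e j hj s
  · intro s h1 h2 z
    exact (tc_tD d k e s z).symm
  · intro s h1 h2 z b
    have hA : ∀ y : Fin N → ℝ, ∑ i, (d i - d k) * (y i * tg d k e i s) =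
        d k * tD d k e s (tdz d k y) := by
      intro y
      rw [tc_tD, Finset.mul_sum]
      refine Finset.sum_congr rfl fun i _ => ?_
      rcases lt_trichotomy i k with hik | hik | hik
      · rw [tc_low1 d k e i hik s]
        ring
      · subst hik
        unfold tdz
        rw [if_neg (lt_irrefl _)]
        ring
      · unfold tdz tδ
        rw [if_pos hik]
        field_simp
    have hB : ∀ y c : Fin N → ℝ, ∑ i, (d i - d k) * (y i * tDD d k e s (Pi.single i 1) c) =
        d k * tDD d k e s (tdz d k y) c := by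
      intro y c
      rw [tc_tDD1, Finset.mul_sum]
      refine Finset.sum_congr rfl fun i _ => ?_
      rcases lt_trichotomy i k with hik | hik | hik
      · rw [tc_low2 d k e i hik s]
        ring
      · subst hik
        unfold tdz
        rw [if_neg (lt_irrefl _)]
        ring
      · unfold tdz tδ
        rw [if_pos hik]
        field_simp
    have hrow : ∀ i, ∑ j, thh d k e i j s * z j = tDD d k e s (Pi.single i 1) z := by
      intro i
      rw [tc_tDD2]
      exact Finset.sum_congr rfl fun j _ => mul_comm _ _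
    have hdz : tdz d k (z + b • s) = tdz d k z + b • tdz d k s := by
      funext i
      rw [Pi.add_apply, Pi.smul_apply, smul_eq_mul]
      unfold tdz
      by_cases hik : k < i
      · rw [if_pos hik, if_pos hik, if_pos hik, Pi.add_apply, Pi.smul_apply, smul_eq_mul]
        ring
      · rw [if_neg hik, if_neg hik, if_neg hik]
        ring
    have hD : tD d k e s (tdz d k (z + b • s)) =
        tD d k e s (tdz d k z) + b * tD d k e s (tdz d k s) := by
      rw [hdz]
      have := (tcD d k e s).map_add (tdz d k z) (b • tdz d k s)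
      rw [(tcD d k e s).map_smul b (tdz d k s)] at this
      exact this
    have hDD : tDD d k e s (tdz d k (z + b • s)) z =
        tDD d k e s (tdz d k z) z + b * tDD d k e s (tdz d k s) z := by
      rw [hdz]
      have := (tcD1 d k e s z).map_add (tdz d k z) (b • tdz d k s)
      rw [(tcD1 d k e s z).map_smul b (tdz d k s)] at this
      exact this
    rw [hD, hDD]
    unfold Qf
    have q1 : ∑ i, ∑ j, d i * thh d k e i j s * z i * z j =
        d k * tDD d k e s z z + d k * tDD d k e s (tdz d k z) z := by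
      rw [← hB z z, tc_tDD1 d k e s z z, Finset.mul_sum, ← Finset.sum_add_distrib]
      refine Finset.sum_congr rfl fun i _ => ?_
      rw [← hrow i]
      have : ∑ j, d i * thh d k e i j s * z i * z j =
          d i * z i * ∑ j, thh d k e i j s * z j := by
        rw [Finset.mul_sum]
        exact Finset.sum_congr rfl fun j _ => by ring
      rw [this]
      ring
    have q2 : ∑ i, (d i - d k) * (z i * tg d k e i s + s i * ∑ j, thh d k e i j s * z j) =
        d k * tD d k e s (tdz d k z) + d k * tDD d k e s (tdz d k s) z := by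
      rw [← hA z, ← hB s z, ← Finset.sum_add_distrib]
      refine Finset.sum_congr rfl fun i _ => ?_
      rw [← hrow i]
      ring
    rw [q1, q2, hA s]
    ring

end Pool.Agent.Lib.MP_d8ef8f_an.Gd
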