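import Pool.Agent.Lib.MP_d8ef8f_an.Gd.StT

/-!
# Td: the rest form of one species
-/

set_option autoImplicit false

namespace Pool.Agent.Lib.MP_d8ef8f_an.Gd

open Set Filter Topology

private theorem abs_e (η ξ A a n : ℝ) (hη : 0 ≤ η) (hξ1 : ξ ≤ 1) (hA : |A| ≤ n) :
    |2 * η * A + (1 - ξ) * a| ≤ 2 * η * n + (1 - ξ) * |a| := by
  have h1 : |2 * η * A| ≤ 2 * η * n := by
    rw [abs_mul, abs_of_nonneg (by positivity : (0:ℝ) ≤ 2 * η)]
    exact mul_le_mul_of_nonneg_left hA (by positivity)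
  have h2 : |(1 - ξ) * a| = (1 - ξ) * |a| := by
    rw [abs_mul, abs_of_nonneg (by linarith : (0:ℝ) ≤ 1 - ξ)]
  calc |2 * η * A + (1 - ξ) * a| ≤ |2 * η * A| + |(1 - ξ) * a| := abs_add_le _ _
    _ ≤ _ := by rw [h2]; linarith

private theorem abs_al (β S A a n : ℝ) (hβ : 0 ≤ β) (hS : 0 < S) (hA : |A| ≤ n) :
    |β * a + A / (1 + S)| ≤ β * |a| + n := by
  have h1 : |β * a| = β * |a| := by rw [abs_mul, abs_of_nonneg hβ]
  have h2 : |A / (1 + S)| ≤ n := by
    rw [abs_div, abs_of_pos (by linarith : (0:ℝ) < 1 + S)]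
    rw [div_le_iff₀ (by linarith)]
    have : 0 ≤ |A| := abs_nonneg A
    nlinarith [mul_nonneg (le_trans this hA) hS.le]
  calc |β * a + A / (1 + S)| ≤ |β * a| + |A / (1 + S)| := abs_add_le _ _
    _ ≤ _ := by rw [h1]; linarith

/-- the terms with `κ` -/
private theorem t1 (β S ξ η w κ A a A' a' n n' : ℝ) (hβ : 0 < β) (hS : 0 < S) (hξ : 0 < ξ)
    (hξ1 : ξ ≤ 1) (hη : 0 ≤ η) (hw0 : 0 ≤ w) (hw1 : w ≤ ξ / 32) (hκ : |κ| ≤ 8 / 15)
    (hn : 0 ≤ n) (hn' : 0 ≤ n') (hA : |A| ≤ n) (hA' : |A'| ≤ n') :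
    |2 * κ * w * ((2 * η * A + (1 - ξ) * a) * (β * a' + A' / (1 + S))
      + (2 * η * A' + (1 - ξ) * a') * (β * a + A / (1 + S))
      + η * ((β * a + A / (1 + S)) * (β * a' + A' / (1 + S))
        - β * (a * a' + a * A' + A * a') - A * A' * (1 - S ^ 2 / (1 + S) ^ 2)))| ≤
    ξ / 30 * ((2 * (1 - ξ) * β + η * β ^ 2 + η * β) * (|a| * |a'|)
      + ((1 - ξ) + 4 * η * β) * (|a| * n' + |a'| * n) + 6 * η * (n * n')) := by
  have e1 := abs_e η ξ A a n hη hξ1 hA
  have e2 := abs_e η ξ A' a' n' hη hξ1 hA'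
  have l1 := abs_al β S A a n hβ.le hS hA
  have l2 := abs_al β S A' a' n' hβ.le hS hA'
  have ha := abs_nonneg a
  have ha' := abs_nonneg a'
  have hq0 : 0 ≤ 1 - S ^ 2 / (1 + S) ^ 2 := by
    have : S ^ 2 / (1 + S) ^ 2 ≤ 1 := by
      rw [div_le_one (by positivity)]
      nlinarith
    linarith
  have hq1 : 1 - S ^ 2 / (1 + S) ^ 2 ≤ 1 := by
    have : 0 ≤ S ^ 2 / (1 + S) ^ 2 := by positivity
    linarith
  set q := 1 - S ^ 2 / (1 + S) ^ 2 with hq
  set e := 2 * η * A + (1 - ξ) * a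
  set e' := 2 * η * A' + (1 - ξ) * a'
  set α := β * a + A / (1 + S)
  set α' := β * a' + A' / (1 + S)
  have x1 : |e * α'| ≤ (2 * η * n + (1 - ξ) * |a|) * (β * |a'| + n') := by
    rw [abs_mul]
    exact mul_le_mul e1 l2 (abs_nonneg _) (le_trans (abs_nonneg _) e1)
  have x2 : |e' * α| ≤ (2 * η * n' + (1 - ξ) * |a'|) * (β * |a| + n) := by
    rw [abs_mul]
    exact mul_le_mul e2 l1 (abs_nonneg _) (le_trans (abs_nonneg _) e2)
  have x3 : |α * α'| ≤ (β * |a| + n) * (β * |a'| + n') := by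
    rw [abs_mul]
    exact mul_le_mul l1 l2 (abs_nonneg _) (le_trans (abs_nonneg _) l1)
  have x4 : |a * a' + a * A' + A * a'| ≤ |a| * |a'| + |a| * n' + n * |a'| := by
    have y1 : |a * a'| = |a| * |a'| := abs_mul _ _
    have y2 : |a * A'| ≤ |a| * n' := by
      rw [abs_mul]; exact mul_le_mul_of_nonneg_left hA' ha
    have y3 : |A * a'| ≤ n * |a'| := by
      rw [abs_mul]; exact mul_le_mul_of_nonneg_right hA ha'
    calc |a * a' + a * A' + A * a'| ≤ |a * a' + a * A'| + |A * a'| := abs_add_le _ _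
      _ ≤ |a * a'| + |a * A'| + |A * a'| := by linarith [abs_add_le (a * a') (a * A')]
      _ ≤ _ := by linarith
  have x5 : |A * A' * q| ≤ n * n' := by
    rw [abs_mul, abs_mul, abs_of_nonneg hq0]
    calc |A| * |A'| * q ≤ |A| * |A'| * 1 :=
          mul_le_mul_of_nonneg_left hq1 (mul_nonneg (abs_nonneg _) (abs_nonneg _))
      _ = |A| * |A'| := mul_one _
      _ ≤ n * n' := mul_le_mul hA hA' (abs_nonneg _) hn
  have x6 : |η * (α * α' - β * (a * a' + a * A' + A * a') - A * A' * q)| ≤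
      η * ((β * |a| + n) * (β * |a'| + n') + β * (|a| * |a'| + |a| * n' + n * |a'|) + n * n') := by
    rw [abs_mul, abs_of_nonneg hη]
    apply mul_le_mul_of_nonneg_left _ hη
    have z1 : |β * (a * a' + a * A' + A * a')| ≤ β * (|a| * |a'| + |a| * n' + n * |a'|) := by
      rw [abs_mul, abs_of_nonneg hβ.le]
      exact mul_le_mul_of_nonneg_left x4 hβ.le
    have z2 := abs_sub (α * α' - β * (a * a' + a * A' + A * a')) (A * A' * q)
    have z3 := abs_sub (α * α') (β * (a * a' + a * A' + A * a'))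
    linarith
  have x7 : |e * α' + e' * α + η * (α * α' - β * (a * a' + a * A' + A * a') - A * A' * q)| ≤
      (2 * η * n + (1 - ξ) * |a|) * (β * |a'| + n') + (2 * η * n' + (1 - ξ) * |a'|) * (β * |a| + n)
      + η * ((β * |a| + n) * (β * |a'| + n') + β * (|a| * |a'| + |a| * n' + n * |a'|) + n * n') := by
    have z1 := abs_add_le (e * α' + e' * α)
      (η * (α * α' - β * (a * a' + a * A' + A * a') - A * A' * q))
    have z2 := abs_add_le (e * α') (e' * α)
    linarith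
  have x8 : |2 * κ * w| ≤ ξ / 30 := by
    rw [abs_mul, abs_mul, abs_of_nonneg hw0, abs_of_nonneg (by norm_num : (0:ℝ) ≤ 2)]
    calc 2 * |κ| * w ≤ 2 * (8 / 15) * w :=
          mul_le_mul_of_nonneg_right (by linarith) hw0
      _ ≤ 2 * (8 / 15) * (ξ / 32) := by
          apply mul_le_mul_of_nonneg_left hw1 (by norm_num)
      _ = ξ / 30 := by ring
  rw [abs_mul]
  refine le_trans (mul_le_mul x8 x7 (abs_nonneg _) (by positivity)) (le_of_eq ?_)
  ring

/-- the terms with `h1` -/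
private theorem t2 (S ξ η h1 A a V A' a' V' n n' : ℝ) (hS : 0 < S)
    (hξ1 : ξ ≤ 1) (hη : 0 ≤ η) (h10 : 0 ≤ h1) (h11 : h1 ≤ 1)
    (hn : 0 ≤ n) (hn' : 0 ≤ n') (hA : |A| ≤ n) (hA' : |A'| ≤ n')
    (hV : S * |V| ≤ 13 / 10 * n) (hV' : S * |V'| ≤ 13 / 10 * n') :
    |2 * S * h1 * ((2 * η * A + (1 - ξ) * a) * V' + (2 * η * A' + (1 - ξ) * a') * V)| ≤
      26 / 10 * ((1 - ξ) * (|a| * n' + |a'| * n)) + 104 / 10 * (η * (n * n')) := by
  have e1 := abs_e η ξ A a n hη hξ1 hA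
  have e2 := abs_e η ξ A' a' n' hη hξ1 hA'
  have ha := abs_nonneg a
  have ha' := abs_nonneg a'
  set e := 2 * η * A + (1 - ξ) * a
  set e' := 2 * η * A' + (1 - ξ) * a'
  have k1 : |2 * S * h1 * (e * V' + e' * V)| =
      2 * h1 * |S * (e * V' + e' * V)| := by
    rw [abs_mul, abs_mul, abs_of_nonneg h10, abs_of_nonneg (by positivity : (0:ℝ) ≤ 2 * S),
      abs_mul, abs_of_pos hS]
    ring
  have k2 : |S * (e * V' + e' * V)| ≤
      (2 * η * n + (1 - ξ) * |a|) * (13 / 10 * n') + (2 * η * n' + (1 - ξ) * |a'|) * (13 / 10 * n)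
      := by
    have y1 : |e * (S * V')| ≤ (2 * η * n + (1 - ξ) * |a|) * (13 / 10 * n') := by
      rw [abs_mul, abs_mul, abs_of_pos hS]
      exact mul_le_mul e1 hV' (by positivity) (le_trans (abs_nonneg _) e1)
    have y2 : |e' * (S * V)| ≤ (2 * η * n' + (1 - ξ) * |a'|) * (13 / 10 * n) := by
      rw [abs_mul, abs_mul, abs_of_pos hS]
      exact mul_le_mul e2 hV (by positivity) (le_trans (abs_nonneg _) e2)
    have y3 : S * (e * V' + e' * V) = e * (S * V') + e' * (S * V) := by ring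
    rw [y3]
    linarith [abs_add_le (e * (S * V')) (e' * (S * V))]
  rw [k1]
  have k3 : 0 ≤ |S * (e * V' + e' * V)| := abs_nonneg _
  calc 2 * h1 * |S * (e * V' + e' * V)| ≤ 2 * 1 * |S * (e * V' + e' * V)| := by
        apply mul_le_mul_of_nonneg_right _ k3
        linarith
    _ ≤ 2 * 1 * ((2 * η * n + (1 - ξ) * |a|) * (13 / 10 * n')
        + (2 * η * n' + (1 - ξ) * |a'|) * (13 / 10 * n)) := by
        apply mul_le_mul_of_nonneg_left k2 (by norm_num)
    _ = _ := by ring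

/-- the terms with `h2` -/
private theorem t3 (β S ξ η w v h2 A a V A' a' V' n n' : ℝ) (hβ : 0 < β) (hS : 0 < S) (hξ : 0 < ξ)
    (hη : 0 ≤ η) (hw : w = ξ * S / (32 * (1 + S))) (hw1 : w ≤ ξ / 32) (hS1 : S ≤ 33 / 32)
    (hvw : |v| ≤ w) (h22 : |h2| ≤ 8 / 5)
    (hn : 0 ≤ n) (hn' : 0 ≤ n') (hA : |A| ≤ n) (hA' : |A'| ≤ n')
    (hV : S * |V| ≤ 13 / 10 * n) (hV' : S * |V'| ≤ 13 / 10 * n')
    (hVV : S * (|V| * |V'|) ≤ 8 / 5 * (n * n')) :
    |2 * η * (h2 / w) * ((S * V - v * (β * a + A / (1 + S)))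
      * (S * V' - v * (β * a' + A' / (1 + S))))| ≤
      16 / 5 * η * (104 / ξ * (n * n') + 13 / 10 * (n * (β * |a'| + n') + n' * (β * |a| + n))
        + ξ / 32 * ((β * |a| + n) * (β * |a'| + n'))) := by
  have l1 := abs_al β S A a n hβ.le hS hA
  have l2 := abs_al β S A' a' n' hβ.le hS hA'
  have ha := abs_nonneg a
  have ha' := abs_nonneg a'
  set α := β * a + A / (1 + S)
  set α' := β * a' + A' / (1 + S)
  have w0 : 0 < w := by rw [hw]; positivity
  have g1 : |S * V - v * α| ≤ S * |V| + w * |α| := by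
    have y := abs_sub (S * V) (v * α)
    have y1 : |S * V| = S * |V| := by rw [abs_mul, abs_of_pos hS]
    have y2 : |v * α| ≤ w * |α| := by
      rw [abs_mul]; exact mul_le_mul_of_nonneg_right hvw (abs_nonneg _)
    linarith
  have g2 : |S * V' - v * α'| ≤ S * |V'| + w * |α'| := by
    have y := abs_sub (S * V') (v * α')
    have y1 : |S * V'| = S * |V'| := by rw [abs_mul, abs_of_pos hS]
    have y2 : |v * α'| ≤ w * |α'| := by
      rw [abs_mul]; exact mul_le_mul_of_nonneg_right hvw (abs_nonneg _)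
    linarith
  have g3 : |(S * V - v * α) * (S * V' - v * α')| ≤
      (S * |V| + w * |α|) * (S * |V'| + w * |α'|) := by
    rw [abs_mul]
    exact mul_le_mul g1 g2 (abs_nonneg _) (le_trans (abs_nonneg _) g1)
  have g4 : (S * |V| + w * |α|) * (S * |V'| + w * |α'|) / w =
      S * (S * (|V| * |V'|)) / w + (S * |V| * |α'| + S * |V'| * |α|) + w * (|α| * |α'|) := by
    field_simp
    ring
  have g5 : S * (S * (|V| * |V'|)) / w ≤ 104 / ξ * (n * n') := by
    have z1 : S * (S * (|V| * |V'|)) / w = 32 * (1 + S) / ξ * (S * (|V| * |V'|)) := by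
      rw [hw]; field_simp
    rw [z1]
    have z2 : 32 * (1 + S) / ξ ≤ 65 / ξ := by
      apply div_le_div_of_nonneg_right _ hξ.le
      linarith
    have z3 : 0 ≤ S * (|V| * |V'|) := by positivity
    calc 32 * (1 + S) / ξ * (S * (|V| * |V'|)) ≤ 65 / ξ * (S * (|V| * |V'|)) :=
          mul_le_mul_of_nonneg_right z2 z3
      _ ≤ 65 / ξ * (8 / 5 * (n * n')) := mul_le_mul_of_nonneg_left hVV (by positivity)
      _ = 104 / ξ * (n * n') := by ring
  have g6 : S * |V| * |α'| ≤ 13 / 10 * n * (β * |a'| + n') :=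
    mul_le_mul hV l2 (abs_nonneg _) (by positivity)
  have g7 : S * |V'| * |α| ≤ 13 / 10 * n' * (β * |a| + n) :=
    mul_le_mul hV' l1 (abs_nonneg _) (by positivity)
  have g8 : w * (|α| * |α'|) ≤ ξ / 32 * ((β * |a| + n) * (β * |a'| + n')) := by
    apply mul_le_mul hw1 _ (by positivity) (by positivity)
    exact mul_le_mul l1 l2 (abs_nonneg _) (le_trans (abs_nonneg _) l1)
  have g9 : |2 * η * (h2 / w) * ((S * V - v * α) * (S * V' - v * α'))| =
      2 * η * |h2| * (|(S * V - v * α) * (S * V' - v * α')| / w) := by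
    rw [abs_mul, abs_mul, abs_of_nonneg (by positivity : (0:ℝ) ≤ 2 * η), abs_div, abs_of_pos w0]
    ring
  rw [g9]
  have g10 : |(S * V - v * α) * (S * V' - v * α')| / w ≤
      104 / ξ * (n * n') + 13 / 10 * (n * (β * |a'| + n') + n' * (β * |a| + n))
        + ξ / 32 * ((β * |a| + n) * (β * |a'| + n')) := by
    refine le_trans (div_le_div_of_nonneg_right g3 w0.le) ?_
    rw [g4]
    nlinarith
  have g11 : 0 ≤ |(S * V - v * α) * (S * V' - v * α')| / w := by positivity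
  calc 2 * η * |h2| * (|(S * V - v * α) * (S * V' - v * α')| / w)
      ≤ 2 * η * (8 / 5) * (|(S * V - v * α) * (S * V' - v * α')| / w) := by
        apply mul_le_mul_of_nonneg_right _ g11
        apply mul_le_mul_of_nonneg_left h22 (by positivity)
    _ ≤ 2 * η * (8 / 5) * (104 / ξ * (n * n')
          + 13 / 10 * (n * (β * |a'| + n') + n' * (β * |a| + n))
          + ξ / 32 * ((β * |a| + n) * (β * |a'| + n'))) :=
        mul_le_mul_of_nonneg_left g10 (by positivity)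
    _ = _ := by ring

private theorem rr_eq (m : Atm) (hS : 0 < m.S) (hw : 0 < m.w) (A a V A' a' V' : ℝ) :
    m.rr A a V A' a' V' = m.p *
      (2 * m.κ * m.w * ((2 * m.η * A + (1 - m.ξ) * a) * (m.β * a' + A' / (1 + m.S))
      + (2 * m.η * A' + (1 - m.ξ) * a') * (m.β * a + A / (1 + m.S))
      + m.η * ((m.β * a + A / (1 + m.S)) * (m.β * a' + A' / (1 + m.S))
        - m.β * (a * a' + a * A' + A * a') - A * A' * (1 - m.S ^ 2 / (1 + m.S) ^ 2)))
      + 2 * m.S * m.h1 * ((2 * m.η * A + (1 - m.ξ) * a) * V' + (2 * m.η * A' + (1 - m.ξ) * a') * V)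
      + 2 * m.η * (m.h2 / m.w) * ((m.S * V - m.v * (m.β * a + A / (1 + m.S)))
      * (m.S * V' - m.v * (m.β * a' + A' / (1 + m.S))))) := by
  unfold Atm.rr Atm.DE Atm.DH Atm.DDH Atm.al Atm.E
  have h1 : m.S ≠ 0 := hS.ne'
  have h2 : m.w ≠ 0 := hw.ne'
  generalize m.β * a + A / (1 + m.S) = α
  generalize m.β * a' + A' / (1 + m.S) = α'
  generalize 1 - m.S ^ 2 / (1 + m.S) ^ 2 = q
  generalize m.η = η
  field_simp
  ring

/-- **Td** -/
theorem p_Td : StmTd := by
  intro m S x ok A a V A' a' V' n n' hn hn' hA hA' hVV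
  obtain ⟨hβ, hβ1, hS, hx, eS, hp, hp1, hξ, hξ1, hw, hv, hH, hκ, h10, h11, h22, sup⟩ := ok
  have w0 : 0 < m.w := by rw [hw]; positivity
  have w1 : m.w ≤ m.ξ / 32 := by
    rw [hw, div_le_div_iff₀ (by positivity) (by norm_num)]
    nlinarith [mul_pos hξ hS]
  have hη : m.η = (m.β + (1 - m.ξ)) / (1 + m.β) := by
    unfold Atm.η
    field_simp
    ring
  have hr0 : 0 < m.β + (1 - m.ξ) := by linarith
  have η0 : 0 ≤ m.η := by rw [hη]; positivity
  have η1 : m.η ≤ m.β + (1 - m.ξ) := by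
    rw [hη, div_le_iff₀ (by positivity)]
    nlinarith
  have η2 : m.η * (1 + m.β) = m.β + (1 - m.ξ) := by
    rw [hη]; field_simp
  have η3 : m.η ≤ 1 := by
    have : 0 ≤ m.ξ / (1 + m.β) := by positivity
    unfold Atm.η
    linarith
  rw [rr_eq m (by rw [eS]; exact hS) w0, eS, abs_mul, abs_of_pos hp]
  apply mul_le_mul_of_nonneg_left _ hp.le
  have T1 := t1 m.β S m.ξ m.η m.w m.κ A a A' a' n n' hβ hS hξ hξ1 η0 w0.le w1 hκ hn hn' hA hA'
  have ha := abs_nonneg a
  have ha' := abs_nonneg a'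
  set P := |a| * |a'| with hP
  set M := |a| * n' + |a'| * n with hM
  set Q := n * n' with hQ
  have P0 : 0 ≤ P := by positivity
  have M0 : 0 ≤ M := by positivity
  have Q0 : 0 ≤ Q := by positivity
  -- coefficients for the terms with κ
  have c1 : m.ξ / 30 * ((2 * (1 - m.ξ) * m.β + m.η * m.β ^ 2 + m.η * m.β) * P
      + ((1 - m.ξ) + 4 * m.η * m.β) * M + 6 * m.η * Q) ≤
      3001 / 30000 * (m.β * m.ξ * P) + 1004 / 30000 * ((m.β + (1 - m.ξ)) * M)
        + 6 / 30 * ((m.β + (1 - m.ξ)) * Q) := by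
    have d1 : m.ξ / 30 * ((2 * (1 - m.ξ) * m.β + m.η * m.β ^ 2 + m.η * m.β) * P) ≤
        3001 / 30000 * (m.β * m.ξ * P) := by
      have : 2 * (1 - m.ξ) * m.β + m.η * m.β ^ 2 + m.η * m.β =
          m.β * (2 * (1 - m.ξ) + (m.β + (1 - m.ξ))) := by rw [← η2]; ring
      rw [this]
      have f1 : 2 * (1 - m.ξ) + (m.β + (1 - m.ξ)) ≤ 3001 / 1000 := by linarith
      have f2 : 0 ≤ m.ξ * m.β * P := by positivity
      nlinarith [mul_le_mul_of_nonneg_left f1 f2]
    have d2 : m.ξ / 30 * (((1 - m.ξ) + 4 * m.η * m.β) * M) ≤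
        1004 / 30000 * ((m.β + (1 - m.ξ)) * M) := by
      have f1 : (1 - m.ξ) + 4 * m.η * m.β ≤ 1004 / 1000 * (m.β + (1 - m.ξ)) := by
        have : 4 * m.η * m.β ≤ 4 * (m.β + (1 - m.ξ)) * (1 / 1000) := by
          apply mul_le_mul _ hβ1 hβ.le (by positivity)
          linarith
        nlinarith
      have f2 : 0 ≤ (1 - m.ξ) + 4 * m.η * m.β := by
        have : 0 ≤ m.η * m.β := mul_nonneg η0 hβ.le
        linarith
      have f3 : m.ξ / 30 ≤ 1 / 30 := by linarith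
      calc m.ξ / 30 * (((1 - m.ξ) + 4 * m.η * m.β) * M)
          ≤ 1 / 30 * (((1 - m.ξ) + 4 * m.η * m.β) * M) :=
            mul_le_mul_of_nonneg_right f3 (mul_nonneg f2 M0)
        _ ≤ 1 / 30 * ((1004 / 1000 * (m.β + (1 - m.ξ))) * M) := by
            apply mul_le_mul_of_nonneg_left _ (by norm_num)
            exact mul_le_mul_of_nonneg_right f1 M0
        _ = _ := by ring
    have d3 : m.ξ / 30 * (6 * m.η * Q) ≤ 6 / 30 * ((m.β + (1 - m.ξ)) * Q) := by
      have f3 : m.ξ / 30 ≤ 1 / 30 := by linarith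
      calc m.ξ / 30 * (6 * m.η * Q) ≤ 1 / 30 * (6 * m.η * Q) :=
            mul_le_mul_of_nonneg_right f3 (by positivity)
        _ = 6 / 30 * (m.η * Q) := by ring
        _ ≤ 6 / 30 * ((m.β + (1 - m.ξ)) * Q) := by
            apply mul_le_mul_of_nonneg_left _ (by norm_num)
            exact mul_le_mul_of_nonneg_right η1 Q0
    have : m.ξ / 30 * ((2 * (1 - m.ξ) * m.β + m.η * m.β ^ 2 + m.η * m.β) * P
      + ((1 - m.ξ) + 4 * m.η * m.β) * M + 6 * m.η * Q) =
      m.ξ / 30 * ((2 * (1 - m.ξ) * m.β + m.η * m.β ^ 2 + m.η * m.β) * P)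
      + m.ξ / 30 * (((1 - m.ξ) + 4 * m.η * m.β) * M) + m.ξ / 30 * (6 * m.η * Q) := by ring
    rw [this]
    linarith
  have rQ : (m.β + (1 - m.ξ)) * Q ≤ (m.β + (1 - m.ξ)) / m.ξ * Q := by
    apply mul_le_mul_of_nonneg_right _ Q0
    rw [le_div_iff₀ hξ]
    nlinarith
  have rQ0 : 0 ≤ (m.β + (1 - m.ξ)) / m.ξ * Q := by positivity
  have rM0 : 0 ≤ (m.β + (1 - m.ξ)) * M := by positivity
  have bP0 : 0 ≤ m.β * m.ξ * P := by positivity
  rcases sup with ⟨z1, z2⟩ | hvw
  · rw [z1, z2]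
    simp only [mul_zero, zero_mul, zero_div, add_zero]
    refine le_trans (le_trans T1 c1) ?_
    linarith
  · obtain ⟨hV2, hV2'⟩ := hVV hvw
    have w2 : m.w ≤ 1 / 32 := by linarith
    have hS1 : S ≤ 33 / 32 := by
      have := (abs_lt.1 hvw).2
      rw [hv] at this
      linarith
    have hV : S * |V| ≤ 13 / 10 * n := by
      apply abs_le_of_sq_le_sq' _ (by positivity) |>.2
      have : (S * |V|) ^ 2 = S * (S * V ^ 2) := by
        rw [mul_pow, sq_abs]; ring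
      rw [this]
      have f1 : 0 ≤ S * V ^ 2 := by positivity
      nlinarith [mul_le_mul hS1 hV2 f1 (by norm_num), sq_nonneg n]
    have hV' : S * |V'| ≤ 13 / 10 * n' := by
      apply abs_le_of_sq_le_sq' _ (by positivity) |>.2
      have : (S * |V'|) ^ 2 = S * (S * V' ^ 2) := by
        rw [mul_pow, sq_abs]; ring
      rw [this]
      have f1 : 0 ≤ S * V' ^ 2 := by positivity
      nlinarith [mul_le_mul hS1 hV2' f1 (by norm_num), sq_nonneg n']
    have hV3 : S * (|V| * |V'|) ≤ 8 / 5 * (n * n') := by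
      apply abs_le_of_sq_le_sq' _ (by positivity) |>.2
      have : (S * (|V| * |V'|)) ^ 2 = (S * V ^ 2) * (S * V' ^ 2) := by
        rw [mul_pow, mul_pow, sq_abs, sq_abs]; ring
      rw [this]
      calc (S * V ^ 2) * (S * V' ^ 2) ≤ (8 / 5 * n ^ 2) * (8 / 5 * n' ^ 2) :=
            mul_le_mul hV2 hV2' (by positivity) (by positivity)
        _ = _ := by ring
    have T2 := t2 S m.ξ m.η m.h1 A a V A' a' V' n n' hS hξ1 η0 h10 h11 hn hn' hA hA' hV hV'
    have T3 := t3 m.β S m.ξ m.η m.w m.v m.h2 A a V A' a' V' n n' hβ hS hξ η0 hw w1 hS1 hvw.le h22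
      hn hn' hA hA' hV hV' hV3
    have c2 : 26 / 10 * ((1 - m.ξ) * M) + 104 / 10 * (m.η * Q) ≤
        26 / 10 * ((m.β + (1 - m.ξ)) * M) + 104 / 10 * ((m.β + (1 - m.ξ)) * Q) := by
      have f1 : (1 - m.ξ) * M ≤ (m.β + (1 - m.ξ)) * M :=
        mul_le_mul_of_nonneg_right (by linarith) M0
      have f2 : m.η * Q ≤ (m.β + (1 - m.ξ)) * Q := mul_le_mul_of_nonneg_right η1 Q0
      linarith
    have c3 : 16 / 5 * m.η * (104 / m.ξ * (n * n')
        + 13 / 10 * (n * (m.β * |a'| + n') + n' * (m.β * |a| + n))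
        + m.ξ / 32 * ((m.β * |a| + n) * (m.β * |a'| + n'))) ≤
        1 / 10000 * (m.β * m.ξ * P) + 43 / 10000 * ((m.β + (1 - m.ξ)) * M)
        + 1664 / 5 * ((m.β + (1 - m.ξ)) / m.ξ * Q) + 842 / 100 * ((m.β + (1 - m.ξ)) * Q) := by
      have i1 : 16 / 5 * m.η * (104 / m.ξ * (n * n')
        + 13 / 10 * (n * (m.β * |a'| + n') + n' * (m.β * |a| + n))
        + m.ξ / 32 * ((m.β * |a| + n) * (m.β * |a'| + n'))) =
        1 / 10 * m.η * m.β * (m.β * m.ξ * P)
        + (16 / 5 * (13 / 10) + m.ξ / 10) * m.β * (m.η * M)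
        + 1664 / 5 * (m.η / m.ξ * Q) + (16 / 5 * (26 / 10) + m.ξ / 10) * (m.η * Q) := by
        rw [hP, hM, hQ]
        field_simp
        ring
      rw [i1]
      have i2 : 1 / 10 * m.η * m.β * (m.β * m.ξ * P) ≤ 1 / 10000 * (m.β * m.ξ * P) := by
        apply mul_le_mul_of_nonneg_right _ bP0
        have : m.η * m.β ≤ 1 * (1 / 1000) := mul_le_mul η3 hβ1 hβ.le (by norm_num)
        linarith
      have i3 : (16 / 5 * (13 / 10) + m.ξ / 10) * m.β * (m.η * M) ≤
          43 / 10000 * ((m.β + (1 - m.ξ)) * M) := by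
        have f1 : (16 / 5 * (13 / 10) + m.ξ / 10) * m.β ≤ 43 / 10 * (1 / 1000) := by
          apply mul_le_mul _ hβ1 hβ.le (by norm_num)
          linarith
        have f2 : m.η * M ≤ (m.β + (1 - m.ξ)) * M := mul_le_mul_of_nonneg_right η1 M0
        have f3 : 0 ≤ m.η * M := mul_nonneg η0 M0
        calc (16 / 5 * (13 / 10) + m.ξ / 10) * m.β * (m.η * M)
            ≤ 43 / 10 * (1 / 1000) * (m.η * M) := mul_le_mul_of_nonneg_right f1 f3
          _ ≤ 43 / 10 * (1 / 1000) * ((m.β + (1 - m.ξ)) * M) :=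
              mul_le_mul_of_nonneg_left f2 (by norm_num)
          _ = _ := by ring
      have i4 : m.η / m.ξ * Q ≤ (m.β + (1 - m.ξ)) / m.ξ * Q := by
        apply mul_le_mul_of_nonneg_right _ Q0
        exact div_le_div_of_nonneg_right η1 hξ.le
      have i5 : (16 / 5 * (26 / 10) + m.ξ / 10) * (m.η * Q) ≤
          842 / 100 * ((m.β + (1 - m.ξ)) * Q) := by
        have f2 : m.η * Q ≤ (m.β + (1 - m.ξ)) * Q := mul_le_mul_of_nonneg_right η1 Q0
        have f3 : 0 ≤ m.η * Q := mul_nonneg η0 Q0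
        calc (16 / 5 * (26 / 10) + m.ξ / 10) * (m.η * Q)
            ≤ 842 / 100 * (m.η * Q) := by
              apply mul_le_mul_of_nonneg_right _ f3
              linarith
          _ ≤ _ := mul_le_mul_of_nonneg_left f2 (by norm_num)
      linarith
    refine le_trans (abs_add_le _ _) ?_
    refine le_trans (add_le_add (abs_add_le _ _) le_rfl) ?_
    have T1' := le_trans T1 c1
    have T2' := le_trans T2 c2
    have T3' := le_trans T3 c3
    linarith

end Pool.Agent.Lib.MP_d8ef8f_an.Gd
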