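import Pool.Agent.Lib.MP_d8ef8f_an.Gd.Te2

/-!
# Te: the main inequality of the gap-free density
-/

set_option autoImplicit false

namespace Pool.Agent.Lib.MP_d8ef8f_an.Gd

open Set Filter Topology MeasureTheory

private theorem gj {β ξ : ℝ} (hβ : 0 < β) (hξ : 0 < ξ) :
    (β + (1 - ξ)) ^ 2 / (β * ξ) ≤ 2 * (β / ξ + (1 - ξ) ^ 2 / (β * ξ)) := by
  have h1 : β / ξ + (1 - ξ) ^ 2 / (β * ξ) = (β ^ 2 + (1 - ξ) ^ 2) / (β * ξ) := by
    field_simp
  rw [h1, ← mul_div_assoc, div_le_div_iff_of_pos_right (by positivity)]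
  nlinarith [sq_nonneg (β - (1 - ξ))]

private theorem gj' {β ξ : ℝ} (hβ : 0 < β) (hξ : 0 < ξ) :
    (β + (1 - ξ)) / ξ ≤ 3 / 2 * (β / ξ + (1 - ξ) ^ 2 / (β * ξ)) := by
  have h1 : β / ξ + (1 - ξ) ^ 2 / (β * ξ) = (β ^ 2 + (1 - ξ) ^ 2) / (β * ξ) := by
    field_simp
  rw [h1, ← mul_div_assoc, div_le_div_iff₀ hξ (by positivity)]
  have : (β + (1 - ξ)) * β ≤ 3 / 2 * (β ^ 2 + (1 - ξ) ^ 2) := by
    nlinarith [sq_nonneg (β - (1 - ξ))]
  nlinarith

/-- the sums of `p r / ξ` -/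
theorem te_P {N : ℕ} (J : Finset (Fin N)) (m : Fin N → Atm) (S x : ℝ) (hm : ∀ j ∈ J, (m j).Ok S x)
    (hG : tG J m ≤ 1 / 6400) :
    ∑ j ∈ J, (m j).p * (((m j).β + (1 - (m j).ξ)) / (m j).ξ) ≤ 3 / 12800 := by
  have h1 : ∑ j ∈ J, (m j).p * (((m j).β + (1 - (m j).ξ)) / (m j).ξ) ≤ 3 / 2 * tG J m := by
    unfold tG
    rw [Finset.mul_sum]
    apply Finset.sum_le_sum
    intro j hj
    have h := hm j hj
    have := mul_le_mul_of_nonneg_left (gj' h.hβ h.hξ) h.hp.le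
    linarith
  linarith

/-- Cauchy-Schwarz -/
theorem te_cs {N : ℕ} (J : Finset (Fin N)) (m : Fin N → Atm) (S x : ℝ) (hm : ∀ j ∈ J, (m j).Ok S x)
    (hG : tG J m ≤ 1 / 6400) (b : Fin N → ℝ) :
    (∑ j ∈ J, (m j).p * (((m j).β + (1 - (m j).ξ)) * b j)) ^ 2 ≤
      1 / 3200 * ∑ j ∈ J, (m j).β * (m j).p * (m j).ξ * b j ^ 2 := by
  have h1 : (∑ j ∈ J, (m j).p * (((m j).β + (1 - (m j).ξ)) * b j)) ^ 2 ≤
      (∑ j ∈ J, (m j).p * (((m j).β + (1 - (m j).ξ)) ^ 2 / ((m j).β * (m j).ξ))) *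
        ∑ j ∈ J, (m j).β * (m j).p * (m j).ξ * b j ^ 2 := by
    apply Finset.sum_sq_le_sum_mul_sum_of_sq_le_mul
    · intro j hj
      have h := hm j hj
      have h1 := h.hβ
      have h2 := h.hξ
      have h3 := h.hp
      positivity
    · intro j hj
      have h := hm j hj
      have h1 := h.hβ
      have h2 := h.hξ
      have h3 := h.hp
      positivity
    · intro j hj
      have h := hm j hj
      have h1 := h.hβ.ne'
      have h2 := h.hξ.ne'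
      apply le_of_eq
      field_simp
  have h2 : ∑ j ∈ J, (m j).p * (((m j).β + (1 - (m j).ξ)) ^ 2 / ((m j).β * (m j).ξ)) ≤
      2 * tG J m := by
    unfold tG
    rw [Finset.mul_sum]
    apply Finset.sum_le_sum
    intro j hj
    have h := hm j hj
    have := mul_le_mul_of_nonneg_left (gj h.hβ h.hξ) h.hp.le
    linarith
  have h3 : 0 ≤ ∑ j ∈ J, (m j).β * (m j).p * (m j).ξ * b j ^ 2 := by
    apply Finset.sum_nonneg
    intro j hj
    have h := hm j hj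
    have h1 := h.hβ
    have h2 := h.hξ
    have h3 := h.hp
    positivity
  refine h1.trans (mul_le_mul_of_nonneg_right ?_ h3)
  linarith

private theorem sq_bd {T n c W : ℝ} (hn : 0 ≤ n) (h : T ^ 2 ≤ 1 / 3200 * W) (hW : W ≤ n ^ 2)
    (hc : 0 ≤ c) (hc2 : 1 / 3200 ≤ c ^ 2) : T ≤ c * n := by
  apply le_of_sq_le_sq _ (by positivity)
  calc T ^ 2 ≤ 1 / 3200 * W := h
    _ ≤ 1 / 3200 * n ^ 2 := by linarith
    _ ≤ c ^ 2 * n ^ 2 := mul_le_mul_of_nonneg_right hc2 (sq_nonneg _)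
    _ = (c * n) ^ 2 := by ring
  where
  le_of_sq_le_sq {a b : ℝ} (h : a ^ 2 ≤ b ^ 2) (hb : 0 ≤ b) : a ≤ b := by
    exact le_trans (le_abs_self a) (abs_le_of_sq_le_sq h hb)

theorem p_Te (td : StmTd) : StmTe := by
  intro N J m S x hm hp1 hG a hpa X Z Y
  obtain ⟨Yd, hYd⟩ : ∃ Yd, Yd = tY J m a Y := ⟨_, rfl⟩
  rw [← hYd]
  -- the norm
  obtain ⟨W, hW⟩ : ∃ W, W = ∑ j ∈ J, (m j).β * (m j).p * (m j).ξ * a j ^ 2 := ⟨_, rfl⟩
  obtain ⟨R, hR⟩ : ∃ R, R = ∑ j ∈ J, (m j).β * (m j).p * (m j).ξ * Y ^ 2 := ⟨_, rfl⟩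
  have hJ : J.Nonempty := by
    rw [Finset.nonempty_iff_ne_empty]
    intro h
    rw [h] at hp1
    simp at hp1
  obtain ⟨j0, hj0⟩ := hJ
  have hx : 0 < x := (hm j0 hj0).hx
  have hS : 0 < S := (hm j0 hj0).hS
  have hD : 0 ≤ dfc2 x := dfc2_nonneg hx
  have hpos : ∀ j ∈ J, ∀ t : ℝ, 0 ≤ (m j).β * (m j).p * (m j).ξ * t ^ 2 := by
    intro j hj t
    have h := hm j hj
    have h1 := h.hβ
    have h2 := h.hξ
    have h3 := h.hp
    positivity
  have hW0 : 0 ≤ W := by rw [hW]; exact Finset.sum_nonneg fun j hj => hpos j hj _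
  have hR0 : 0 ≤ R := by rw [hR]; exact Finset.sum_nonneg fun j hj => hpos j hj _
  have hU : ∑ j ∈ J, (m j).β * (m j).p * (m j).ξ * (a j ^ 2 + Y ^ 2) = W + R := by
    rw [hW, hR, ← Finset.sum_add_distrib]
    apply Finset.sum_congr rfl
    intro j _
    ring
  rw [hU]
  obtain ⟨n, hn⟩ : ∃ n, n = Real.sqrt (dfc2 x * X ^ 2 + Z ^ 2 + (W + R)) := ⟨_, rfl⟩
  have hM0 : 0 ≤ dfc2 x * X ^ 2 + Z ^ 2 + (W + R) := by positivity
  have hn0 : 0 ≤ n := by rw [hn]; exact Real.sqrt_nonneg _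
  have hn2 : n ^ 2 = dfc2 x * X ^ 2 + Z ^ 2 + (W + R) := by rw [hn]; exact Real.sq_sqrt hM0
  have hX0 : 0 ≤ dfc2 x * X ^ 2 := by positivity
  -- Cauchy-Schwarz
  have ca := te_cs J m S x hm hG (fun j => |a j|)
  have cY := te_cs J m S x hm hG (fun _ => |Y|)
  simp only [sq_abs] at ca cY
  rw [← hW] at ca
  rw [← hR] at cY
  obtain ⟨Ta, hTa⟩ : ∃ Ta, Ta = ∑ j ∈ J, (m j).p * (((m j).β + (1 - (m j).ξ)) * |a j|) := ⟨_, rfl⟩
  obtain ⟨TY, hTY⟩ : ∃ TY, TY = ∑ j ∈ J, (m j).p * (((m j).β + (1 - (m j).ξ)) * |Y|) := ⟨_, rfl⟩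
  rw [← hTa] at ca
  rw [← hTY] at cY
  have hTa0 : 0 ≤ Ta := by
    rw [hTa]
    apply Finset.sum_nonneg
    intro j hj
    have h := hm j hj
    have h1 := h.hβ
    have h2 := h.hξ1
    have h3 := h.hp
    have h4 : 0 ≤ (m j).β + (1 - (m j).ξ) := by linarith
    have := abs_nonneg (a j)
    positivity
  have hTY0 : 0 ≤ TY := by
    rw [hTY]
    apply Finset.sum_nonneg
    intro j hj
    have h := hm j hj
    have h1 := h.hβ
    have h2 := h.hξ1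
    have h3 := h.hp
    have h4 : 0 ≤ (m j).β + (1 - (m j).ξ) := by linarith
    have := abs_nonneg Y
    positivity
  have hTa1 : Ta ≤ 1 / 56 * n := by
    apply sq_bd hn0 ca _ (by norm_num) (by norm_num)
    rw [hn2]
    have := sq_nonneg Z
    linarith
  have hTY1 : TY ≤ 1 / 56 * n := by
    apply sq_bd hn0 cY _ (by norm_num) (by norm_num)
    rw [hn2]
    have := sq_nonneg Z
    linarith
  have hTT : Ta + TY ≤ 1 / 40 * n := by
    have h1 : (Ta + TY) ^ 2 ≤ (1 / 40 * n) ^ 2 := by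
      have h2 : (Ta + TY) ^ 2 ≤ 2 * (Ta ^ 2 + TY ^ 2) := by nlinarith [sq_nonneg (Ta - TY)]
      have h3 : (1 / 40 * n) ^ 2 = 1 / 1600 * n ^ 2 := by ring
      rw [h3, hn2]
      have := sq_nonneg Z
      linarith
    exact le_trans (le_abs_self _) (abs_le_of_sq_le_sq h1 (by positivity))
  have hYd1 : |Yd| ≤ n / 40 := by
    have h1 : |Yd| ≤ Ta + TY := by
      rw [hYd, hTa, hTY, ← Finset.sum_add_distrib]
      unfold tY
      refine (Finset.abs_sum_le_sum_abs _ _).trans (Finset.sum_le_sum ?_)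
      intro j hj
      have h := hm j hj
      have h1 := h.hβ
      have h2 := h.hξ1
      have h3 := h.hp
      have h4 : |Y + a j| ≤ |Y| + |a j| := abs_add_le _ _
      rw [abs_mul, abs_mul, abs_of_pos h1, abs_of_pos h3]
      have h5 : (m j).β * ((m j).p * |Y + a j|) ≤ (m j).β * ((m j).p * (|Y| + |a j|)) := by
        apply mul_le_mul_of_nonneg_left _ h1.le
        exact mul_le_mul_of_nonneg_left h4 h3.le
      have h6 : 0 ≤ (m j).p * ((1 - (m j).ξ) * (|Y| + |a j|)) := by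
        have : 0 ≤ 1 - (m j).ξ := by linarith
        have := abs_nonneg Y
        have := abs_nonneg (a j)
        positivity
      linarith
    linarith
  -- the species
  have hsp : ∀ j ∈ J, _ := fun j hj =>
    te_species td (hm j hj) (X := X) (Z := Z) (Y := Y) (a := a j) (Yd := Yd) (n := n) hn0
      (by rw [hn2]; linarith) hYd1
  have hsum := Finset.sum_le_sum hsp
  rw [Finset.sum_sub_distrib] at hsum
  have e1 : ∑ j ∈ J, Y * ((m j).β * ((m j).p * (Y + a j))) = Y * Yd := by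
    rw [hYd, tY, Finset.mul_sum]
  rw [e1] at hsum
  have e2 : ∑ j ∈ J, (m j).p * (34 / 100 * ((m j).β * (m j).ξ * (a j ^ 2 + Y ^ 2))
      - 76 / 10 * (((m j).β + (1 - (m j).ξ)) * (n * |a j|))
      - 13 / 100 * (((m j).β + (1 - (m j).ξ)) * (n * |Y|))
      - 364 * (((m j).β + (1 - (m j).ξ)) / (m j).ξ * n ^ 2)) =
      34 / 100 * (W + R) - 76 / 10 * (n * Ta) - 13 / 100 * (n * TY)
      - 364 * n ^ 2 * ∑ j ∈ J, (m j).p * (((m j).β + (1 - (m j).ξ)) / (m j).ξ) := by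
    rw [← hU, hTa, hTY, Finset.mul_sum, Finset.mul_sum, Finset.mul_sum, Finset.mul_sum,
      Finset.mul_sum, Finset.mul_sum, ← Finset.sum_sub_distrib, ← Finset.sum_sub_distrib,
      ← Finset.sum_sub_distrib]
    apply Finset.sum_congr rfl
    intro j _
    ring
  rw [e2] at hsum
  have hP := te_P J m S x hm hG
  have f1 : n * Ta ≤ 1 / 56 * n ^ 2 := by
    have := mul_le_mul_of_nonneg_left hTa1 hn0
    linarith
  have f2 : n * TY ≤ 1 / 56 * n ^ 2 := by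
    have := mul_le_mul_of_nonneg_left hTY1 hn0
    linarith
  have f3 : n ^ 2 * ∑ j ∈ J, (m j).p * (((m j).β + (1 - (m j).ξ)) / (m j).ξ) ≤
      n ^ 2 * (3 / 12800) := mul_le_mul_of_nonneg_left hP (sq_nonneg _)
  have hZ2 : 0 ≤ Z ^ 2 := sq_nonneg _
  generalize (∑ j ∈ J, (m j).p * (((m j).β + (1 - (m j).ξ)) / (m j).ξ)) = P at *
  linarith

end Pool.Agent.Lib.MP_d8ef8f_an.Gd
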