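import Pool.Agent.Lib.MP_d8ef8f_an.Gd.StT2
import Pool.Agent.Lib.MP_d8ef8f_an.Gd.Te

/-!
# Tf: the quadratic form of the gap-free density
-/

set_option autoImplicit false

namespace Pool.Agent.Lib.MP_d8ef8f_an.Gd

open Set Filter Topology MeasureTheory

private theorem sab_lin {N : ℕ} (k : Fin N) (w u : Fin N → ℝ) (b : ℝ) :
    Sab k (fun j => w j + b * u j) = Sab k w + b * Sab k u := by
  unfold Sab
  rw [Finset.mul_sum, ← Finset.sum_add_distrib]

private theorem tn_lin {N : ℕ} (k : Fin N) (e : ℝ) (s w u : Fin N → ℝ) (b : ℝ) (j : Fin N) :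
    tn k e s (fun j => w j + b * u j) j = tn k e s w j + b * tn k e s u j := by
  unfold tn
  rw [sab_lin]
  ring

private theorem tDD_lin {N : ℕ} (d : Fin N → ℝ) (k : Fin N) (e : ℝ) (s w u z : Fin N → ℝ) (b : ℝ) :
    tDD d k e s (fun j => w j + b * u j) z = tDD d k e s w z + b * tDD d k e s u z := by
  unfold tDD
  rw [sab_lin]
  have h : ∀ j ∈ Jk k, (tA d k e s j).DDP (Sab k w + b * Sab k u)
      (tn k e s (fun j => w j + b * u j) j) (Sab k w + b * Sab k u + (w k + b * u k))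
      (Sab k z) (tn k e s z j) (Sab k z + z k) =
      (tA d k e s j).DDP (Sab k w) (tn k e s w j) (Sab k w + w k)
        (Sab k z) (tn k e s z j) (Sab k z + z k)
      + b * (tA d k e s j).DDP (Sab k u) (tn k e s u j) (Sab k u + u k)
        (Sab k z) (tn k e s z j) (Sab k z + z k) := by
    intro j _
    rw [tn_lin]
    unfold Atm.DDP Atm.rr Atm.DDE Atm.DDH Atm.DE Atm.DH Atm.al
    ring
  rw [Finset.sum_congr rfl h, Finset.sum_add_distrib, ← Finset.mul_sum]
  ring

private theorem tD_lin {N : ℕ} (d : Fin N → ℝ) (k : Fin N) (e : ℝ) (s w u : Fin N → ℝ) (b : ℝ) :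
    tD d k e s (fun j => w j + b * u j) = tD d k e s w + b * tD d k e s u := by
  unfold tD
  rw [sab_lin]
  have h : ∀ j ∈ Jk k, (tA d k e s j).DP (Sab k w + b * Sab k u)
      (tn k e s (fun j => w j + b * u j) j) (Sab k w + b * Sab k u + (w k + b * u k)) =
      (tA d k e s j).DP (Sab k w) (tn k e s w j) (Sab k w + w k)
      + b * (tA d k e s j).DP (Sab k u) (tn k e s u j) (Sab k u + u k) := by
    intro j _
    rw [tn_lin]
    unfold Atm.DP Atm.DE Atm.DH Atm.al
    ring
  rw [Finset.sum_congr rfl h, Finset.sum_add_distrib, ← Finset.mul_sum]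
  ring

private theorem tdz_k {N : ℕ} (d : Fin N → ℝ) (k : Fin N) (z : Fin N → ℝ) : tdz d k z k = 0 := by
  unfold tdz
  simp

private theorem mem_Jk {N : ℕ} {k j : Fin N} : j ∈ Jk k ↔ k < j := by
  unfold Jk
  simp

private theorem fin_alg {M n n' b T1 T2 C0 e P : ℝ} (hM : M = n ^ 2)
    (hn'2 : n' ^ 2 = C0 * e) (h1 : 1 / 10 * M ≤ P) (h2 : |T1| ≤ 3 * (n' * n))
    (h3 : |T2| ≤ C0 * e) :
    1 / 20 * M - 46 * C0 * e * b ^ 2 ≤ P - b * (T1 + b * T2) := by
  have a1 : b * T1 ≤ |b| * (3 * (n' * n)) := by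
    calc b * T1 ≤ |b * T1| := le_abs_self _
      _ = |b| * |T1| := abs_mul _ _
      _ ≤ _ := mul_le_mul_of_nonneg_left h2 (abs_nonneg _)
  have a2 : |b| * (3 * (n' * n)) ≤ 1 / 20 * n ^ 2 + 45 * (b ^ 2 * n' ^ 2) := by
    rw [← sq_abs b]
    nlinarith [sq_nonneg (n - 30 * (|b| * n'))]
  have a3 : b * (b * T2) ≤ b ^ 2 * (C0 * e) := by
    have : T2 ≤ C0 * e := le_trans (le_abs_self _) h3
    nlinarith [sq_nonneg b, mul_le_mul_of_nonneg_left this (sq_nonneg b)]
  rw [hn'2] at a2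
  rw [hM] at h1 ⊢
  linarith

theorem p_Tf (te : StmTe) (ti : StmTi) (tok : StmTok) (tj : StmTj) (tl : StmTl) (tc : StmTc) :
    StmTf := by
  intro N d k hdk hd hG L
  obtain ⟨C0, hC0, hj⟩ := tj d k hdk hd L
  obtain ⟨K, hK, hl⟩ := tl d k hdk hd
  refine ⟨d k * (1 / 20 / K), d k * (46 * C0), by positivity, by positivity, ?_⟩
  intro e he he1 s hs z b
  obtain ⟨hj1, hj2⟩ := hj e s he he1 hs
  obtain ⟨hsk, hs0, hsL⟩ := hs
  have hl1 := hl e s he hsk hs0 z b
  have hQ := (tc d k hdk (fun j hj => (hd j hj).1) e he).2.2.2.2.2 s hsk hs0 z b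
  rw [hQ]
  obtain ⟨Bg, hBg⟩ : ∃ Bg, Bg = (1 - 1 / s k) ^ 2 * z k ^ 2
      + (∑ j ∈ Finset.univ.filter (fun j => k < j), z j ^ 2) + b ^ 2 * Sab k s ^ 2 := ⟨_, rfl⟩
  rw [← hBg] at hl1 ⊢
  obtain ⟨M, hM⟩ : ∃ M, M = dfc2 (s k) * z k ^ 2 + Sab k z ^ 2 + ∑ j ∈ Jk k,
      (tA d k e s j).β * (tA d k e s j).p *
        (tA d k e s j).ξ * (tn k e s z j ^ 2 + (Sab k z + b * tS k e s) ^ 2) := ⟨_, rfl⟩
  rw [← hM] at hl1
  suffices hmain : 1 / 20 * M - 46 * C0 * e * b ^ 2 ≤
      tDD d k e s z z + tDD d k e s (tdz d k (z + b • s)) z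
        + b * tD d k e s (tdz d k (z + b • s)) by
    have h1 : 1 / 20 / K * Bg ≤ 1 / 20 * M := by
      calc 1 / 20 / K * Bg ≤ 1 / 20 / K * (K * M) :=
            mul_le_mul_of_nonneg_left hl1 (by positivity)
        _ = 1 / 20 * M := by field_simp
    have h2 := mul_le_mul_of_nonneg_left (show 1 / 20 / K * Bg - 46 * C0 * e * b ^ 2 ≤ _ from
      le_trans (by linarith) hmain) hdk.le
    linarith
  obtain ⟨okj, okp, okS, oka⟩ := tok d k hdk hd e s he hsk hs0
  have hD := dfc2_nonneg hsk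
  rcases (Jk k).eq_empty_or_nonempty with hJ | hJ
  · -- no species above `k`
    have hS0 : ∀ y : Fin N → ℝ, Sab k y = 0 := by
      intro y
      show ∑ j ∈ Jk k, y j = 0
      rw [hJ]
      simp
    have hw : tdz d k (z + b • s) = fun _ => 0 := by
      funext j
      unfold tdz
      rw [if_neg]
      intro h
      have := mem_Jk.2 h
      rw [hJ] at this
      simp at this
    rw [hw, hM]
    unfold tDD tD
    rw [hJ]
    simp only [Finset.sum_empty, hS0]
    have h1 : 0 ≤ dfc2 (s k) * z k ^ 2 := by positivity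
    have h2 : 0 ≤ 46 * C0 * e * b ^ 2 := by positivity
    linarith
  · -- the main case
    obtain ⟨j0, hj0⟩ := hJ
    have hS : 0 < tS k e s := (okj j0 hj0).hS
    have hrj : ∀ j, 0 < s j + e := fun j => by linarith [hs0 j]
    obtain ⟨Y, hY⟩ : ∃ Y, Y = Sab k z + b * tS k e s := ⟨_, rfl⟩
    obtain ⟨Yd, hYd⟩ : ∃ Yd, Yd = tY (Jk k) (tA d k e s) (tn k e s z) Y := ⟨_, rfl⟩
    obtain ⟨w', hw'⟩ : ∃ w', w' = tdz d k (fun j => z j + b * (s j + e)) := ⟨_, rfl⟩
    have hpj : ∀ j, (tA d k e s j).p * (Y + tn k e s z j) = z j + b * (s j + e) := by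
      intro j
      show (s j + e) / tS k e s * (Y + tn k e s z j) = _
      rw [hY]
      unfold tn
      have := (hrj j).ne'
      field_simp
      ring
    have hSw : Sab k w' = Yd := by
      rw [hYd, hw']
      unfold tY
      show ∑ j ∈ Jk k, tdz d k (fun j => z j + b * (s j + e)) j = _
      apply Finset.sum_congr rfl
      intro j hj
      rw [hpj]
      unfold tdz
      rw [if_pos (mem_Jk.1 hj)]
      rfl
    have htn : ∀ j ∈ Jk k, tn k e s w' j = (tA d k e s j).β * (Y + tn k e s z j) - Yd := by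
      intro j hj
      unfold tn
      rw [hSw, hw']
      unfold tdz
      rw [if_pos (mem_Jk.1 hj)]
      show _ = tδ d k j * (Y + (tS k e s * (z j / (s j + e)) - Sab k z)) - Yd
      rw [hY]
      have := (hrj j).ne'
      field_simp
      ring
    have hwk : w' k = 0 := by rw [hw']; exact tdz_k d k _
    have hP1 : tDD d k e s z z + tDD d k e s w' z + b * tD d k e s w' =
        dfc2 (s k) * z k ^ 2 + Sab k z ^ 2 + Y * Yd
        - ∑ j ∈ Jk k, ((tA d k e s j).DDP (Sab k z) (tn k e s z j) (Sab k z + z k)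
              (Sab k z) (tn k e s z j) (Sab k z + z k)
          + (tA d k e s j).DDP Yd ((tA d k e s j).β * (Y + tn k e s z j) - Yd) Yd
              (Sab k z) (tn k e s z j) (Sab k z + z k)
          + (Y - Sab k z) / tS k e s *
            (tA d k e s j).DP Yd ((tA d k e s j).β * (Y + tn k e s z j) - Yd) Yd) := by
      have hb : (Y - Sab k z) / tS k e s = b := by
        rw [hY]
        field_simp
        ring
      rw [hb, Finset.sum_add_distrib, Finset.sum_add_distrib, ← Finset.mul_sum]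
      unfold tDD tD
      rw [hSw, hwk]
      have h1 : ∀ j ∈ Jk k, (tA d k e s j).DDP Yd (tn k e s w' j) (Yd + 0)
          (Sab k z) (tn k e s z j) (Sab k z + z k) =
          (tA d k e s j).DDP Yd ((tA d k e s j).β * (Y + tn k e s z j) - Yd) Yd
              (Sab k z) (tn k e s z j) (Sab k z + z k) := by
        intro j hj
        rw [htn j hj, add_zero]
      have h2 : ∀ j ∈ Jk k, (tA d k e s j).DP Yd (tn k e s w' j) (Yd + 0) =
          (tA d k e s j).DP Yd ((tA d k e s j).β * (Y + tn k e s z j) - Yd) Yd := by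
        intro j hj
        rw [htn j hj, add_zero]
      rw [Finset.sum_congr rfl h1, Finset.sum_congr rfl h2, hY]
      ring
    have hcore := te (Jk k) (tA d k e s) (tS k e s) (s k) okj (okS ⟨j0, hj0⟩) (hG e s he hsk hs0)
      (tn k e s z) (oka z) (z k) (Sab k z) Y
    rw [← hYd, ← hP1, hY, ← hM] at hcore
    -- the error
    obtain ⟨u, hu⟩ : ∃ u, u = tdz d k (fun _ => e) := ⟨_, rfl⟩
    rw [← hu] at hj1 hj2
    have hww : w' = fun j => tdz d k (z + b • s) j + b * u j := by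
      rw [hw', hu]
      funext j
      unfold tdz
      by_cases h : k < j
      · rw [if_pos h, if_pos h, if_pos h]
        simp only [Pi.add_apply, Pi.smul_apply, smul_eq_mul]
        ring
      · rw [if_neg h, if_neg h, if_neg h]
        ring
    rw [hww, tDD_lin, tD_lin] at hcore
    have huk : u k = 0 := by rw [hu]; exact tdz_k d k _
    have hpos : ∀ (y : Fin N → ℝ) (j : Fin N), j ∈ Jk k →
        0 ≤ (tA d k e s j).β * (tA d k e s j).p * (tA d k e s j).ξ * y j ^ 2 := by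
      intro y j hj
      have h := okj j hj
      have h1 := h.hβ
      have h2 := h.hξ
      have h3 := h.hp
      positivity
    have hUsplit : ∑ j ∈ Jk k, (tA d k e s j).β * (tA d k e s j).p *
        (tA d k e s j).ξ * (tn k e s z j ^ 2 + (Sab k z + b * tS k e s) ^ 2) =
        (∑ j ∈ Jk k, (tA d k e s j).β * (tA d k e s j).p * (tA d k e s j).ξ * tn k e s z j ^ 2)
        + ∑ j ∈ Jk k, (tA d k e s j).β * (tA d k e s j).p * (tA d k e s j).ξ *
            (Sab k z + b * tS k e s) ^ 2 := by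
      rw [← Finset.sum_add_distrib]
      apply Finset.sum_congr rfl
      intro j _
      ring
    have hW0 := Finset.sum_nonneg (hpos (tn k e s z))
    have hR0 := Finset.sum_nonneg (hpos (fun _ => Sab k z + b * tS k e s))
    have hWu0 := Finset.sum_nonneg (hpos (tn k e s u))
    rw [hUsplit] at hM
    have hX0 : 0 ≤ dfc2 (s k) * z k ^ 2 := by positivity
    have hZ0 : 0 ≤ Sab k z ^ 2 := sq_nonneg _
    have hM0 : 0 ≤ M := by rw [hM]; positivity
    obtain ⟨n, hn⟩ : ∃ n, n = Real.sqrt M := ⟨_, rfl⟩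
    have hn0 : 0 ≤ n := by rw [hn]; exact Real.sqrt_nonneg _
    have hn2 : M = n ^ 2 := by rw [hn]; exact (Real.sq_sqrt hM0).symm
    have hCe : 0 ≤ C0 * e := by positivity
    obtain ⟨n', hn'⟩ : ∃ n', n' = Real.sqrt (C0 * e) := ⟨_, rfl⟩
    have hn'0 : 0 ≤ n' := by rw [hn']; exact Real.sqrt_nonneg _
    have hn'2 : n' ^ 2 = C0 * e := by rw [hn']; exact Real.sq_sqrt hCe
    have hA2 : Sab k u ^ 2 ≤ n' ^ 2 := by rw [hn'2]; linarith
    have hZ2 : Sab k z ^ 2 ≤ n ^ 2 := by rw [← hn2, hM]; linarith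
    have hA : |Sab k u| ≤ n' := abs_le_of_sq_le_sq hA2 hn'0
    have hZ : |Sab k z| ≤ n := abs_le_of_sq_le_sq hZ2 hn0
    have hbil := ti (Jk k) (tA d k e s) (tS k e s) (s k) okj (hG e s he hsk hs0)
      (Sab k u) (Sab k u + u k) (Sab k z) (Sab k z + z k) n' n (tn k e s u) (tn k e s z)
      hn'0 hn0 hA hZ (by rw [hn'2]; have := sq_nonneg (Sab k u); linarith)
      (by rw [← hn2, hM]; linarith) (by
        intro h1 h2
        refine ⟨?_, te_suppV hS h1 h2 (by rw [← hn2, hM]; linarith)⟩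
        rw [huk, add_zero]
        calc tS k e s * Sab k u ^ 2 ≤ 33 / 32 * n' ^ 2 :=
              mul_le_mul h1 hA2 (sq_nonneg _) (by norm_num)
          _ ≤ 8 / 5 * n' ^ 2 := mul_le_mul_of_nonneg_right (by norm_num) (sq_nonneg _))
    have hT1 : |tDD d k e s u z| ≤ 3 * (n' * n) := by
      unfold tDD
      rw [huk]
      have h1 : |Sab k u * Sab k z| ≤ n' * n := te_pm hA hZ
      have h2 := Finset.abs_sum_le_sum_abs (fun j => (tA d k e s j).DDP (Sab k u) (tn k e s u j)
        (Sab k u + u k) (Sab k z) (tn k e s z j) (Sab k z + z k)) (Jk k)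
      rw [huk] at h2 hbil
      have h3 := abs_sub (dfc2 (s k) * 0 * z k + Sab k u * Sab k z)
        (∑ j ∈ Jk k, (tA d k e s j).DDP (Sab k u) (tn k e s u j)
        (Sab k u + 0) (Sab k z) (tn k e s z j) (Sab k z + z k))
      have h4 : dfc2 (s k) * 0 * z k + Sab k u * Sab k z = Sab k u * Sab k z := by ring
      rw [h4] at h3 ⊢
      linarith
    have hfin := fin_alg (b := b) hn2 hn'2 hcore hT1 hj1
    linarith

end Pool.Agent.Lib.MP_d8ef8f_an.Gd
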