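import Pool.Agent.Lib.MP_d8ef8f_an.Gd.StT

/-! # Piece Tg: the radial derivative, the values and the bounds of the density -/

set_option autoImplicit false

namespace Pool.Agent.Lib.MP_d8ef8f_an.Gd

open Set Filter Topology MeasureTheory

/-- elementary facts about the numbers of one species -/
private structure TgF (m : Atm) (S x : ℝ) : Prop where
  S0 : 0 < S
  x0 : 0 < x
  eS : m.S = S
  p0 : 0 < m.p
  p1 : m.p ≤ 1
  ξ0 : 0 < m.ξ
  ξ1 : m.ξ ≤ 1
  ew : m.w = m.ξ * S / (32 * (1 + S))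
  w0 : 0 < m.w
  w1 : m.w ≤ 1 / 32
  β0 : 0 < m.β
  β1 : m.β ≤ 1
  hH : |m.H| ≤ 1 / 60
  hκ : |m.κ| ≤ 1
  h10 : 0 ≤ m.h1
  h11 : m.h1 ≤ 1
  neg : S + x - 1 ≤ 0 → m.H ≤ 0 ∧ m.κ ≤ 0
  pos : 0 ≤ S + x - 1 → 0 ≤ m.H ∧ 0 ≤ m.κ
  low : 1 - 2 * ((S + x - 1) / m.w) ^ 2 ≤ m.h1

private lemma tgF (ta : StmTa) {β r S x : ℝ} (hβ : 0 < β) (hβ1 : β ≤ 1) (hr : 0 < r) (hrS : r ≤ S)
    (hx : 0 < x) : TgF (Atm.mk' β r S x) S x := by
  obtain ⟨-, -, -, h01, -, -, hthb, hkb, hpos, hneg, hlow⟩ := ta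
  have hS : 0 < S := lt_of_lt_of_le hr hrS
  have hξ0 : 0 < Real.exp (β * (Real.log r - Real.log S)) := Real.exp_pos _
  have hξ1 : Real.exp (β * (Real.log r - Real.log S)) ≤ 1 := by
    rw [Real.exp_le_one_iff]
    have h1 : Real.log r ≤ Real.log S := Real.log_le_log hr hrS
    exact mul_nonpos_of_nonneg_of_nonpos hβ.le (by linarith)
  have hw0 : 0 < Real.exp (β * (Real.log r - Real.log S)) * S / (32 * (1 + S)) := by positivity
  have hw1 : Real.exp (β * (Real.log r - Real.log S)) * S / (32 * (1 + S)) ≤ 1 / 32 := by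
    rw [div_le_div_iff₀ (by positivity) (by norm_num)]
    nlinarith
  set w := Real.exp (β * (Real.log r - Real.log S)) * S / (32 * (1 + S)) with hw
  refine ⟨hS, hx, rfl, div_pos hr hS, ?_, hξ0, hξ1, rfl, hw0, hw1, hβ, hβ1, ?_, ?_, ?_, ?_, ?_, ?_, ?_⟩
  · show r / S ≤ 1
    rw [div_le_one hS]
    exact hrS
  · show |w * th ((S + x - 1) / w)| ≤ 1 / 60
    rw [abs_mul, abs_of_pos hw0]
    have h1 := hthb ((S + x - 1) / w)
    have h2 : w * |th ((S + x - 1) / w)| ≤ 1 / 32 * (8 / 15) :=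
      mul_le_mul hw1 h1 (abs_nonneg _) (by norm_num)
    linarith
  · show |thk ((S + x - 1) / w)| ≤ 1
    have := hkb ((S + x - 1) / w)
    linarith
  · exact (h01 _).1
  · exact (h01 _).2
  · intro h
    have h1 := hneg ((S + x - 1) / w) (div_nonpos_of_nonpos_of_nonneg h hw0.le)
    exact ⟨mul_nonpos_of_nonneg_of_nonpos hw0.le h1.1, h1.2⟩
  · intro h
    have h1 := hpos ((S + x - 1) / w) (div_nonneg h hw0.le)
    exact ⟨mul_nonneg hw0.le h1.1, h1.2⟩
  · exact hlow _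

private lemma tg_eta {m : Atm} {S x : ℝ} (h : TgF m S x) :
    0 ≤ m.η ∧ m.η ≤ 1 ∧ m.η ≤ m.η / m.ξ ∧
      m.η / m.ξ ≤ 3 / 2 * (m.β / m.ξ + (1 - m.ξ) ^ 2 / (m.β * m.ξ)) := by
  have hβ := h.β0
  have hξ := h.ξ0
  have hξ1 := h.ξ1
  have h0 : m.η = (m.β + (1 - m.ξ)) / (1 + m.β) := by
    unfold Atm.η
    field_simp
    ring
  have h1 : 0 ≤ m.η := by
    rw [h0]
    exact div_nonneg (by linarith) (by linarith)
  have h2 : m.η ≤ m.β + (1 - m.ξ) := by
    rw [h0, div_le_iff₀ (by linarith)]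
    nlinarith
  refine ⟨h1, ?_, ?_, ?_⟩
  · rw [h0, div_le_one (by linarith)]
    linarith
  · rw [le_div_iff₀ hξ]
    nlinarith
  · have e : m.β / m.ξ + (1 - m.ξ) ^ 2 / (m.β * m.ξ) = (m.β + (1 - m.ξ) ^ 2 / m.β) / m.ξ := by
      field_simp
    rw [e, ← mul_div_assoc]
    apply div_le_div_of_nonneg_right _ hξ.le
    have h3 : 2 * (1 - m.ξ) ≤ m.β + (1 - m.ξ) ^ 2 / m.β := by
      have h4 : 0 ≤ (m.β - (1 - m.ξ)) ^ 2 / m.β := by positivity
      have h5 : (m.β - (1 - m.ξ)) ^ 2 / m.β = m.β + (1 - m.ξ) ^ 2 / m.β - 2 * (1 - m.ξ) := by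
        field_simp
        ring
      linarith
    have h6 : 0 ≤ (1 - m.ξ) ^ 2 / m.β := by positivity
    linarith

/-- bound of `DP` -/
private lemma tg_DP {m : Atm} {S x : ℝ} (h : TgF m S x) {A a V : ℝ} (hA : |A| ≤ 1)
    (ha : |m.p * a| ≤ 1) (hV : |V| ≤ 1) : |m.DP A a V| ≤ 6 * S + 6 * S ^ 2 := by
  have hS := h.S0
  obtain ⟨hη0, hη1, -, -⟩ := tg_eta h
  have hp0 := h.p0
  have hp1 := h.p1
  have hξ0 := h.ξ0
  have hξ1 := h.ξ1
  have hβ0 := h.β0
  have hβ1 := h.β1
  have h1 : |1 - 2 * m.H| ≤ 2 := by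
    have := abs_le.1 h.hH
    rw [abs_le]
    constructor <;> linarith [this.1, this.2]
  have h2 : |m.DE A a| ≤ 3 * S := by
    unfold Atm.DE
    rw [h.eS]
    have e : S * m.p * (2 * m.η * A + (1 - m.ξ) * a)
        = S * (2 * (m.p * m.η) * A + (1 - m.ξ) * (m.p * a)) := by ring
    rw [e, abs_mul, abs_of_pos hS]
    have h3 : |2 * (m.p * m.η) * A| ≤ 2 := by
      rw [abs_mul, abs_of_nonneg (by positivity : 0 ≤ 2 * (m.p * m.η))]
      have h4 : m.p * m.η ≤ 1 := mul_le_one₀ hp1 hη0 hη1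
      have h5 : 0 ≤ m.p * m.η := by positivity
      nlinarith [abs_nonneg A]
    have h4 : |(1 - m.ξ) * (m.p * a)| ≤ 1 := by
      rw [abs_mul, abs_of_nonneg (by linarith : 0 ≤ 1 - m.ξ)]
      nlinarith [abs_nonneg (m.p * a)]
    have h5 := abs_add_le (2 * (m.p * m.η) * A) ((1 - m.ξ) * (m.p * a))
    nlinarith
  have h3 : |2 * m.E * m.DH A a V| ≤ 6 * S ^ 2 := by
    unfold Atm.E Atm.DH Atm.al
    rw [h.eS, h.ew]
    have e : 2 * (S ^ 2 * m.p * m.η) * (m.κ * (m.ξ * S / (32 * (1 + S)) / S) *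
        (m.β * a + A / (1 + S)) + m.h1 * V)
        = S ^ 2 * (m.η * (m.κ * (m.ξ / (16 * (1 + S))) * (m.β * (m.p * a) + m.p * A / (1 + S)))
          + 2 * (m.p * m.η) * (m.h1 * V)) := by
      field_simp
      ring
    rw [e, abs_mul, abs_of_nonneg (by positivity : 0 ≤ S ^ 2)]
    have hS1 : 1 ≤ 1 + S := by linarith
    have h4 : |m.ξ / (16 * (1 + S))| ≤ 1 := by
      rw [abs_of_nonneg (by positivity), div_le_one (by positivity)]
      nlinarith
    have h5 : |m.κ * (m.ξ / (16 * (1 + S)))| ≤ 1 := by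
      rw [abs_mul]
      exact mul_le_one₀ h.hκ (abs_nonneg _) h4
    have h6 : |m.p * A / (1 + S)| ≤ 1 := by
      rw [abs_div, abs_mul, abs_of_pos hp0, abs_of_pos (by linarith : 0 < 1 + S), div_le_one (by linarith)]
      have := mul_le_one₀ hp1 (abs_nonneg A) hA
      linarith
    have h7 : |m.β * (m.p * a)| ≤ 1 := by
      rw [abs_mul, abs_of_pos hβ0]
      exact mul_le_one₀ hβ1 (abs_nonneg _) ha
    have h8 : |m.β * (m.p * a) + m.p * A / (1 + S)| ≤ 2 := by
      have := abs_add_le (m.β * (m.p * a)) (m.p * A / (1 + S))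
      linarith
    have h9 : |m.κ * (m.ξ / (16 * (1 + S))) * (m.β * (m.p * a) + m.p * A / (1 + S))| ≤ 2 := by
      rw [abs_mul]
      have := mul_le_mul h5 h8 (abs_nonneg _) (by norm_num)
      linarith
    have h10 : |m.η * (m.κ * (m.ξ / (16 * (1 + S))) * (m.β * (m.p * a) + m.p * A / (1 + S)))| ≤ 2 := by
      rw [abs_mul, abs_of_nonneg hη0]
      have := mul_le_mul hη1 h9 (abs_nonneg _) (by norm_num)
      linarith
    have h11 : |m.h1 * V| ≤ 1 := by
      rw [abs_mul, abs_of_nonneg h.h10]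
      exact mul_le_one₀ h.h11 (abs_nonneg _) hV
    have h12 : |2 * (m.p * m.η) * (m.h1 * V)| ≤ 2 := by
      rw [abs_mul, abs_of_nonneg (by positivity : 0 ≤ 2 * (m.p * m.η))]
      have h4 : m.p * m.η ≤ 1 := mul_le_one₀ hp1 hη0 hη1
      have h5 : 0 ≤ m.p * m.η := by positivity
      nlinarith [abs_nonneg (m.h1 * V)]
    have h13 := abs_add_le (m.η * (m.κ * (m.ξ / (16 * (1 + S))) *
      (m.β * (m.p * a) + m.p * A / (1 + S)))) (2 * (m.p * m.η) * (m.h1 * V))
    nlinarith [sq_nonneg S]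
  unfold Atm.DP
  have h4 : |(1 - 2 * m.H) * m.DE A a| ≤ 2 * (3 * S) := by
    rw [abs_mul]
    exact mul_le_mul h1 h2 (abs_nonneg _) (by norm_num)
  have h5 := abs_sub ((1 - 2 * m.H) * m.DE A a) (2 * m.E * m.DH A a V)
  linarith

/-- the radial value of `DP` -/
private lemma tg_DPr {m : Atm} {S x : ℝ} (h : TgF m S x) :
    m.DP S 0 (S + x) = 2 * m.E * (1 - 2 * m.H - m.κ * m.w / (1 + S) - m.h1 * (S + x)) := by
  have hS := h.S0
  unfold Atm.DP Atm.DE Atm.DH Atm.al Atm.E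
  rw [h.eS]
  field_simp
  ring

private lemma tg_E0 {m : Atm} {S x : ℝ} (h : TgF m S x) : 0 ≤ m.E := by
  obtain ⟨h1, -, -, -⟩ := tg_eta h
  have := h.p0
  unfold Atm.E
  positivity

/-- the radial terms for `v ≤ 0` -/
private lemma tg_rneg {m : Atm} {S x : ℝ} (h : TgF m S x) (hv : S + x - 1 ≤ 0) :
    0 ≤ m.DP S 0 (S + x) := by
  rw [tg_DPr h]
  have h1 := h.neg hv
  have h2 : m.κ * m.w / (1 + S) ≤ 0 :=
    div_nonpos_of_nonpos_of_nonneg (mul_nonpos_of_nonpos_of_nonneg h1.2 h.w0.le) (by linarith [h.S0])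
  have h3 : m.h1 * (S + x) ≤ 1 := by
    have := h.h10
    have := h.h11
    have := h.S0
    have := h.x0
    nlinarith
  have := tg_E0 h
  exact mul_nonneg (by linarith) (by linarith [h1.1])

/-- the radial terms for `v ≥ 0` -/
private lemma tg_rpos {m : Atm} {S x : ℝ} (h : TgF m S x) (hv : 0 ≤ S + x - 1) :
    m.DP S 0 (S + x) ≤ 2 * S ^ 2 * (m.p * (m.η / m.ξ)) ∧
    m.DP S 0 (S + x) ≤ 96 * (S * (1 + S)) * (S + x - 1) * (m.p * (m.η / m.ξ)) := by
  have hS := h.S0
  have hw := h.w0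
  have hξ := h.ξ0
  have hp := h.p0
  obtain ⟨h1, h2, h3, -⟩ := tg_eta h
  rw [tg_DPr h]
  have hE := tg_E0 h
  have h4 := h.pos hv
  have h5 : 0 ≤ m.κ * m.w / (1 + S) := div_nonneg (mul_nonneg h4.2 hw.le) (by linarith)
  have h10 := h.h10
  have h6 : 1 - 2 * m.H - m.κ * m.w / (1 + S) - m.h1 * (S + x) ≤ 1 - m.h1 := by
    nlinarith [h4.1]
  have h7 : m.E = S ^ 2 * (m.p * m.η) := by
    unfold Atm.E
    rw [h.eS]
    ring
  constructor
  · have h8 : 1 - 2 * m.H - m.κ * m.w / (1 + S) - m.h1 * (S + x) ≤ 1 := by linarith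
    have h9 : 2 * m.E * (1 - 2 * m.H - m.κ * m.w / (1 + S) - m.h1 * (S + x)) ≤ 2 * m.E * 1 :=
      mul_le_mul_of_nonneg_left h8 (by linarith)
    have h11 : m.p * m.η ≤ m.p * (m.η / m.ξ) := mul_le_mul_of_nonneg_left h3 hp.le
    rw [h7] at h9 ⊢
    nlinarith [sq_nonneg S]
  · set t := (S + x - 1) / m.w with ht
    have ht0 : 0 ≤ t := div_nonneg hv hw.le
    have hlow := h.low
    rw [← ht] at hlow
    have h8 : 1 - m.h1 ≤ 3 / 2 * t := by
      rcases le_total t (2 / 3) with h9 | h9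
      · nlinarith
      · linarith
    have h9 : 3 / 2 * t = 48 * (1 + S) * (S + x - 1) / (m.ξ * S) := by
      rw [ht, h.ew]
      field_simp
      ring
    have h11 : 1 - 2 * m.H - m.κ * m.w / (1 + S) - m.h1 * (S + x) ≤
        48 * (1 + S) * (S + x - 1) / (m.ξ * S) := by linarith
    have h12 : 2 * m.E * (1 - 2 * m.H - m.κ * m.w / (1 + S) - m.h1 * (S + x)) ≤
        2 * m.E * (48 * (1 + S) * (S + x - 1) / (m.ξ * S)) :=
      mul_le_mul_of_nonneg_left h11 (by linarith)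
    refine h12.trans (le_of_eq ?_)
    rw [h7]
    field_simp
    ring

private lemma tg_split {N : ℕ} (k : Fin N) (f : Fin N → ℝ) (hf : ∀ i, i < k → f i = 0) :
    ∑ i, f i = f k + ∑ i ∈ Jk k, f i := by
  unfold Jk
  rw [← Finset.sum_filter_add_sum_filter_not Finset.univ (fun j => k < j) f, add_comm]
  congr 1
  apply Finset.sum_eq_single_of_mem k (by simp)
  intro b hb hbk
  apply hf
  have h1 : ¬ k < b := by simpa using hb
  exact lt_of_le_of_ne (not_lt.1 h1) hbk

section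

variable {N : ℕ} {d : Fin N → ℝ} {k : Fin N} {e : ℝ} {s : Fin N → ℝ}

private lemma tg_S (k : Fin N) (e : ℝ) (s : Fin N → ℝ) :
    tS k e s = Sab k s + (Jk k).card * e := by
  unfold tS Sab
  rw [Finset.sum_add_distrib, Finset.sum_const, nsmul_eq_mul]
  rfl

private lemma tg_F (ta : StmTa) (hd : 0 < d k)
    (hdk : ∀ j, k < j → d k < d j ∧ d j ≤ (1 + 1 / 1000) * d k)
    (he : 0 < e) (hx : 0 < s k) (hs : ∀ j, 0 ≤ s j) {j : Fin N} (hj : j ∈ Jk k) :
    TgF (tA d k e s j) (tS k e s) (s k) := by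
  have hj' : k < j := by
    unfold Jk at hj
    simpa using hj
  obtain ⟨h1, h2⟩ := hdk j hj'
  have hβ : 0 < tδ d k j := by
    unfold tδ
    exact div_pos (by linarith) hd
  have hβ1 : tδ d k j ≤ 1 := by
    unfold tδ
    rw [div_le_one hd]
    linarith
  have hr : 0 < s j + e := by linarith [hs j]
  have hrS : s j + e ≤ tS k e s := by
    unfold tS
    exact Finset.single_le_sum (f := fun j => s j + e) (fun i _ => by linarith [hs i]) hj
  exact tgF ta hβ hβ1 hr hrS hx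

private lemma tg_P (ta : StmTa) (hd : 0 < d k)
    (hdk : ∀ j, k < j → d k < d j ∧ d j ≤ (1 + 1 / 1000) * d k)
    (hG : tG (Jk k) (tA d k e s) ≤ 1 / 6400)
    (he : 0 < e) (hx : 0 < s k) (hs : ∀ j, 0 ≤ s j) :
    ∑ j ∈ Jk k, (tA d k e s j).p * ((tA d k e s j).η / (tA d k e s j).ξ) ≤ 3 / 12800 := by
  have h1 : ∑ j ∈ Jk k, (tA d k e s j).p * ((tA d k e s j).η / (tA d k e s j).ξ) ≤
      ∑ j ∈ Jk k, 3 / 2 * ((tA d k e s j).p * ((tA d k e s j).β / (tA d k e s j).ξ +
        (1 - (tA d k e s j).ξ) ^ 2 / ((tA d k e s j).β * (tA d k e s j).ξ))) := by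
    refine Finset.sum_le_sum fun j hj => ?_
    have hF := tg_F ta hd hdk he hx hs hj
    have h2 := mul_le_mul_of_nonneg_left (tg_eta hF).2.2.2 hF.p0.le
    linarith
  rw [← Finset.mul_sum] at h1
  unfold tG at hG
  linarith

private lemma tg_sumE (ta : StmTa) (hd : 0 < d k)
    (hdk : ∀ j, k < j → d k < d j ∧ d j ≤ (1 + 1 / 1000) * d k)
    (hG : tG (Jk k) (tA d k e s) ≤ 1 / 6400)
    (he : 0 < e) (hx : 0 < s k) (hs : ∀ j, 0 ≤ s j) :
    0 ≤ ∑ j ∈ Jk k, (tA d k e s j).Ph ∧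
    ∑ j ∈ Jk k, (tA d k e s j).Ph ≤ tS k e s ^ 2 / 100 := by
  constructor
  · refine Finset.sum_nonneg fun j hj => ?_
    have hF := tg_F ta hd hdk he hx hs hj
    have h1 := abs_le.1 hF.hH
    unfold Atm.Ph
    exact mul_nonneg (tg_E0 hF) (by linarith [h1.2])
  · have h1 : ∑ j ∈ Jk k, (tA d k e s j).Ph ≤ ∑ j ∈ Jk k, 31 / 30 * tS k e s ^ 2 *
        ((tA d k e s j).p * ((tA d k e s j).η / (tA d k e s j).ξ)) := by
      refine Finset.sum_le_sum fun j hj => ?_
      have hF := tg_F ta hd hdk he hx hs hj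
      have h1 := abs_le.1 hF.hH
      unfold Atm.Ph
      have h2 : (tA d k e s j).E * (1 - 2 * (tA d k e s j).H) ≤ (tA d k e s j).E * (31 / 30) :=
        mul_le_mul_of_nonneg_left (by linarith [h1.1]) (tg_E0 hF)
      have h3 : (tA d k e s j).E = tS k e s ^ 2 * ((tA d k e s j).p * (tA d k e s j).η) := by
        unfold Atm.E
        rw [hF.eS]
        ring
      have h4 := mul_le_mul_of_nonneg_left (tg_eta hF).2.2.1 hF.p0.le
      have h5 := mul_le_mul_of_nonneg_left h4 (sq_nonneg (tS k e s))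
      rw [h3] at h2 ⊢
      linarith
    rw [← Finset.mul_sum] at h1
    have h2 := tg_P ta hd hdk hG he hx hs
    have h3 := mul_le_mul_of_nonneg_left h2 (by positivity : 0 ≤ 31 / 30 * tS k e s ^ 2)
    have h4 := sq_nonneg (tS k e s)
    linarith

private lemma tg_Snn (he : 0 < e) (hs : ∀ j, 0 ≤ s j) : 0 ≤ tS k e s := by
  unfold tS
  exact Finset.sum_nonneg fun j _ => by linarith [hs j]

/-- the radial inequality -/
private lemma tg_T (ta : StmTa) (hd : 0 < d k)
    (hdk : ∀ j, k < j → d k < d j ∧ d j ≤ (1 + 1 / 1000) * d k)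
    (hG : tG (Jk k) (tA d k e s) ≤ 1 / 6400)
    (he : 0 < e) (hx : 0 < s k) (hs : ∀ j, 0 ≤ s j) :
    |tS k e s + s k - 1| ^ 3 / 4 ≤ (tS k e s + s k - 1) *
      tD d k e s (fun i => if k < i then s i + e else s i) := by
  have hS := tg_Snn (k := k) he hs
  have hF := fun j (hj : j ∈ Jk k) => tg_F ta hd hdk he hx hs hj
  have hP := tg_P ta hd hdk hG he hx hs
  have e1 : Sab k (fun i => if k < i then s i + e else s i) = tS k e s := by
    unfold Sab tS Jk
    refine Finset.sum_congr rfl fun j hj => ?_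
    have hj' : k < j := by simpa using hj
    simp [hj']
  have e2 : ∀ j ∈ Jk k, tn k e s (fun i => if k < i then s i + e else s i) j = 0 := by
    intro j hj
    have hj' : k < j := by
      unfold Jk at hj
      simpa using hj
    unfold tn
    rw [e1]
    have h1 : s j + e ≠ 0 := by linarith [hs j]
    simp only [hj', if_true, div_self h1]
    ring
  have e3 : tD d k e s (fun i => if k < i then s i + e else s i) =
      (s k - 1) * |s k - 1| + tS k e s ^ 2 -
        ∑ j ∈ Jk k, (tA d k e s j).DP (tS k e s) 0 (tS k e s + s k) := by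
    unfold tD
    rw [e1]
    have h1 : dfc1 (s k) * s k = (s k - 1) * |s k - 1| := by
      unfold dfc1
      field_simp
    simp only [lt_irrefl, if_false]
    rw [h1, sq]
    congr 1
    refine Finset.sum_congr rfl fun j hj => ?_
    rw [e2 j hj]
  rw [e3]
  set S := tS k e s with hSdef
  set x := s k with hxdef
  set Z := ∑ j ∈ Jk k, (tA d k e s j).DP S 0 (S + x) with hZ
  rcases le_total (S + x - 1) 0 with hv | hv
  · have hZ0 : 0 ≤ Z := Finset.sum_nonneg fun j hj => tg_rneg (hF j hj) hv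
    rw [abs_of_nonpos hv, abs_of_nonpos (by linarith : x - 1 ≤ 0)]
    have h1 : (x - 1) * -(x - 1) + S ^ 2 - Z ≤ (S + x - 1) * (S + 1 - x) := by nlinarith
    have h2 : (S + x - 1) * (S + 1 - x) ≤ -((S + x - 1) ^ 2) := by nlinarith
    have h3 : (x - 1) * -(x - 1) + S ^ 2 - Z ≤ -((S + x - 1) ^ 2) := h1.trans h2
    have h4 : (S + x - 1) * -((S + x - 1) ^ 2) ≤ (S + x - 1) * ((x - 1) * -(x - 1) + S ^ 2 - Z) :=
      mul_le_mul_of_nonpos_left h3 hv
    have h5 : (-(S + x - 1)) ^ 3 / 4 ≤ (-(S + x - 1)) ^ 3 := by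
      have : 0 ≤ (-(S + x - 1)) ^ 3 := pow_nonneg (by linarith) 3
      linarith
    have h6 : (S + x - 1) * -((S + x - 1) ^ 2) = (-(S + x - 1)) ^ 3 := by ring
    linarith
  · set P := ∑ j ∈ Jk k, (tA d k e s j).p * ((tA d k e s j).η / (tA d k e s j).ξ) with hPdef
    have hP0 : 0 ≤ P := Finset.sum_nonneg fun j hj => by
      have h1 := (hF j hj)
      have h2 := (tg_eta h1).1
      exact mul_nonneg h1.p0.le (div_nonneg h2 h1.ξ0.le)
    have hZ1 : Z ≤ 2 * S ^ 2 * P := by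
      rw [hZ, hPdef, Finset.mul_sum]
      exact Finset.sum_le_sum fun j hj => (tg_rpos (hF j hj) hv).1
    have hZ2 : Z ≤ 96 * (S * (1 + S)) * (S + x - 1) * P := by
      rw [hZ, hPdef, Finset.mul_sum]
      exact Finset.sum_le_sum fun j hj => (tg_rpos (hF j hj) hv).2
    set v := S + x - 1 with hvdef
    have hZ3 : Z ≤ S ^ 2 / 1000 := by
      have h1 := mul_le_mul_of_nonneg_left hP (by positivity : 0 ≤ 2 * S ^ 2)
      have h2 := sq_nonneg S
      linarith
    have hZ4 : S ≤ 2 → Z ≤ v * S / 10 := by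
      intro hS2
      have h0 : 0 ≤ 96 * (S * (1 + S)) * v := by positivity
      have h1 := mul_le_mul_of_nonneg_left hP h0
      have h2 : S * (1 + S) * v ≤ 3 * (S * v) := by
        have h3 : 0 ≤ S * v := mul_nonneg hS hv
        nlinarith
      have h3 : 0 ≤ S * v := mul_nonneg hS hv
      linarith
    have hT : v ^ 2 / 4 ≤ (x - 1) * |x - 1| + S ^ 2 - Z := by
      rcases le_total x 1 with hx1 | hx1
      · rw [abs_of_nonpos (by linarith : x - 1 ≤ 0)]
        have hvS : v ≤ S := by linarith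
        have h1 : (x - 1) * -(x - 1) + S ^ 2 = v * (2 * S - v) := by
          rw [hvdef]
          ring
        have h2 : v * S ≤ v * (2 * S - v) := mul_le_mul_of_nonneg_left (by linarith) hv
        have h3 : v * v ≤ v * S := mul_le_mul_of_nonneg_left hvS hv
        rw [h1]
        rcases le_total S 2 with hS2 | hS2
        · have := hZ4 hS2
          nlinarith
        · have h4 : S / 2 ≤ v := by linarith
          have h5 : S / 2 * S ≤ v * S := mul_le_mul_of_nonneg_right h4 hS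
          nlinarith
      · rw [abs_of_nonneg (by linarith : 0 ≤ x - 1)]
        have h1 : v ^ 2 / 2 ≤ (x - 1) * (x - 1) + S ^ 2 := by
          rw [hvdef]
          nlinarith [sq_nonneg (S - (x - 1))]
        have hSv : S ≤ v := by linarith
        rcases le_total S 2 with hS2 | hS2
        · have h2 := hZ4 hS2
          have h3 : v * S ≤ v * v := mul_le_mul_of_nonneg_left hSv hv
          nlinarith
        · have h3 : S ^ 2 ≤ v ^ 2 := pow_le_pow_left₀ hS hSv 2
          have h4 := sq_nonneg v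
          linarith
    rw [abs_of_nonneg hv]
    have h1 := mul_le_mul_of_nonneg_left hT hv
    have h2 : v ^ 3 / 4 = v * (v ^ 2 / 4) := by ring
    rw [h2]
    exact h1

private lemma tg_gj (ta : StmTa) (hd : 0 < d k)
    (hdk : ∀ j, k < j → d k < d j ∧ d j ≤ (1 + 1 / 1000) * d k)
    (he : 0 < e) (hx : 0 < s k) (hs : ∀ j, 0 ≤ s j) {B : ℝ} (hB : tS k e s ≤ B)
    {j : Fin N} (hj : k < j) :
    |tg d k e j s| ≤ B + (Jk k).card * (6 * B + 6 * B ^ 2) := by
  have hS := tg_Snn (k := k) he hs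
  have hjJ : j ∈ Jk k := by
    unfold Jk
    simpa using hj
  have e0 : (Pi.single j 1 : Fin N → ℝ) k = 0 := Pi.single_eq_of_ne (ne_of_lt hj) 1
  have e1 : Sab k (Pi.single j 1 : Fin N → ℝ) = 1 := by
    unfold Sab
    rw [Finset.sum_eq_single_of_mem j (by simpa using hj)]
    · exact Pi.single_eq_same j 1
    · intro b _ hb
      exact Pi.single_eq_of_ne hb 1
  unfold tg tD
  rw [e0, e1]
  have h1 : |∑ i ∈ Jk k, (tA d k e s i).DP 1 (tn k e s (Pi.single j 1) i) (1 + 0)| ≤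
      (Jk k).card * (6 * B + 6 * B ^ 2) := by
    refine (Finset.abs_sum_le_sum_abs _ _).trans ?_
    have h2 : ∀ i ∈ Jk k, |(tA d k e s i).DP 1 (tn k e s (Pi.single j 1) i) (1 + 0)| ≤
        6 * B + 6 * B ^ 2 := by
      intro i hi
      have hF := tg_F ta hd hdk he hx hs hi
      have h3 : |(tA d k e s i).p * tn k e s (Pi.single j 1) i| ≤ 1 := by
        have hri : 0 < s i + e := by linarith [hs i]
        have hSi := hF.S0
        have hp : (tA d k e s i).p = (s i + e) / tS k e s := rfl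
        have hp0 := hF.p0
        have hp1 := hF.p1
        unfold tn
        rw [e1]
        have h4 : (tA d k e s i).p * (tS k e s * ((Pi.single j 1 : Fin N → ℝ) i / (s i + e)) - 1) =
            (Pi.single j 1 : Fin N → ℝ) i - (tA d k e s i).p := by
          rw [hp]
          field_simp
        rw [h4]
        by_cases hij : i = j
        · subst hij
          rw [Pi.single_eq_same, abs_le]
          constructor <;> linarith
        · rw [Pi.single_eq_of_ne hij, abs_le]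
          constructor <;> linarith
      have h4 := tg_DP hF (A := 1) (a := tn k e s (Pi.single j 1) i) (V := 1 + 0)
        (by norm_num) h3 (by norm_num)
      have h5 : tS k e s ^ 2 ≤ B ^ 2 := pow_le_pow_left₀ hS hB 2
      linarith
    have h3 := Finset.sum_le_card_nsmul (Jk k) _ _ h2
    rwa [nsmul_eq_mul] at h3
  have h2 := abs_sub (dfc1 (s k) * 0 + tS k e s * 1)
    (∑ i ∈ Jk k, (tA d k e s i).DP 1 (tn k e s (Pi.single j 1) i) (1 + 0))
  have h3 : |dfc1 (s k) * 0 + tS k e s * 1| ≤ B := by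
    rw [mul_zero, zero_add, mul_one, abs_of_nonneg hS]
    exact hB
  linarith

private lemma tg_gk (ta : StmTa) (hd : 0 < d k)
    (hdk : ∀ j, k < j → d k < d j ∧ d j ≤ (1 + 1 / 1000) * d k)
    (he : 0 < e) (hx : 0 < s k) (hs : ∀ j, 0 ≤ s j) {B L : ℝ} (hB : tS k e s ≤ B)
    (hL : s k ≤ L) :
    |tg d k e k s| ≤ ((1 + L) ^ 2 + L * ((Jk k).card * (6 * B + 6 * B ^ 2))) / s k := by
  have hS := tg_Snn (k := k) he hs
  have hL0 : 0 < L := lt_of_lt_of_le hx hL
  have e0 : (Pi.single k 1 : Fin N → ℝ) k = 1 := Pi.single_eq_same k 1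
  have e1 : Sab k (Pi.single k 1 : Fin N → ℝ) = 0 := by
    unfold Sab
    refine Finset.sum_eq_zero fun i hi => ?_
    have hi' : k < i := by simpa using hi
    exact Pi.single_eq_of_ne (ne_of_gt hi') 1
  unfold tg tD
  rw [e0, e1]
  have h1 : |∑ i ∈ Jk k, (tA d k e s i).DP 0 (tn k e s (Pi.single k 1) i) (0 + 1)| ≤
      (Jk k).card * (6 * B + 6 * B ^ 2) := by
    refine (Finset.abs_sum_le_sum_abs _ _).trans ?_
    have h2 : ∀ i ∈ Jk k, |(tA d k e s i).DP 0 (tn k e s (Pi.single k 1) i) (0 + 1)| ≤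
        6 * B + 6 * B ^ 2 := by
      intro i hi
      have hF := tg_F ta hd hdk he hx hs hi
      have hi' : k < i := by
        unfold Jk at hi
        simpa using hi
      have h3 : tn k e s (Pi.single k 1) i = 0 := by
        unfold tn
        rw [e1, Pi.single_eq_of_ne (ne_of_gt hi')]
        ring
      rw [h3]
      have h4 := tg_DP hF (A := 0) (a := 0) (V := 0 + 1) (by norm_num) (by norm_num) (by norm_num)
      have h5 : tS k e s ^ 2 ≤ B ^ 2 := pow_le_pow_left₀ hS hB 2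
      linarith
    have h3 := Finset.sum_le_card_nsmul (Jk k) _ _ h2
    rwa [nsmul_eq_mul] at h3
  have h2 := abs_sub (dfc1 (s k) * 1 + tS k e s * 0)
    (∑ i ∈ Jk k, (tA d k e s i).DP 0 (tn k e s (Pi.single k 1) i) (0 + 1))
  have h3 : |dfc1 (s k) * 1 + tS k e s * 0| ≤ (1 + L) ^ 2 / s k := by
    rw [mul_zero, add_zero, mul_one]
    unfold dfc1
    rw [abs_div, abs_of_pos hx]
    apply div_le_div_of_nonneg_right _ hx.le
    rw [abs_mul, abs_abs, ← sq]
    apply pow_le_pow_left₀ (abs_nonneg _)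
    rw [abs_le]
    constructor <;> linarith
  have h4 : (Jk k).card * (6 * B + 6 * B ^ 2) ≤
      L * ((Jk k).card * (6 * B + 6 * B ^ 2)) / s k := by
    rw [le_div_iff₀ hx, mul_comm]
    apply mul_le_mul_of_nonneg_right hL
    have : 0 ≤ B := hS.trans hB
    positivity
  rw [add_div]
  refine h2.trans ?_
  exact add_le_add h3 (h1.trans h4)

end

/-- the cubic inequality -/
private lemma tg_cube {v l m e : ℝ} (hm : 0 ≤ m) (he : 0 ≤ e) (he1 : e ≤ 1) (h : v = l + m * e) :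
    |l| ^ 3 / 4 - m ^ 3 * e ≤ |v| ^ 3 := by
  have h1 : |l| ≤ |v| + m * e := by
    have e1 : l = v - m * e := by linarith
    have h2 := abs_sub v (m * e)
    rw [abs_of_nonneg (mul_nonneg hm he)] at h2
    rw [e1]
    exact h2
  have h0 := abs_nonneg v
  have h2 : 0 ≤ m * e := mul_nonneg hm he
  have h3 : |l| ^ 3 ≤ (|v| + m * e) ^ 3 := pow_le_pow_left₀ (abs_nonneg _) h1 3
  have h4 : (|v| + m * e) ^ 3 ≤ 4 * (|v| ^ 3 + (m * e) ^ 3) := by
    nlinarith [mul_nonneg (add_nonneg h0 h2) (sq_nonneg (|v| - m * e))]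
  have h5 : (m * e) ^ 3 ≤ m ^ 3 * e := by
    have h6 : e ^ 3 ≤ e := by
      have h7 : e ^ 2 ≤ 1 := pow_le_one₀ he he1
      have h8 : e * e ^ 2 ≤ e * 1 := mul_le_mul_of_nonneg_left h7 he
      linarith
    have h7 := mul_le_mul_of_nonneg_left h6 (pow_nonneg hm 3)
    calc (m * e) ^ 3 = m ^ 3 * e ^ 3 := by ring
      _ ≤ _ := h7
  linarith

private lemma tg_r1 {v l R T D e n K CT L1 : ℝ} (hn0 : 0 ≤ n) (he : 0 < e) (he1 : e ≤ 1)
    (hL : 1 ≤ L1) (hvl : v = l + n * e) (hR : T = R + e * D) (hD : |D| ≤ n * K)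
    (hTC : |T| ≤ CT + n * K) (hl : |l| ≤ L1 + 1) (hT : |v| ^ 3 / 4 ≤ v * T) :
    1 / (16 * L1) * |l| ^ 3 - (n ^ 3 / 4 + n * (CT + n * K) + (L1 + 1) * (n * K)) * e ≤ l * R := by
  have hcube := tg_cube hn0 he.le he1 hvl
  have hne0 : 0 ≤ n * e := mul_nonneg hn0 he.le
  have e1 : l * R = v * T - n * e * T - l * (e * D) := by
    have h1 : R = T - e * D := by linarith
    rw [h1, hvl]
    ring
  have hTb := abs_le.1 hTC
  have h1 : n * e * T ≤ n * e * (CT + n * K) := mul_le_mul_of_nonneg_left hTb.2 hne0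
  have h2 : l * (e * D) ≤ (L1 + 1) * (e * (n * K)) := by
    have h3 : l * (e * D) ≤ |l| * (e * |D|) := by
      have h4 := le_abs_self (l * (e * D))
      rw [abs_mul, abs_mul, abs_of_pos he] at h4
      exact h4
    have h5 : e * |D| ≤ e * (n * K) := mul_le_mul_of_nonneg_left hD he.le
    have h6 : |l| * (e * |D|) ≤ (L1 + 1) * (e * (n * K)) :=
      mul_le_mul hl h5 (mul_nonneg he.le (abs_nonneg _)) (by linarith)
    exact h3.trans h6
  have h3 : 1 / (16 * L1) * |l| ^ 3 ≤ |l| ^ 3 / 16 := by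
    rw [one_div_mul_eq_div]
    apply div_le_div_of_nonneg_left (pow_nonneg (abs_nonneg _) 3) (by norm_num)
    linarith
  have h4 : (n ^ 3 / 4 + n * (CT + n * K) + (L1 + 1) * (n * K)) * e =
      n ^ 3 * e / 4 + n * e * (CT + n * K) + (L1 + 1) * (e * (n * K)) := by ring
  rw [e1, h4]
  linarith

private lemma tg_r2 {y z S F P L1 : ℝ} (hL : 1 ≤ L1) (hF : y / (3 * L1) ≤ F) (hy : 0 ≤ y)
    (hz : 0 ≤ z) (hzS : z ≤ S ^ 2) (hP : P ≤ S ^ 2 / 100) :
    1 / (16 * L1) * (y + z) ≤ F + S ^ 2 / 2 - P := by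
  have h2 : 1 / (16 * L1) * y ≤ y / (3 * L1) := by
    rw [one_div_mul_eq_div]
    apply div_le_div_of_nonneg_left hy (by linarith)
    linarith
  have h3 : 1 / (16 * L1) * z ≤ z / 16 := by
    rw [one_div_mul_eq_div]
    apply div_le_div_of_nonneg_left hz (by norm_num)
    linarith
  rw [mul_add]
  linarith

private lemma tg_r3 {F S P C X : ℝ} (hF : 0 ≤ F) (hX : X ≤ F + 3 / 2) (hP : P ≤ S ^ 2 / 100)
    (hC : 2 ≤ C) : X ≤ C * (1 + (F + S ^ 2 / 2 - P)) := by
  have h1 := sq_nonneg S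
  have h2 : 0 ≤ 1 + (F + S ^ 2 / 2 - P) := by linarith
  have h3 := mul_le_mul_of_nonneg_right hC h2
  linarith

private lemma tg_r4 {S Sb B n e : ℝ} (hS : 0 ≤ S) (hSB : S ≤ B) (hSe : S = Sb + n * e) :
    S ^ 2 / 2 ≤ B * Sb + B * n * e := by
  have h3 : S * S ≤ B * S := mul_le_mul_of_nonneg_right hSB hS
  have h4 : B * S = B * Sb + B * n * e := by
    rw [hSe]
    ring
  have h5 : 0 ≤ S * S := mul_self_nonneg _
  rw [sq]
  linarith

private lemma tg_r5 {F Q P G A Sb e B n L1 C : ℝ} (hF : F ≤ G + L1 / 2 * A)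
    (hQ : Q ≤ B * Sb + B * n * e) (hP : 0 ≤ P) (hG : 0 ≤ G) (hA : 0 ≤ A) (hSb : 0 ≤ Sb)
    (he : 0 ≤ e) (c1 : 1 ≤ C) (c2 : L1 / 2 ≤ C) (c3 : B ≤ C) (c4 : B * n ≤ C) :
    F + Q - P ≤ C * (G + A + Sb + e) := by
  have a1 := mul_le_mul_of_nonneg_right c1 hG
  have a2 := mul_le_mul_of_nonneg_right c2 hA
  have a3 := mul_le_mul_of_nonneg_right c3 hSb
  have a4 := mul_le_mul_of_nonneg_right c4 he
  linarith

/-- **Tg** -/
theorem p_Tg (ta : StmTa) (tc : StmTc) : StmTg := by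
  intro N d k hd hdk hG L
  obtain ⟨n, hn⟩ : ∃ n : ℝ, n = ((Jk k).card : ℝ) := ⟨_, rfl⟩
  have hn0 : 0 ≤ n := by
    rw [hn]
    exact Nat.cast_nonneg _
  obtain ⟨L1, hL1⟩ : ∃ L1 : ℝ, L1 = max L 1 := ⟨_, rfl⟩
  have hL11 : 1 ≤ L1 := by
    rw [hL1]
    exact le_max_right _ _
  have hLL : L ≤ L1 := by
    rw [hL1]
    exact le_max_left _ _
  clear hL1
  obtain ⟨B, hB⟩ : ∃ B : ℝ, B = L1 + n := ⟨_, rfl⟩
  have hB0 : 0 ≤ B := by linarith
  obtain ⟨K, hK⟩ : ∃ K : ℝ, K = B + n * (6 * B + 6 * B ^ 2) := ⟨_, rfl⟩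
  have hK0 : 0 ≤ K := by
    rw [hK]
    positivity
  obtain ⟨K2, hK2⟩ : ∃ K2 : ℝ, K2 = (1 + L1) ^ 2 + L1 * (n * (6 * B + 6 * B ^ 2)) := ⟨_, rfl⟩
  have hK20 : 0 ≤ K2 := by
    rw [hK2]
    have : 0 ≤ L1 := by linarith
    positivity
  obtain ⟨CT, hCT⟩ : ∃ CT : ℝ, CT = K2 + n * (B * K) := ⟨_, rfl⟩
  have hCT0 : 0 ≤ CT := by
    rw [hCT]
    positivity
  obtain ⟨C1, hC1⟩ : ∃ C1 : ℝ, C1 = n ^ 3 / 4 + n * (CT + n * K) + (L1 + 1) * (n * K) := ⟨_, rfl⟩
  have hC10 : 0 ≤ C1 := by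
    rw [hC1]
    have : 0 ≤ L1 := by linarith
    positivity
  have hBn : 0 ≤ B * n := mul_nonneg hB0 hn0
  refine ⟨1 / (16 * L1), C1 + CT + K2 + K + L1 + B + B * n + 2, by positivity, by positivity, ?_⟩
  intro e he he1 s hs
  obtain ⟨hx, hsn, hlen⟩ := hs
  have hdk' : ∀ j, k < j → d k < d j := fun j hj => (hdk j hj).1
  obtain ⟨-, -, -, hlow, hlin, -⟩ := tc d k hd hdk' e he
  have hGs := hG e s he hx hsn
  have hSab : 0 ≤ Sab k s := by
    unfold Sab
    exact Finset.sum_nonneg fun j _ => hsn j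
  have hxL : s k ≤ L1 := by
    unfold len at hlen
    linarith
  have hSabL : Sab k s ≤ L1 := by
    unfold len at hlen
    linarith
  have hlenL : len k s ≤ L1 := by linarith
  have hlen0 : 0 ≤ len k s := by
    unfold len
    linarith
  have hSe : tS k e s = Sab k s + n * e := by
    rw [hn]
    exact tg_S k e s
  have hne : n * e ≤ n := by
    have := mul_le_mul_of_nonneg_left he1 hn0
    linarith
  have hne0 : 0 ≤ n * e := mul_nonneg hn0 he.le
  have hSB : tS k e s ≤ B := by linarith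
  have hS := tg_Snn (k := k) he hsn
  have hgj : ∀ j, k < j → |tg d k e j s| ≤ K := fun j hj => by
    have h := tg_gj ta hd hdk he hx hsn hSB hj
    rw [← hn, ← hK] at h
    exact h
  have hgk : |tg d k e k s| ≤ K2 / s k := by
    have h := tg_gk ta hd hdk he hx hsn hSB hxL
    rw [← hn, ← hK2] at h
    exact h
  -- the sums
  have hrad : ∑ j, s j * tg d k e j s = s k * tg d k e k s + ∑ j ∈ Jk k, s j * tg d k e j s :=
    tg_split k (fun j => s j * tg d k e j s) (fun i hi => by rw [hlow i hi s, mul_zero])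
  have hTs : tD d k e s (fun i => if k < i then s i + e else s i) =
      (∑ j, s j * tg d k e j s) + e * ∑ j ∈ Jk k, tg d k e j s := by
    rw [← hlin s hx hsn (fun i => if k < i then s i + e else s i)]
    rw [tg_split k (fun i => (if k < i then s i + e else s i) * tg d k e i s)
      (fun i hi => by rw [hlow i hi s, mul_zero]), hrad, Finset.mul_sum, add_assoc,
      ← Finset.sum_add_distrib]
    simp only [lt_irrefl, if_false]
    congr 1
    refine Finset.sum_congr rfl fun j hj => ?_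
    have hj' : k < j := by
      unfold Jk at hj
      simpa using hj
    simp only [hj', if_true]
    ring
  have hD : |∑ j ∈ Jk k, tg d k e j s| ≤ n * K := by
    refine (Finset.abs_sum_le_sum_abs _ _).trans ?_
    have h3 := Finset.sum_le_card_nsmul (Jk k) (fun j => |tg d k e j s|) K (fun j hj => by
      apply hgj
      unfold Jk at hj
      simpa using hj)
    rw [nsmul_eq_mul, ← hn] at h3
    exact h3
  have hradC : |∑ j, s j * tg d k e j s| ≤ CT := by
    rw [hrad]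
    have h1 : |s k * tg d k e k s| ≤ K2 := by
      rw [abs_mul, abs_of_pos hx]
      have h2 := mul_le_mul_of_nonneg_left hgk hx.le
      have h3 : s k * (K2 / s k) = K2 := by
        field_simp
      linarith
    have h2 : |∑ j ∈ Jk k, s j * tg d k e j s| ≤ n * (B * K) := by
      refine (Finset.abs_sum_le_sum_abs _ _).trans ?_
      have h3 := Finset.sum_le_card_nsmul (Jk k) (fun j => |s j * tg d k e j s|) (B * K)
        (fun j hj => by
          have hj' : k < j := by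
            unfold Jk at hj
            simpa using hj
          show |s j * tg d k e j s| ≤ B * K
          rw [abs_mul, abs_of_nonneg (hsn j)]
          have h4 : s j ≤ B := by
            have h5 : s j ≤ Sab k s := by
              unfold Sab
              exact Finset.single_le_sum (f := fun j => s j) (fun i _ => hsn i) (by simpa using hj')
            linarith
          exact mul_le_mul h4 (hgj j hj') (abs_nonneg _) hB0)
      rw [nsmul_eq_mul, ← hn] at h3
      exact h3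
    have h3 := abs_add_le (s k * tg d k e k s) (∑ j ∈ Jk k, s j * tg d k e j s)
    rw [hCT]
    linarith
  have hTC : |tD d k e s (fun i => if k < i then s i + e else s i)| ≤ CT + n * K := by
    rw [hTs]
    have h1 := abs_add_le (∑ j, s j * tg d k e j s) (e * ∑ j ∈ Jk k, tg d k e j s)
    have h2 : |e * ∑ j ∈ Jk k, tg d k e j s| ≤ n * K := by
      rw [abs_mul, abs_of_pos he]
      have h3 := mul_le_mul he1 hD (abs_nonneg _) (by norm_num)
      linarith
    linarith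
  have hT := tg_T ta hd hdk hGs he hx hsn
  obtain ⟨hPh0, hPh1⟩ := tg_sumE ta hd hdk hGs he hx hsn
  have htf : tf d k e s = dfc (s k) + tS k e s ^ 2 / 2 - ∑ j ∈ Jk k, (tA d k e s j).Ph := rfl
  have hdge := dfc_ge hL11 hx hxL
  have hS2 : Sab k s ^ 2 ≤ tS k e s ^ 2 := pow_le_pow_left₀ hSab (by linarith) 2
  refine ⟨?_, ?_, ?_, ?_, ?_, ?_, ?_⟩
  · have hvl : tS k e s + s k - 1 = (len k s - 1) + n * e := by
      rw [hSe]
      unfold len
      ring
    have hlabs : |len k s - 1| ≤ L1 + 1 := by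
      rw [abs_le]
      constructor <;> linarith
    have h := tg_r1 hn0 he he1 hL11 hvl hTs hD hTC hlabs hT
    rw [← hC1] at h
    have h2 : C1 * e ≤ (C1 + CT + K2 + K + L1 + B + B * n + 2) * e :=
      mul_le_mul_of_nonneg_right (by linarith) he.le
    linarith
  · linarith
  · refine hgk.trans ?_
    apply div_le_div_of_nonneg_right _ hx.le
    linarith
  · intro j hj
    have := hgj j hj
    linarith
  · rw [htf]
    exact tg_r2 hL11 hdge (pow_nonneg (abs_nonneg _) 3) (sq_nonneg _) hS2 hPh1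
  · rw [htf]
    exact tg_r3 (dfc_nonneg hx) (dfc_log hx) hPh1 (by linarith)
  · rw [htf]
    have hGl : 0 ≤ Gl (s k) := by
      have := Real.log_le_sub_one_of_pos hx
      unfold Gl
      linarith
    exact tg_r5 (dfc_le hL11 hx hxL) (tg_r4 hS hSB hSe) hPh0 hGl (abs_nonneg _) hSab he.le
      (by linarith) (by linarith) (by linarith) (by linarith)

end Pool.Agent.Lib.MP_d8ef8f_an.Gd
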