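import Pool.Agent.Lib.MP_d8ef8f_an.Gd.StT

set_option autoImplicit false

namespace Pool.Agent.Lib.MP_d8ef8f_an.Gd

open Set Filter Topology MeasureTheory

private theorem thA (l : ℝ) (hl : 0 ≤ l) :
    (1 + l ^ 2) * Real.exp (-(499 / 1000 * l)) ≤ 9 := by
  have h1 : 1 + 499 / 1000 * l + (499 / 1000 * l) ^ 2 / 2 ≤ Real.exp (499 / 1000 * l) :=
    Real.quadratic_le_exp_of_nonneg (by positivity)
  have h2 : Real.exp (499 / 1000 * l) * Real.exp (-(499 / 1000 * l)) = 1 := by
    rw [← Real.exp_add]; simp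
  have h3 : 0 < Real.exp (-(499 / 1000 * l)) := Real.exp_pos _
  have h4 : (1 + l ^ 2) ≤ 9 * Real.exp (499 / 1000 * l) := by nlinarith [sq_nonneg l]
  calc (1 + l ^ 2) * Real.exp (-(499 / 1000 * l))
      ≤ (9 * Real.exp (499 / 1000 * l)) * Real.exp (-(499 / 1000 * l)) :=
        mul_le_mul_of_nonneg_right h4 h3.le
    _ = 9 := by rw [mul_assoc, h2]; norm_num

private theorem thB (β l B n : ℝ) (hβ : 0 < β) (hB : 1 ≤ B) (hβB : β * (64000 * B ^ 2) ≤ 1)
    (hl : 0 ≤ l) (hn : 0 < n) (hexp : Real.exp B = Real.exp 1 * n) :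
    Real.exp (-l) * ((1 + l ^ 2) * Real.exp (β * l)) ≤
      11 / 2 * B ^ 2 * Real.exp (-l) + 332 / 100 / n := by
  have hp : 0 < Real.exp (-l) := Real.exp_pos _
  have hB2 : 1 ≤ B ^ 2 := by nlinarith
  have hβ1 : β ≤ 1 / 64000 := by
    have := mul_le_mul_of_nonneg_left hB2 (by positivity : (0:ℝ) ≤ β * 64000)
    nlinarith
  rcases le_or_gt l (2 * B) with h | h
  · have h1 : β * l ≤ 1 / 32000 := by
      have : β * l ≤ β * (2 * B) := mul_le_mul_of_nonneg_left h hβ.le
      nlinarith [mul_nonneg hβ.le (by linarith : (0:ℝ) ≤ B - 1),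
        mul_nonneg (mul_nonneg hβ.le (by linarith : (0:ℝ) ≤ B)) (by linarith : (0:ℝ) ≤ B - 1)]
    have h0 : 0 ≤ β * l := mul_nonneg hβ.le hl
    have h2 : 1 - β * l ≤ Real.exp (-(β * l)) := by
      have := Real.add_one_le_exp (-(β * l)); linarith
    have h3 : Real.exp (β * l) * Real.exp (-(β * l)) = 1 := by
      rw [← Real.exp_add]; simp
    have h4 : 0 < Real.exp (β * l) := Real.exp_pos _
    have h5 : Real.exp (β * l) ≤ 11 / 10 := by nlinarith
    have h6 : (1 + l ^ 2) ≤ 5 * B ^ 2 := by nlinarith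
    have h7 : (1 + l ^ 2) * Real.exp (β * l) ≤ 5 * B ^ 2 * (11 / 10) :=
      mul_le_mul h6 h5 h4.le (by positivity)
    have h8 : Real.exp (-l) * ((1 + l ^ 2) * Real.exp (β * l)) ≤
        Real.exp (-l) * (5 * B ^ 2 * (11 / 10)) := mul_le_mul_of_nonneg_left h7 hp.le
    have h9 : 0 ≤ 332 / 100 / n := by positivity
    linarith
  · have h1 : Real.exp (-l) * ((1 + l ^ 2) * Real.exp (β * l)) ≤
        Real.exp (-B) * ((1 + l ^ 2) * Real.exp (-(499 / 1000 * l))) := by
      have h2 : Real.exp (-l) * Real.exp (β * l) ≤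
          Real.exp (-B) * Real.exp (-(499 / 1000 * l)) := by
        rw [← Real.exp_add, ← Real.exp_add]
        apply Real.exp_le_exp.mpr
        nlinarith [mul_le_mul_of_nonneg_right hβ1 hl]
      have h3 : 0 ≤ 1 + l ^ 2 := by positivity
      nlinarith [mul_le_mul_of_nonneg_left h2 h3]
    have h4 : Real.exp (-B) * ((1 + l ^ 2) * Real.exp (-(499 / 1000 * l))) ≤
        Real.exp (-B) * 9 := mul_le_mul_of_nonneg_left (thA l hl) (Real.exp_pos _).le
    have h5 : Real.exp (-B) * 9 ≤ 332 / 100 / n := by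
      rw [Real.exp_neg, hexp, le_div_iff₀ hn]
      have he : 2.7182818283 < Real.exp 1 := Real.exp_one_gt_d9
      have : (Real.exp 1 * n)⁻¹ * 9 * n = 9 / Real.exp 1 := by
        have := Real.exp_pos 1
        field_simp
      rw [this, div_le_iff₀ (Real.exp_pos 1)]
      nlinarith
    have h6 : 0 ≤ 11 / 2 * B ^ 2 * Real.exp (-l) := by positivity
    linarith

private theorem thC (β l : ℝ) (hβ : 0 < β) (hl : 0 ≤ l) :
    β / Real.exp (-(β * l)) + (1 - Real.exp (-(β * l))) ^ 2 / (β * Real.exp (-(β * l))) ≤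
      β * ((1 + l ^ 2) * Real.exp (β * l)) := by
  have h0 : 0 ≤ β * l := mul_nonneg hβ.le hl
  have hx : 0 < Real.exp (-(β * l)) := Real.exp_pos _
  have h1 : Real.exp (-(β * l)) ≤ 1 := Real.exp_le_one_iff.mpr (by linarith)
  have h2 : 1 - Real.exp (-(β * l)) ≤ β * l := by
    have := Real.add_one_le_exp (-(β * l)); linarith
  have h3 : (1 - Real.exp (-(β * l))) ^ 2 ≤ (β * l) ^ 2 := by
    apply pow_le_pow_left₀ (by linarith) h2
  have h4 : (1 - Real.exp (-(β * l))) ^ 2 / (β * Real.exp (-(β * l))) ≤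
      (β * l) ^ 2 / (β * Real.exp (-(β * l))) := by
    apply div_le_div_of_nonneg_right h3 (by positivity)
  have h5 : Real.exp (β * l) = (Real.exp (-(β * l)))⁻¹ := by
    rw [Real.exp_neg, inv_inv]
  have h6 : β / Real.exp (-(β * l)) + (β * l) ^ 2 / (β * Real.exp (-(β * l))) =
      β * ((1 + l ^ 2) * Real.exp (β * l)) := by
    rw [h5]; field_simp
  linarith

theorem p_Th : StmTh := by
  intro N J β r S x hr hS hβ hβ1
  rcases J.eq_empty_or_nonempty with hJ | hJ
  · subst hJ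
    simp [tG]
  have hn0 : 0 < J.card := Finset.card_pos.mpr hJ
  have hn : (1:ℝ) ≤ (J.card : ℝ) := by exact_mod_cast hn0
  have hnp : (0:ℝ) < (J.card : ℝ) := by linarith
  have hSpos : 0 < S := by rw [hS]; exact Finset.sum_pos hr hJ
  obtain ⟨B, hBdef⟩ : ∃ B, B = 1 + Real.log (J.card : ℝ) := ⟨_, rfl⟩
  have hB : 1 ≤ B := by rw [hBdef]; have := Real.log_nonneg hn; linarith
  have hexpB : Real.exp B = Real.exp 1 * (J.card : ℝ) := by
    rw [hBdef, Real.exp_add, Real.exp_log hnp]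
  have hterm : ∀ j ∈ J, (Atm.mk' (β j) (r j) S x).p *
      ((Atm.mk' (β j) (r j) S x).β / (Atm.mk' (β j) (r j) S x).ξ +
        (1 - (Atm.mk' (β j) (r j) S x).ξ) ^ 2 /
          ((Atm.mk' (β j) (r j) S x).β * (Atm.mk' (β j) (r j) S x).ξ)) ≤
      1 / (64000 * B ^ 2) * (11 / 2 * B ^ 2 * (r j / S) + 332 / 100 / (J.card : ℝ)) := by
    intro j hj
    have hrj := hr j hj
    have hβj := hβ j hj
    have hle : r j ≤ S := by
      rw [hS]; exact Finset.single_le_sum (fun i hi => (hr i hi).le) hj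
    obtain ⟨l, hldef⟩ : ∃ l, l = Real.log S - Real.log (r j) := ⟨_, rfl⟩
    have hl : 0 ≤ l := by
      rw [hldef]; have := Real.log_le_log hrj hle; linarith
    have hp : r j / S = Real.exp (-l) := by
      rw [hldef, neg_sub, Real.exp_sub, Real.exp_log hrj, Real.exp_log hSpos]
    have hx : Real.exp (β j * (Real.log (r j) - Real.log S)) = Real.exp (-(β j * l)) := by
      congr 1; rw [hldef]; ring
    have hβ2 : β j ≤ 1 / (64000 * B ^ 2) := by
      have := hβ1 j hj; rw [← hBdef] at this; exact this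
    have hβB : β j * (64000 * B ^ 2) ≤ 1 := by
      rw [le_div_iff₀ (by positivity)] at hβ2; exact hβ2
    show (r j / S) * (β j / Real.exp (β j * (Real.log (r j) - Real.log S)) +
        (1 - Real.exp (β j * (Real.log (r j) - Real.log S))) ^ 2 /
          (β j * Real.exp (β j * (Real.log (r j) - Real.log S)))) ≤ _
    rw [hx, hp]
    have hC := thC (β j) l hβj hl
    have hBb := thB (β j) l B (J.card : ℝ) hβj hB hβB hl hnp hexpB
    have hE : 0 < Real.exp (-l) := Real.exp_pos _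
    have h1 := mul_le_mul_of_nonneg_left hC hE.le
    have h2 := mul_le_mul_of_nonneg_left hBb hβj.le
    have h3 : 0 ≤ 11 / 2 * B ^ 2 * Real.exp (-l) + 332 / 100 / (J.card : ℝ) := by positivity
    have h4 := mul_le_mul_of_nonneg_right hβ2 h3
    calc _ ≤ Real.exp (-l) * (β j * ((1 + l ^ 2) * Real.exp (β j * l))) := h1
      _ = β j * (Real.exp (-l) * ((1 + l ^ 2) * Real.exp (β j * l))) := by ring
      _ ≤ β j * (11 / 2 * B ^ 2 * Real.exp (-l) + 332 / 100 / (J.card : ℝ)) := h2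
      _ ≤ _ := h4
  have hsum := Finset.sum_le_sum hterm
  have hps : ∑ j ∈ J, (r j / S) = 1 := by
    rw [← Finset.sum_div, ← hS, div_self hSpos.ne']
  have hr1 : ∑ j ∈ J, (1 / (64000 * B ^ 2) * (11 / 2 * B ^ 2 * (r j / S) +
      332 / 100 / (J.card : ℝ))) = 1 / (64000 * B ^ 2) * (11 / 2 * B ^ 2 + 332 / 100) := by
    rw [← Finset.mul_sum, Finset.sum_add_distrib, ← Finset.mul_sum, hps, Finset.sum_const,
      nsmul_eq_mul, mul_one, mul_div_cancel₀ _ hnp.ne']
  have hfin : 1 / (64000 * B ^ 2) * (11 / 2 * B ^ 2 + 332 / 100) ≤ 1 / 6400 := by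
    rw [one_div, inv_mul_le_iff₀ (by positivity)]
    nlinarith
  unfold tG
  calc _ ≤ _ := hsum
    _ = _ := hr1
    _ ≤ _ := hfin

end Pool.Agent.Lib.MP_d8ef8f_an.Gd
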