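import Pool.Agent.Lib.MP_d8ef8f_an.Gd.StT2
import Pool.Agent.Lib.MP_d8ef8f_an.Gd.Te

/-!
# Ti: bilinear bound for the second derivatives
-/

set_option autoImplicit false

namespace Pool.Agent.Lib.MP_d8ef8f_an.Gd

open Set Filter Topology MeasureTheory

/-- from the squares to the numbers -/
private theorem ti_sq {T n c W : ℝ} (hn : 0 ≤ n) (h : T ^ 2 ≤ 1 / 3200 * W) (hW : W ≤ n ^ 2)
    (hc : 0 ≤ c) (hc2 : 1 / 3200 ≤ c ^ 2) : T ≤ c * n := by
  have h1 : T ^ 2 ≤ (c * n) ^ 2 := by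
    calc T ^ 2 ≤ 1 / 3200 * W := h
      _ ≤ 1 / 3200 * n ^ 2 := by linarith
      _ ≤ c ^ 2 * n ^ 2 := mul_le_mul_of_nonneg_right hc2 (sq_nonneg _)
      _ = (c * n) ^ 2 := by ring
  exact le_trans (le_abs_self T) (abs_le_of_sq_le_sq h1 (by positivity))

/-- one species -/
private theorem ti_species (td : StmTd) {m : Atm} {S x : ℝ} (hm : m.Ok S x)
    {A a V A' a' V' n n' : ℝ} (hn : 0 ≤ n) (hn' : 0 ≤ n') (hA : |A| ≤ n) (hA' : |A'| ≤ n')
    (hV : S ≤ 33 / 32 → 31 / 16 * S ≤ dfc2 x →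
        S * V ^ 2 ≤ 8 / 5 * n ^ 2 ∧ S * V' ^ 2 ≤ 8 / 5 * n' ^ 2) :
    |m.DDP A a V A' a' V'| ≤
      (31 / 15 + 352) * (n * n') * (m.p * ((m.β + (1 - m.ξ)) / m.ξ))
      + (31 / 30 + 53 / 20) * (n' * (m.p * ((m.β + (1 - m.ξ)) * |a|)))
      + (31 / 30 + 53 / 20) * (n * (m.p * ((m.β + (1 - m.ξ)) * |a'|)))
      + (31 / 30 + 101 / 1000) * (m.β * m.p * m.ξ * (|a| * |a'|)) := by
  have hβ := hm.hβ
  have hβ1 := hm.hβ1
  have hξ := hm.hξ
  have hξ1 := hm.hξ1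
  have hS := hm.hS
  have hp := hm.hp
  have hS1 : 0 < 1 + S := by linarith
  have r1 := td m S x hm A a V A' a' V' n n' hn hn' hA hA' (by
    intro h
    obtain ⟨h1, h2⟩ := te_supp hm h
    exact hV h1 h2)
  have hH : |m.H| ≤ 1 / 60 := by
    have h1 := hm.hH
    have h2 : m.w ≤ 1 / 32 := by
      rw [hm.hw, div_le_div_iff₀ (by positivity) (by norm_num)]
      nlinarith [mul_pos hξ hS]
    linarith
  have hH2 : |1 - 2 * m.H| ≤ 31 / 30 := by
    have := abs_le.1 hH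
    rw [abs_le]
    constructor <;> linarith [this.1, this.2]
  obtain ⟨e0, e1, e2, e3, e4⟩ := te_eta (η := m.η) hβ hβ1 hξ hξ1 rfl
  obtain ⟨r, hr⟩ : ∃ r, r = m.β + (1 - m.ξ) := ⟨_, rfl⟩
  rw [← hr] at e2 r1 ⊢
  have hr0 : 0 < r := by rw [hr]; linarith
  have hq0 : 0 ≤ 1 - m.ξ := by linarith
  have hqr : 1 - m.ξ ≤ r := by linarith
  have hrx : r ≤ r / m.ξ := by
    rw [le_div_iff₀ hξ]
    nlinarith
  have ha := abs_nonneg a
  have ha' := abs_nonneg a'
  have b1 : |2 * m.η * (A * A')| ≤ 2 * (r / m.ξ) * (n * n') := by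
    apply te_pm _ (te_pm hA hA')
    rw [abs_of_nonneg (by linarith)]
    linarith
  have b2 : |(1 - m.ξ) * (A * a')| ≤ r * (n * |a'|) := by
    apply te_pm _ (te_pm hA le_rfl)
    rw [abs_of_nonneg hq0]
    exact hqr
  have b3 : |(1 - m.ξ) * (a * A')| ≤ r * (|a| * n') := by
    apply te_pm _ (te_pm le_rfl hA')
    rw [abs_of_nonneg hq0]
    exact hqr
  have b4 : |m.β * m.ξ * (a * a')| = m.β * m.ξ * (|a| * |a'|) := by
    rw [abs_mul, abs_mul a a', abs_of_pos (mul_pos hβ hξ)]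
  have b5 : |2 * m.η * A * A' + (1 - m.ξ) * (A * a' + a * A') - m.β * m.ξ * a * a'| ≤
      2 * (r / m.ξ) * (n * n') + r * (n * |a'|) + r * (|a| * n')
        + m.β * m.ξ * (|a| * |a'|) := by
    have h1 : 2 * m.η * A * A' + (1 - m.ξ) * (A * a' + a * A') - m.β * m.ξ * a * a' =
        2 * m.η * (A * A') + (1 - m.ξ) * (A * a') + (1 - m.ξ) * (a * A')
          - m.β * m.ξ * (a * a') := by ring
    rw [h1]
    have d1 := abs_le.1 b1
    have d2 := abs_le.1 b2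
    have d3 := abs_le.1 b3
    have d4 := abs_le.1 (le_of_eq b4)
    rw [abs_le]
    constructor <;> linarith [d1.1, d1.2, d2.1, d2.2, d3.1, d3.2, d4.1, d4.2]
  have b6 : |m.DDE A a A' a'| ≤ m.p * (2 * (r / m.ξ) * (n * n') + r * (n * |a'|)
      + r * (|a| * n') + m.β * m.ξ * (|a| * |a'|)) := by
    unfold Atm.DDE
    exact te_pm (le_of_eq (abs_of_pos hp)) b5
  have b7 : |(1 - 2 * m.H) * m.DDE A a A' a'| ≤ 31 / 30 * (m.p * (2 * (r / m.ξ) * (n * n')
      + r * (n * |a'|) + r * (|a| * n') + m.β * m.ξ * (|a| * |a'|))) := te_pm hH2 b6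
  have b8 : |m.DDP A a V A' a' V'| ≤ |(1 - 2 * m.H) * m.DDE A a A' a'|
      + |m.rr A a V A' a' V'| := by
    unfold Atm.DDP
    exact abs_sub _ _
  refine (b8.trans (add_le_add b7 r1)).trans (le_of_eq ?_)
  ring

theorem p_Ti (td : StmTd) : StmTi := by
  intro N J m S x hm hG A V A' V' n n' a a' hn hn' hA hA' hW hW' hV
  have hpos : ∀ j ∈ J, 0 < (m j).β * (m j).p * (m j).ξ := by
    intro j hj
    have h := hm j hj
    have h1 := h.hβ
    have h2 := h.hξ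
    have h3 := h.hp
    positivity
  have hP := te_P J m S x hm hG
  have ca := te_cs J m S x hm hG (fun j => |a j|)
  have ca' := te_cs J m S x hm hG (fun j => |a' j|)
  simp only [sq_abs] at ca ca'
  have hTa := ti_sq (c := 1 / 56) hn ca hW (by norm_num) (by norm_num)
  have hTa' := ti_sq (c := 1 / 56) hn' ca' hW' (by norm_num) (by norm_num)
  -- Cauchy-Schwarz
  have hcs : ∑ j ∈ J, (m j).β * (m j).p * (m j).ξ * (|a j| * |a' j|) ≤ n * n' := by
    have h1 : (∑ j ∈ J, (m j).β * (m j).p * (m j).ξ * (|a j| * |a' j|)) ^ 2 ≤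
        (∑ j ∈ J, (m j).β * (m j).p * (m j).ξ * a j ^ 2) *
          ∑ j ∈ J, (m j).β * (m j).p * (m j).ξ * a' j ^ 2 := by
      apply Finset.sum_sq_le_sum_mul_sum_of_sq_le_mul
      · intro j hj
        have := hpos j hj
        positivity
      · intro j hj
        have := hpos j hj
        positivity
      · intro j hj
        apply le_of_eq
        rw [← sq_abs (a j), ← sq_abs (a' j)]
        ring
    have h2 : (∑ j ∈ J, (m j).β * (m j).p * (m j).ξ * (|a j| * |a' j|)) ^ 2 ≤ (n * n') ^ 2 := by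
      have h3 : 0 ≤ ∑ j ∈ J, (m j).β * (m j).p * (m j).ξ * a' j ^ 2 := by
        apply Finset.sum_nonneg
        intro j hj
        have := hpos j hj
        positivity
      calc (∑ j ∈ J, (m j).β * (m j).p * (m j).ξ * (|a j| * |a' j|)) ^ 2 ≤ _ := h1
        _ ≤ n ^ 2 * n' ^ 2 := mul_le_mul hW hW' h3 (sq_nonneg _)
        _ = (n * n') ^ 2 := by ring
    exact le_trans (le_abs_self _) (abs_le_of_sq_le_sq h2 (by positivity))
  have hsum := Finset.sum_le_sum (fun j hj =>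
    ti_species td (hm j hj) (a := a j) (a' := a' j) hn hn' hA hA' hV)
  rw [Finset.sum_add_distrib, Finset.sum_add_distrib, Finset.sum_add_distrib,
    ← Finset.mul_sum, ← Finset.mul_sum, ← Finset.mul_sum, ← Finset.mul_sum, ← Finset.mul_sum,
    ← Finset.mul_sum] at hsum
  have hnn : 0 ≤ n * n' := by positivity
  have f1 : n * n' * ∑ j ∈ J, (m j).p * (((m j).β + (1 - (m j).ξ)) / (m j).ξ) ≤
      n * n' * (3 / 12800) := mul_le_mul_of_nonneg_left hP hnn
  have f2 : n' * ∑ j ∈ J, (m j).p * (((m j).β + (1 - (m j).ξ)) * |a j|) ≤ n' * (1 / 56 * n) :=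
    mul_le_mul_of_nonneg_left hTa hn'
  have f3 : n * ∑ j ∈ J, (m j).p * (((m j).β + (1 - (m j).ξ)) * |a' j|) ≤ n * (1 / 56 * n') :=
    mul_le_mul_of_nonneg_left hTa' hn
  refine hsum.trans ?_
  generalize (∑ j ∈ J, (m j).p * (((m j).β + (1 - (m j).ξ)) / (m j).ξ)) = P1 at *
  generalize (∑ j ∈ J, (m j).p * (((m j).β + (1 - (m j).ξ)) * |a j|)) = P2 at *
  generalize (∑ j ∈ J, (m j).p * (((m j).β + (1 - (m j).ξ)) * |a' j|)) = P3 at *
  generalize (∑ j ∈ J, (m j).β * (m j).p * (m j).ξ * (|a j| * |a' j|)) = P4 at *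
  linarith

end Pool.Agent.Lib.MP_d8ef8f_an.Gd
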