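import Pool.Agent.Lib.MP_d8ef8f_an.Gd.StT2

/-!
# Piece Tl: coercivity
-/

set_option autoImplicit false

namespace Pool.Agent.Lib.MP_d8ef8f_an.Gd

open Set Filter Topology MeasureTheory

/-- a positive lower bound on a finite set -/
private theorem tl_min {ι : Type*} (J : Finset ι) (f : ι → ℝ) (hf : ∀ j ∈ J, 0 < f j) :
    ∃ δ : ℝ, 0 < δ ∧ ∀ j ∈ J, δ ≤ f j := by
  rcases J.eq_empty_or_nonempty with h | h
  · subst h
    exact ⟨1, one_pos, fun j hj => absurd hj (Finset.notMem_empty j)⟩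
  · obtain ⟨i, hi, hm⟩ := Finset.exists_min_image J f h
    exact ⟨f i, hf i hi, hm⟩

/-- the inequality in terms of the numbers -/
private theorem tl_core {ι : Type*} (J : Finset ι) (δ S Z Y W : ℝ) (r z a ω : ι → ℝ)
    (hδ : 0 < δ) (hJ : J.Nonempty) (hr : ∀ j ∈ J, 0 < r j) (hS : S = ∑ j ∈ J, r j)
    (hz : ∀ j ∈ J, z j = r j / S * (Z + a j)) (hω : ∀ j ∈ J, δ * (r j / S) ^ 2 ≤ ω j)
    (hW : W ^ 2 ≤ (Y - Z) ^ 2) :
    (∑ j ∈ J, z j ^ 2) + W ^ 2 ≤
      (4 + 2 * ((J.card : ℝ) + 1) / δ) * (Z ^ 2 + ∑ j ∈ J, ω j * (a j ^ 2 + Y ^ 2)) := by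
  have hS0 : 0 < S := by rw [hS]; exact Finset.sum_pos hr hJ
  have hn : (0:ℝ) < J.card := by exact_mod_cast hJ.card_pos
  have hp : ∑ j ∈ J, r j / S = 1 := by
    rw [← Finset.sum_div, ← hS, div_self hS0.ne']
  have hp0 : ∀ j ∈ J, 0 ≤ r j / S := fun j hj => (div_pos (hr j hj) hS0).le
  have hp1 : ∀ j ∈ J, r j / S ≤ 1 := fun j hj => by
    rw [← hp]; exact Finset.single_le_sum (f := fun j => r j / S) hp0 hj
  have hpp : ∑ j ∈ J, (r j / S) ^ 2 ≤ 1 := by
    rw [← hp]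
    apply Finset.sum_le_sum
    intro j hj
    have h1 := hp0 j hj
    have h2 := hp1 j hj
    nlinarith
  have hcs : 1 ≤ (J.card : ℝ) * ∑ j ∈ J, (r j / S) ^ 2 := by
    have h1 := sq_sum_le_card_mul_sum_sq (s := J) (f := fun j => r j / S)
    rw [hp] at h1
    simpa using h1
  have hω0 : ∀ j ∈ J, 0 ≤ ω j := fun j hj => le_trans (by positivity) (hω j hj)
  have hA0 : 0 ≤ ∑ j ∈ J, ω j * a j ^ 2 :=
    Finset.sum_nonneg fun j hj => mul_nonneg (hω0 j hj) (sq_nonneg _)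
  have hB0 : 0 ≤ ∑ j ∈ J, ω j * Y ^ 2 :=
    Finset.sum_nonneg fun j hj => mul_nonneg (hω0 j hj) (sq_nonneg _)
  have hsplit : ∑ j ∈ J, ω j * (a j ^ 2 + Y ^ 2) =
      (∑ j ∈ J, ω j * a j ^ 2) + ∑ j ∈ J, ω j * Y ^ 2 := by
    rw [← Finset.sum_add_distrib]
    exact Finset.sum_congr rfl fun j _ => by ring
  -- the sum of the squares of `z`
  have hzz : ∑ j ∈ J, z j ^ 2 ≤ 2 * Z ^ 2 + 2 / δ * ∑ j ∈ J, ω j * a j ^ 2 := by
    have h1 : ∑ j ∈ J, z j ^ 2 ≤ ∑ j ∈ J, (2 * Z ^ 2 * (r j / S) ^ 2 + 2 / δ * (ω j * a j ^ 2)) := by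
      apply Finset.sum_le_sum
      intro j hj
      rw [hz j hj]
      have h2 : (r j / S) ^ 2 * a j ^ 2 ≤ 1 / δ * (ω j * a j ^ 2) := by
        have h3 := mul_le_mul_of_nonneg_right (hω j hj) (sq_nonneg (a j))
        rw [div_mul_eq_mul_div, one_mul, le_div_iff₀ hδ]
        linarith
      have h4 : (r j / S * (Z + a j)) ^ 2 ≤
          2 * Z ^ 2 * (r j / S) ^ 2 + 2 * ((r j / S) ^ 2 * a j ^ 2) := by
        have h5 : 0 ≤ (r j / S) ^ 2 * (Z - a j) ^ 2 := by positivity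
        nlinarith
      have h6 : 2 / δ * (ω j * a j ^ 2) = 2 * (1 / δ * (ω j * a j ^ 2)) := by ring
      rw [h6]
      linarith
    rw [Finset.sum_add_distrib, ← Finset.mul_sum, ← Finset.mul_sum] at h1
    have h2 : 2 * Z ^ 2 * ∑ j ∈ J, (r j / S) ^ 2 ≤ 2 * Z ^ 2 * 1 :=
      mul_le_mul_of_nonneg_left hpp (by positivity)
    linarith
  -- the bound for `Y`
  have hYY : Y ^ 2 ≤ (J.card : ℝ) / δ * ∑ j ∈ J, ω j * Y ^ 2 := by
    have h1 : δ * ∑ j ∈ J, (r j / S) ^ 2 ≤ ∑ j ∈ J, ω j := by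
      rw [Finset.mul_sum]
      exact Finset.sum_le_sum hω
    have h2 : δ ≤ (J.card : ℝ) * ∑ j ∈ J, ω j := by
      have h3 := mul_le_mul_of_nonneg_left hcs hδ.le
      have h4 := mul_le_mul_of_nonneg_left h1 hn.le
      nlinarith
    rw [← Finset.sum_mul, div_mul_eq_mul_div, le_div_iff₀ hδ]
    have h5 := mul_le_mul_of_nonneg_right h2 (sq_nonneg Y)
    linarith
  have hWW : W ^ 2 ≤ 2 * Y ^ 2 + 2 * Z ^ 2 := by
    have := sq_nonneg (Y + Z)
    nlinarith
  rw [hsplit]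
  have hk : 0 ≤ 2 * ((J.card : ℝ) + 1) / δ := by positivity
  clear hsplit
  generalize (∑ j ∈ J, ω j * a j ^ 2) = P at *
  generalize (∑ j ∈ J, ω j * Y ^ 2) = Q at *
  have e1 : (4 + 2 * ((J.card : ℝ) + 1) / δ) *
      (Z ^ 2 + (P + Q)) =
      4 * Z ^ 2 + 2 / δ * P + 2 * ((J.card : ℝ) / δ * Q)
      + (2 * ((J.card : ℝ) + 1) / δ * Z ^ 2 + (4 + 2 * ((J.card : ℝ)) / δ) * P
        + (4 + 2 / δ) * Q) := by
    field_simp
    ring
  rw [e1]
  have h7 : 0 ≤ 2 * ((J.card : ℝ) + 1) / δ * Z ^ 2 := mul_nonneg hk (sq_nonneg _)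
  have h8 : 0 ≤ (4 + 2 * ((J.card : ℝ)) / δ) * P := mul_nonneg (by positivity) hA0
  have h9 : 0 ≤ (4 + 2 / δ) * Q := mul_nonneg (by positivity) hB0
  linarith

theorem p_Tl (_tok : StmTok) : StmTl := by
  intro N d k hk hd
  have hβ : ∀ j ∈ Jk k, 0 < tδ d k j := fun j hj => by
    have h1 : k < j := (Finset.mem_filter.1 hj).2
    exact div_pos (by linarith [(hd j h1).1]) hk
  obtain ⟨δ, hδ, hδj⟩ := tl_min (Jk k) (tδ d k) hβ
  refine ⟨4 + 2 * (((Jk k).card : ℝ) + 1) / δ, by positivity, ?_⟩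
  intro e s he hsk hs z b
  have hK1 : 1 ≤ 4 + 2 * (((Jk k).card : ℝ) + 1) / δ := by
    have : 0 ≤ 2 * (((Jk k).card : ℝ) + 1) / δ := by positivity
    linarith
  have hd2 := dfc2_ge hsk
  have hd0 := dfc2_nonneg hsk
  have hz0 := sq_nonneg (z k)
  have h1 : (1 - 1 / s k) ^ 2 * z k ^ 2 ≤
      (4 + 2 * (((Jk k).card : ℝ) + 1) / δ) * (dfc2 (s k) * z k ^ 2) := by
    have h2 : (1 - 1 / s k) ^ 2 * z k ^ 2 ≤ dfc2 (s k) * z k ^ 2 :=
      mul_le_mul_of_nonneg_right hd2 hz0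
    have h3 : 0 ≤ dfc2 (s k) * z k ^ 2 := mul_nonneg hd0 hz0
    nlinarith
  have hr : ∀ j ∈ Jk k, 0 < s j + e := fun j _ => by linarith [hs j]
  have hSab0 : 0 ≤ Sab k s := Finset.sum_nonneg fun j _ => hs j
  have h2 : (∑ j ∈ Jk k, z j ^ 2) + (b * Sab k s) ^ 2 ≤
      (4 + 2 * (((Jk k).card : ℝ) + 1) / δ) * (Sab k z ^ 2 + ∑ j ∈ Jk k,
        (tA d k e s j).β * (tA d k e s j).p *
        (tA d k e s j).ξ * (tn k e s z j ^ 2 + (Sab k z + b * tS k e s) ^ 2)) := by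
    rcases (Jk k).eq_empty_or_nonempty with hJ | hJ
    · have h3 : Sab k s = 0 := by
        have : Sab k s = ∑ j ∈ Jk k, s j := rfl
        rw [this, hJ, Finset.sum_empty]
      have h4 : Sab k z = 0 := by
        have : Sab k z = ∑ j ∈ Jk k, z j := rfl
        rw [this, hJ, Finset.sum_empty]
      rw [h3, h4, hJ]
      simp
    · have hS0 : 0 < tS k e s := Finset.sum_pos hr hJ
      refine tl_core (Jk k) δ (tS k e s) (Sab k z) (Sab k z + b * tS k e s) (b * Sab k s)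
        (fun j => s j + e) z (tn k e s z)
        (fun j => (tA d k e s j).β * (tA d k e s j).p * (tA d k e s j).ξ) hδ hJ hr rfl ?_ ?_ ?_
      · intro j hj
        have h5 := hr j hj
        unfold tn
        have h6 : Sab k z + (tS k e s * (z j / (s j + e)) - Sab k z) =
            tS k e s * (z j / (s j + e)) := by ring
        rw [h6]
        field_simp
      · intro j hj
        have h5 := hr j hj
        have h5' : s j + e ≤ tS k e s :=
          Finset.single_le_sum (f := fun j => s j + e) (fun i hi => (hr i hi).le) hj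
        have h6 : (tA d k e s j).p = (s j + e) / tS k e s := rfl
        have h7 : (tA d k e s j).β = tδ d k j := rfl
        have h8 : (tA d k e s j).ξ =
            Real.exp (tδ d k j * (Real.log (s j + e) - Real.log (tS k e s))) := rfl
        have h9 : tδ d k j ≤ 1 := by
          have h10 : k < j := (Finset.mem_filter.1 hj).2
          unfold tδ
          rw [div_le_one hk]
          linarith [(hd j h10).2]
        have h11 : (s j + e) / tS k e s ≤ (tA d k e s j).ξ := by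
          rw [h8]
          have h12 : (s j + e) / tS k e s =
              Real.exp (Real.log (s j + e) - Real.log (tS k e s)) := by
            rw [← Real.log_div h5.ne' hS0.ne', Real.exp_log (div_pos h5 hS0)]
          rw [h12]
          apply Real.exp_le_exp.2
          have h13 : Real.log (s j + e) ≤ Real.log (tS k e s) := Real.log_le_log h5 h5'
          have h14 := hβ j hj
          nlinarith
        have h15 : 0 < (s j + e) / tS k e s := div_pos h5 hS0
        rw [h6, h7]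
        have h16 : δ * ((s j + e) / tS k e s) ^ 2 =
            δ * ((s j + e) / tS k e s) * ((s j + e) / tS k e s) := by ring
        rw [h16]
        apply mul_le_mul _ h11 h15.le
        · exact (mul_pos (hβ j hj) h15).le
        · exact mul_le_mul_of_nonneg_right (hδj j hj) h15.le
      · have h5 : Sab k s ≤ tS k e s := by
          have h6 : Sab k s = ∑ j ∈ Jk k, s j := rfl
          rw [h6]
          exact Finset.sum_le_sum fun j _ => by linarith
        have h7 : Sab k z + b * tS k e s - Sab k z = b * tS k e s := by ring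
        rw [h7, mul_pow, mul_pow]
        apply mul_le_mul_of_nonneg_left _ (sq_nonneg b)
        exact pow_le_pow_left₀ hSab0 h5 2
  have h3 : (∑ j ∈ Finset.univ.filter (fun j => k < j), z j ^ 2) = ∑ j ∈ Jk k, z j ^ 2 := rfl
  have h4 : b ^ 2 * Sab k s ^ 2 = (b * Sab k s) ^ 2 := by ring
  rw [h3, h4]
  have h5 : (4 + 2 * (((Jk k).card : ℝ) + 1) / δ) * (dfc2 (s k) * z k ^ 2 + Sab k z ^ 2
      + ∑ j ∈ Jk k, (tA d k e s j).β * (tA d k e s j).p *
        (tA d k e s j).ξ * (tn k e s z j ^ 2 + (Sab k z + b * tS k e s) ^ 2)) =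
      (4 + 2 * (((Jk k).card : ℝ) + 1) / δ) * (dfc2 (s k) * z k ^ 2) +
      (4 + 2 * (((Jk k).card : ℝ) + 1) / δ) * (Sab k z ^ 2
      + ∑ j ∈ Jk k, (tA d k e s j).β * (tA d k e s j).p *
        (tA d k e s j).ξ * (tn k e s z j ^ 2 + (Sab k z + b * tS k e s) ^ 2)) := by ring
  rw [h5]
  linarith

end Pool.Agent.Lib.MP_d8ef8f_an.Gd
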