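import Pool.Agent.Lib.MP_d8ef8f_an.Gd.StT2

/-!
# The gap-free density: the numbers of the species are as wanted
-/

set_option autoImplicit false

namespace Pool.Agent.Lib.MP_d8ef8f_an.Gd

open Set Filter Topology MeasureTheory

private theorem tok_mem {N : ℕ} {k j : Fin N} (hj : j ∈ Jk k) : k < j := by
  simpa [Jk] using hj

private theorem tok_r {N : ℕ} {e : ℝ} {s : Fin N → ℝ} (he : 0 < e) (hs : ∀ j, 0 ≤ s j)
    (j : Fin N) : 0 < s j + e := by
  have := hs j
  linarith

private theorem tok_le {N : ℕ} {k : Fin N} {e : ℝ} {s : Fin N → ℝ} (he : 0 < e)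
    (hs : ∀ j, 0 ≤ s j) {j : Fin N} (hj : j ∈ Jk k) : s j + e ≤ tS k e s := by
  unfold tS
  exact Finset.single_le_sum (f := fun i => s i + e) (fun i _ => (tok_r he hs i).le) hj

private theorem tok_mk (ta : StmTa) {β r S x : ℝ} (hβ : 0 < β) (hβ1 : β ≤ 1 / 1000) (hr : 0 < r)
    (hrS : r ≤ S) (hx : 0 < x) :
    (Atm.mk' β r S x).Ok S x ∧ (Atm.mk' β r S x).p ≤ (Atm.mk' β r S x).ξ := by
  have hS : 0 < S := lt_of_lt_of_le hr hrS
  have hlog : Real.log r - Real.log S ≤ 0 := by
    have := Real.log_le_log hr hrS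
    linarith
  have hξ1 : Real.exp (β * (Real.log r - Real.log S)) ≤ 1 := by
    rw [Real.exp_le_one_iff]
    exact mul_nonpos_of_nonneg_of_nonpos hβ.le hlog
  have hξ : 0 < Real.exp (β * (Real.log r - Real.log S)) := Real.exp_pos _
  have hw : 0 < Real.exp (β * (Real.log r - Real.log S)) * S / (32 * (1 + S)) := by
    positivity
  obtain ⟨-, -, -, t1, t2, t3, t4, t5, -, -, -⟩ := ta
  refine ⟨⟨hβ, hβ1, hS, hx, rfl, div_pos hr hS, ?_, hξ, hξ1, rfl, rfl, ?_, t5 _, (t1 _).1, (t1 _).2,
    t3 _, ?_⟩, ?_⟩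
  · exact (div_le_one hS).mpr hrS
  · show |Real.exp (β * (Real.log r - Real.log S)) * S / (32 * (1 + S)) *
      th ((S + x - 1) / (Real.exp (β * (Real.log r - Real.log S)) * S / (32 * (1 + S))))| ≤
      8 / 15 * (Real.exp (β * (Real.log r - Real.log S)) * S / (32 * (1 + S)))
    rw [abs_mul, abs_of_pos hw, mul_comm]
    exact mul_le_mul_of_nonneg_right (t4 _) hw.le
  · by_cases hv : |S + x - 1| < Real.exp (β * (Real.log r - Real.log S)) * S / (32 * (1 + S))
    · exact Or.inr hv
    · left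
      apply t2
      rw [abs_div, abs_of_pos hw, le_div_iff₀ hw, one_mul]
      exact not_lt.mp hv
  · show r / S ≤ Real.exp (β * (Real.log r - Real.log S))
    have e1 : r / S = Real.exp (Real.log r - Real.log S) := by
      rw [Real.exp_sub, Real.exp_log hr, Real.exp_log hS]
    rw [e1]
    apply Real.exp_le_exp.mpr
    nlinarith

theorem p_Tok (ta : StmTa) : StmTok := by
  intro N d k hk hd e s he hsk hs
  have key : ∀ j ∈ Jk k, (tA d k e s j).Ok (tS k e s) (s k) ∧
      (tA d k e s j).p ≤ (tA d k e s j).ξ := by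
    intro j hj
    have hj' := hd j (tok_mem hj)
    refine tok_mk ta (div_pos (by linarith [hj'.1]) hk) ?_ (tok_r he hs j) (tok_le he hs hj) hsk
    unfold tδ
    rw [div_le_iff₀ hk]
    linarith [hj'.2]
  have hp : ∀ j, (tA d k e s j).p = (s j + e) / tS k e s := fun j => rfl
  have hsum : (Jk k).Nonempty → ∑ j ∈ Jk k, (tA d k e s j).p = 1 := by
    rintro ⟨i, hi⟩
    have hS : 0 < tS k e s := lt_of_lt_of_le (tok_r he hs i) (tok_le he hs hi)
    simp only [hp]
    rw [← Finset.sum_div]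
    exact div_self hS.ne'
  refine ⟨fun j hj => (key j hj).1, fun j hj => (key j hj).2, hsum, fun z => ?_⟩
  rcases (Jk k).eq_empty_or_nonempty with h0 | h0
  · rw [h0, Finset.sum_empty]
  · obtain ⟨i, hi⟩ := h0
    have hS : 0 < tS k e s := lt_of_lt_of_le (tok_r he hs i) (tok_le he hs hi)
    have e1 : ∀ j ∈ Jk k, (tA d k e s j).p * tn k e s z j =
        z j - (tA d k e s j).p * Sab k z := by
      intro j _
      have hr := (tok_r he hs j).ne'
      have hS' := hS.ne'
      rw [hp]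
      unfold tn
      field_simp
    rw [Finset.sum_congr rfl e1, Finset.sum_sub_distrib, ← Finset.sum_mul, hsum ⟨i, hi⟩, one_mul]
    exact sub_self _

end Pool.Agent.Lib.MP_d8ef8f_an.Gd
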