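import Pool.Agent.Lib.MP_d8ef8f_an.Ge.Dens
import Pool.Agent.Lib.MP_d8ef8f_an.Gd.Ta
import Pool.Agent.Lib.MP_d8ef8f_an.Gd.Tb
import Pool.Agent.Lib.MP_d8ef8f_an.Gd.Tc
import Pool.Agent.Lib.MP_d8ef8f_an.Gd.Td
import Pool.Agent.Lib.MP_d8ef8f_an.Gd.Te
import Pool.Agent.Lib.MP_d8ef8f_an.Gd.Tf
import Pool.Agent.Lib.MP_d8ef8f_an.Gd.Tg
import Pool.Agent.Lib.MP_d8ef8f_an.Gd.Th
import Pool.Agent.Lib.MP_d8ef8f_an.Gd.Ti
import Pool.Agent.Lib.MP_d8ef8f_an.Gd.Tok
import Pool.Agent.Lib.MP_d8ef8f_an.Gd.Tj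
import Pool.Agent.Lib.MP_d8ef8f_an.Gd.Tl

/-!
# Tz: the gap-free density

If all species above `k` have rates in `(d k, (1 + c_n) d k]`, `c_n = 1 / (64000 (1 + log n)²)`, `n` the
number of these species, then approximate Lyapunov densities for the base species `k` exist.
-/

set_option autoImplicit false

namespace Pool.Agent.Lib.MP_d8ef8f_an.Gd

open Set Filter Topology MeasureTheory

private theorem Gl_nonneg' {p : ℝ} (hp : 0 < p) : 0 ≤ Gl p := by
  unfold Gl
  have := Real.log_le_sub_one_of_pos hp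
  linarith

private theorem densE_aux (th : StmTh) (tg' : StmTg) (tf' : StmTf) (tc : StmTc) {N : ℕ}
    (d : Fin N → ℝ) (k : Fin N) (hdk : 0 < d k)
    (hd : ∀ j, k < j → d k < d j ∧
      d j ≤ (1 + 1 / (64000 * (1 + Real.log (Jk k).card) ^ 2)) * d k) : DensE d k := by
  have hlog : 0 ≤ Real.log ((Jk k).card : ℝ) := Real.log_natCast_nonneg _
  have hsmall : 1 / (64000 * (1 + Real.log ((Jk k).card : ℝ)) ^ 2) ≤ 1 / 1000 := by
    apply one_div_le_one_div_of_le (by norm_num)
    nlinarith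
  have hd' : ∀ j, k < j → d k < d j ∧ d j ≤ (1 + 1 / 1000) * d k := by
    intro j hj
    refine ⟨(hd j hj).1, (hd j hj).2.trans ?_⟩
    apply mul_le_mul_of_nonneg_right _ hdk.le
    linarith
  have hG : ∀ (e : ℝ) (s : Fin N → ℝ), 0 < e → 0 < s k → (∀ j, 0 ≤ s j) →
      tG (Jk k) (tA d k e s) ≤ 1 / 6400 := by
    intro e s he _ hs0
    apply th (Jk k) (fun j => tδ d k j) (fun j => s j + e) (tS k e s) (s k)
    · intro j _
      have := hs0 j
      show 0 < s j + e
      linarith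
    · rfl
    · intro j hj
      have hj' : k < j := by
        unfold Jk at hj
        simpa using hj
      show 0 < (d j - d k) / d k
      have := (hd j hj').1
      apply div_pos _ hdk
      linarith
    · intro j hj
      have hj' : k < j := by
        unfold Jk at hj
        simpa using hj
      show (d j - d k) / d k ≤ _
      rw [div_le_iff₀ hdk]
      have := (hd j hj').2
      linarith
  intro L
  obtain ⟨c1, C1, hc1, hC1, h1⟩ := tf' d k hdk hd' hG L
  obtain ⟨c2, C2, hc2, hC2, h2⟩ := tg' d k hdk hd' hG L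
  refine ⟨min c1 c2, max C1 C2, lt_min hc1 hc2, lt_max_of_lt_left hC1, ?_⟩
  intro e he he1
  obtain ⟨s1, s2, s3, s4, _, _⟩ := tc d k hdk (fun j hj => (hd j hj).1) e he
  refine ⟨tf d k e, tg d k e, thh d k e, ⟨s1, s2, s3, s4⟩, ?_⟩
  have ec1 : min c1 c2 ≤ c1 := min_le_left _ _
  have ec2 : min c1 c2 ≤ c2 := min_le_right _ _
  have eC1 : C1 ≤ max C1 C2 := le_max_left _ _
  have eC2 : C2 ≤ max C1 C2 := le_max_right _ _
  have hc0 : 0 < min c1 c2 := lt_min hc1 hc2
  generalize min c1 c2 = c at *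
  generalize max C1 C2 = C at *
  constructor
  · intro s hs z b
    refine le_trans ?_ (h1 e he he1 s hs z b)
    have k1 : 0 ≤ (1 - 1 / s k) ^ 2 * z k ^ 2
        + (∑ j ∈ Finset.univ.filter (fun j => k < j), z j ^ 2) + b ^ 2 * Sab k s ^ 2 := by
      have : 0 ≤ ∑ j ∈ Finset.univ.filter (fun j => k < j), z j ^ 2 :=
        Finset.sum_nonneg fun j _ => sq_nonneg _
      positivity
    have k2 := mul_le_mul_of_nonneg_right ec1 k1
    have k3 : C1 * (e * b ^ 2) ≤ C * (e * b ^ 2) :=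
      mul_le_mul_of_nonneg_right eC1 (by positivity)
    linarith
  · intro s hs
    obtain ⟨r1, _, _, _, _, _, _⟩ := h2 e he he1 s hs
    refine le_trans ?_ r1
    have k2 := mul_le_mul_of_nonneg_right ec2 (by positivity : 0 ≤ |len k s - 1| ^ 3)
    have k3 := mul_le_mul_of_nonneg_right eC2 he.le
    linarith
  · intro s hs
    exact (h2 e he he1 s hs).2.1.trans eC2
  · intro s hs
    exact (h2 e he he1 s hs).2.2.1.trans (div_le_div_of_nonneg_right eC2 hs.1.le)
  · intro s hs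
    obtain ⟨_, _, _, _, r1, _, _⟩ := h2 e he he1 s hs
    refine le_trans ?_ r1
    have k1 : 0 ≤ |s k - 1| ^ 3 + Sab k s ^ 2 := by positivity
    have k2 := mul_le_mul_of_nonneg_right ec2 k1
    have k3 : 0 ≤ C * e := by
      have := hC2.le.trans eC2
      positivity
    linarith
  · intro s hs
    obtain ⟨_, _, _, _, r0, r1, _⟩ := h2 e he he1 s hs
    refine le_trans r1 ?_
    apply mul_le_mul_of_nonneg_right eC2
    have k1 : 0 ≤ |s k - 1| ^ 3 + Sab k s ^ 2 := by positivity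
    have k2 : 0 ≤ c2 * (|s k - 1| ^ 3 + Sab k s ^ 2) := by positivity
    linarith
  · intro s hs
    obtain ⟨_, _, _, _, _, _, r1⟩ := h2 e he he1 s hs
    refine le_trans r1 ?_
    apply mul_le_mul_of_nonneg_right eC2
    have k1 := Gl_nonneg' hs.1
    have k2 : 0 ≤ Sab k s := Finset.sum_nonneg fun j _ => hs.2.1 j
    have k3 := abs_nonneg (s k - 1)
    linarith

/-- **the gap-free density** -/
theorem densE_of_near {N : ℕ} (d : Fin N → ℝ) (k : Fin N) (hdk : 0 < d k)
    (hd : ∀ j, k < j → d k < d j ∧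
      d j ≤ (1 + 1 / (64000 * (1 + Real.log (Jk k).card) ^ 2)) * d k) : DensE d k := by
  have ta : StmTa := p_Ta
  have tb : StmTb := @p_Tb ta
  have tc : StmTc := @p_Tc @tb
  have td : StmTd := p_Td
  have tok : StmTok := @p_Tok ta
  have te : StmTe := @p_Te td
  have ti : StmTi := @p_Ti td
  have tj : StmTj := @p_Tj @tok
  have tl : StmTl := @p_Tl @tok
  have tf' : StmTf := @p_Tf @te @ti @tok @tj @tl @tc
  have tg' : StmTg := @p_Tg ta @tc
  have th' : StmTh := @p_Th
  exact densE_aux @th' @tg' @tf' @tc d k hdk hd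

end Pool.Agent.Lib.MP_d8ef8f_an.Gd
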