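import Mathlib

/-!
# Competing dispersers on a general domain: definitions

`N` species with dispersal rates `d 0 < d 1 < ...` on a bounded domain `Ω` of `ℝⁿ`.
-/

set_option autoImplicit false

namespace Pool.Agent.Lib.MP_d8ef8f_an.Gd

open Set Filter Topology MeasureTheory

/-- the space `ℝⁿ` -/
abbrev Sp (n : ℕ) : Type := EuclideanSpace ℝ (Fin n)

/-- The open unit cube. -/
def cube (n : ℕ) : Set (Sp n) := {y | ∀ i, 0 < y i ∧ y i < 1}

/-- Near the point `x` the set `Ω` is the image of the open unit cube under an injective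
differentiable map `Ψ` with bounded derivative and Jacobian determinant bounded away from zero
(a local chart of `Ω`, flattening the boundary if `x` is a boundary point). -/
def HasChart {n : ℕ} (Ω : Set (Sp n)) (x : Sp n) : Prop :=
  ∃ W : Set (Sp n), IsOpen W ∧ x ∈ W ∧
    ∃ (Ψ : Sp n → Sp n) (Ψ' : Sp n → Sp n →L[ℝ] Sp n) (M : ℝ), 0 < M ∧
      InjOn Ψ (cube n) ∧ Ψ '' cube n = W ∩ Ω ∧
      ∀ y ∈ cube n, HasFDerivAt Ψ (Ψ' y) y ∧ ‖Ψ' y‖ ≤ M ∧ 1 ≤ M * |(Ψ' y).det|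

/-- Bounded domains of `ℝⁿ` with charts up to the boundary (for example: bounded domains with
smooth boundary). -/
structure Domain {n : ℕ} (Ω : Set (Sp n)) : Prop where
  isOpen : IsOpen Ω
  nonempty : Ω.Nonempty
  conn : IsPreconnected Ω
  bdd : Bornology.IsBounded Ω
  chart : ∀ x ∈ closure Ω, HasChart Ω x

/-- `φ` is of class `C¹` up to the boundary of `Ω`, with gradient `Dφ`. -/
structure C1 {n : ℕ} (Ω : Set (Sp n)) (φ : Sp n → ℝ) (Dφ : Sp n → Sp n) : Prop where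
  cont : ContinuousOn φ (closure Ω)
  contD : ContinuousOn Dφ (closure Ω)
  grad : ∀ x ∈ Ω, HasGradientAt φ (Dφ x) x

/-- `φ` is `C¹` up to the boundary with gradient `Dφ`, and `Δφ = g` in `Ω`, `∂φ/∂ν = 0` on `∂Ω`,
in the form of Green's formula against all functions of class `C¹` up to the boundary. -/
structure NeuLap {n : ℕ} (Ω : Set (Sp n)) (φ : Sp n → ℝ) (Dφ : Sp n → Sp n) (g : Sp n → ℝ) :
    Prop where
  c1 : C1 Ω φ Dφ
  cont : ContinuousOn g (closure Ω)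
  green : ∀ (ψ : Sp n → ℝ) (Dψ : Sp n → Sp n), C1 Ω ψ Dψ →
    ∫ x in Ω, g x * ψ x = - ∫ x in Ω, inner ℝ (Dφ x) (Dψ x)

/-- On the time set `T` the functions `u j ≥ 0` (with time derivatives `ut j`, gradients `Du j`,
Laplacians `lu j`, all continuous on `T × closure Ω`) solve
`∂ₜ u_j = d_j Δ u_j + u_j (m - ∑ u_k)` with the Neumann boundary condition. -/
structure IsSol {n N : ℕ} (Ω : Set (Sp n)) (d : Fin N → ℝ) (m : Sp n → ℝ) (T : Set ℝ)
    (u ut : Fin N → ℝ → Sp n → ℝ) (Du : Fin N → ℝ → Sp n → Sp n)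
    (lu : Fin N → ℝ → Sp n → ℝ) : Prop where
  cu : ∀ j, ContinuousOn (fun p : ℝ × Sp n => u j p.1 p.2) (T ×ˢ closure Ω)
  ct : ∀ j, ContinuousOn (fun p : ℝ × Sp n => ut j p.1 p.2) (T ×ˢ closure Ω)
  cD : ∀ j, ContinuousOn (fun p : ℝ × Sp n => Du j p.1 p.2) (T ×ˢ closure Ω)
  cl : ∀ j, ContinuousOn (fun p : ℝ × Sp n => lu j p.1 p.2) (T ×ˢ closure Ω)
  dt : ∀ j, ∀ t ∈ T, ∀ x ∈ closure Ω, HasDerivAt (fun s => u j s x) (ut j t x) t
  lap : ∀ j, ∀ t ∈ T, NeuLap Ω (u j t) (Du j t) (lu j t)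
  nonneg : ∀ j, ∀ t ∈ T, ∀ x ∈ closure Ω, 0 ≤ u j t x
  eq : ∀ j, ∀ t ∈ T, ∀ x ∈ closure Ω,
    ut j t x = d j * lu j t x + u j t x * (m x - ∑ k, u k t x)

/-- Positive steady state of the one species equation, with gradient and Laplacian. -/
structure Steady {n : ℕ} (Ω : Set (Sp n)) (d : ℝ) (m θ : Sp n → ℝ) (Dθ : Sp n → Sp n)
    (lθ : Sp n → ℝ) : Prop where
  pos : ∀ x ∈ closure Ω, 0 < θ x
  lap : NeuLap Ω θ Dθ lθ
  eq : ∀ x ∈ closure Ω, d * lθ x + θ x * (m x - θ x) = 0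

/-- `θ` is a positive solution of `d Δθ + θ (m - θ) = 0` in `Ω`, `∂θ/∂ν = 0` on `∂Ω`. -/
def IsSteady {n : ℕ} (Ω : Set (Sp n)) (d : ℝ) (m θ : Sp n → ℝ) : Prop :=
  ∃ (Dθ : Sp n → Sp n) (lθ : Sp n → ℝ), Steady Ω d m θ Dθ lθ

/-- Bounded forward trajectory in `K⁺`: continuous on `[0,∞) × closure Ω`, solution for `t > 0`. -/
def Forward {n N : ℕ} (Ω : Set (Sp n)) (d : Fin N → ℝ) (m : Sp n → ℝ)
    (u : Fin N → ℝ → Sp n → ℝ) : Prop :=
  (∃ ut Du lu, IsSol Ω d m (Ioi 0) u ut Du lu) ∧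
  (∀ j, ContinuousOn (fun p : ℝ × Sp n => u j p.1 p.2) (Ici (0:ℝ) ×ˢ closure Ω)) ∧
  ∃ C : ℝ, ∀ j, ∀ t, 0 ≤ t → ∀ x ∈ closure Ω, u j t x ≤ C

/-- Bounded entire trajectory in `K⁺`. -/
def Entire {n N : ℕ} (Ω : Set (Sp n)) (d : Fin N → ℝ) (m : Sp n → ℝ)
    (u : Fin N → ℝ → Sp n → ℝ) : Prop :=
  (∃ ut Du lu, IsSol Ω d m univ u ut Du lu) ∧
  ∃ C : ℝ, ∀ j t, ∀ x ∈ closure Ω, u j t x ≤ C

/-- Convergence of all components of `u t` to `E` in `L²(Ω)` as `t` runs along `l`. -/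
def ConvTo {n N : ℕ} (Ω : Set (Sp n)) (l : Filter ℝ) (u : Fin N → ℝ → Sp n → ℝ)
    (E : Fin N → Sp n → ℝ) : Prop :=
  ∀ j, Tendsto (fun t => ∫ x in Ω, (u j t x - E j x) ^ 2) l (𝓝 0)

/-- `v` is a limit point in `C(closure Ω)` of `u t` as `t` runs along `l` (`ω`-limit set for
`l = atTop`, `α`-limit set for `l = atBot`): `u (t_i) → v` uniformly on `closure Ω` for some
sequence `t_i` tending to `l`. -/
def IsLimPt {n N : ℕ} (Ω : Set (Sp n)) (l : Filter ℝ) (u : Fin N → ℝ → Sp n → ℝ)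
    (v : Fin N → Sp n → ℝ) : Prop :=
  ∃ t : ℕ → ℝ, Tendsto t atTop l ∧
    ∀ j, TendstoUniformlyOn (fun i => u j (t i)) (v j) atTop (closure Ω)

/-- `u t` converges to `E` in `L²(Ω)`, and its limit set in `C(closure Ω)` is contained in
`{E}`. -/
def LimIn {n N : ℕ} (Ω : Set (Sp n)) (l : Filter ℝ) (u : Fin N → ℝ → Sp n → ℝ)
    (E : Fin N → Sp n → ℝ) : Prop :=
  ConvTo Ω l u E ∧ ∀ v, IsLimPt Ω l u v → ∀ j, ∀ x ∈ closure Ω, v j x = E j x

/-- The equilibria: `Eqm θ i` is `E_i` (component `i` is `θ i`, the others vanish) for `i < N`, and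
`Eqm θ N` is `E_0 = (0,...,0)`. -/
noncomputable def Eqm {n N : ℕ} (θ : Fin N → Sp n → ℝ) (i : Fin (N + 1)) : Fin N → Sp n → ℝ :=
  fun j x => if (j : ℕ) = (i : ℕ) then θ j x else 0

/-- The ordered family of singletons `{M 0}, {M 1}, ...` is a Morse decomposition of the maximal
bounded invariant set in `K⁺`. -/
structure IsMorse {n N : ℕ} (Ω : Set (Sp n)) (d : Fin N → ℝ) (m : Sp n → ℝ)
    (M : Fin (N + 1) → Fin N → Sp n → ℝ) : Prop where
  /-- every `M i` is an equilibrium -/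
  equil : ∀ i, Entire Ω d m (fun j _ x => M i j x)
  /-- the sets are pairwise disjoint -/
  disj : ∀ i i', i ≠ i' → ∃ j, ∃ x ∈ closure Ω, M i j x ≠ M i' j x
  /-- every bounded forward trajectory converges to some `M i` -/
  conv : ∀ u, Forward Ω d m u → ∃ i, LimIn Ω atTop u (M i)
  /-- every bounded entire trajectory is one of the `M i` or goes from `M i'` to `M i` with
  `i < i'` -/
  conn : ∀ u, Entire Ω d m u →
    (∃ i, ∀ t j, ∀ x ∈ closure Ω, u j t x = M i j x) ∨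
    ∃ i i', i < i' ∧ LimIn Ω atTop u (M i) ∧ LimIn Ω atBot u (M i')

/-- Poincaré inequality on `Ω` with constant `P`. -/
def Poinc {n : ℕ} (Ω : Set (Sp n)) (P : ℝ) : Prop :=
  ∀ (φ : Sp n → ℝ) (Dφ : Sp n → Sp n), C1 Ω φ Dφ →
    ∃ c : ℝ, ∫ x in Ω, (φ x - c) ^ 2 ≤ P * ∫ x in Ω, ‖Dφ x‖ ^ 2

end Pool.Agent.Lib.MP_d8ef8f_an.Gd
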