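import Pool.Agent.Lib.MP_d8ef8f_an.Gd.Defs

/-!
# Lyapunov densities

A density for the base species `k`: a `C²` function `f` of the ratios `s_j = u_j / θ_k`, depending
only on `s_j`, `j ≥ k`, such that `∫ θ_k² f(s)` is a Lyapunov functional, in a quantitative form.
-/

set_option autoImplicit false

namespace Pool.Agent.Lib.MP_d8ef8f_an.Gd

open Set Filter Topology MeasureTheory

/-- sum of the ratios of the species above `k` -/
def Sab {N : ℕ} (k : Fin N) (s : Fin N → ℝ) : ℝ := ∑ j ∈ Finset.univ.filter (fun j => k < j), s j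

/-- sum of the ratios of the species `≥ k` -/
def len {N : ℕ} (k : Fin N) (s : Fin N → ℝ) : ℝ := s k + Sab k s

/-- the unit vector `e_k` -/
def ek {N : ℕ} (k : Fin N) : Fin N → ℝ := fun j => if j = k then 1 else 0

/-- admissible ratios with `len k s ≤ L` -/
def Adm {N : ℕ} (k : Fin N) (L : ℝ) (s : Fin N → ℝ) : Prop :=
  0 < s k ∧ (∀ j, 0 ≤ s j) ∧ len k s ≤ L

/-- the radial derivative `r = ∑ s_j f_j` -/
def rad {N : ℕ} (g : Fin N → (Fin N → ℝ) → ℝ) (s : Fin N → ℝ) : ℝ := ∑ j, s j * g j s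

/-- the quadratic form `Q(s; z, b) = ∑ d_i f_ij z_i z_j + b ∂_z ρ + b² ρ`,
`ρ = ∑ (d_i - d_k) s_i f_i`. -/
def Qf {N : ℕ} (d : Fin N → ℝ) (k : Fin N) (g : Fin N → (Fin N → ℝ) → ℝ)
    (h : Fin N → Fin N → (Fin N → ℝ) → ℝ) (s z : Fin N → ℝ) (b : ℝ) : ℝ :=
  (∑ i, ∑ j, d i * h i j s * z i * z j)
  + b * (∑ i, (d i - d k) * (z i * g i s + s i * ∑ j, h i j s * z j))
  + b ^ 2 * ∑ i, (d i - d k) * (s i * g i s)

/-- the convex function `p - 1 - log p` -/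
noncomputable def Gl (p : ℝ) : ℝ := p - 1 - Real.log p

/-- `f` (gradient `g`, Hessian `h`) is a Lyapunov density for the base species `k`. -/
structure Dens {N : ℕ} (d : Fin N → ℝ) (k : Fin N) (f : (Fin N → ℝ) → ℝ)
    (g : Fin N → (Fin N → ℝ) → ℝ) (h : Fin N → Fin N → (Fin N → ℝ) → ℝ) : Prop where
  /-- gradient -/
  df : ∀ s : Fin N → ℝ, 0 < s k → (∀ j, 0 ≤ s j) →
    HasFDerivAt f (∑ i, g i s • (ContinuousLinearMap.proj i : (Fin N → ℝ) →L[ℝ] ℝ)) s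
  /-- Hessian -/
  dg : ∀ i, ∀ s : Fin N → ℝ, 0 < s k → (∀ j, 0 ≤ s j) →
    HasFDerivAt (g i) (∑ j, h i j s • (ContinuousLinearMap.proj j : (Fin N → ℝ) →L[ℝ] ℝ)) s
  ch : ∀ i j, ContinuousOn (h i j) {s | 0 < s k ∧ ∀ j, 0 ≤ s j}
  /-- `f` does not depend on the species below `k` -/
  low : ∀ j, j < k → ∀ s, g j s = 0
  /-- bounds on the sets `len k s ≤ L` -/
  bd : ∀ L : ℝ, ∃ c C : ℝ, 0 < c ∧ 0 < C ∧ ∀ s, Adm k L s →
    (∀ (z : Fin N → ℝ) (b : ℝ),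
      c * ((1 - 1 / s k) ^ 2 * z k ^ 2 + (∑ j ∈ Finset.univ.filter (fun j => k < j), z j ^ 2)
        + b ^ 2 * Sab k s ^ 2) ≤ Qf d k g h s z b) ∧
    c * |len k s - 1| ^ 3 ≤ (len k s - 1) * rad g s ∧
    |rad g s| ≤ C ∧ |g k s| ≤ C / s k ∧
    c * (|s k - 1| ^ 3 + Sab k s ^ 2) ≤ f s - f (ek k) ∧
    - Real.log (s k) ≤ C * (1 + (f s - f (ek k))) ∧
    f s - f (ek k) ≤ C * (Gl (s k) + |s k - 1| + Sab k s)

end Pool.Agent.Lib.MP_d8ef8f_an.Gd
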