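import Mathlib

/-!
# The quadratic form of the Lyapunov density: scalar inequalities
-/

set_option autoImplicit false

namespace Pool.Agent.Lib.MP_d8ef8f_an.Gd

theorem df_am {α γ c : ℝ} (u v : ℝ) (hα : 0 ≤ α) (hγ : 0 ≤ γ) (h : c ^ 2 ≤ 4 * α * γ) :
    c * u * v ≤ α * u ^ 2 + γ * v ^ 2 := by
  rcases hα.eq_or_lt with h0 | h0
  · subst h0
    have hc : c = 0 := by
      have : c ^ 2 ≤ 0 := by linarith
      exact pow_eq_zero_iff two_ne_zero |>.1 (le_antisymm this (sq_nonneg c))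
    subst hc
    have := mul_nonneg hγ (sq_nonneg v)
    linarith
  · have h1 : 0 ≤ 4 * α * (α * u ^ 2 + γ * v ^ 2 - c * u * v) := by
      have h2 : 4 * α * (α * u ^ 2 + γ * v ^ 2 - c * u * v) =
          (2 * α * u - c * v) ^ 2 + (4 * α * γ - c ^ 2) * v ^ 2 := by ring
      rw [h2]
      have h3 : 0 ≤ (4 * α * γ - c ^ 2) * v ^ 2 := mul_nonneg (by linarith) (sq_nonneg v)
      have h4 := sq_nonneg (2 * α * u - c * v)
      linarith
    have h2 : 0 ≤ α * u ^ 2 + γ * v ^ 2 - c * u * v :=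
      nonneg_of_mul_nonneg_right h1 (by positivity)
    linarith

/-- if `q² ≤ 4 u v` then `-q ≤ u + v` -/
theorem df_am2 {q u v : ℝ} (hu : 0 ≤ u) (hv : 0 ≤ v) (h : q ^ 2 ≤ 4 * (u * v)) :
    -(u + v) ≤ q := by
  have h1 : |q| ≤ u + v := by
    apply abs_le_of_sq_le_sq _ (by linarith)
    nlinarith [sq_nonneg (u - v)]
  linarith [neg_abs_le q]

/-- products of bounded quantities -/
theorem df_mul {a b A B : ℝ} (ha : |a| ≤ A) (hb : |b| ≤ B) : -(A * B) ≤ a * b := by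
  have h1 : |a * b| ≤ A * B := by
    rw [abs_mul]
    exact mul_le_mul ha hb (abs_nonneg b) ((abs_nonneg a).trans ha)
  linarith [neg_abs_le (a * b)]

/-- the parameters -/
structure DfPar (L η l D g h : ℝ) : Prop where
  hL : 1 ≤ L
  hη : 64 * L ^ 2 * η = 1
  hl : 0 < l
  hlD : l ≤ D
  hD : D ≤ L - 1
  hh : 0 ≤ h
  hg : h ≤ g
  hc : 128 * L ^ 2 * g ^ 2 ≤ l

theorem DfPar.η0 {L η l D g h : ℝ} (H : DfPar L η l D g h) : 0 < η := by
  have h1 := H.hη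
  have h2 : 0 < L := by linarith [H.hL]
  by_contra hc
  push Not at hc
  have : 64 * L ^ 2 * η ≤ 0 := mul_nonpos_of_nonneg_of_nonpos (by positivity) hc
  linarith

theorem DfPar.η1 {L η l D g h : ℝ} (H : DfPar L η l D g h) : η ≤ 1 / 64 := by
  have h1 := H.hη
  have h2 := H.hL
  have h3 := H.η0
  have h4 : 1 ≤ L ^ 2 := one_le_pow₀ h2
  nlinarith

/-- `η (L - 1) ≤ 1/256` -/
theorem DfPar.ηL {L η l D g h : ℝ} (H : DfPar L η l D g h) : η * (L - 1) ≤ 1 / 256 := by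
  have h1 := H.hη
  have h3 := H.η0
  have h4 : 4 * (L - 1) ≤ L ^ 2 := by nlinarith [sq_nonneg (L - 2)]
  nlinarith

/-- `η D ≤ 1/256` -/
theorem DfPar.ηD {L η l D g h : ℝ} (H : DfPar L η l D g h) : η * D ≤ 1 / 256 := by
  have h1 := H.ηL
  have h2 := mul_le_mul_of_nonneg_left H.hD H.η0.le
  linarith

/-- `g² ≤ (η/2) l` -/
theorem DfPar.g2 {L η l D g h : ℝ} (H : DfPar L η l D g h) : g ^ 2 ≤ η / 2 * l := by
  have h1 := H.hη
  have h2 := H.hc
  have h3 := H.η0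
  have h4 : η * (128 * L ^ 2 * g ^ 2) ≤ η * l := mul_le_mul_of_nonneg_left h2 h3.le
  have h5 : η * (128 * L ^ 2 * g ^ 2) = (64 * L ^ 2 * η) * (2 * g ^ 2) := by ring
  rw [h5, h1] at h4
  linarith

theorem DfPar.h2 {L η l D g h : ℝ} (H : DfPar L η l D g h) : h ^ 2 ≤ g ^ 2 :=
  pow_le_pow_left₀ H.hh H.hg 2

theorem DfPar.g1 {L η l D g h : ℝ} (H : DfPar L η l D g h) : g ^ 2 ≤ 1 / 512 := by
  have h1 := H.g2
  have h2 := H.ηD
  have h3 := mul_le_mul_of_nonneg_left H.hlD H.η0.le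
  linarith

theorem DfPar.g0 {L η l D g h : ℝ} (H : DfPar L η l D g h) : g ≤ 9 / 200 := by
  have h1 := H.g1
  have h2 := H.hh.trans H.hg
  nlinarith

/-- bound of `P + b R²/2` -/
theorem df_PB {σ R Z x b β P : ℝ} (hR : 0 ≤ R) (hRσ : R ≤ σ) (hβ : β = x + b * σ)
    (hP : |P| ≤ R * Z) : |P + 1 / 2 * b * R ^ 2| ≤ R * (Z + 1 / 2 * |β| + 1 / 2 * |x|) := by
  have h1 : |b| * σ ≤ |β| + |x| := by
    have h2 : |b * σ| ≤ |β| + |x| := by
      have h3 : b * σ = β - x := by rw [hβ]; ring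
      rw [h3]
      exact abs_sub β x
    rwa [abs_mul, abs_of_nonneg (hR.trans hRσ)] at h2
  have h2 : |b| * R ≤ |β| + |x| := (mul_le_mul_of_nonneg_left hRσ (abs_nonneg b)).trans h1
  have h3 : |1 / 2 * b * R ^ 2| = 1 / 2 * R * (|b| * R) := by
    rw [abs_mul, abs_mul, abs_of_nonneg (by positivity : (0:ℝ) ≤ R ^ 2),
      abs_of_pos (by norm_num : (0:ℝ) < 1 / 2)]
    ring
  have h4 := abs_add_le P (1 / 2 * b * R ^ 2)
  have h5 : 1 / 2 * R * (|b| * R) ≤ 1 / 2 * R * (|β| + |x|) :=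
    mul_le_mul_of_nonneg_left h2 (by positivity)
  rw [h3] at h4
  linarith

/-- the inner region -/
theorem df_inside {L η l D g h : ℝ} (H : DfPar L η l D g h)
    {p σ R Z x w b β P G Y A φ φ1 φ2 c2 : ℝ}
    (hR : 0 ≤ R) (hRσ : R ≤ σ) (hp : 0 < p) (hσ : p + σ ≤ 1) (hZ : 0 ≤ Z) (hA : 0 ≤ A)
    (hβ : β = x + b * σ) (hP : |P| ≤ R * Z) (hG : |G| ≤ g * Z + h * |x|)
    (hY : Y ^ 2 ≤ (L - 1) * R ^ 2 * A) (hφ : 1 ≤ φ) (hφ1 : |φ1| ≤ 4) (hφ2 : 0 ≤ φ2)
    (hψ : R ^ 2 * φ2 ≤ 32 * L) (hc2 : c2 * p ^ 2 = 1 - p ^ 2) :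
    1 / 100 * (c2 * w ^ 2 + x ^ 2 + η * Z ^ 2 + D * β ^ 2) ≤
      c2 * w ^ 2 + x ^ 2 + η * (φ * Z ^ 2 + 2 * φ1 * P * (w + x)
        + 1 / 2 * R ^ 2 * φ2 * (w + x) ^ 2)
      + (D * β + G) * (β + η * (φ1 * (P + 1 / 2 * b * R ^ 2) + 1 / 2 * R ^ 2 * φ2 * (w + x)))
      + η * φ * A + η * φ1 * (w + x) * Y := by
  have hη0 := H.η0
  have hη1 := H.η1
  have hL := H.hL
  have hL1 : 0 ≤ L - 1 := by linarith
  have hηL := H.ηL
  have hηD := H.ηD
  have hl := H.hl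
  have hlD := H.hlD
  have hD0 : 0 < D := hl.trans_le hlD
  have hg2 := H.g2
  have hg1 := H.g1
  have hh2 := H.h2
  have hg0 := H.g0
  have hh := H.hh
  have hg : 0 ≤ g := hh.trans H.hg
  have hσ0 : 0 ≤ σ := hR.trans hRσ
  have hσ1 : σ ≤ 1 := by linarith
  have hR1 : R ≤ 1 := hRσ.trans hσ1
  have hR2 : R ^ 2 ≤ σ := by nlinarith
  have hφ1s : φ1 ^ 2 ≤ 16 := by
    have := sq_abs φ1
    nlinarith [abs_nonneg φ1]
  obtain ⟨zt, hzt⟩ : ∃ zt, zt = w + x := ⟨_, rfl⟩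
  rw [← hzt]
  obtain ⟨ψ, hψd⟩ : ∃ ψ, ψ = η * (1 / 2 * R ^ 2 * φ2) := ⟨_, rfl⟩
  have hψ0 : 0 ≤ ψ := by rw [hψd]; positivity
  have hψ1 : ψ ≤ 16 * L * η := by
    rw [hψd]
    have := mul_le_mul_of_nonneg_left hψ hη0.le
    linarith
  have hηLL : 64 * L * (η * L) = 1 := by
    have := H.hη
    linarith
  have hηLs : η * L ≤ 1 / 64 := by nlinarith
  have hψ4 : ψ ≤ 1 / 4 := by linarith
  -- the term from `c2 w² + x²`
  have hz1 : (1 - p ^ 2) * zt ^ 2 ≤ c2 * w ^ 2 + x ^ 2 := by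
    have h1 : p ^ 2 * (c2 * w ^ 2 + x ^ 2 - (1 - p ^ 2) * zt ^ 2) =
        (p ^ 2 * x - (1 - p ^ 2) * w) ^ 2 := by
      have h2 : p ^ 2 * (c2 * w ^ 2 + x ^ 2 - (1 - p ^ 2) * zt ^ 2) =
        (c2 * p ^ 2) * w ^ 2 + p ^ 2 * x ^ 2 - p ^ 2 * (1 - p ^ 2) * zt ^ 2 := by ring
      rw [h2, hc2, hzt]
      ring
    have h3 : 0 ≤ c2 * w ^ 2 + x ^ 2 - (1 - p ^ 2) * zt ^ 2 := by
      have h4 : 0 ≤ p ^ 2 * (c2 * w ^ 2 + x ^ 2 - (1 - p ^ 2) * zt ^ 2) := by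
        rw [h1]; positivity
      exact nonneg_of_mul_nonneg_right h4 (by positivity)
    linarith
  have hp2 : σ ≤ 1 - p ^ 2 := by nlinarith
  have hz2 : σ * zt ^ 2 ≤ c2 * w ^ 2 + x ^ 2 :=
    (mul_le_mul_of_nonneg_right hp2 (sq_nonneg zt)).trans hz1
  have hc20 : 0 ≤ c2 := by
    have h1 : 0 ≤ c2 * p ^ 2 := by rw [hc2]; linarith
    exact nonneg_of_mul_nonneg_left h1 (by positivity)
  -- B2
  have e1 : |φ1 * P| ≤ |φ1| * (R * Z) := by
    rw [abs_mul]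
    exact mul_le_mul_of_nonneg_left hP (abs_nonneg _)
  have b2a := df_mul e1 (le_refl |zt|)
  have b2b := df_am (α := 3 / 10 * (η * φ)) (γ := 5 / 6 * σ) (c := 2 * η * (|φ1| * R)) Z |zt|
    (by positivity) (by positivity) (by
      have h1 : (2 * η * (|φ1| * R)) ^ 2 = 4 * η * (φ1 ^ 2 * R ^ 2) * η := by
        rw [← sq_abs φ1]; ring
      have h2 : φ1 ^ 2 * R ^ 2 ≤ 16 * σ := mul_le_mul hφ1s hR2 (sq_nonneg R) (by norm_num)
      have h3 : 4 * η * (φ1 ^ 2 * R ^ 2) ≤ σ := by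
        have h4 : 4 * η * (φ1 ^ 2 * R ^ 2) ≤ 4 * η * (16 * σ) :=
          mul_le_mul_of_nonneg_left h2 (by positivity)
        have h5 : η * σ ≤ 1 / 64 * σ := mul_le_mul_of_nonneg_right hη1 hσ0
        linarith
      have h6 : 4 * η * (φ1 ^ 2 * R ^ 2) * η ≤ σ * η := mul_le_mul_of_nonneg_right h3 hη0.le
      have h7 : σ * η * 1 ≤ σ * η * φ := mul_le_mul_of_nonneg_left hφ (by positivity)
      rw [h1]
      linarith)
  rw [sq_abs] at b2b
  -- B3
  have b3 := df_am2 (q := η * φ1 * zt * Y) (u := η * φ * A) (v := 1 / 64 * (σ * zt ^ 2))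
    (by positivity) (by positivity) (by
      have h1 : (η * φ1 * zt * Y) ^ 2 = (η * zt ^ 2) * (η * φ1 ^ 2 * Y ^ 2) := by ring
      have h2 : φ1 ^ 2 * Y ^ 2 ≤ 16 * ((L - 1) * R ^ 2 * A) :=
        mul_le_mul hφ1s hY (sq_nonneg Y) (by norm_num)
      have h3 : η * φ1 ^ 2 * Y ^ 2 ≤ 16 * (η * (L - 1)) * (R ^ 2 * A) := by
        have := mul_le_mul_of_nonneg_left h2 hη0.le
        linarith
      have h4 : 16 * (η * (L - 1)) * (R ^ 2 * A) ≤ 1 / 16 * (σ * A) := by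
        have h5 : R ^ 2 * A ≤ σ * A := mul_le_mul_of_nonneg_right hR2 hA
        have h6 : 16 * (η * (L - 1)) * (R ^ 2 * A) ≤ 16 * (1 / 256) * (R ^ 2 * A) :=
          mul_le_mul_of_nonneg_right (by linarith) (by positivity)
        linarith
      have h7 : (η * zt ^ 2) * (η * φ1 ^ 2 * Y ^ 2) ≤ (η * zt ^ 2) * (1 / 16 * (σ * A)) :=
        mul_le_mul_of_nonneg_left (h3.trans h4) (by positivity)
      have h8 : η * zt ^ 2 * σ * A * 1 ≤ η * zt ^ 2 * σ * A * φ :=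
        mul_le_mul_of_nonneg_left hφ (by positivity)
      rw [h1]
      linarith)
  -- the product
  have hDG : |D * β + G| ≤ D * |β| + g * Z + h * |x| := by
    have h1 := abs_add_le (D * β) G
    rw [abs_mul, abs_of_pos hD0] at h1
    linarith
  have hM1 : |η * (φ1 * (P + 1 / 2 * b * R ^ 2))| ≤ η * (4 * Z + 2 * |β| + 2 * |x|) := by
    rw [abs_mul, abs_of_pos hη0, abs_mul]
    apply mul_le_mul_of_nonneg_left _ hη0.le
    have h1 := df_PB hR hRσ hβ hP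
    have h2 : R * (Z + 1 / 2 * |β| + 1 / 2 * |x|) ≤ 1 * (Z + 1 / 2 * |β| + 1 / 2 * |x|) :=
      mul_le_mul_of_nonneg_right hR1 (by positivity)
    have h3 := mul_le_mul hφ1 (h1.trans h2) (abs_nonneg _) (by norm_num : (0:ℝ) ≤ 4)
    linarith
  have b4 := df_mul hDG hM1
  have hM2 : |ψ * zt| ≤ ψ * |zt| := by rw [abs_mul, abs_of_nonneg hψ0]
  have b5 := df_mul hDG hM2
  have b1 := df_mul hG (le_refl |β|)
  -- the remaining products
  have q1 := df_am (α := 1 / 5 * D) (γ := 5 / 16 * ψ) (c := ψ * D) |β| |zt|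
    (by positivity) (by positivity) (by
      have h1 : ψ * D ≤ 1 / 4 := by
        have h2 : ψ * D ≤ 16 * L * η * D := mul_le_mul_of_nonneg_right hψ1 hD0.le
        have h3 : L * η * D ≤ L * η * (L - 1) := mul_le_mul_of_nonneg_left H.hD (by positivity)
        nlinarith
      have h2 : (ψ * D) * (ψ * D) ≤ (1 / 4) * (ψ * D) :=
        mul_le_mul_of_nonneg_right h1 (by positivity)
      linarith)
  have q2 := df_am (α := 1 / 16 * η) (γ := 1 / 2 * ψ) (c := ψ * g) Z |zt|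
    (by positivity) (by positivity) (by
      have h1 : 128 * L * g ^ 2 ≤ 1 := by
        have h2 := H.hc
        have h3 := H.hD
        have h4 : L * (128 * L * g ^ 2) ≤ L * 1 := by linarith
        exact le_of_mul_le_mul_left h4 (by linarith)
      have h2 : ψ * g ^ 2 ≤ 16 * L * η * g ^ 2 := mul_le_mul_of_nonneg_right hψ1 (sq_nonneg g)
      have h3 : η * (128 * L * g ^ 2) ≤ η * 1 := mul_le_mul_of_nonneg_left h1 hη0.le
      have h4 : ψ * (ψ * g ^ 2) ≤ ψ * (1 / 8 * η) := mul_le_mul_of_nonneg_left (by linarith) hψ0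
      linarith)
  have q3 := df_am (α := 1 / 100) (γ := 1 / 16 * ψ) (c := ψ * h) |x| |zt|
    (by positivity) (by positivity) (by
      have h1 : ψ * h ^ 2 ≤ 1 / 400 := by nlinarith [sq_nonneg h]
      have h4 : ψ * (ψ * h ^ 2) ≤ ψ * (1 / 400) := mul_le_mul_of_nonneg_left h1 hψ0
      linarith)
  have q4 := df_am (α := 1 / 4 * η) (γ := 1 / 2 * D) (c := g) Z |β|
    (by positivity) (by positivity) (by nlinarith)
  have q5 := df_am (α := 1 / 25) (γ := 1 / 20 * D) (c := h) |x| |β|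
    (by positivity) (by positivity) (by nlinarith)
  have q6 := df_am (α := 1 / 8 * D) (γ := 1 / 8 * η) (c := 4 * η * D) |β| Z
    (by positivity) (by positivity) (by
      have h1 : (η * D) * (η * D) ≤ (1 / 256) * (η * D) :=
        mul_le_mul_of_nonneg_right hηD (by positivity)
      linarith)
  have q7 := df_am (α := 1 / 100 * D) (γ := 1 / 100) (c := 2 * η * D) |β| |x|
    (by positivity) (by positivity) (by
      have h1 : η * (η * D) ≤ 1 / 64 * (1 / 256) := mul_le_mul hη1 hηD (by positivity) (by norm_num)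
      have h2 : D * (η * (η * D)) ≤ D * (1 / 64 * (1 / 256)) :=
        mul_le_mul_of_nonneg_left h1 hD0.le
      linarith)
  have hηη : η * η ≤ 1 / 64 * (1 / 64) := mul_le_mul hη1 hη1 hη0.le (by norm_num)
  have q8 := df_am (α := 1 / 100 * η) (γ := 1 / 50 * D) (c := 2 * η * g) Z |β|
    (by positivity) (by positivity) (by
      have h1 : η * g ^ 2 ≤ 1 / 8192 * l := by
        have h2 : η * g ^ 2 ≤ η * (η / 2 * l) := mul_le_mul_of_nonneg_left hg2 hη0.le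
        have h3 : η * η * l ≤ 1 / 64 * (1 / 64) * l := mul_le_mul_of_nonneg_right hηη hl.le
        linarith
      have h4 : η * (η * g ^ 2) ≤ η * (1 / 5000 * D) :=
        mul_le_mul_of_nonneg_left (by linarith) hη0.le
      linarith)
  have hηg : η * g ^ 2 ≤ 1 / 64 * (1 / 512) := mul_le_mul hη1 hg1 (sq_nonneg g) (by norm_num)
  have hηh : η * h ^ 2 ≤ 1 / 64 * (1 / 512) :=
    mul_le_mul hη1 (hh2.trans hg1) (sq_nonneg h) (by norm_num)
  have q9 := df_am (α := 1 / 100 * η) (γ := 1 / 100) (c := 2 * η * g) Z |x|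
    (by positivity) (by positivity) (by
      have h4 : η * (η * g ^ 2) ≤ η * (1 / 64 * (1 / 512)) := mul_le_mul_of_nonneg_left hηg hη0.le
      linarith)
  have q10 := df_am (α := 1 / 50) (γ := 1 / 100 * η) (c := 4 * η * h) |x| Z
    (by positivity) (by positivity) (by
      have h4 : η * (η * h ^ 2) ≤ η * (1 / 64 * (1 / 512)) := mul_le_mul_of_nonneg_left hηh hη0.le
      linarith)
  have q11 := df_am (α := 1 / 100) (γ := 1 / 100 * D) (c := 2 * η * h) |x| |β|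
    (by positivity) (by positivity) (by
      have h1 : η * h ^ 2 ≤ 1 / 8192 * l := by
        have h2 : η * h ^ 2 ≤ η * (η / 2 * l) := mul_le_mul_of_nonneg_left (hh2.trans hg2) hη0.le
        have h3 : η * η * l ≤ 1 / 64 * (1 / 64) * l := mul_le_mul_of_nonneg_right hηη hl.le
        linarith
      have h4 : η * (η * h ^ 2) ≤ 1 / 64 * (1 / 8192 * l) :=
        mul_le_mul hη1 h1 (by positivity) (by norm_num)
      linarith)
  have q12 : 2 * η * h * |x| ^ 2 ≤ 1 / 500 * |x| ^ 2 := by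
    apply mul_le_mul_of_nonneg_right _ (sq_nonneg _)
    have h1 : η * h ≤ 1 / 64 * (9 / 200) := mul_le_mul hη1 (H.hg.trans hg0) hh (by norm_num)
    linarith
  have q13 : 2 * η * D * |β| ^ 2 ≤ 1 / 32 * D * |β| ^ 2 := by
    apply mul_le_mul_of_nonneg_right _ (sq_nonneg _)
    have := mul_le_mul_of_nonneg_right hη1 hD0.le
    linarith
  have q14 : 4 * η * g * Z ^ 2 ≤ 9 / 50 * η * Z ^ 2 := by
    apply mul_le_mul_of_nonneg_right _ (sq_nonneg _)
    have := mul_le_mul_of_nonneg_left hg0 hη0.le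
    linarith
  have q15 : η * Z ^ 2 ≤ η * φ * Z ^ 2 := by
    apply mul_le_mul_of_nonneg_right _ (sq_nonneg _)
    have := mul_le_mul_of_nonneg_left hφ hη0.le
    linarith
  have b2c : -(2 * η * (|φ1| * R) * Z * |zt|) ≤ 2 * η * (φ1 * P * zt) := by
    have := mul_le_mul_of_nonneg_left b2a (by positivity : 0 ≤ 2 * η)
    linarith
  simp only [sq_abs] at q1 q2 q3 q4 q5 q6 q7 q8 q9 q10 q11
  have q12' : 2 * η * h * |x| ^ 2 ≤ 1 / 500 * x ^ 2 := by
    rw [← sq_abs x]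
    exact q12
  have q13' : 2 * η * D * |β| ^ 2 ≤ 1 / 32 * D * β ^ 2 := by
    rw [← sq_abs β]
    exact q13
  have hx0 := sq_nonneg x
  have hw0 : 0 ≤ c2 * w ^ 2 := by positivity
  have hψz : 0 ≤ ψ * zt ^ 2 := by positivity
  have hσz : 0 ≤ σ * zt ^ 2 := by positivity
  have hDb : 0 ≤ D * β ^ 2 := by positivity
  have hηZ : 0 ≤ η * Z ^ 2 := by positivity
  have key : c2 * w ^ 2 + x ^ 2 + η * (φ * Z ^ 2 + 2 * φ1 * P * zt
        + 1 / 2 * R ^ 2 * φ2 * zt ^ 2)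
      + (D * β + G) * (β + η * (φ1 * (P + 1 / 2 * b * R ^ 2) + 1 / 2 * R ^ 2 * φ2 * zt))
      + η * φ * A + η * φ1 * zt * Y =
      c2 * w ^ 2 + x ^ 2 + η * φ * Z ^ 2 + 2 * η * (φ1 * P * zt) + ψ * zt ^ 2
      + D * β ^ 2 + G * β + (D * β + G) * (η * (φ1 * (P + 1 / 2 * b * R ^ 2)))
      + (D * β + G) * (ψ * zt) + η * φ * A + η * φ1 * zt * Y := by
    rw [hψd]; ring
  rw [key]
  have s1 : -((D * |β| + g * Z + h * |x|) * (η * (4 * Z + 2 * |β| + 2 * |x|))) =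
      -(4 * η * D * |β| * Z + 2 * η * D * |β| ^ 2 + 2 * η * D * |β| * |x| + 4 * η * g * Z ^ 2
        + 2 * η * g * Z * |β| + 2 * η * g * Z * |x| + 4 * η * h * |x| * Z
        + 2 * η * h * |x| * |β| + 2 * η * h * |x| ^ 2) := by ring
  have s2 : -((D * |β| + g * Z + h * |x|) * (ψ * |zt|)) =
      -(ψ * D * |β| * |zt| + ψ * g * Z * |zt| + ψ * h * |x| * |zt|) := by ring
  have s3 : -((g * Z + h * |x|) * |β|) = -(g * Z * |β| + h * |x| * |β|) := by ring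
  rw [s1] at b4
  rw [s2] at b5
  rw [s3] at b1
  linarith

end Pool.Agent.Lib.MP_d8ef8f_an.Gd
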