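import Pool.Agent.Lib.MP_d8ef8f_an.Gd.Df2

/-!
# The quadratic form of the Lyapunov density: the outer region
-/

set_option autoImplicit false

namespace Pool.Agent.Lib.MP_d8ef8f_an.Gd

/-- the outer region -/
theorem df_outside {L η l D g h : ℝ} (H : DfPar L η l D g h)
    {σ R Z x w b β P G Y A φ φ1 φ2 c2 : ℝ}
    (hR : 0 ≤ R) (hRσ : R ≤ σ) (hZ : 0 ≤ Z) (hA : 0 ≤ A)
    (hβ : β = x + b * σ) (hP : |P| ≤ R * Z) (hG : |G| ≤ g * Z + h * |x|)
    (hY : Y ^ 2 ≤ (L - 1) * R ^ 2 * A) (hφ : 7 / 8 ≤ φ) (hφ1 : |φ1| * R ≤ 2) (hφ2 : 0 ≤ φ2)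
    (hκ : 8 * L * φ1 ^ 2 ≤ φ * φ2) (hψ : R ^ 2 * φ2 ≤ 168 / 5 * L) (hc2 : 0 ≤ c2) :
    1 / 100 * (c2 * w ^ 2 + x ^ 2 + η * Z ^ 2 + D * β ^ 2) ≤
      c2 * w ^ 2 + x ^ 2 + η * (φ * Z ^ 2 + 2 * φ1 * P * (w + x)
        + 1 / 2 * R ^ 2 * φ2 * (w + x) ^ 2)
      + (D * β + G) * (β + η * (φ1 * (P + 1 / 2 * b * R ^ 2) + 1 / 2 * R ^ 2 * φ2 * (w + x)))
      + η * φ * A + η * φ1 * (w + x) * Y := by
  have hη0 := H.η0
  have hη1 := H.η1
  have hL := H.hL
  have hL1 : 0 ≤ L - 1 := by linarith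
  have hL0 : 0 < L := by linarith
  have hηL := H.ηL
  have hηD := H.ηD
  have hl := H.hl
  have hlD := H.hlD
  have hD0 : 0 < D := hl.trans_le hlD
  have hg2 := H.g2
  have hg1 := H.g1
  have hh2 := H.h2
  have hg0 := H.g0
  have hh := H.hh
  have hg : 0 ≤ g := hh.trans H.hg
  have hσ0 : 0 ≤ σ := hR.trans hRσ
  have hφ0 : 0 < φ := by linarith
  obtain ⟨zt, hzt⟩ : ∃ zt, zt = w + x := ⟨_, rfl⟩
  rw [← hzt]
  obtain ⟨ψ, hψd⟩ : ∃ ψ, ψ = η * (1 / 2 * R ^ 2 * φ2) := ⟨_, rfl⟩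
  have hψ0 : 0 ≤ ψ := by rw [hψd]; positivity
  have hψ1 : ψ ≤ 84 / 5 * L * η := by
    rw [hψd]
    have := mul_le_mul_of_nonneg_left hψ hη0.le
    linarith
  have hηLL : 64 * L * (η * L) = 1 := by
    have := H.hη
    linarith
  -- `λ = 1/L`, `μ = (L-1)/L`
  obtain ⟨lm, hlm⟩ : ∃ lm, lm = 1 / L := ⟨_, rfl⟩
  have hlm0 : 0 < lm := by rw [hlm]; positivity
  have hlmL : lm * L = 1 := by rw [hlm]; field_simp
  have hlm1 : lm ≤ 1 := by nlinarith
  obtain ⟨μ, hμ⟩ : ∃ μ, μ = 1 - lm := ⟨_, rfl⟩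
  have hμ0 : 0 ≤ μ := by rw [hμ]; linarith
  have hμL : μ * L = L - 1 := by
    rw [hμ]
    have : (1 - lm) * L = L - lm * L := by ring
    rw [this, hlmL]
  have hηlm : η * L = 1 / 64 * lm := by
    have h1 : L * (η * L) = L * (1 / 64 * lm) := by
      have h2 : L * (1 / 64 * lm) = 1 / 64 * (lm * L) := by ring
      rw [h2, hlmL]
      linarith
    exact mul_left_cancel₀ hL0.ne' h1
  have hψlm : ψ ≤ 21 / 80 * lm := by
    have h1 : 84 / 5 * L * η = 84 / 5 * (η * L) := by ring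
    rw [h1, hηlm] at hψ1
    linarith
  -- `φ ψ ≥ 4 L η R² φ1²`
  have hφψ : 4 * L * (η * (R ^ 2 * φ1 ^ 2)) ≤ φ * ψ := by
    have h1 : η * R ^ 2 * (8 * L * φ1 ^ 2) ≤ η * R ^ 2 * (φ * φ2) :=
      mul_le_mul_of_nonneg_left hκ (by positivity)
    rw [hψd]
    linarith
  -- B2
  have e1 : |φ1 * P| ≤ |φ1| * (R * Z) := by
    rw [abs_mul]
    exact mul_le_mul_of_nonneg_left hP (abs_nonneg _)
  have b2a := df_mul e1 (le_refl |zt|)
  have b2b := df_am (α := 2 / 5 * (η * φ)) (γ := 5 / 8 * lm * ψ) (c := 2 * η * (|φ1| * R)) Z |zt|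
    (by positivity) (by positivity) (by
      have h1 : (2 * η * (|φ1| * R)) ^ 2 = η * lm * (4 * L * (η * (R ^ 2 * φ1 ^ 2))) := by
        have h2 : η * lm * (4 * L * (η * (R ^ 2 * φ1 ^ 2))) =
          (lm * L) * (4 * η ^ 2 * R ^ 2 * φ1 ^ 2) := by ring
        rw [h2, hlmL, ← sq_abs φ1]; ring
      have h3 := mul_le_mul_of_nonneg_left hφψ (by positivity : 0 ≤ η * lm)
      rw [h1]
      linarith)
  -- B3
  have b3 := df_am2 (q := η * φ1 * zt * Y) (u := η * φ * A) (v := 1 / 16 * μ * (ψ * zt ^ 2))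
    (by positivity) (by positivity) (by
      have h1 : (η * φ1 * zt * Y) ^ 2 = (η ^ 2 * zt ^ 2 * φ1 ^ 2) * Y ^ 2 := by ring
      have h2 : (η ^ 2 * zt ^ 2 * φ1 ^ 2) * Y ^ 2 ≤
          (η ^ 2 * zt ^ 2 * φ1 ^ 2) * ((L - 1) * R ^ 2 * A) :=
        mul_le_mul_of_nonneg_left hY (by positivity)
      have h3 : (η ^ 2 * zt ^ 2 * φ1 ^ 2) * ((L - 1) * R ^ 2 * A) =
          1 / 4 * μ * (η * zt ^ 2 * A) * (4 * L * (η * (R ^ 2 * φ1 ^ 2))) := by
        rw [← hμL]; ring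
      have h4 := mul_le_mul_of_nonneg_left hφψ (by positivity : 0 ≤ 1 / 4 * μ * (η * zt ^ 2 * A))
      rw [h1]
      rw [h3] at h2
      linarith)
  -- the product
  have hDG : |D * β + G| ≤ D * |β| + g * Z + h * |x| := by
    have h1 := abs_add_le (D * β) G
    rw [abs_mul, abs_of_pos hD0] at h1
    linarith
  have hM1 : |η * (φ1 * (P + 1 / 2 * b * R ^ 2))| ≤ η * (2 * Z + |β| + |x|) := by
    rw [abs_mul, abs_of_pos hη0, abs_mul]
    apply mul_le_mul_of_nonneg_left _ hη0.le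
    have h1 := mul_le_mul_of_nonneg_left (df_PB hR hRσ hβ hP) (abs_nonneg φ1)
    have h2 : (|φ1| * R) * (Z + 1 / 2 * |β| + 1 / 2 * |x|) ≤ 2 * (Z + 1 / 2 * |β| + 1 / 2 * |x|) :=
      mul_le_mul_of_nonneg_right hφ1 (by positivity)
    linarith
  have b4 := df_mul hDG hM1
  have hM2 : |ψ * zt| ≤ ψ * |zt| := by rw [abs_mul, abs_of_nonneg hψ0]
  have b5 := df_mul hDG hM2
  have b1 := df_mul hG (le_refl |β|)
  -- the remaining products
  have hlmD : lm * D ≤ μ := by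
    have h1 := mul_le_mul_of_nonneg_left H.hD hlm0.le
    have h2 : lm * (L - 1) = lm * L - lm := by ring
    rw [h2, hlmL] at h1
    rw [hμ]
    exact h1
  have hlml : lm * l ≤ μ := (mul_le_mul_of_nonneg_left hlD hlm0.le).trans hlmD
  have hg2' : g ^ 2 ≤ 1 / 128 * (lm ^ 2 * l) := by
    have h1 := mul_le_mul_of_nonneg_left H.hc (by positivity : 0 ≤ lm ^ 2)
    have h2 : lm ^ 2 * (128 * L ^ 2 * g ^ 2) = (lm * L) ^ 2 * (128 * g ^ 2) := by ring
    rw [h2, hlmL] at h1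
    linarith
  have q1 := df_am (α := 3 / 20 * D) (γ := 7 / 16 * μ * ψ) (c := ψ * D) |β| |zt|
    (by positivity) (by positivity) (by
      have h2 : ψ * D ≤ 21 / 80 * lm * D := mul_le_mul_of_nonneg_right hψlm hD0.le
      have h3 : ψ * D ≤ 21 / 80 * μ := by linarith
      have h4 : (ψ * D) * (ψ * D) ≤ (ψ * D) * (21 / 80 * μ) :=
        mul_le_mul_of_nonneg_left h3 (by positivity)
      linarith)
  have q2 := df_am (α := 1 / 10 * (η * φ)) (γ := 3 / 8 * μ * ψ) (c := ψ * g) Z |zt|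
    (by positivity) (by positivity) (by
      have h1 : ψ * g ^ 2 ≤ 84 / 5 * L * η * g ^ 2 := mul_le_mul_of_nonneg_right hψ1 (sq_nonneg g)
      have h2 : 84 / 5 * L * η * g ^ 2 ≤ 84 / 5 * L * η * (1 / 128 * (lm ^ 2 * l)) :=
        mul_le_mul_of_nonneg_left hg2' (by positivity)
      have h3 : 84 / 5 * L * η * (1 / 128 * (lm ^ 2 * l)) =
          21 / 160 * η * ((lm * L) * (lm * l)) := by ring
      rw [h3, hlmL, one_mul] at h2
      have h4 : 21 / 160 * η * (lm * l) ≤ 21 / 160 * η * μ :=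
        mul_le_mul_of_nonneg_left hlml (by positivity)
      have h5 : ψ * (ψ * g ^ 2) ≤ ψ * (21 / 160 * η * μ) :=
        mul_le_mul_of_nonneg_left (by linarith) hψ0
      have h6 : ψ * η * μ * (7 / 8) ≤ ψ * η * μ * φ := mul_le_mul_of_nonneg_left hφ (by positivity)
      linarith)
  have q3 := df_am (α := 1 / 50) (γ := 1 / 32 * μ * ψ) (c := ψ * h) |x| |zt|
    (by positivity) (by positivity) (by
      have h1 : ψ * h ^ 2 ≤ 21 / 80 * lm * (1 / 128 * (lm ^ 2 * l)) :=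
        mul_le_mul hψlm (hh2.trans hg2') (sq_nonneg h) (by positivity)
      have h2 : 21 / 80 * lm * (1 / 128 * (lm ^ 2 * l)) = 21 / 10240 * (lm ^ 2 * (lm * l)) := by ring
      have h3 : lm ^ 2 * (lm * l) ≤ 1 * μ :=
        mul_le_mul (by nlinarith) hlml (by positivity) (by norm_num)
      have h4 : ψ * (ψ * h ^ 2) ≤ ψ * (21 / 10240 * μ) :=
        mul_le_mul_of_nonneg_left (by linarith) hψ0
      have h5 : 0 ≤ ψ * μ := by positivity
      linarith)
  have q4 := df_am (α := 13 / 50 * (η * φ)) (γ := 11 / 20 * D) (c := g) Z |β|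
    (by positivity) (by positivity) (by
      have h1 : 7 / 8 * l ≤ φ * D := mul_le_mul hφ hlD hl.le hφ0.le
      have h2 := mul_le_mul_of_nonneg_left h1 hη0.le
      have h3 : 0 ≤ η * l := by positivity
      linarith)
  have q5 := df_am (α := 1 / 20) (γ := 1 / 20 * D) (c := h) |x| |β|
    (by positivity) (by positivity) (by
      have h1 : η * l ≤ 1 / 64 * l := mul_le_mul_of_nonneg_right hη1 hl.le
      linarith)
  have q6 := df_am (α := 1 / 10 * D) (γ := 1 / 20 * (η * φ)) (c := 2 * η * D) |β| Z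
    (by positivity) (by positivity) (by
      have h1 : (η * D) * (η * D) ≤ (1 / 256) * (η * D) :=
        mul_le_mul_of_nonneg_right hηD (by positivity)
      have h2 : (η * D) * (7 / 8) ≤ (η * D) * φ := mul_le_mul_of_nonneg_left hφ (by positivity)
      have h3 : 0 ≤ η * D := by positivity
      linarith)
  have q7 := df_am (α := 1 / 100 * D) (γ := 1 / 100) (c := η * D) |β| |x|
    (by positivity) (by positivity) (by
      have h1 : η * (η * D) ≤ 1 / 64 * (1 / 256) := mul_le_mul hη1 hηD (by positivity) (by norm_num)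
      have h2 : D * (η * (η * D)) ≤ D * (1 / 64 * (1 / 256)) :=
        mul_le_mul_of_nonneg_left h1 hD0.le
      linarith)
  have hηη : η * η ≤ 1 / 64 * (1 / 64) := mul_le_mul hη1 hη1 hη0.le (by norm_num)
  have hηφ : 7 / 8 * η ≤ η * φ := by
    have := mul_le_mul_of_nonneg_left hφ hη0.le
    linarith
  have q8 := df_am (α := 1 / 100 * (η * φ)) (γ := 1 / 100 * D) (c := η * g) Z |β|
    (by positivity) (by positivity) (by
      have h1 : η * g ^ 2 ≤ 1 / 8192 * l := by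
        have h2 : η * g ^ 2 ≤ η * (η / 2 * l) := mul_le_mul_of_nonneg_left hg2 hη0.le
        have h3 : η * η * l ≤ 1 / 64 * (1 / 64) * l := mul_le_mul_of_nonneg_right hηη hl.le
        linarith
      have h4 : η * (η * g ^ 2) ≤ η * (1 / 8192 * D) :=
        mul_le_mul_of_nonneg_left (by linarith) hη0.le
      have h5 : 7 / 8 * η * D ≤ η * φ * D := mul_le_mul_of_nonneg_right hηφ hD0.le
      have h6 : 0 ≤ η * D := by positivity
      linarith)
  have hηg : η * g ^ 2 ≤ 1 / 64 * (1 / 512) := mul_le_mul hη1 hg1 (sq_nonneg g) (by norm_num)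
  have hηh : η * h ^ 2 ≤ 1 / 64 * (1 / 512) :=
    mul_le_mul hη1 (hh2.trans hg1) (sq_nonneg h) (by norm_num)
  have q9 := df_am (α := 1 / 100 * (η * φ)) (γ := 1 / 100) (c := η * g) Z |x|
    (by positivity) (by positivity) (by
      have h4 : η * (η * g ^ 2) ≤ η * (1 / 64 * (1 / 512)) := mul_le_mul_of_nonneg_left hηg hη0.le
      linarith)
  have q10 := df_am (α := 1 / 100) (γ := 1 / 100 * (η * φ)) (c := 2 * η * h) |x| Z
    (by positivity) (by positivity) (by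
      have h4 : η * (η * h ^ 2) ≤ η * (1 / 64 * (1 / 512)) := mul_le_mul_of_nonneg_left hηh hη0.le
      linarith)
  have q11 := df_am (α := 1 / 100) (γ := 1 / 100 * D) (c := η * h) |x| |β|
    (by positivity) (by positivity) (by
      have h1 : η * h ^ 2 ≤ 1 / 8192 * l := by
        have h2 : η * h ^ 2 ≤ η * (η / 2 * l) := mul_le_mul_of_nonneg_left (hh2.trans hg2) hη0.le
        have h3 : η * η * l ≤ 1 / 64 * (1 / 64) * l := mul_le_mul_of_nonneg_right hηη hl.le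
        linarith
      have h4 : η * (η * h ^ 2) ≤ 1 / 64 * (1 / 8192 * l) :=
        mul_le_mul hη1 h1 (by positivity) (by norm_num)
      linarith)
  have q12 : η * h * |x| ^ 2 ≤ 1 / 1000 * x ^ 2 := by
    rw [sq_abs]
    apply mul_le_mul_of_nonneg_right _ (sq_nonneg _)
    have h1 : η * h ≤ 1 / 64 * (9 / 200) := mul_le_mul hη1 (H.hg.trans hg0) hh (by norm_num)
    linarith
  have q13 : η * D * |β| ^ 2 ≤ 1 / 64 * D * β ^ 2 := by
    rw [sq_abs]
    apply mul_le_mul_of_nonneg_right _ (sq_nonneg _)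
    exact mul_le_mul_of_nonneg_right hη1 hD0.le
  have q14 : 2 * η * g * Z ^ 2 ≤ 9 / 100 * (8 / 7) * (η * φ * Z ^ 2) := by
    have h1 : 2 * η * g ≤ 9 / 100 * (8 / 7) * (η * φ) := by
      have := mul_le_mul_of_nonneg_left hg0 hη0.le
      linarith
    have h2 := mul_le_mul_of_nonneg_right h1 (sq_nonneg Z)
    linarith
  have q15 : 7 / 8 * (η * Z ^ 2) ≤ η * φ * Z ^ 2 := by
    have := mul_le_mul_of_nonneg_right hηφ (sq_nonneg Z)
    linarith
  have b2c : -(2 * η * (|φ1| * R) * Z * |zt|) ≤ 2 * η * (φ1 * P * zt) := by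
    have := mul_le_mul_of_nonneg_left b2a (by positivity : 0 ≤ 2 * η)
    linarith
  simp only [sq_abs] at b2b q1 q2 q3 q4 q5 q6 q7 q8 q9 q10 q11
  have hx0 := sq_nonneg x
  have hw0 : 0 ≤ c2 * w ^ 2 := by positivity
  have hψz : 0 ≤ ψ * zt ^ 2 := by positivity
  have hμz : 0 ≤ μ * (ψ * zt ^ 2) := by positivity
  have hlz : 0 ≤ lm * (ψ * zt ^ 2) := by positivity
  have hsum : lm * (ψ * zt ^ 2) + μ * (ψ * zt ^ 2) = ψ * zt ^ 2 := by rw [hμ]; ring
  have hDb : 0 ≤ D * β ^ 2 := by positivity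
  have hηZ : 0 ≤ η * Z ^ 2 := by positivity
  have key : c2 * w ^ 2 + x ^ 2 + η * (φ * Z ^ 2 + 2 * φ1 * P * zt
        + 1 / 2 * R ^ 2 * φ2 * zt ^ 2)
      + (D * β + G) * (β + η * (φ1 * (P + 1 / 2 * b * R ^ 2) + 1 / 2 * R ^ 2 * φ2 * zt))
      + η * φ * A + η * φ1 * zt * Y =
      c2 * w ^ 2 + x ^ 2 + η * φ * Z ^ 2 + 2 * η * (φ1 * P * zt) + ψ * zt ^ 2
      + D * β ^ 2 + G * β + (D * β + G) * (η * (φ1 * (P + 1 / 2 * b * R ^ 2)))
      + (D * β + G) * (ψ * zt) + η * φ * A + η * φ1 * zt * Y := by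
    rw [hψd]; ring
  rw [key]
  have s1 : -((D * |β| + g * Z + h * |x|) * (η * (2 * Z + |β| + |x|))) =
      -(2 * η * D * |β| * Z + η * D * |β| ^ 2 + η * D * |β| * |x| + 2 * η * g * Z ^ 2
        + η * g * Z * |β| + η * g * Z * |x| + 2 * η * h * |x| * Z
        + η * h * |x| * |β| + η * h * |x| ^ 2) := by ring
  have s2 : -((D * |β| + g * Z + h * |x|) * (ψ * |zt|)) =
      -(ψ * D * |β| * |zt| + ψ * g * Z * |zt| + ψ * h * |x| * |zt|) := by ring
  have s3 : -((g * Z + h * |x|) * |β|) = -(g * Z * |β| + h * |x| * |β|) := by ring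
  rw [s1] at b4
  rw [s2] at b5
  rw [s3] at b1
  clear s1 s2 s3 key e1 b2a hψd hzt
  linarith

end Pool.Agent.Lib.MP_d8ef8f_an.Gd
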