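import Pool.Agent.Lib.MP_d8ef8f_an.Gd.Stm

set_option autoImplicit false

namespace Pool.Agent.Lib.MP_d8ef8f_an.Gd

open Set Filter Topology MeasureTheory

section

variable {n N : ℕ} {Ω : Set (Sp n)}

theorem zero_of_int (hΩ : IsOpen Ω) {v : Sp n → ℝ} (hI : IntegrableOn v Ω)
    (hc : ContinuousOn v (closure Ω)) (h0 : ∀ x ∈ closure Ω, 0 ≤ v x)
    (h : ∫ x in Ω, v x ≤ 0) : ∀ x ∈ closure Ω, v x = 0 := by
  have h1 : ∫ x in Ω, v x = 0 := le_antisymm h
    (setIntegral_nonneg hΩ.measurableSet fun x hx => h0 x (subset_closure hx))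
  have h2 : v =ᵐ[volume.restrict Ω] 0 := by
    refine (setIntegral_eq_zero_iff_of_nonneg_ae ?_ hI).mp h1
    exact (ae_restrict_iff' hΩ.measurableSet).mpr
      (Eventually.of_forall fun x hx => h0 x (subset_closure hx))
  have h3 : EqOn v 0 Ω :=
    MeasureTheory.Measure.eqOn_open_of_ae_eq h2 hΩ (hc.mono subset_closure) continuousOn_const
  have h4 : EqOn v 0 (closure Ω) :=
    EqOn.of_subset_closure h3 hc continuousOn_const subset_closure subset_rfl
  exact fun x hx => h4 hx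

/-- closeness to `E_k` up to the species below `k` -/
def Close (Ω : Set (Sp n)) (k : Fin N) (θ : Sp n → ℝ) (η : ℝ) (v : Fin N → Sp n → ℝ) : Prop :=
  (∫ x in Ω, (v k x - θ x) ^ 2) ≤ η ∧ ∀ j, k < j → (∫ x in Ω, v j x ^ 2) ≤ η

theorem sq_tendsto (a2 : StmA2) (hΩ : IsOpen Ω) (hb : Bornology.IsBounded Ω) {l : Filter ℝ}
    {v : ℝ → Sp n → ℝ} {M : ℝ} (hc : ∀ᶠ t in l, ContinuousOn (v t) (closure Ω))
    (h0 : ∀ᶠ t in l, ∀ x ∈ closure Ω, 0 ≤ v t x ∧ v t x ≤ M)
    (h : Tendsto (fun t => ∫ x in Ω, v t x) l (𝓝 0)) :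
    Tendsto (fun t => ∫ x in Ω, v t x ^ 2) l (𝓝 0) := by
  have h1 : Tendsto (fun t => M * ∫ x in Ω, v t x) l (𝓝 0) := by
    simpa using h.const_mul M
  refine squeeze_zero' ?_ ?_ h1
  · filter_upwards [h0] with t ht
    exact setIntegral_nonneg hΩ.measurableSet fun x hx => by positivity
  · filter_upwards [h0, hc] with t ht hct
    rw [← integral_const_mul]
    refine setIntegral_mono_on (a2 Ω hb _ (hct.pow 2)) ((a2 Ω hb _ hct).const_mul M)
      hΩ.measurableSet fun x hx => ?_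
    have := ht x (subset_closure hx)
    nlinarith [this.1, this.2]

theorem convTo_of_close (a2 : StmA2) (hΩ : IsOpen Ω) (hb : Bornology.IsBounded Ω) {l : Filter ℝ}
    {u : Fin N → ℝ → Sp n → ℝ} {M : ℝ} {θ : Fin N → Sp n → ℝ} {k : Fin N}
    (hc : ∀ᶠ t in l, ∀ j, ContinuousOn (u j t) (closure Ω))
    (h0 : ∀ᶠ t in l, ∀ j, ∀ x ∈ closure Ω, 0 ≤ u j t x ∧ u j t x ≤ M)
    (hlow : ∀ j, j < k → Tendsto (fun t => ∫ x in Ω, u j t x) l (𝓝 0))
    (h : ∀ η : ℝ, 0 < η → ∀ᶠ t in l, Close Ω k (θ k) η (fun j => u j t)) :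
    ConvTo Ω l u (Eqm θ k.castSucc) := by
  intro j
  rcases lt_trichotomy j k with hj | hj | hj
  · have e : ∀ x, Eqm θ k.castSucc j x = 0 := by
      intro x
      have : (j : ℕ) ≠ (k : ℕ) := (Fin.lt_def.mp hj).ne
      simp [Eqm, this]
    simp only [e, sub_zero]
    exact sq_tendsto a2 hΩ hb (hc.mono fun t ht => ht j) (h0.mono fun t ht => ht j) (hlow j hj)
  · subst hj
    have e : ∀ x, Eqm θ j.castSucc j x = θ j x := by
      intro x
      simp [Eqm]
    simp only [e]
    rw [Metric.tendsto_nhds]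
    intro η hη
    filter_upwards [h (η / 2) (by positivity)] with t ht
    have h1 := ht.1
    have h2 : 0 ≤ ∫ x in Ω, (u j t x - θ j x) ^ 2 :=
      setIntegral_nonneg hΩ.measurableSet fun x _ => by positivity
    rw [Real.dist_eq, sub_zero, abs_of_nonneg h2]
    linarith
  · have e : ∀ x, Eqm θ k.castSucc j x = 0 := by
      intro x
      have : (j : ℕ) ≠ (k : ℕ) := (Fin.lt_def.mp hj).ne'
      simp [Eqm, this]
    simp only [e, sub_zero]
    rw [Metric.tendsto_nhds]
    intro η hη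
    filter_upwards [h (η / 2) (by positivity)] with t ht
    have h1 := ht.2 j hj
    have h2 : 0 ≤ ∫ x in Ω, (u j t x) ^ 2 :=
      setIntegral_nonneg hΩ.measurableSet fun x _ => by positivity
    rw [Real.dist_eq, sub_zero, abs_of_nonneg h2]
    linarith

theorem convTo_zero (a2 : StmA2) (hΩ : IsOpen Ω) (hb : Bornology.IsBounded Ω) {l : Filter ℝ}
    {u : Fin N → ℝ → Sp n → ℝ} {M : ℝ} {θ : Fin N → Sp n → ℝ}
    (hc : ∀ᶠ t in l, ∀ j, ContinuousOn (u j t) (closure Ω))
    (h0 : ∀ᶠ t in l, ∀ j, ∀ x ∈ closure Ω, 0 ≤ u j t x ∧ u j t x ≤ M)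
    (hlow : ∀ j, Tendsto (fun t => ∫ x in Ω, u j t x) l (𝓝 0)) :
    ConvTo Ω l u (Eqm θ (Fin.last N)) := by
  intro j
  have e : ∀ x, Eqm θ (Fin.last N) j x = 0 := by
    intro x
    have : (j : ℕ) ≠ N := j.isLt.ne
    simp [Eqm, this]
  simp only [e, sub_zero]
  exact sq_tendsto a2 hΩ hb (hc.mono fun t ht => ht j) (h0.mono fun t ht => ht j) (hlow j)

theorem continuousOn_Eqm {θ : Fin N → Sp n → ℝ} (hθ : ∀ j, ContinuousOn (θ j) (closure Ω))
    (i : Fin (N + 1)) (j : Fin N) : ContinuousOn (Eqm θ i j) (closure Ω) := by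
  unfold Eqm
  by_cases h : (j : ℕ) = (i : ℕ)
  · simp only [h, if_true]
    exact hθ j
  · simp only [h, if_false]
    exact continuousOn_const

end

theorem p_M (a2 : StmA2) (d0 : StmD0) (z : StmZ) (f1 : StmF1) (f2 : StmF2) (f3 : StmF3) :
    StmM := by
  intro n N Ω hΩ hne hb P hP d hd m hm hnc θ hθ hDens
  -- the constant may be taken positive
  obtain ⟨P', hP'0, hP'⟩ : ∃ P' : ℝ, 0 < P' ∧ Poinc Ω P' := by
    refine ⟨max P 1, lt_max_of_lt_right one_pos, fun φ Dφ h => ?_⟩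
    obtain ⟨c, hc⟩ := hP φ Dφ h
    refine ⟨c, hc.trans (mul_le_mul_of_nonneg_right (le_max_left _ _)
      (setIntegral_nonneg hΩ.measurableSet fun x _ => by positivity))⟩
  have hms := hΩ.measurableSet
  have hθc : ∀ j, ContinuousOn (θ j) (closure Ω) := fun j => by
    obtain ⟨Dθ, lθ, h⟩ := hθ j
    exact h.lap.c1.cont
  have hZ : ∀ k : Fin N, ∀ (M A : ℝ), 0 < A → ∀ η : ℝ, 0 < η →
    ∃ τ ν : ℝ, 0 < τ ∧ 0 < ν ∧ ∀ (T : Set ℝ), IsOpen T → ∀ (a b : ℝ), a + 1 ≤ b → Icc a b ⊆ T →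
    ∀ (u ut : Fin N → ℝ → Sp n → ℝ) (Du : Fin N → ℝ → Sp n → Sp n) (lu : Fin N → ℝ → Sp n → ℝ),
      IsSol Ω d m T u ut Du lu → (∀ j, ∀ t ∈ Icc a b, ∀ x ∈ closure Ω, u j t x ≤ M) →
      A ≤ (∫ x in Ω, u k a x) →
      (∀ t ∈ Icc a b, (∫ x in Ω, ∑ j ∈ Finset.univ.filter (fun j => j < k), u j t x) ≤ ν) →
      ∀ t ∈ Icc (a + 1 + τ) b, Close Ω k (θ k) η (fun j => u j t) := by
    intro k M A hA η hη
    obtain ⟨Dθ, lθ, hst⟩ := hθ k
    obtain ⟨f, g, h, D⟩ := hDens k
    have hB : Base Ω d m k (θ k) Dθ lθ P' :=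
      { isOpen := hΩ, nonempty := hne, bdd := hb, poinc := hP', hP := hP'0, hd := hd, hm := hm,
        st := hst, nc := f2 Ω hΩ hne hb P' hP' (d k) (hd k) m hm hnc (θ k) Dθ lθ hst }
    exact z Ω d m k (θ k) Dθ lθ P' hB f g h D M A hA η hη
  -- facts on a solution
  have main : ∀ (T : Set ℝ), IsOpen T → ∀ (t0 : ℝ), t0 ∈ T → (∀ s ∈ T, ∀ t, s ≤ t → t ∈ T) →
      ∀ (u ut : Fin N → ℝ → Sp n → ℝ) (Du : Fin N → ℝ → Sp n → Sp n)
        (lu : Fin N → ℝ → Sp n → ℝ), IsSol Ω d m T u ut Du lu → ∀ M : ℝ,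
      (∀ j, ∀ t ∈ T, ∀ x ∈ closure Ω, u j t x ≤ M) →
      (∀ j, (∫ x in Ω, u j t0 x) ≤ 0 → ∀ t ∈ T, (∫ x in Ω, u j t x) ≤ 0) := by
    intro T hT t0 ht0 hup u ut Du lu hu M hM j hj t ht
    obtain ⟨R, hR0, hR⟩ := d0 (N := N) Ω hΩ hb d m hm M
    rcases le_total t0 t with h | h
    · have := (hR T hT t0 t h (fun s hs => hup t0 ht0 s hs.1) u ut Du lu hu
        (fun j s hs => hM j s (hup t0 ht0 s hs.1)) j).2
      exact this.trans (mul_nonpos_of_nonpos_of_nonneg hj (Real.exp_pos _).le)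
    · have := (hR T hT t t0 h (fun s hs => hup t ht s hs.1) u ut Du lu hu
        (fun j s hs => hM j s (hup t ht s hs.1)) j).1
      have h2 := this.trans hj
      by_contra hcon
      push Not at hcon
      have := mul_pos hcon (Real.exp_pos (-R * (t0 - t)))
      linarith
  have low0 : ∀ (T : Set ℝ) (u ut : Fin N → ℝ → Sp n → ℝ) (Du : Fin N → ℝ → Sp n → Sp n)
        (lu : Fin N → ℝ → Sp n → ℝ), IsSol Ω d m T u ut Du lu → ∀ k : Fin N, ∀ t ∈ T,
        (∫ x in Ω, ∑ j ∈ Finset.univ.filter (fun j => j < k), u j t x)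
          = ∑ j ∈ Finset.univ.filter (fun j => j < k), ∫ x in Ω, u j t x := by
    intro T u ut Du lu hu k t ht
    exact integral_finsetSum _ fun j _ => a2 Ω hb _ (hu.lap j t ht).c1.cont
  have mnn : ∀ (T : Set ℝ) (u ut : Fin N → ℝ → Sp n → ℝ) (Du : Fin N → ℝ → Sp n → Sp n)
        (lu : Fin N → ℝ → Sp n → ℝ), IsSol Ω d m T u ut Du lu → ∀ j : Fin N, ∀ t ∈ T,
        0 ≤ (∫ x in Ω, u j t x) := by
    intro T u ut Du lu hu j t ht
    exact setIntegral_nonneg hms fun x hx => hu.nonneg j t ht x (subset_closure hx)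
  -- forward convergence
  have fwd : ∀ (T : Set ℝ), IsOpen T → ∀ (t0 : ℝ), t0 ∈ T → (∀ s ∈ T, ∀ t, s ≤ t → t ∈ T) →
      ∀ (u ut : Fin N → ℝ → Sp n → ℝ) (Du : Fin N → ℝ → Sp n → Sp n)
        (lu : Fin N → ℝ → Sp n → ℝ), IsSol Ω d m T u ut Du lu → ∀ M : ℝ,
      (∀ j, ∀ t ∈ T, ∀ x ∈ closure Ω, u j t x ≤ M) → ∀ k : Fin N,
      0 < (∫ x in Ω, u k t0 x) → (∀ j, j < k → (∫ x in Ω, u j t0 x) ≤ 0) →
      ConvTo Ω atTop u (Eqm θ k.castSucc) := by
    intro T hT t0 ht0 hup u ut Du lu hu M hM k hk hlow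
    have hz : ∀ j, j < k → ∀ t ∈ T, (∫ x in Ω, u j t x) = 0 := fun j hj t ht =>
      le_antisymm (main T hT t0 ht0 hup u ut Du lu hu M hM j (hlow j hj) t ht)
        (mnn T u ut Du lu hu j t ht)
    have hev : ∀ᶠ t in atTop, t ∈ T := (eventually_ge_atTop t0).mono fun t ht => hup t0 ht0 t ht
    refine convTo_of_close a2 hΩ hb (M := M) (hev.mono fun t ht j => (hu.lap j t ht).c1.cont)
      (hev.mono fun t ht j x hx => ⟨hu.nonneg j t ht x hx, hM j t ht x hx⟩) ?_ ?_
    · intro j hj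
      refine Tendsto.congr' ?_ tendsto_const_nhds
      exact hev.mono fun t ht => (hz j hj t ht).symm
    · intro η hη
      obtain ⟨τ, ν, hτ, hν, H⟩ := hZ k M _ hk η hη
      filter_upwards [eventually_ge_atTop (t0 + 1 + τ)] with t ht
      refine H T hT t0 t (by linarith) (fun s hs => hup t0 ht0 s hs.1) u ut Du lu hu
        (fun j s hs => hM j s (hup t0 ht0 s hs.1)) le_rfl ?_ t ⟨ht, le_rfl⟩
      intro s hs
      have hsT := hup t0 ht0 s hs.1
      rw [low0 T u ut Du lu hu k s hsT, Finset.sum_eq_zero fun j hj =>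
        hz j (Finset.mem_filter.mp hj).2 s hsT]
      exact hν.le
  have fwd0 : ∀ (T : Set ℝ), IsOpen T → ∀ (t0 : ℝ), t0 ∈ T → (∀ s ∈ T, ∀ t, s ≤ t → t ∈ T) →
      ∀ (u ut : Fin N → ℝ → Sp n → ℝ) (Du : Fin N → ℝ → Sp n → Sp n)
        (lu : Fin N → ℝ → Sp n → ℝ), IsSol Ω d m T u ut Du lu → ∀ M : ℝ,
      (∀ j, ∀ t ∈ T, ∀ x ∈ closure Ω, u j t x ≤ M) → (∀ j, (∫ x in Ω, u j t0 x) ≤ 0) →
      ∀ t ∈ T, ∀ j, ∀ x ∈ closure Ω, u j t x = 0 := by
    intro T hT t0 ht0 hup u ut Du lu hu M hM h t ht j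
    exact zero_of_int hΩ (a2 Ω hb _ (hu.lap j t ht).c1.cont) (hu.lap j t ht).c1.cont
      (fun x hx => hu.nonneg j t ht x hx)
      (main T hT t0 ht0 hup u ut Du lu hu M hM j (h j) t ht)
  refine ⟨(f3 Ω hΩ hne hb d m θ hθ).1, (f3 Ω hΩ hne hb d m θ hθ).2, ?_, ?_⟩
  · -- forward trajectories
    rintro u ⟨⟨ut, Du, lu, hu⟩, -, C, hC⟩
    have hM : ∀ j, ∀ t ∈ Ioi (0:ℝ), ∀ x ∈ closure Ω, u j t x ≤ C := fun j t ht x hx =>
      hC j t (le_of_lt ht) x hx
    have hup : ∀ s ∈ Ioi (0:ℝ), ∀ t, s ≤ t → t ∈ Ioi (0:ℝ) := fun s hs t hst =>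
      lt_of_lt_of_le hs hst
    have h1 : (1:ℝ) ∈ Ioi (0:ℝ) := mem_Ioi.mpr one_pos
    have hcont : ∀ᶠ t in atTop, ∀ j, ContinuousOn (u j t) (closure Ω) :=
      (eventually_gt_atTop (0:ℝ)).mono fun t ht j => (hu.lap j t ht).c1.cont
    by_cases hex : ∃ j, 0 < ∫ x in Ω, u j 1 x
    · obtain ⟨k, hk, hmin⟩ := WellFounded.has_min (wellFounded_lt (α := Fin N))
        {j | 0 < ∫ x in Ω, u j 1 x} hex
      refine ⟨k.castSucc, f1 Ω hΩ hb atTop u _ hcont (continuousOn_Eqm hθc _) ?_⟩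
      exact fwd (Ioi 0) isOpen_Ioi 1 h1 hup u ut Du lu hu C hM k hk
        (fun j hj => not_lt.mp fun h => hmin j h hj)
    · push Not at hex
      have hz := fwd0 (Ioi 0) isOpen_Ioi 1 h1 hup u ut Du lu hu C hM hex
      refine ⟨Fin.last N, f1 Ω hΩ hb atTop u _ hcont (continuousOn_Eqm hθc _) ?_⟩
      refine convTo_zero a2 hΩ hb (M := C) hcont ((eventually_gt_atTop (0:ℝ)).mono
        fun t ht j x hx => ⟨hu.nonneg j t ht x hx, hM j t ht x hx⟩) ?_
      intro j
      refine Tendsto.congr' ?_ tendsto_const_nhds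
      filter_upwards [eventually_gt_atTop (0:ℝ)] with t ht
      rw [setIntegral_congr_fun hms (fun x hx => hz t ht j x (subset_closure hx))]
      simp
  · -- entire trajectories
    rintro u ⟨⟨ut, Du, lu, hu⟩, C, hC⟩
    have hM : ∀ j, ∀ t ∈ (univ : Set ℝ), ∀ x ∈ closure Ω, u j t x ≤ C := fun j t _ x hx =>
      hC j t x hx
    have hup : ∀ s ∈ (univ : Set ℝ), ∀ t, s ≤ t → t ∈ (univ : Set ℝ) := fun _ _ _ _ => mem_univ _
    have hcont : ∀ t, ∀ j, ContinuousOn (u j t) (closure Ω) :=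
      fun t j => (hu.lap j t (mem_univ t)).c1.cont
    have hbd : ∀ t, ∀ j, ∀ x ∈ closure Ω, 0 ≤ u j t x ∧ u j t x ≤ C := fun t j x hx =>
      ⟨hu.nonneg j t (mem_univ t) x hx, hC j t x hx⟩
    by_cases hex : ∃ j, 0 < ∫ x in Ω, u j 0 x
    · obtain ⟨k, hk, hmin⟩ := WellFounded.has_min (wellFounded_lt (α := Fin N))
        {j | 0 < ∫ x in Ω, u j 0 x} hex
      have hlow : ∀ j, j < k → (∫ x in Ω, u j 0 x) ≤ 0 :=
        fun j hj => not_lt.mp fun h => hmin j h hj
      have hF := fwd univ isOpen_univ 0 (mem_univ _) hup u ut Du lu hu C hM k hk hlow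
      have hFL := f1 Ω hΩ hb atTop u _ (Eventually.of_forall hcont) (continuousOn_Eqm hθc _) hF
      have hz : ∀ j, j < k → ∀ t, (∫ x in Ω, u j t x) = 0 := fun j hj t =>
        le_antisymm (main univ isOpen_univ 0 (mem_univ _) hup u ut Du lu hu C hM j (hlow j hj) t
          (mem_univ t)) (mnn univ u ut Du lu hu j t (mem_univ t))
      by_cases hb1 : ∃ j, ¬ Tendsto (fun t => ∫ x in Ω, u j t x) atBot (𝓝 0)
      · obtain ⟨l, hl, hlmin⟩ := WellFounded.has_min (wellFounded_lt (α := Fin N))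
          {j | ¬ Tendsto (fun t => ∫ x in Ω, u j t x) atBot (𝓝 0)} hb1
        have hllow : ∀ j, j < l → Tendsto (fun t => ∫ x in Ω, u j t x) atBot (𝓝 0) := by
          intro j hj
          by_contra h
          exact hlmin j h hj
        -- recurrence of the mass
        obtain ⟨A, hA, hfreq⟩ : ∃ A : ℝ, 0 < A ∧ ∃ᶠ t in atBot, A ≤ ∫ x in Ω, u l t x := by
          have hl' : ¬ Tendsto (fun t => ∫ x in Ω, u l t x) atBot (𝓝 0) := hl
          rw [Metric.tendsto_nhds] at hl'
          push Not at hl'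
          obtain ⟨A, hA, h⟩ := hl'
          refine ⟨A, hA, ?_⟩
          refine h.mono fun t ht => ?_
          have h0 := mnn univ u ut Du lu hu l t (mem_univ t)
          rw [Real.dist_eq, sub_zero, abs_of_nonneg h0] at ht
          exact ht
        have hkl : k ≤ l := by
          by_contra h
          push Not at h
          exact hl (Tendsto.congr (fun t => (hz l h t).symm) tendsto_const_nhds)
        rcases hkl.eq_or_lt with hkl | hkl
        · -- the trajectory is the equilibrium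
          left
          subst hkl
          have hcl : ∀ t, ∀ η : ℝ, 0 < η → Close Ω k (θ k) η (fun j => u j t) := by
            intro t η hη
            obtain ⟨τ, ν, hτ, hν, H⟩ := hZ k C A hA η hη
            obtain ⟨a, ha, hAa⟩ := ((eventually_le_atBot (t - 1 - τ)).and_frequently hfreq).exists
            refine H univ isOpen_univ a t (by linarith) (subset_univ _) u ut Du lu hu
              (fun j s _ => hM j s (mem_univ s)) hAa ?_ t ⟨by linarith, le_rfl⟩
            intro s _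
            rw [low0 univ u ut Du lu hu k s (mem_univ s), Finset.sum_eq_zero fun j hj =>
              hz j (Finset.mem_filter.mp hj).2 s]
            exact hν.le
          refine ⟨k.castSucc, fun t j => ?_⟩
          rcases lt_trichotomy j k with hj | hj | hj
          · have e : ∀ x, Eqm θ k.castSucc j x = 0 := by
              intro x
              have : (j : ℕ) ≠ (k : ℕ) := (Fin.lt_def.mp hj).ne
              simp [Eqm, this]
            intro x hx
            rw [e x]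
            exact zero_of_int hΩ (a2 Ω hb _ (hcont t j)) (hcont t j) (fun x hx => (hbd t j x hx).1)
              (hz j hj t).le x hx
          · subst hj
            intro x hx
            have e : Eqm θ j.castSucc j x = θ j x := by simp [Eqm]
            rw [e]
            have h1 : (∫ x in Ω, (u j t x - θ j x) ^ 2) ≤ 0 :=
              le_of_forall_pos_le_add fun η hη => by simpa using (hcl t η hη).1
            have hcc : ContinuousOn (fun x => (u j t x - θ j x) ^ 2) (closure Ω) :=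
              ((hcont t j).sub (hθc j)).pow 2
            have := zero_of_int hΩ (a2 Ω hb _ hcc) hcc (fun x _ => by positivity) h1 x hx
            have := pow_eq_zero_iff (two_ne_zero) |>.mp this
            linarith
          · have e : ∀ x, Eqm θ k.castSucc j x = 0 := by
              intro x
              have : (j : ℕ) ≠ (k : ℕ) := (Fin.lt_def.mp hj).ne'
              simp [Eqm, this]
            intro x hx
            rw [e x]
            have h1 : (∫ x in Ω, (u j t x) ^ 2) ≤ 0 :=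
              le_of_forall_pos_le_add fun η hη => by simpa using (hcl t η hη).2 j hj
            have hcc : ContinuousOn (fun x => (u j t x) ^ 2) (closure Ω) := (hcont t j).pow 2
            have := zero_of_int hΩ (a2 Ω hb _ hcc) hcc (fun x _ => by positivity) h1 x hx
            exact pow_eq_zero_iff (two_ne_zero) |>.mp this
        · right
          refine ⟨k.castSucc, l.castSucc, Fin.castSucc_lt_castSucc_iff.mpr hkl, hFL, ?_⟩
          refine f1 Ω hΩ hb atBot u _ (Eventually.of_forall hcont) (continuousOn_Eqm hθc _) ?_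
          refine convTo_of_close a2 hΩ hb (M := C) (Eventually.of_forall hcont)
            (Eventually.of_forall hbd) hllow ?_
          intro η hη
          obtain ⟨τ, ν, hτ, hν, H⟩ := hZ l C A hA η hη
          have hsum : Tendsto (fun t => ∑ j ∈ Finset.univ.filter (fun j => j < l),
              ∫ x in Ω, u j t x) atBot (𝓝 0) := by
            have := tendsto_finsetSum (Finset.univ.filter (fun j => j < l))
              (fun j hj => hllow j (Finset.mem_filter.mp hj).2)
            simpa using this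
          have hev : ∀ᶠ t in atBot, (∑ j ∈ Finset.univ.filter (fun j => j < l),
              ∫ x in Ω, u j t x) < ν := hsum.eventually_lt_const hν
          obtain ⟨T1, hT1⟩ := eventually_atBot.mp hev
          filter_upwards [eventually_le_atBot T1] with t ht
          obtain ⟨a, ha, hAa⟩ := ((eventually_le_atBot (t - 1 - τ)).and_frequently hfreq).exists
          refine H univ isOpen_univ a T1 (by linarith) (subset_univ _) u ut Du lu hu
            (fun j s _ => hM j s (mem_univ s)) hAa ?_ t ⟨by linarith, ht⟩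
          intro s hs
          rw [low0 univ u ut Du lu hu l s (mem_univ s)]
          exact (hT1 s hs.2).le
      · push Not at hb1
        right
        refine ⟨k.castSucc, Fin.last N, Fin.castSucc_lt_last k, hFL, ?_⟩
        refine f1 Ω hΩ hb atBot u _ (Eventually.of_forall hcont) (continuousOn_Eqm hθc _) ?_
        exact convTo_zero a2 hΩ hb (M := C) (Eventually.of_forall hcont)
            (Eventually.of_forall hbd) hb1
    · push Not at hex
      left
      have hz := fwd0 univ isOpen_univ 0 (mem_univ _) hup u ut Du lu hu C hM hex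
      refine ⟨Fin.last N, fun t j x hx => ?_⟩
      have : (j : ℕ) ≠ N := j.isLt.ne
      rw [hz t (mem_univ t) j x hx]
      simp [Eqm, this]

end Pool.Agent.Lib.MP_d8ef8f_an.Gd
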