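import Pool.Agent.Lib.MP_d8ef8f_an.Gd.Df4
import Pool.Agent.Lib.MP_d8ef8f_an.Gd.Dens

/-!
# The gap-free density: definitions and statements of the pieces

With `x = s_k`, `r_j = s_j + e` (`j > k`), `S = ∑ r_j`, `p_j = r_j / S`, `δ_j = (d_j - d_k) / d_k`,
`ξ_j = p_j ^ δ_j`, `η_j = 1 - ξ_j / (1 + δ_j)`, `E_j = S r_j η_j`, `w_j = ξ_j S / (32 (1 + S))`,
`v = S + x - 1`, `H_j = w_j h (v / w_j)` (`h` the cut-off `th`), the density is
`f = F(x) + S² / 2 - ∑ E_j (1 - 2 H_j)`, `F = dfc`.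
-/

set_option autoImplicit false

namespace Pool.Agent.Lib.MP_d8ef8f_an.Gd

open Set Filter Topology MeasureTheory

/-! ### the cut-off -/

/-- `h'` -/
noncomputable def th1 (t : ℝ) : ℝ := (max 0 (1 - t ^ 2)) ^ 2

/-- `h''` -/
noncomputable def th2 (t : ℝ) : ℝ := -4 * t * max 0 (1 - t ^ 2)

/-- `h` -/
noncomputable def th (t : ℝ) : ℝ := ∫ u in (0:ℝ)..t, th1 u

/-- `h - t h'` -/
noncomputable def thk (t : ℝ) : ℝ := th t - t * th1 t

/-! ### the terms of one species at one point -/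

/-- Numbers attached to one species at one point. A direction has the normalised components
`A` (the sum over the species `> k`), `a = (component) / p - A`, and `V = A + (component k)`. -/
structure Atm where
  β : ℝ
  S : ℝ
  p : ℝ
  ξ : ℝ
  w : ℝ
  v : ℝ
  H : ℝ
  κ : ℝ
  h1 : ℝ
  h2 : ℝ

namespace Atm

/-- `η` -/
noncomputable def η (m : Atm) : ℝ := 1 - m.ξ / (1 + m.β)

/-- `E` -/
noncomputable def E (m : Atm) : ℝ := m.S ^ 2 * m.p * m.η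

/-- `E (1 - 2 H)` -/
noncomputable def Ph (m : Atm) : ℝ := m.E * (1 - 2 * m.H)

/-- first derivative of `E` -/
noncomputable def DE (m : Atm) (A a : ℝ) : ℝ := m.S * m.p * (2 * m.η * A + (1 - m.ξ) * a)

/-- second derivative of `E` -/
noncomputable def DDE (m : Atm) (A a A' a' : ℝ) : ℝ :=
  m.p * (2 * m.η * A * A' + (1 - m.ξ) * (A * a' + a * A') - m.β * m.ξ * a * a')

/-- `S` times the first derivative of `log w` -/
noncomputable def al (m : Atm) (A a : ℝ) : ℝ := m.β * a + A / (1 + m.S)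

/-- first derivative of `H` -/
noncomputable def DH (m : Atm) (A a V : ℝ) : ℝ := m.κ * (m.w / m.S) * m.al A a + m.h1 * V

/-- second derivative of `H` -/
noncomputable def DDH (m : Atm) (A a V A' a' V' : ℝ) : ℝ :=
  m.κ * (m.w / m.S ^ 2) * (m.al A a * m.al A' a' - m.β * (a * a' + a * A' + A * a')
    - A * A' * (1 - m.S ^ 2 / (1 + m.S) ^ 2))
  + m.h2 / m.w * (V - m.v / m.S * m.al A a) * (V' - m.v / m.S * m.al A' a')

/-- first derivative of `Ph` -/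
noncomputable def DP (m : Atm) (A a V : ℝ) : ℝ :=
  (1 - 2 * m.H) * m.DE A a - 2 * m.E * m.DH A a V

/-- the part of the second derivative of `Ph` with derivatives of `H`, with a minus sign -/
noncomputable def rr (m : Atm) (A a V A' a' V' : ℝ) : ℝ :=
  2 * (m.DE A a * m.DH A' a' V' + m.DE A' a' * m.DH A a V)
    + 2 * m.E * m.DDH A a V A' a' V'

/-- second derivative of `Ph` -/
noncomputable def DDP (m : Atm) (A a V A' a' V' : ℝ) : ℝ :=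
  (1 - 2 * m.H) * m.DDE A a A' a' - m.rr A a V A' a' V'

/-- what is used about these numbers -/
structure Ok (m : Atm) (S x : ℝ) : Prop where
  hβ : 0 < m.β
  hβ1 : m.β ≤ 1 / 1000
  hS : 0 < S
  hx : 0 < x
  eS : m.S = S
  hp : 0 < m.p
  hp1 : m.p ≤ 1
  hξ : 0 < m.ξ
  hξ1 : m.ξ ≤ 1
  hw : m.w = m.ξ * S / (32 * (1 + S))
  hv : m.v = S + x - 1
  hH : |m.H| ≤ 8 / 15 * m.w
  hκ : |m.κ| ≤ 8 / 15
  h10 : 0 ≤ m.h1
  h11 : m.h1 ≤ 1
  h22 : |m.h2| ≤ 8 / 5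
  sup : (m.h1 = 0 ∧ m.h2 = 0) ∨ |m.v| < m.w

/-- the numbers of the species with `β`, `r = s_j + e`, at `S`, `x = s_k` -/
noncomputable def mk' (β r S x : ℝ) : Atm where
  β := β
  S := S
  p := r / S
  ξ := Real.exp (β * (Real.log r - Real.log S))
  w := Real.exp (β * (Real.log r - Real.log S)) * S / (32 * (1 + S))
  v := S + x - 1
  H := Real.exp (β * (Real.log r - Real.log S)) * S / (32 * (1 + S)) *
    th ((S + x - 1) / (Real.exp (β * (Real.log r - Real.log S)) * S / (32 * (1 + S))))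
  κ := thk ((S + x - 1) / (Real.exp (β * (Real.log r - Real.log S)) * S / (32 * (1 + S))))
  h1 := th1 ((S + x - 1) / (Real.exp (β * (Real.log r - Real.log S)) * S / (32 * (1 + S))))
  h2 := th2 ((S + x - 1) / (Real.exp (β * (Real.log r - Real.log S)) * S / (32 * (1 + S))))

end Atm

/-! ### functions of class `C²` with formulas for the derivatives -/

/-- On `U` the function `φ` is `C²`, with first derivative `D s a` in the direction `a` and second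
derivative `DD s a b` in the directions `a`, `b`. -/
structure Jt {N : ℕ} (U : Set (Fin N → ℝ)) (φ : (Fin N → ℝ) → ℝ)
    (D : (Fin N → ℝ) → (Fin N → ℝ) → ℝ) (DD : (Fin N → ℝ) → (Fin N → ℝ) → (Fin N → ℝ) → ℝ) :
    Prop where
  d1 : ∀ s ∈ U, ∃ L : (Fin N → ℝ) →L[ℝ] ℝ, (∀ a, L a = D s a) ∧ HasFDerivAt φ L s
  d2 : ∀ a, ∀ s ∈ U, ∃ L : (Fin N → ℝ) →L[ℝ] ℝ, (∀ b, L b = DD s a b) ∧
    HasFDerivAt (fun s => D s a) L s
  c2 : ∀ a b, ContinuousOn (fun s => DD s a b) U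

/-! ### the density -/

/-- the species above `k` -/
def Jk {N : ℕ} (k : Fin N) : Finset (Fin N) := Finset.univ.filter (fun j => k < j)

/-- `S` -/
def tS {N : ℕ} (k : Fin N) (e : ℝ) (s : Fin N → ℝ) : ℝ := ∑ j ∈ Jk k, (s j + e)

/-- `δ_j` -/
noncomputable def tδ {N : ℕ} (d : Fin N → ℝ) (k j : Fin N) : ℝ := (d j - d k) / d k

/-- the numbers of the species `j` at `s` -/
noncomputable def tA {N : ℕ} (d : Fin N → ℝ) (k : Fin N) (e : ℝ) (s : Fin N → ℝ) (j : Fin N) :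
    Atm := Atm.mk' (tδ d k j) (s j + e) (tS k e s) (s k)

/-- the component `a` of the direction `z` for the species `j` -/
noncomputable def tn {N : ℕ} (k : Fin N) (e : ℝ) (s z : Fin N → ℝ) (j : Fin N) : ℝ :=
  tS k e s * (z j / (s j + e)) - Sab k z

/-- the density -/
noncomputable def tf {N : ℕ} (d : Fin N → ℝ) (k : Fin N) (e : ℝ) (s : Fin N → ℝ) : ℝ :=
  dfc (s k) + tS k e s ^ 2 / 2 - ∑ j ∈ Jk k, (tA d k e s j).Ph

/-- its first derivative -/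
noncomputable def tD {N : ℕ} (d : Fin N → ℝ) (k : Fin N) (e : ℝ) (s z : Fin N → ℝ) : ℝ :=
  dfc1 (s k) * z k + tS k e s * Sab k z
    - ∑ j ∈ Jk k, (tA d k e s j).DP (Sab k z) (tn k e s z j) (Sab k z + z k)

/-- its second derivative -/
noncomputable def tDD {N : ℕ} (d : Fin N → ℝ) (k : Fin N) (e : ℝ) (s z z' : Fin N → ℝ) : ℝ :=
  dfc2 (s k) * z k * z' k + Sab k z * Sab k z'
    - ∑ j ∈ Jk k, (tA d k e s j).DDP (Sab k z) (tn k e s z j) (Sab k z + z k)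
        (Sab k z') (tn k e s z' j) (Sab k z' + z' k)

/-- the gradient -/
noncomputable def tg {N : ℕ} (d : Fin N → ℝ) (k : Fin N) (e : ℝ) (i : Fin N) (s : Fin N → ℝ) : ℝ :=
  tD d k e s (Pi.single i 1)

/-- the Hessian -/
noncomputable def thh {N : ℕ} (d : Fin N → ℝ) (k : Fin N) (e : ℝ) (i j : Fin N)
    (s : Fin N → ℝ) : ℝ :=
  tDD d k e s (Pi.single i 1) (Pi.single j 1)

/-- the direction `δ z` -/
noncomputable def tdz {N : ℕ} (d : Fin N → ℝ) (k : Fin N) (z : Fin N → ℝ) : Fin N → ℝ :=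
  fun j => if k < j then tδ d k j * z j else 0

/-! ### the pieces -/

/-- **Ta** the cut-off. Proofs: `(max 0 u)² ` is `C¹` with derivative `2 max 0 u` (distinguish
`u < 0`, `u = 0`, `u > 0`); `th` by the fundamental theorem of calculus
(`intervalIntegral.integral_hasDerivAt_right`, `th1` is continuous); `th 1 = 8/15` (on `[0,1]`
`th1 u = (1 - u²)²`), `th` is monotone, odd (or argue on both sides) and constant on `[1, ∞)`;
`thk` has derivative `- t th2 t = 4 t² max 0 (1 - t²) ≥ 0` and is `± 8/15` for `|t| ≥ 1`. -/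
def StmTa : Prop :=
  (∀ t, HasDerivAt th (th1 t) t) ∧ (∀ t, HasDerivAt th1 (th2 t) t) ∧ Continuous th2 ∧
  (∀ t, 0 ≤ th1 t ∧ th1 t ≤ 1) ∧ (∀ t : ℝ, 1 ≤ |t| → th1 t = 0 ∧ th2 t = 0) ∧
  (∀ t, |th2 t| ≤ 8 / 5) ∧ (∀ t, |th t| ≤ 8 / 15) ∧ (∀ t, |thk t| ≤ 8 / 15) ∧
  (∀ t, 0 ≤ t → 0 ≤ th t ∧ 0 ≤ thk t) ∧ (∀ t, t ≤ 0 → th t ≤ 0 ∧ thk t ≤ 0) ∧
  (∀ t, 1 - 2 * t ^ 2 ≤ th1 t)

/-- **Tb** the jets of one species. Proof: a small calculus of `Jt` (constants, continuous affine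
functions, sums, products, composition with a `C²` function of one variable), applied to
`log r`, `log S`, `ξ = exp (β (log r - log S))`, `E = S r (1 - ξ / (1 + β))`,
`w = ξ S / (32 (1 + S))`, `t = v / w`, `H = w h(t)`, `E (1 - 2 H)`, and simplification. With
`θ = lr a / r - lS a / S = (normalised a) / S`, `ρ = lS a / S`:
`D ξ = ξ β θ`, `D E = S r ((1 - ξ) θ + 2 η ρ)`,
`DD E = S r (2 η ρ ρ' + (1 - ξ) (ρ θ' + θ ρ') - β ξ θ θ')`, `D w = w α`, `α = β θ + ρ / (1 + S)`,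
`DD w = w (α α' - β (θ θ' + θ ρ' + ρ θ') - ρ ρ' (1 - S² / (1+S)²))`, `D H = κ D w + h' V`,
`DD H = κ DD w + (h'' / w) (V - v α) (V' - v α')`. -/
def StmTb : Prop :=
  ∀ {N : ℕ} (β : ℝ), 0 < β → ∀ (U : Set (Fin N → ℝ)), IsOpen U →
    ∀ (r S x : (Fin N → ℝ) → ℝ) (lr lS lx : (Fin N → ℝ) →L[ℝ] ℝ),
      (∀ s, HasFDerivAt r lr s) → (∀ s, HasFDerivAt S lS s) → (∀ s, HasFDerivAt x lx s) →
      (∀ s ∈ U, 0 < r s) → (∀ s ∈ U, 0 < S s) →
      Jt U (fun s => (Atm.mk' β (r s) (S s) (x s)).Ph)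
        (fun s a => (Atm.mk' β (r s) (S s) (x s)).DP (lS a) (S s * (lr a / r s) - lS a)
          (lS a + lx a))
        (fun s a b => (Atm.mk' β (r s) (S s) (x s)).DDP (lS a) (S s * (lr a / r s) - lS a)
          (lS a + lx a) (lS b) (S s * (lr b / r s) - lS b) (lS b + lx b))

/-- **Tc** the density: smoothness, and the quadratic form. Proof: Tb for every `j > k`, `dfc` has
derivatives `dfc1`, `dfc2` (file Df4); linearity of `Sab`, `tn`, `DP`, `DDP`, `tD`, `tDD` in the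
directions, every `z` is `∑ z i • Pi.single i 1`. -/
def StmTc : Prop :=
  ∀ {N : ℕ} (d : Fin N → ℝ) (k : Fin N), 0 < d k → (∀ j, k < j → d k < d j) →
    ∀ e : ℝ, 0 < e →
    (∀ s : Fin N → ℝ, 0 < s k → (∀ j, 0 ≤ s j) →
      HasFDerivAt (tf d k e)
        (∑ i, tg d k e i s • (ContinuousLinearMap.proj i : (Fin N → ℝ) →L[ℝ] ℝ)) s) ∧
    (∀ i, ∀ s : Fin N → ℝ, 0 < s k → (∀ j, 0 ≤ s j) →
      HasFDerivAt (tg d k e i)
        (∑ j, thh d k e i j s • (ContinuousLinearMap.proj j : (Fin N → ℝ) →L[ℝ] ℝ)) s) ∧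
    (∀ i j, ContinuousOn (thh d k e i j) {s | 0 < s k ∧ ∀ j, 0 ≤ s j}) ∧
    (∀ j, j < k → ∀ s, tg d k e j s = 0) ∧
    (∀ (s : Fin N → ℝ), 0 < s k → (∀ j, 0 ≤ s j) → ∀ z : Fin N → ℝ,
      (∑ i, z i * tg d k e i s) = tD d k e s z) ∧
    (∀ (s : Fin N → ℝ), 0 < s k → (∀ j, 0 ≤ s j) → ∀ (z : Fin N → ℝ) (b : ℝ),
      Qf d k (tg d k e) (thh d k e) s z b =
        d k * (tDD d k e s z z + tDD d k e s (tdz d k (z + b • s)) z
          + b * tD d k e s (tdz d k (z + b • s))))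

/-- **Td** the rest form of one species. With `r = β + (1 - ξ)`, `η = r / (1 + β) ≤ r`. Proof:
`p` is a common factor. `e = 2 η A + (1 - ξ) a`, `α = β a + A / (1 + S)`; `|e| ≤ 2 r |A| + (1-ξ) |a|`,
`|α| ≤ β |a| + |A|`, `2 |κ| w ≤ ξ / 30`.
Terms with `κ`: `≤ (1/30) [(3 + β) β ξ |a| |a'| + (1 + 4 β) r (|a| N' + |a'| N) + 6 r N N']`.
If `h1 = h2 = 0` that is all. Otherwise `|v| < w`, so `S ≤ 1 + w ≤ 33/32`, and `S |V| ≤ 13/10 N`
(from `S V² ≤ 8/5 N²`). Terms with `h1`: `≤ 2.6 r (|a| N' + |a'| N) + 10.4 r N N'`. Terms with `h2`: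
`(1/w) |S V - v α| |S V' - v α'| ≤ S² |V| |V'| / w + 1.3 (N |α'| + N' |α|) + w |α| |α'|`,
`S² |V| |V'| / w = 32 (1 + S) S |V| |V'| / ξ ≤ 104 N N' / ξ`; with the factor `2 η |h2| ≤ 3.2 r`. -/
def StmTd : Prop :=
  ∀ (m : Atm) (S x : ℝ), m.Ok S x → ∀ (A a V A' a' V' n n' : ℝ), 0 ≤ n → 0 ≤ n' →
    |A| ≤ n → |A'| ≤ n' →
    (|m.v| < m.w → S * V ^ 2 ≤ 8 / 5 * n ^ 2 ∧ S * V' ^ 2 ≤ 8 / 5 * n' ^ 2) →
    |m.rr A a V A' a' V'| ≤ m.p * (101 / 1000 * (m.β * m.ξ * |a| * |a'|)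
      + 53 / 20 * ((m.β + (1 - m.ξ)) * (|a| * n' + |a'| * n))
      + 352 * ((m.β + (1 - m.ξ)) / m.ξ * (n * n')))

/-- the small number `Γ` -/
noncomputable def tG {N : ℕ} (J : Finset (Fin N)) (m : Fin N → Atm) : ℝ :=
  ∑ j ∈ J, (m j).p * ((m j).β / (m j).ξ + (1 - (m j).ξ) ^ 2 / ((m j).β * (m j).ξ))

/-- `∑ δ_j p_j (Y + a_j)` -/
noncomputable def tY {N : ℕ} (J : Finset (Fin N)) (m : Fin N → Atm) (a : Fin N → ℝ) (Y : ℝ) : ℝ :=
  ∑ j ∈ J, (m j).β * ((m j).p * (Y + a j))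

/-- **Te** the main inequality. -/
def StmTe : Prop :=
  ∀ {N : ℕ} (J : Finset (Fin N)) (m : Fin N → Atm) (S x : ℝ), (∀ j ∈ J, (m j).Ok S x) →
    (∑ j ∈ J, (m j).p = 1) → tG J m ≤ 1 / 6400 →
    ∀ (a : Fin N → ℝ), (∑ j ∈ J, (m j).p * a j = 0) → ∀ (X Z Y : ℝ),
      1 / 10 * (dfc2 x * X ^ 2 + Z ^ 2
        + ∑ j ∈ J, (m j).β * (m j).p * (m j).ξ * (a j ^ 2 + Y ^ 2)) ≤
      dfc2 x * X ^ 2 + Z ^ 2 + Y * tY J m a Y
        - ∑ j ∈ J, ((m j).DDP Z (a j) (Z + X) Z (a j) (Z + X)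
          + (m j).DDP (tY J m a Y) ((m j).β * (Y + a j) - tY J m a Y) (tY J m a Y)
              Z (a j) (Z + X)
          + (Y - Z) / S *
            (m j).DP (tY J m a Y) ((m j).β * (Y + a j) - tY J m a Y) (tY J m a Y))

/-- **Tg** the radial derivative and the values, on paper:
`rad = ∑ s_j g_j = x F'(x) + ∑_{j>k} s_j g_j`; with the direction `s^e = (s_k; s_j + e)`, for which
`A = S`, `a = 0`, `V = S + x = 1 + v`: `tD s^e = (x-1) |x-1| + S² - 2 ∑ E_j [1 - 2 H_j - κ_j w_j / (1+S)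
- h1_j (1+v)]` (as `x dfc1 x = (x-1)|x-1|`).
`v < 0`: all brackets are `≥ 0`, so `tD s^e ≤ S² - (1-x)² = v (S + 1 - x) ≤ - v²`.
`v > 0`: brackets `≤ 1 - h1 ≤ min 1 (2 t²) ≤ (3/2) t`, `t = v / w_j`; `P = ∑ p_j η_j / ξ_j ≤ (3/2) Γ`;
for `S ≤ 2`: `2 ∑ E_j [..] ≤ 3 v S (1 + S) 32 P ≤ v S / 10`; for `S ≥ 2`: `2 ∑ E_j [..] ≤ 2 S² P`; in all
cases (`x ≤ 1`: `S² - (1-x)² = v (2 S - v)`, `v ≤ S`; `x ≥ 1`: `(x-1)² + S² ≥ v²/2`)
`tD s^e ≥ v² / 4`. Then `rad = tD s^e - e ∑_{j>k} g_j`, `v = len - 1 + n e` (`n` species above `k`), and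
`|g_j| ≤ C` on `Adm k L`. Values: `E_j ≥ 0`, `|2 H_j| ≤ 1/30`, `∑ E_j ≤ S² P`, `dfc_ge`, `dfc_log`,
`dfc_le` (file Df4). -/
def StmTg : Prop :=
  ∀ {N : ℕ} (d : Fin N → ℝ) (k : Fin N), 0 < d k →
    (∀ j, k < j → d k < d j ∧ d j ≤ (1 + 1 / 1000) * d k) →
    (∀ (e : ℝ) (s : Fin N → ℝ), 0 < e → 0 < s k → (∀ j, 0 ≤ s j) →
      tG (Jk k) (tA d k e s) ≤ 1 / 6400) →
    ∀ L : ℝ, ∃ c C : ℝ, 0 < c ∧ 0 < C ∧ ∀ e : ℝ, 0 < e → e ≤ 1 → ∀ s, Adm k L s →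
      c * |len k s - 1| ^ 3 - C * e ≤ (len k s - 1) * (∑ j, s j * tg d k e j s) ∧
      |∑ j, s j * tg d k e j s| ≤ C ∧ |tg d k e k s| ≤ C / s k ∧
      (∀ j, k < j → |tg d k e j s| ≤ C) ∧
      c * (|s k - 1| ^ 3 + Sab k s ^ 2) ≤ tf d k e s ∧
      - Real.log (s k) ≤ C * (1 + tf d k e s) ∧
      tf d k e s ≤ C * (Gl (s k) + |s k - 1| + Sab k s + e)

/-- **Th** the number `Γ` is small. With `l = - log p ≥ 0`, `ξ = exp (-β l)`,
`1 - ξ ≤ β l`: the summand is `≤ β p exp (β l) (1 + l²)`. Let `B = 1 + log n`. If `l ≤ 2 B`, this is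
`≤ β p (11/10) (1 + 4 B²) ≤ (11/2) β B² p`; if `l > 2 B`, then `p ≤ exp (-1) / n · exp(-l/2)`, and
`exp (-l/2) exp (β l) (1 + l²) ≤ exp (-0.499 l) (1 + l²) ≤ 8`. Sum over `j`. -/
def StmTh : Prop :=
  ∀ {N : ℕ} (J : Finset (Fin N)) (β r : Fin N → ℝ) (S x : ℝ), (∀ j ∈ J, 0 < r j) →
    S = ∑ j ∈ J, r j → (∀ j ∈ J, 0 < β j) →
    (∀ j ∈ J, β j ≤ 1 / (64000 * (1 + Real.log J.card) ^ 2)) →
    tG J (fun j => Atm.mk' (β j) (r j) S x) ≤ 1 / 6400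

end Pool.Agent.Lib.MP_d8ef8f_an.Gd
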