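import Pool.Agent.Lib.MP_d8ef8f_an.Gd.StT

/-!
# The gap-free density: statements of further pieces
-/

set_option autoImplicit false

namespace Pool.Agent.Lib.MP_d8ef8f_an.Gd

open Set Filter Topology MeasureTheory

/-- **Ti** bilinear bound. Proof: `|DDP| ≤ (31/30) |DDE| + |rr|` (`|2 H| ≤ 1/30`), with
`r = β + (1 - ξ)`: `|DDE| ≤ p (2 (r/ξ) n n' + r (n' |a| + n |a'|) + β ξ |a| |a'|)` (`η ≤ r`), `|rr|` from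
Td (`StmTd`; its hypothesis on `V` from `te_supp` in Te2: on `|v| < w` one has `S ≤ 33/32` and
`31/16 S ≤ dfc2 x`). Sums: `∑ p r / ξ ≤ 3/12800` (`te_P` in Te), `∑ p r |a| ≤ n / 56`,
`∑ p r |a'| ≤ n' / 56` (`te_cs` in Te), `∑ p β ξ |a| |a'| ≤ n n'` (Cauchy-Schwarz). Total factor
`(31/30) (2 · 3/12800 + 2/56 + 1) + 101/1000 + 53/20 · 2/56 + 352 · 3/12800 < 2`. -/
def StmTi : Prop :=
  ∀ {N : ℕ} (J : Finset (Fin N)) (m : Fin N → Atm) (S x : ℝ), (∀ j ∈ J, (m j).Ok S x) →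
    tG J m ≤ 1 / 6400 →
    ∀ (A V A' V' n n' : ℝ) (a a' : Fin N → ℝ), 0 ≤ n → 0 ≤ n' → |A| ≤ n → |A'| ≤ n' →
      (∑ j ∈ J, (m j).β * (m j).p * (m j).ξ * a j ^ 2 ≤ n ^ 2) →
      (∑ j ∈ J, (m j).β * (m j).p * (m j).ξ * a' j ^ 2 ≤ n' ^ 2) →
      (S ≤ 33 / 32 → 31 / 16 * S ≤ dfc2 x →
        S * V ^ 2 ≤ 8 / 5 * n ^ 2 ∧ S * V' ^ 2 ≤ 8 / 5 * n' ^ 2) →
      ∑ j ∈ J, |(m j).DDP A (a j) V A' (a' j) V'| ≤ 2 * (n * n')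

/-- **Tok** the numbers `tA` are as wanted. Proof: `r_j = s_j + e ≤ S = ∑ r_i`, so `p ≤ 1`,
`ξ = exp (β (log r - log S)) ≤ 1`; `StmTa` for the cut-off. -/
def StmTok : Prop :=
  ∀ {N : ℕ} (d : Fin N → ℝ) (k : Fin N), 0 < d k →
    (∀ j, k < j → d k < d j ∧ d j ≤ (1 + 1 / 1000) * d k) →
    ∀ (e : ℝ) (s : Fin N → ℝ), 0 < e → 0 < s k → (∀ j, 0 ≤ s j) →
      (∀ j ∈ Jk k, (tA d k e s j).Ok (tS k e s) (s k)) ∧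
      (∀ j ∈ Jk k, (tA d k e s j).p ≤ (tA d k e s j).ξ) ∧
      ((Jk k).Nonempty → ∑ j ∈ Jk k, (tA d k e s j).p = 1) ∧
      (∀ z, ∑ j ∈ Jk k, (tA d k e s j).p * tn k e s z j = 0)

/-- **Tj** the direction `u = δ e`. Let `n = #{j > k}`, `A = Sab k u = e ∑ δ_j ≤ n e / 1000`,
`tn k e s u j = δ_j e S / r_j - A`, `r_j = s_j + e ≥ e`, `S ≤ L + n`. Proof of the second bound:
`β p ξ (tn)² ≤ 2 δ³ p e² S² / r² + 2 A² p ≤ 2 e S + 2 A² p` (`p = r / S`, `e / r ≤ 1`).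
Proof of the first: `|DP| ≤ (31/30) |DE| + 2 E |DH|`, `|DE| ≤ S p (2 |A| + |tn|)`, `0 ≤ E ≤ S² p`,
`|DH| ≤ (|tn| + |A|) + |A|`, `p |tn| ≤ δ_j e + p |A|`. -/
def StmTj : Prop :=
  ∀ {N : ℕ} (d : Fin N → ℝ) (k : Fin N), 0 < d k →
    (∀ j, k < j → d k < d j ∧ d j ≤ (1 + 1 / 1000) * d k) →
    ∀ L : ℝ, ∃ C : ℝ, 0 < C ∧ ∀ (e : ℝ) (s : Fin N → ℝ), 0 < e → e ≤ 1 → Adm k L s →
      |tD d k e s (tdz d k (fun _ => e))| ≤ C * e ∧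
      Sab k (tdz d k (fun _ => e)) ^ 2 + ∑ j ∈ Jk k, (tA d k e s j).β * (tA d k e s j).p *
        (tA d k e s j).ξ * tn k e s (tdz d k (fun _ => e)) j ^ 2 ≤ C * e

/-- **Tl** coercivity. Let `δ₀ > 0` be a lower bound of the `β_j = tδ d k j`, `j > k`, `n` their
number, `Z = Sab k z`, `a_j = tn k e s z j`, `Y = Z + b S`. Then `z_j = p_j (Z + a_j)`, so
`∑ z_j² ≤ 2 Z² + 2 ∑ p_j² a_j²` (`∑ p_j² ≤ 1`), `β_j p_j ξ_j ≥ δ₀ p_j²` (`ξ_j ≥ p_j`),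
`(b Sab)² ≤ (b S)² = (Y - Z)²`, `∑ β_j p_j ξ_j ≥ δ₀ ∑ p_j² ≥ δ₀ / n`, `dfc2_ge` (Df4). -/
def StmTl : Prop :=
  ∀ {N : ℕ} (d : Fin N → ℝ) (k : Fin N), 0 < d k →
    (∀ j, k < j → d k < d j ∧ d j ≤ (1 + 1 / 1000) * d k) →
    ∃ K : ℝ, 0 < K ∧ ∀ (e : ℝ) (s : Fin N → ℝ), 0 < e → 0 < s k → (∀ j, 0 ≤ s j) →
      ∀ (z : Fin N → ℝ) (b : ℝ),
      (1 - 1 / s k) ^ 2 * z k ^ 2 + (∑ j ∈ Finset.univ.filter (fun j => k < j), z j ^ 2)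
        + b ^ 2 * Sab k s ^ 2 ≤
      K * (dfc2 (s k) * z k ^ 2 + Sab k z ^ 2 + ∑ j ∈ Jk k, (tA d k e s j).β * (tA d k e s j).p *
        (tA d k e s j).ξ * (tn k e s z j ^ 2 + (Sab k z + b * tS k e s) ^ 2))

/-- **Tf** the quadratic form. -/
def StmTf : Prop :=
  ∀ {N : ℕ} (d : Fin N → ℝ) (k : Fin N), 0 < d k →
    (∀ j, k < j → d k < d j ∧ d j ≤ (1 + 1 / 1000) * d k) →
    (∀ (e : ℝ) (s : Fin N → ℝ), 0 < e → 0 < s k → (∀ j, 0 ≤ s j) →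
      tG (Jk k) (tA d k e s) ≤ 1 / 6400) →
    ∀ L : ℝ, ∃ c C : ℝ, 0 < c ∧ 0 < C ∧ ∀ e : ℝ, 0 < e → e ≤ 1 → ∀ s, Adm k L s →
      ∀ (z : Fin N → ℝ) (b : ℝ),
      c * ((1 - 1 / s k) ^ 2 * z k ^ 2 + (∑ j ∈ Finset.univ.filter (fun j => k < j), z j ^ 2)
        + b ^ 2 * Sab k s ^ 2) - C * e * b ^ 2 ≤ Qf d k (tg d k e) (thh d k e) s z b

end Pool.Agent.Lib.MP_d8ef8f_an.Gd
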