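import Pool.Agent.Lib.MP_d8ef8f_an.Gd.StT

/-!
# Te1: the part with `E` of the main inequality of the gap-free density
-/

set_option autoImplicit false

namespace Pool.Agent.Lib.MP_d8ef8f_an.Gd

open Set Filter Topology MeasureTheory

theorem te_pm {u v A B : ℝ} (hu : |u| ≤ A) (hv : |v| ≤ B) : |u * v| ≤ A * B := by
  rw [abs_mul]
  exact mul_le_mul hu hv (abs_nonneg _) (le_trans (abs_nonneg _) hu)

theorem te_eta {β ξ η : ℝ} (hβ : 0 < β) (hβ1 : β ≤ 1 / 1000) (hξ : 0 < ξ) (hξ1 : ξ ≤ 1)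
    (hη : η = 1 - ξ / (1 + β)) :
    0 ≤ η ∧ η ≤ 1 ∧ η ≤ β + (1 - ξ) ∧ 0 ≤ 2 * η - (1 - ξ) ∧
      2 * η - (1 - ξ) ≤ 2 * (β + (1 - ξ)) := by
  have h1 : η * (1 + β) = β + (1 - ξ) := by rw [hη]; field_simp; ring
  have h2 : 0 ≤ η := by
    by_contra h
    push Not at h
    nlinarith
  have h3 : η ≤ β + (1 - ξ) := by nlinarith
  refine ⟨h2, ?_, h3, ?_, by nlinarith⟩
  · rw [hη]
    have : 0 ≤ ξ / (1 + β) := by positivity
    linarith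
  · have : 0 ≤ (2 * η - (1 - ξ)) * (1 + β) := by nlinarith
    by_contra h
    push Not at h
    nlinarith

/-- the part with `E` -/
theorem te_E {β ξ η H Z Y a Yd n : ℝ} (hβ : 0 < β) (hβ1 : β ≤ 1 / 1000) (hξ : 0 < ξ)
    (hξ1 : ξ ≤ 1) (hη : η = 1 - ξ / (1 + β)) (hH : |H| ≤ ξ / 60) (hn : 0 ≤ n) (hZ : |Z| ≤ n)
    (hYd : |Yd| ≤ n / 40) :
    449 / 1000 * (β * ξ * (a ^ 2 + Y ^ 2)) - 31 / 15 * ((β + (1 - ξ)) * n ^ 2)
      - 21 / 10 * ((β + (1 - ξ)) * (n * |a|)) - 53 / 1000 * ((β + (1 - ξ)) * (n * |Y|)) ≤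
    β * Y * (Y + a) - (1 - 2 * H) * ((2 * η * Z * Z + (1 - ξ) * (Z * a + a * Z) - β * ξ * a * a)
      + (2 * η * Yd * Y + (1 - ξ) * (Yd * a + (β * (Y + a) - Yd) * Y)
        - β * ξ * (β * (Y + a) - Yd) * a)) := by
  obtain ⟨e0, e1, e2, e3, e4⟩ := te_eta hβ hβ1 hξ hξ1 hη
  obtain ⟨r, hr⟩ : ∃ r, r = β + (1 - ξ) := ⟨_, rfl⟩
  rw [← hr] at e2 e4 ⊢
  have hr0 : 0 < r := by rw [hr]; linarith
  have hq0 : 0 ≤ 1 - ξ := by linarith
  have hqr : 1 - ξ ≤ r := by linarith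
  have hu : 0 < β * ξ := mul_pos hβ hξ
  have hqb : 1 - ξ + β * ξ ≤ r := by rw [hr]; nlinarith
  have hA := abs_nonneg a
  have hy := abs_nonneg Y
  have haa : |a| * |a| = a ^ 2 := by rw [abs_mul_abs_self]; ring
  have hyy : |Y| * |Y| = Y ^ 2 := by rw [abs_mul_abs_self]; ring
  -- the four error terms
  have b1 : |2 * η * (Z * Z)| ≤ 2 * (r * n ^ 2) := by
    have h1 : |Z * Z| ≤ n * n := te_pm hZ hZ
    have h2 : |2 * η| ≤ 2 * r := by rw [abs_of_nonneg (by linarith)]; linarith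
    calc |2 * η * (Z * Z)| ≤ 2 * r * (n * n) := te_pm h2 h1
      _ = _ := by ring
  have b2 : |2 * (1 - ξ) * (Z * a)| ≤ 2 * (r * (n * |a|)) := by
    have h1 : |Z * a| ≤ n * |a| := te_pm hZ le_rfl
    have h2 : |2 * (1 - ξ)| ≤ 2 * r := by rw [abs_of_nonneg (by linarith)]; linarith
    calc |2 * (1 - ξ) * (Z * a)| ≤ 2 * r * (n * |a|) := te_pm h2 h1
      _ = _ := by ring
  have b3 : |(2 * η - (1 - ξ)) * (Y * Yd)| ≤ r * (n * |Y|) / 20 := by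
    have h1 : |Y * Yd| ≤ |Y| * (n / 40) := te_pm le_rfl hYd
    have h2 : |2 * η - (1 - ξ)| ≤ 2 * r := by rw [abs_of_nonneg e3]; exact e4
    calc |(2 * η - (1 - ξ)) * (Y * Yd)| ≤ 2 * r * (|Y| * (n / 40)) := te_pm h2 h1
      _ = _ := by ring
  have b4 : |(1 - ξ + β * ξ) * (a * Yd)| ≤ r * (n * |a|) / 40 := by
    have h1 : |a * Yd| ≤ |a| * (n / 40) := te_pm le_rfl hYd
    have h2 : |1 - ξ + β * ξ| ≤ r := by rw [abs_of_nonneg (by linarith)]; exact hqb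
    calc |(1 - ξ + β * ξ) * (a * Yd)| ≤ r * (|a| * (n / 40)) := te_pm h2 h1
      _ = _ := by ring
  have b5 : |β * ξ * (a * a)| = β * ξ * a ^ 2 := by
    rw [abs_of_nonneg]
    · ring
    · have := mul_self_nonneg a
      positivity
  have hYa : |Y + a| ≤ |Y| + |a| := abs_add_le _ _
  have hya : |Y| * |a| ≤ (a ^ 2 + Y ^ 2) / 2 := by nlinarith [sq_nonneg (|Y| - |a|)]
  have b6 : |Y * (Y + a)| ≤ a ^ 2 / 2 + 3 / 2 * Y ^ 2 := by
    have : |Y * (Y + a)| ≤ |Y| * (|Y| + |a|) := te_pm le_rfl hYa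
    nlinarith
  have b7 : |a * (Y + a)| ≤ 3 / 2 * (a ^ 2 + Y ^ 2) := by
    have : |a * (Y + a)| ≤ |a| * (|Y| + |a|) := te_pm le_rfl hYa
    nlinarith [sq_nonneg Y]
  -- the terms with `H`
  have hH2 : |2 * H| ≤ ξ / 30 := by
    rw [abs_mul, abs_of_pos (by norm_num : (0:ℝ) < 2)]
    linarith
  have hξ30 : 0 ≤ ξ / 30 := by positivity
  have hX : ∀ t T : ℝ, |t| ≤ T → |2 * H * t| ≤ T / 30 := by
    intro t T ht
    have hT : 0 ≤ T := le_trans (abs_nonneg _) ht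
    have := te_pm hH2 ht
    nlinarith
  have c1 := hX _ _ b1
  have c2 := hX _ _ b2
  have c3 := hX _ _ b3
  have c4 := hX _ _ b4
  have c5 := hX _ _ (le_of_eq b5)
  have c6 : |2 * H * ((1 - ξ) * β * (Y * (Y + a)))| ≤ β * ξ / 60 * (a ^ 2 + 3 * Y ^ 2) := by
    have h1 : |(1 - ξ) * β * (Y * (Y + a))| ≤ 1 * β * (a ^ 2 / 2 + 3 / 2 * Y ^ 2) := by
      apply te_pm _ b6
      rw [abs_of_nonneg (by positivity)]
      nlinarith
    calc |2 * H * ((1 - ξ) * β * (Y * (Y + a)))| ≤ ξ / 30 * (1 * β * (a ^ 2 / 2 + 3 / 2 * Y ^ 2)) :=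
          te_pm hH2 h1
      _ = _ := by ring
  have c7 : |2 * H * (β * (β * ξ) * (a * (Y + a)))| ≤ β * ξ / 20000 * (a ^ 2 + Y ^ 2) := by
    have h1 : |β * (β * ξ) * (a * (Y + a))| ≤ (1 / 1000 * (β * ξ)) * (3 / 2 * (a ^ 2 + Y ^ 2)) := by
      apply te_pm _ b7
      rw [abs_of_nonneg (by positivity)]
      nlinarith
    have := hX _ _ h1
    linarith
  -- the main terms
  have hm : 0 ≤ β * ξ * ((1 + β) * a ^ 2 + (1 + β) * (a * Y) + Y ^ 2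
      - 1999 / 4000 * (a ^ 2 + Y ^ 2)) := by
    apply mul_nonneg hu.le
    have h1 : (1 + β) * (a * Y) ≥ - (1 + β) * (|Y| * |a|) := by
      have h2 : |a * Y| = |Y| * |a| := by rw [abs_mul]; ring
      have h3 := neg_abs_le (a * Y)
      nlinarith
    have h2 : (1 + β) * (|Y| * |a|) ≤ (1 + β) * ((a ^ 2) / 2) + (1 + β) * (Y ^ 2 / 2)
      := by nlinarith
    have h3 : 0 ≤ (2001 / 4000 + β) * |a| ^ 2 - (1 + β) * (|Y| * |a|) + 2001 / 4000 * |Y| ^ 2 := by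
      have h5 : 0 ≤ (|Y| - (1 + β) * (2000 / 2001) * |a|) ^ 2 := sq_nonneg _
      have h6 : 0 ≤ (2001 / 4000 + β - (1 + β) ^ 2 * (1000 / 2001)) * |a| ^ 2 := by
        apply mul_nonneg _ (sq_nonneg _)
        nlinarith
      linarith
    have h4 : |a| ^ 2 = a ^ 2 := sq_abs a
    have h5 : |Y| ^ 2 = Y ^ 2 := sq_abs Y
    nlinarith
  have key : β * Y * (Y + a) - (1 - 2 * H) * ((2 * η * Z * Z + (1 - ξ) * (Z * a + a * Z)
      - β * ξ * a * a)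
      + (2 * η * Yd * Y + (1 - ξ) * (Yd * a + (β * (Y + a) - Yd) * Y)
        - β * ξ * (β * (Y + a) - Yd) * a)) =
      β * ξ * ((1 + β) * a ^ 2 + (1 + β) * (a * Y) + Y ^ 2)
      - 2 * η * (Z * Z) - 2 * (1 - ξ) * (Z * a) - (2 * η - (1 - ξ)) * (Y * Yd)
      - (1 - ξ + β * ξ) * (a * Yd)
      + 2 * H * (2 * η * (Z * Z)) + 2 * H * (2 * (1 - ξ) * (Z * a)) - 2 * H * (β * ξ * (a * a))
      + 2 * H * ((2 * η - (1 - ξ)) * (Y * Yd)) + 2 * H * ((1 - ξ) * β * (Y * (Y + a)))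
      - 2 * H * (β * (β * ξ) * (a * (Y + a))) + 2 * H * ((1 - ξ + β * ξ) * (a * Yd)) := by ring
  rw [key]
  have d1 := abs_le.1 b1
  have d2 := abs_le.1 b2
  have d3 := abs_le.1 b3
  have d4 := abs_le.1 b4
  have f1 := abs_le.1 c1
  have f2 := abs_le.1 c2
  have f3 := abs_le.1 c3
  have f4 := abs_le.1 c4
  have f5 := abs_le.1 c5
  have f6 := abs_le.1 c6
  have f7 := abs_le.1 c7
  have g1 : 0 ≤ r * (n * |a|) := by positivity
  have g2 : 0 ≤ r * (n * |Y|) := by positivity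
  have g3 : 0 ≤ r * n ^ 2 := by positivity
  have g4 : 0 ≤ β * ξ * a ^ 2 := by positivity
  have g5 : 0 ≤ β * ξ * Y ^ 2 := by positivity
  have hm' : 1999 / 4000 * (β * ξ * (a ^ 2 + Y ^ 2)) ≤
      β * ξ * ((1 + β) * a ^ 2 + (1 + β) * (a * Y) + Y ^ 2) := by linarith
  have gG : β * ξ * (a ^ 2 + Y ^ 2) = β * ξ * a ^ 2 + β * ξ * Y ^ 2 := by ring
  have gG1 : β * ξ / 60 * (a ^ 2 + 3 * Y ^ 2) = (β * ξ * a ^ 2 + 3 * (β * ξ * Y ^ 2)) / 60 := by ring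
  have gG2 : β * ξ / 20000 * (a ^ 2 + Y ^ 2) = (β * ξ * a ^ 2 + β * ξ * Y ^ 2) / 20000 := by ring
  rw [gG1] at f6
  rw [gG2] at f7
  rw [gG] at hm' ⊢
  generalize β * ξ * ((1 + β) * a ^ 2 + (1 + β) * (a * Y) + Y ^ 2) = M at *
  generalize β * ξ * a ^ 2 = G1 at *
  generalize β * ξ * Y ^ 2 = G2 at *
  linarith [d1.1, d1.2, d2.1, d2.2, d3.1, d3.2, d4.1, d4.2, f1.1, f1.2, f2.1, f2.2, f3.1, f3.2,
    f4.1, f4.2, f5.1, f5.2, f6.1, f6.2, f7.1, f7.2]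

end Pool.Agent.Lib.MP_d8ef8f_an.Gd
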