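import Pool.Agent.Lib.MP_d8ef8f_an.Gd.Te1

/-!
# Te2: the inequality for one species
-/

set_option autoImplicit false

namespace Pool.Agent.Lib.MP_d8ef8f_an.Gd

open Set Filter Topology MeasureTheory

private theorem s_alg {β ξ y A : ℝ} (hβ : 0 < β) (hβ1 : β ≤ 1 / 1000) (hξ : 0 < ξ) :
    ξ * β ^ 2 * (y * (y + A)) ≤ β * ξ * (3 / 2000 * (A ^ 2 + y ^ 2)) := by
  have h1 : y * (y + A) ≤ 3 / 2 * (A ^ 2 + y ^ 2) := by nlinarith [sq_nonneg (y - A), sq_nonneg A]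
  have h2 : ξ * β ^ 2 ≤ β * ξ * (1 / 1000) := by nlinarith [mul_pos hβ hξ]
  have h3 : 0 ≤ 3 / 2 * (A ^ 2 + y ^ 2) := by positivity
  have h4 : 0 ≤ ξ * β ^ 2 := by positivity
  calc ξ * β ^ 2 * (y * (y + A)) ≤ ξ * β ^ 2 * (3 / 2 * (A ^ 2 + y ^ 2)) :=
        mul_le_mul_of_nonneg_left h1 h4
    _ ≤ β * ξ * (1 / 1000) * (3 / 2 * (A ^ 2 + y ^ 2)) := mul_le_mul_of_nonneg_right h2 h3
    _ = _ := by ring

/-- the term with `b` and the first derivative of `H` -/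
theorem te_b {β ξ η κ w S h1 Z Y a Yd n : ℝ} (hβ : 0 < β) (hβ1 : β ≤ 1 / 1000) (hξ : 0 < ξ)
    (hξ1 : ξ ≤ 1) (hη : η = 1 - ξ / (1 + β)) (hκ : |κ| ≤ 8 / 15) (hS : 0 < S)
    (hw : w = ξ * S / (32 * (1 + S))) (h10 : 0 ≤ h1) (hSh : S * h1 ≤ 33 / 32)
    (hn : 0 ≤ n) (hZ : |Z| ≤ n) (hYd : |Yd| ≤ n / 40) :
    |2 * η * (Y - Z) * (κ * w * (β * (β * (Y + a) - Yd) + Yd / (1 + S)) + S * h1 * Yd)| ≤
      1 / 10000 * (β * ξ * (a ^ 2 + Y ^ 2)) + 6 / 100 * ((β + (1 - ξ)) * n ^ 2)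
      + 6 / 100 * ((β + (1 - ξ)) * (n * |a|)) + 6 / 100 * ((β + (1 - ξ)) * (n * |Y|)) := by
  obtain ⟨e0, e1, e2, e3, e4⟩ := te_eta hβ hβ1 hξ hξ1 hη
  obtain ⟨r, hr⟩ : ∃ r, r = β + (1 - ξ) := ⟨_, rfl⟩
  rw [← hr] at e2 e4 ⊢
  have hr0 : 0 < r := by rw [hr]; linarith
  have hS1 : 0 < 1 + S := by linarith
  have hw0 : 0 < w := by rw [hw]; positivity
  have hww : w ≤ ξ / 32 := by
    rw [hw, div_le_div_iff₀ (by positivity) (by norm_num)]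
    nlinarith [mul_pos hξ hS]
  have k1 : |κ * w| ≤ ξ / 60 := by
    have : |κ * w| ≤ 8 / 15 * w := te_pm hκ (le_of_eq (abs_of_pos hw0))
    linarith
  have hi : |1 / (1 + S) - β| ≤ 1 := by
    have h1 : 1 / (1 + S) ≤ 1 := by rw [div_le_one hS1]; linarith
    have h2 : 0 < 1 / (1 + S) := by positivity
    rw [abs_le]
    constructor <;> linarith
  have k2 : |β * (β * (Y + a) - Yd) + Yd / (1 + S)| ≤ β ^ 2 * (|Y| + |a|) + n / 40 := by
    have h1 : β * (β * (Y + a) - Yd) + Yd / (1 + S) = β ^ 2 * (Y + a) + (1 / (1 + S) - β) * Yd := by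
      ring
    rw [h1]
    refine (abs_add_le _ _).trans (add_le_add ?_ ?_)
    · rw [abs_mul, abs_of_nonneg (by positivity : 0 ≤ β ^ 2)]
      exact mul_le_mul_of_nonneg_left (abs_add_le _ _) (by positivity)
    · calc |(1 / (1 + S) - β) * Yd| ≤ 1 * (n / 40) := te_pm hi hYd
        _ = _ := by ring
  have k3 : |Y - Z| ≤ |Y| + n := by
    have := abs_sub Y Z
    linarith
  have k4 : |S * h1 * Yd| ≤ 33 / 32 * (n / 40) := by
    apply te_pm _ hYd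
    rw [abs_of_nonneg (by positivity)]
    exact hSh
  have hy := abs_nonneg Y
  have hA := abs_nonneg a
  have k5 : |2 * η * (Y - Z)| ≤ 2 * η * (|Y| + n) :=
    te_pm (by rw [abs_of_nonneg (by linarith)]) k3
  have k6 : |2 * η * (Y - Z) * (κ * w * (β * (β * (Y + a) - Yd) + Yd / (1 + S)) + S * h1 * Yd)| ≤
      2 * η * (|Y| + n) * (ξ / 60 * (β ^ 2 * (|Y| + |a|) + n / 40) + 33 / 32 * (n / 40)) := by
    apply te_pm k5
    exact (abs_add_le _ _).trans (add_le_add (te_pm k1 k2) k4)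
  refine k6.trans ?_
  have k7 : 2 * η * (|Y| + n) * (ξ / 60 * (β ^ 2 * (|Y| + |a|) + n / 40) + 33 / 32 * (n / 40)) =
      η * (ξ * β ^ 2 * (|Y| * (|Y| + |a|))) / 30 + η * (ξ * β ^ 2) * (n * |Y|) / 30
      + η * (ξ * β ^ 2) * (n * |a|) / 30
      + η * ξ * (n * |Y|) / 1200 + η * ξ * n ^ 2 / 1200 + 33 / 640 * (η * (n * |Y|))
      + 33 / 640 * (η * n ^ 2) := by ring
  rw [k7]
  have s1 := s_alg (y := |Y|) (A := |a|) hβ hβ1 hξ
  rw [sq_abs, sq_abs] at s1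
  have s1' : η * (ξ * β ^ 2 * (|Y| * (|Y| + |a|))) ≤ β * ξ * (3 / 2000 * (a ^ 2 + Y ^ 2)) := by
    have : 0 ≤ ξ * β ^ 2 * (|Y| * (|Y| + |a|)) := by positivity
    calc η * (ξ * β ^ 2 * (|Y| * (|Y| + |a|))) ≤ 1 * (ξ * β ^ 2 * (|Y| * (|Y| + |a|))) :=
          mul_le_mul_of_nonneg_right e1 this
      _ ≤ _ := by linarith
  have hb2 : ξ * β ^ 2 ≤ 1 / 1000 := by
    have h1 : β ^ 2 ≤ 1 / 1000 := by nlinarith
    have h2 : 0 ≤ β ^ 2 := by positivity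
    nlinarith
  have hc : ∀ t c C : ℝ, 0 ≤ t → 0 ≤ C → c ≤ C → η * c * t ≤ C * (r * t) := by
    intro t c C ht hC hc1
    calc η * c * t ≤ η * C * t :=
          mul_le_mul_of_nonneg_right (mul_le_mul_of_nonneg_left hc1 e0) ht
      _ = C * (η * t) := by ring
      _ ≤ C * (r * t) := mul_le_mul_of_nonneg_left (mul_le_mul_of_nonneg_right e2 ht) hC
  have t1 : 0 ≤ n * |Y| := by positivity
  have t2 : 0 ≤ n * |a| := by positivity
  have t3 : 0 ≤ n ^ 2 := by positivity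
  have s2 := hc (n * |Y|) (ξ * β ^ 2) (1 / 1000) t1 (by norm_num) hb2
  have s3 := hc (n * |a|) (ξ * β ^ 2) (1 / 1000) t2 (by norm_num) hb2
  have s4 := hc (n * |Y|) ξ 1 t1 (by norm_num) hξ1
  have s5 := hc (n ^ 2) ξ 1 t3 (by norm_num) hξ1
  have s6 : η * (n * |Y|) ≤ r * (n * |Y|) := mul_le_mul_of_nonneg_right e2 t1
  have s7 : η * n ^ 2 ≤ r * n ^ 2 := mul_le_mul_of_nonneg_right e2 t3
  have p1 : 0 ≤ r * (n * |Y|) := by positivity
  have p2 : 0 ≤ r * (n * |a|) := by positivity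
  have p3 : 0 ≤ r * n ^ 2 := by positivity
  have p4 : 0 ≤ β * ξ * (a ^ 2 + Y ^ 2) := by positivity
  linarith

/-- on the support of `h'` -/
theorem te_supp {m : Atm} {S x : ℝ} (hm : m.Ok S x) (hv : |m.v| < m.w) :
    S ≤ 33 / 32 ∧ 31 / 16 * S ≤ dfc2 x := by
  have hS := hm.hS
  have hx := hm.hx
  have hξ := hm.hξ
  have hξ1 := hm.hξ1
  have hS1 : 0 < 1 + S := by linarith
  have hw1 : m.w ≤ 1 / 32 := by
    rw [hm.hw, div_le_div_iff₀ (by positivity) (by norm_num)]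
    nlinarith [mul_pos hξ hS]
  have hw2 : m.w ≤ S / 32 := by
    rw [hm.hw, div_le_div_iff₀ (by positivity) (by norm_num)]
    nlinarith [mul_pos hξ hS, mul_pos hS hS]
  have h1 := abs_lt.1 hv
  rw [hm.hv] at h1
  have h2 : 31 / 32 * S ≤ 1 - x := by linarith [h1.2]
  have h3 : x < 1 := by nlinarith
  refine ⟨by linarith [h1.2], ?_⟩
  have h4 : dfc2 x = (1 - x ^ 2) / x ^ 2 := by
    unfold dfc2
    rw [abs_of_nonneg]
    nlinarith
  rw [h4, le_div_iff₀ (by positivity)]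
  have h5 : x ^ 2 ≤ 1 := by nlinarith
  have h6 : 31 / 16 * S * x ^ 2 ≤ 2 * (1 - x) * x ^ 2 := by
    apply mul_le_mul_of_nonneg_right _ (by positivity)
    linarith
  have h7 : 2 * (1 - x) * x ^ 2 ≤ 1 - x ^ 2 := by
    have : 0 ≤ (1 - x) * (1 + x - 2 * x ^ 2) := by
      apply mul_nonneg (by linarith)
      nlinarith
    nlinarith
  linarith

theorem te_suppV {S X Z n D : ℝ} (hS : 0 < S) (hS1 : S ≤ 33 / 32) (hD : 31 / 16 * S ≤ D)
    (hXZ : D * X ^ 2 + Z ^ 2 ≤ n ^ 2) : S * (Z + X) ^ 2 ≤ 8 / 5 * n ^ 2 := by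
  have h1 : (Z + X) ^ 2 ≤ 3 / 2 * Z ^ 2 + 3 * X ^ 2 := by nlinarith [sq_nonneg (Z - 2 * X)]
  have h2 : S * (Z + X) ^ 2 ≤ S * (3 / 2 * Z ^ 2 + 3 * X ^ 2) := mul_le_mul_of_nonneg_left h1 hS.le
  have h3 : 31 / 16 * S * X ^ 2 ≤ D * X ^ 2 := mul_le_mul_of_nonneg_right hD (sq_nonneg _)
  have h4 : S * Z ^ 2 ≤ 33 / 32 * Z ^ 2 := mul_le_mul_of_nonneg_right hS1 (sq_nonneg _)
  have h5 : 0 ≤ Z ^ 2 := sq_nonneg _
  have h6 : 0 ≤ S * X ^ 2 := by positivity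
  nlinarith

/-- combination of the bounds -/
private theorem te_comb {r u n A y Q1 Q2 R1 R2 rx a2 : ℝ} (hr : 0 ≤ r) (hn : 0 ≤ n) (hA : 0 ≤ A)
    (hy : 0 ≤ y) (hu : 0 ≤ u) (hur : u ≤ r) (hrx : r ≤ rx)
    (h1 : 449 / 1000 * (u * (A ^ 2 + y ^ 2)) - 31 / 15 * (r * n ^ 2)
      - 21 / 10 * (r * (n * A)) - 53 / 1000 * (r * (n * y)) ≤ Q1)
    (h2 : |Q2| ≤ 1 / 10000 * (u * (A ^ 2 + y ^ 2)) + 6 / 100 * (r * n ^ 2)
      + 6 / 100 * (r * (n * A)) + 6 / 100 * (r * (n * y)))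
    (h3 : |R1| ≤ 101 / 1000 * (u * A * A) + 53 / 20 * (r * (A * n + A * n)) + 352 * (rx * (n * n)))
    (ha : a2 ≤ 1 / 1000 * (y + A) + n / 40)
    (h4 : |R2| ≤ 101 / 1000 * (u * a2 * A) + 53 / 20 * (r * (a2 * n + A * (n / 40)))
      + 352 * (rx * (n / 40 * n))) :
    34 / 100 * (u * (A ^ 2 + y ^ 2)) - 76 / 10 * (r * (n * A)) - 13 / 100 * (r * (n * y))
      - 364 * (rx * n ^ 2) ≤ Q1 + R1 + R2 + Q2 := by
  have k2 := (abs_le.1 h2).1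
  have k3 := (abs_le.1 h3).1
  have k4 := (abs_le.1 h4).1
  have m1 : u * a2 * A ≤ 3 / 2000 * (u * (A ^ 2 + y ^ 2)) + r * (n * A) / 40 := by
    have c1 : u * a2 * A ≤ u * (1 / 1000 * (y + A) + n / 40) * A := by
      apply mul_le_mul_of_nonneg_right _ hA
      exact mul_le_mul_of_nonneg_left ha hu
    have c2 : u * ((y + A) * A) ≤ u * (3 / 2 * (A ^ 2 + y ^ 2)) := by
      apply mul_le_mul_of_nonneg_left _ hu
      nlinarith [sq_nonneg (y - A), sq_nonneg y]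
    have c3 : u * (n * A) ≤ r * (n * A) := mul_le_mul_of_nonneg_right hur (by positivity)
    linarith
  have m2 : r * (a2 * n) ≤ r * (n * y) / 1000 + r * (n * A) / 1000 + r * n ^ 2 / 40 := by
    have c1 : r * (a2 * n) ≤ r * ((1 / 1000 * (y + A) + n / 40) * n) := by
      apply mul_le_mul_of_nonneg_left _ hr
      exact mul_le_mul_of_nonneg_right ha hn
    linarith
  have m3 : r * n ^ 2 ≤ rx * n ^ 2 := mul_le_mul_of_nonneg_right hrx (by positivity)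
  have p1 : 0 ≤ r * (n * y) := by positivity
  have p2 : 0 ≤ r * (n * A) := by positivity
  have p3 : 0 ≤ r * n ^ 2 := by positivity
  have p4 : 0 ≤ u * (A ^ 2 + y ^ 2) := by positivity
  have p5 : u * A * A ≤ u * (A ^ 2 + y ^ 2) := by
    have : 0 ≤ u * y ^ 2 := by positivity
    linarith
  generalize u * (A ^ 2 + y ^ 2) = G at *
  linarith

/-- the inequality for one species -/
theorem te_species (td : StmTd) {m : Atm} {S x : ℝ} (hm : m.Ok S x) {X Z Y a Yd n : ℝ}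
    (hn : 0 ≤ n) (hXZ : dfc2 x * X ^ 2 + Z ^ 2 ≤ n ^ 2) (hYd : |Yd| ≤ n / 40) :
    m.p * (34 / 100 * (m.β * m.ξ * (a ^ 2 + Y ^ 2))
      - 76 / 10 * ((m.β + (1 - m.ξ)) * (n * |a|)) - 13 / 100 * ((m.β + (1 - m.ξ)) * (n * |Y|))
      - 364 * ((m.β + (1 - m.ξ)) / m.ξ * n ^ 2)) ≤
    Y * (m.β * (m.p * (Y + a)))
      - (m.DDP Z a (Z + X) Z a (Z + X)
        + m.DDP Yd (m.β * (Y + a) - Yd) Yd Z a (Z + X)
        + (Y - Z) / S * m.DP Yd (m.β * (Y + a) - Yd) Yd) := by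
  have hβ := hm.hβ
  have hβ1 := hm.hβ1
  have hξ := hm.hξ
  have hξ1 := hm.hξ1
  have hS := hm.hS
  have hx := hm.hx
  have hp := hm.hp
  have hD := dfc2_nonneg hx
  have hZ2 : Z ^ 2 ≤ n ^ 2 := by nlinarith [mul_nonneg hD (sq_nonneg X)]
  have hZ : |Z| ≤ n := abs_le_of_sq_le_sq hZ2 hn |> fun h => h
  have hS1 : 0 < 1 + S := by linarith
  have hw0 : 0 < m.w := by rw [hm.hw]; positivity
  have hH : |m.H| ≤ m.ξ / 60 := by
    have h1 := hm.hH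
    have h2 : m.w ≤ m.ξ / 32 := by
      rw [hm.hw, div_le_div_iff₀ (by positivity) (by norm_num)]
      nlinarith [mul_pos hξ hS]
    linarith
  have hSh : S * m.h1 ≤ 33 / 32 := by
    rcases hm.sup with h | h
    · rw [h.1]; norm_num
    · have h1 := (te_supp hm h).1
      have h2 := hm.h11
      nlinarith [hm.h10]
  have q1 := te_E (β := m.β) (ξ := m.ξ) (η := m.η) (H := m.H) (Z := Z) (Y := Y) (a := a)
    (Yd := Yd) (n := n) hβ hβ1 hξ hξ1 rfl hH hn hZ hYd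
  have q2 := te_b (β := m.β) (ξ := m.ξ) (η := m.η) (κ := m.κ) (w := m.w) (S := S) (h1 := m.h1)
    (Z := Z) (Y := Y) (a := a)
    (Yd := Yd) (n := n) hβ hβ1 hξ hξ1 rfl hm.hκ hS hm.hw hm.h10 hSh hn hZ hYd
  have hYdn : |Yd| ≤ n := by linarith
  have r1 := td m S x hm Z a (Z + X) Z a (Z + X) n n hn hn hZ hZ (by
    intro h
    obtain ⟨h1, h2⟩ := te_supp hm h
    have := te_suppV hS h1 h2 hXZ
    exact ⟨this, this⟩)
  have r2 := td m S x hm Yd (m.β * (Y + a) - Yd) Yd Z a (Z + X) (n / 40) n (by positivity) hn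
    hYd hZ (by
      intro h
      obtain ⟨h1, h2⟩ := te_supp hm h
      refine ⟨?_, te_suppV hS h1 h2 hXZ⟩
      have h3 : Yd ^ 2 ≤ (n / 40) ^ 2 := by
        rw [← sq_abs Yd]
        exact pow_le_pow_left₀ (abs_nonneg _) hYd 2
      calc S * Yd ^ 2 ≤ 33 / 32 * (n / 40) ^ 2 :=
            mul_le_mul h1 h3 (sq_nonneg _) (by norm_num)
        _ ≤ 8 / 5 * (n / 40) ^ 2 :=
            mul_le_mul_of_nonneg_right (by norm_num) (sq_nonneg _))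
  obtain ⟨R1, hR1⟩ : ∃ R1, R1 = m.rr Z a (Z + X) Z a (Z + X) / m.p := ⟨_, rfl⟩
  obtain ⟨R2, hR2⟩ : ∃ R2, R2 = m.rr Yd (m.β * (Y + a) - Yd) Yd Z a (Z + X) / m.p := ⟨_, rfl⟩
  have hR1' : m.rr Z a (Z + X) Z a (Z + X) = m.p * R1 := by rw [hR1]; field_simp
  have hR2' : m.rr Yd (m.β * (Y + a) - Yd) Yd Z a (Z + X) = m.p * R2 := by rw [hR2]; field_simp
  rw [hR1', abs_mul, abs_of_pos hp] at r1
  rw [hR2', abs_mul, abs_of_pos hp] at r2
  have r1' := le_of_mul_le_mul_left r1 hp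
  have r2' := le_of_mul_le_mul_left r2 hp
  have hr0 : 0 ≤ m.β + (1 - m.ξ) := by linarith
  have hmul : m.β * m.ξ ≤ m.β := by nlinarith
  have hrx : m.β + (1 - m.ξ) ≤ (m.β + (1 - m.ξ)) / m.ξ := by
    rw [le_div_iff₀ hξ]
    nlinarith
  have ha2 : |m.β * (Y + a) - Yd| ≤ 1 / 1000 * (|Y| + |a|) + n / 40 := by
    have h1 : |m.β * (Y + a)| ≤ 1 / 1000 * (|Y| + |a|) :=
      te_pm (by rw [abs_of_pos hβ]; exact hβ1) (abs_add_le _ _)
    have h2 := abs_sub (m.β * (Y + a)) Yd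
    linarith
  rw [← sq_abs a, ← sq_abs Y] at q1 q2
  have hc := te_comb (r := m.β + (1 - m.ξ)) (u := m.β * m.ξ) (n := n) (A := |a|) (y := |Y|)
    (R1 := R1) (R2 := R2) (rx := (m.β + (1 - m.ξ)) / m.ξ) (a2 := |m.β * (Y + a) - Yd|)
    hr0 hn (abs_nonneg _) (abs_nonneg _) (by positivity) (by linarith) hrx
    q1 q2 r1' ha2 r2'
  rw [sq_abs, sq_abs] at hc
  have hfin := mul_le_mul_of_nonneg_left hc hp.le
  refine le_trans (le_of_eq ?_) (hfin.trans (le_of_eq ?_))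
  · ring
  · unfold Atm.DDP Atm.DP
    rw [hR1', hR2']
    unfold Atm.DDE Atm.DE Atm.E Atm.DH Atm.al
    rw [hm.eS]
    field_simp
    ring

end Pool.Agent.Lib.MP_d8ef8f_an.Gd
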