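import Pool.Agent.Lib.MP_d8ef8f_an.Gd.StT2
import Pool.Agent.Lib.MP_d8ef8f_an.Gd.Te1

/-!
# Tj: the direction `δ e`
-/

set_option autoImplicit false

namespace Pool.Agent.Lib.MP_d8ef8f_an.Gd

open Set Filter Topology MeasureTheory

/-- the first derivative of one species -/
private theorem tj_sp {m : Atm} {S x : ℝ} (hm : m.Ok S x) {A a e : ℝ} (he : 0 ≤ e)
    (hpa : m.p * |a| ≤ e + |A|) :
    |m.DP A a A| ≤ (2 * S + 2 * S ^ 2) * (3 * |A| + e) := by
  have hβ := hm.hβ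
  have hβ1 := hm.hβ1
  have hξ := hm.hξ
  have hξ1 := hm.hξ1
  have hS := hm.hS
  have hp := hm.hp
  have hp1 := hm.hp1
  have hS1 : 0 < 1 + S := by linarith
  have hA0 := abs_nonneg A
  have ha0 := abs_nonneg a
  obtain ⟨e0, e1, e2, e3, e4⟩ := te_eta (η := m.η) hβ hβ1 hξ hξ1 rfl
  have hw0 : 0 < m.w := by rw [hm.hw]; positivity
  have hw1 : m.w ≤ 1 / 32 := by
    rw [hm.hw, div_le_div_iff₀ (by positivity) (by norm_num)]
    nlinarith [mul_pos hξ hS]
  have hw2 : m.w / S ≤ 1 := by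
    rw [div_le_one hS, hm.hw, div_le_iff₀ (by positivity)]
    nlinarith [mul_pos hξ hS, mul_pos hS hS]
  have hH : |m.H| ≤ 1 / 60 := by
    have h1 := hm.hH
    linarith
  have hH2 : |1 - 2 * m.H| ≤ 31 / 30 := by
    have := abs_le.1 hH
    rw [abs_le]
    constructor <;> linarith [this.1, this.2]
  have hpA : m.p * |A| ≤ |A| := by nlinarith
  have hS2 : 0 ≤ S ^ 2 := sq_nonneg S
  -- `DE`
  have c1 : |2 * m.η * A + (1 - m.ξ) * a| ≤ 2 * |A| + 1 * |a| := by
    refine (abs_add_le _ _).trans (add_le_add ?_ ?_)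
    · exact te_pm (by rw [abs_of_nonneg (by linarith)]; linarith) le_rfl
    · exact te_pm (by rw [abs_of_nonneg (by linarith)]; linarith) le_rfl
  have c2 : |m.DE A a| ≤ S * (3 * |A| + e) := by
    unfold Atm.DE
    rw [hm.eS]
    have h1 : |S * m.p * (2 * m.η * A + (1 - m.ξ) * a)| ≤ S * m.p * (2 * |A| + 1 * |a|) :=
      te_pm (by rw [abs_of_pos (mul_pos hS hp)]) c1
    refine h1.trans ?_
    have h2 : S * m.p * (2 * |A| + 1 * |a|) = S * (2 * (m.p * |A|) + m.p * |a|) := by ring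
    rw [h2]
    apply mul_le_mul_of_nonneg_left _ hS.le
    linarith
  have c3 : |(1 - 2 * m.H) * m.DE A a| ≤ 31 / 30 * (S * (3 * |A| + e)) := te_pm hH2 c2
  -- `DH`
  have c4 : |m.al A a| ≤ |a| + |A| := by
    unfold Atm.al
    rw [hm.eS]
    refine (abs_add_le _ _).trans (add_le_add ?_ ?_)
    · rw [abs_mul, abs_of_pos hβ]
      nlinarith
    · rw [abs_div, abs_of_pos hS1]
      exact div_le_self hA0 (by linarith)
  have c5 : |m.DH A a A| ≤ |a| + 2 * |A| := by
    unfold Atm.DH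
    rw [hm.eS]
    have h1 : |m.κ * (m.w / S)| ≤ 8 / 15 * 1 :=
      te_pm hm.hκ (by rw [abs_of_pos (div_pos hw0 hS)]; exact hw2)
    have h2 : |m.κ * (m.w / S) * m.al A a| ≤ 8 / 15 * 1 * (|a| + |A|) := te_pm h1 c4
    have h3 : |m.h1 * A| ≤ 1 * |A| :=
      te_pm (by rw [abs_of_nonneg hm.h10]; exact hm.h11) le_rfl
    have h4 := abs_add_le (m.κ * (m.w / S) * m.al A a) (m.h1 * A)
    linarith
  have c6 : |2 * m.E| ≤ 2 * (S ^ 2 * m.p) := by
    unfold Atm.E
    rw [hm.eS, abs_of_nonneg (by positivity)]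
    have : S ^ 2 * m.p * m.η ≤ S ^ 2 * m.p * 1 :=
      mul_le_mul_of_nonneg_left e1 (by positivity)
    linarith
  have c7 : |2 * m.E * m.DH A a A| ≤ 2 * S ^ 2 * (3 * |A| + e) := by
    refine (te_pm c6 c5).trans ?_
    have h2 : 2 * (S ^ 2 * m.p) * (|a| + 2 * |A|) =
        2 * S ^ 2 * (m.p * |a| + 2 * (m.p * |A|)) := by ring
    rw [h2]
    apply mul_le_mul_of_nonneg_left _ (by positivity)
    linarith
  have c8 : |m.DP A a A| ≤ |(1 - 2 * m.H) * m.DE A a| + |2 * m.E * m.DH A a A| := by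
    unfold Atm.DP
    exact abs_sub _ _
  have c9 : 0 ≤ S * (3 * |A| + e) := by positivity
  linarith

/-- the second bound for one species -/
private theorem tj_sq {β ξ r S δ A e : ℝ} (hβ : 0 < β) (hβ1 : β ≤ 1) (hξ : 0 < ξ)
    (hξ1 : ξ ≤ 1) (hr : 0 < r) (hrS : r ≤ S) (he : 0 < e) (her : e ≤ r) (hδ : 0 ≤ δ)
    (hδ1 : δ ≤ 1) :
    β * (r / S) * ξ * (S * (δ * e / r) - A) ^ 2 ≤ 2 * S * e + 2 * A ^ 2 := by
  have hS : 0 < S := lt_of_lt_of_le hr hrS
  have hp : 0 < r / S := div_pos hr hS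
  have hp1 : r / S ≤ 1 := (div_le_one hS).2 hrS
  have h1 : (S * (δ * e / r) - A) ^ 2 ≤ 2 * (S * (δ * e / r)) ^ 2 + 2 * A ^ 2 := by
    nlinarith [sq_nonneg (S * (δ * e / r) + A)]
  have h2 : β * (r / S) * ξ ≤ r / S := by
    have h3 : β * ξ ≤ 1 := by nlinarith
    calc β * (r / S) * ξ = r / S * (β * ξ) := by ring
      _ ≤ r / S * 1 := mul_le_mul_of_nonneg_left h3 hp.le
      _ = r / S := mul_one _
  have h4 : β * (r / S) * ξ * (S * (δ * e / r) - A) ^ 2 ≤
      r / S * (2 * (S * (δ * e / r)) ^ 2 + 2 * A ^ 2) :=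
    mul_le_mul h2 h1 (sq_nonneg _) hp.le
  have h5 : r / S * (2 * (S * (δ * e / r)) ^ 2) = 2 * S * (δ ^ 2 * (e / r)) * e := by
    field_simp
  have h6 : δ ^ 2 * (e / r) ≤ 1 := by
    have h7 : e / r ≤ 1 := (div_le_one hr).2 her
    have h8 : 0 < e / r := div_pos he hr
    have h9 : δ ^ 2 ≤ 1 := by nlinarith
    have h10 : 0 ≤ δ ^ 2 := sq_nonneg δ
    nlinarith
  have h7 : 2 * S * (δ ^ 2 * (e / r)) * e ≤ 2 * S * 1 * e := by
    apply mul_le_mul_of_nonneg_right _ he.le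
    exact mul_le_mul_of_nonneg_left h6 (by positivity)
  have h8 : r / S * (2 * A ^ 2) ≤ 1 * (2 * A ^ 2) :=
    mul_le_mul_of_nonneg_right hp1 (by positivity)
  have h9 : r / S * (2 * (S * (δ * e / r)) ^ 2 + 2 * A ^ 2) =
      r / S * (2 * (S * (δ * e / r)) ^ 2) + r / S * (2 * A ^ 2) := by ring
  linarith

theorem p_Tj (tok : StmTok) : StmTj := by
  intro N d k hk hd L
  obtain ⟨n, hn⟩ : ∃ n : ℝ, n = ((Jk k).card : ℝ) := ⟨_, rfl⟩
  obtain ⟨M, hM⟩ : ∃ M : ℝ, M = |L| + n := ⟨_, rfl⟩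
  have hn0 : 0 ≤ n := by rw [hn]; positivity
  have hM0 : 0 ≤ M := by
    rw [hM]
    have := abs_nonneg L
    linarith
  refine ⟨1 + M * n + n * ((2 * M + 2 * M ^ 2) * (3 * n + 1)) + n ^ 2
    + n * (2 * M + 2 * n ^ 2), by positivity, ?_⟩
  intro e s he he1 hadm
  obtain ⟨hsk, hs, hlen⟩ := hadm
  obtain ⟨ok, -, -, -⟩ := tok d k hk hd e s he hsk hs
  have hδ0 : ∀ j ∈ Jk k, 0 ≤ tδ d k j := fun j hj => by
    have h1 : k < j := (Finset.mem_filter.1 hj).2
    exact div_nonneg (by linarith [(hd j h1).1]) hk.le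
  have hδ1 : ∀ j ∈ Jk k, tδ d k j ≤ 1 := fun j hj => by
    have h1 : k < j := (Finset.mem_filter.1 hj).2
    unfold tδ
    rw [div_le_one hk]
    linarith [(hd j h1).2]
  obtain ⟨u, hu⟩ : ∃ u, u = tdz d k (fun _ => e) := ⟨_, rfl⟩
  have huk : u k = 0 := by
    rw [hu]
    unfold tdz
    rw [if_neg (lt_irrefl k)]
  have huj : ∀ j ∈ Jk k, u j = tδ d k j * e := fun j hj => by
    have h1 : k < j := (Finset.mem_filter.1 hj).2
    rw [hu]
    unfold tdz
    rw [if_pos h1]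
  obtain ⟨A, hA⟩ : ∃ A, A = Sab k u := ⟨_, rfl⟩
  have hA' : A = ∑ j ∈ Jk k, tδ d k j * e := by
    rw [hA]
    exact Finset.sum_congr rfl huj
  have hA0 : 0 ≤ A := by
    rw [hA']
    exact Finset.sum_nonneg fun j hj => mul_nonneg (hδ0 j hj) he.le
  have hAn : A ≤ n * e := by
    rw [hA', hn, ← nsmul_eq_mul]
    apply Finset.sum_le_card_nsmul
    intro j hj
    nlinarith [hδ1 j hj]
  have hAn1 : A ^ 2 ≤ n ^ 2 * e := by
    have h1 : A ^ 2 ≤ (n * e) ^ 2 := pow_le_pow_left₀ hA0 hAn 2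
    have h2 : (n * e) ^ 2 = n ^ 2 * (e * e) := by ring
    have h3 : e * e ≤ e := by nlinarith
    have h4 := mul_le_mul_of_nonneg_left h3 (sq_nonneg n)
    linarith
  obtain ⟨S, hS⟩ : ∃ S, S = tS k e s := ⟨_, rfl⟩
  have hSeq : S = Sab k s + n * e := by
    rw [hS, hn]
    unfold tS Sab Jk
    rw [Finset.sum_add_distrib, Finset.sum_const, nsmul_eq_mul]
  have hSn : 0 ≤ S := by
    rw [hS]
    exact Finset.sum_nonneg fun j _ => by linarith [hs j]
  have hSM : S ≤ M := by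
    have h1 : Sab k s ≤ L := by
      have : s k + Sab k s ≤ L := hlen
      linarith
    have h2 := le_abs_self L
    have h3 : n * e ≤ n * 1 := mul_le_mul_of_nonneg_left he1 hn0
    rw [hSeq, hM]
    linarith
  have hrS : ∀ j ∈ Jk k, s j + e ≤ S := fun j hj => by
    rw [hS]
    exact Finset.single_le_sum (f := fun j => s j + e) (fun i _ => by linarith [hs i]) hj
  have hSS : 2 * S + 2 * S ^ 2 ≤ 2 * M + 2 * M ^ 2 := by
    have := pow_le_pow_left₀ hSn hSM 2
    linarith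
  rw [← hu, ← hA]
  constructor
  · -- first bound
    have hD : tD d k e s u = S * A - ∑ j ∈ Jk k, (tA d k e s j).DP A (tn k e s u j) A := by
      unfold tD
      rw [huk, mul_zero, add_zero, zero_add, ← hA, ← hS]
    rw [hD]
    have hj : ∀ j ∈ Jk k, |(tA d k e s j).DP A (tn k e s u j) A| ≤
        (2 * M + 2 * M ^ 2) * ((3 * n + 1) * e) := by
      intro j hj
      have hr : 0 < s j + e := by linarith [hs j]
      have hS0 : 0 < S := lt_of_lt_of_le hr (hrS j hj)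
      have hp : (tA d k e s j).p = (s j + e) / S := by rw [hS]; rfl
      have hpa : (tA d k e s j).p * |tn k e s u j| ≤ e + |A| := by
        have h1 : (tA d k e s j).p * |tn k e s u j| = |(tA d k e s j).p * tn k e s u j| := by
          rw [abs_mul, abs_of_pos (ok j hj).hp]
        have h2 : (tA d k e s j).p * tn k e s u j =
            tδ d k j * e - (tA d k e s j).p * A := by
          unfold tn
          rw [huj j hj, ← hA, ← hS, hp]
          field_simp
        rw [h1, h2]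
        refine (abs_sub _ _).trans (add_le_add ?_ ?_)
        · rw [abs_of_nonneg (mul_nonneg (hδ0 j hj) he.le)]
          nlinarith [hδ1 j hj]
        · rw [abs_mul, abs_of_pos (ok j hj).hp]
          nlinarith [(ok j hj).hp1, abs_nonneg A]
      have h3 := tj_sp (ok j hj) he.le hpa
      rw [← hS, abs_of_nonneg hA0] at h3
      refine h3.trans ?_
      have h4 : 3 * A + e ≤ (3 * n + 1) * e := by linarith
      exact mul_le_mul hSS h4 (by positivity) (by positivity)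
    have h1 : |∑ j ∈ Jk k, (tA d k e s j).DP A (tn k e s u j) A| ≤
        n * ((2 * M + 2 * M ^ 2) * ((3 * n + 1) * e)) := by
      refine (Finset.abs_sum_le_sum_abs _ _).trans ?_
      rw [hn, ← nsmul_eq_mul]
      rw [← hn]
      exact Finset.sum_le_card_nsmul _ _ _ hj
    have h2 : |S * A| ≤ M * (n * e) := by
      rw [abs_of_nonneg (mul_nonneg hSn hA0)]
      exact mul_le_mul hSM hAn hA0 hM0
    have h3 := abs_sub (S * A) (∑ j ∈ Jk k, (tA d k e s j).DP A (tn k e s u j) A)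
    have h4 : 0 ≤ n ^ 2 * e := by positivity
    have h5 : 0 ≤ n * (2 * M + 2 * n ^ 2) * e := by positivity
    have h6 : (1 + M * n + n * ((2 * M + 2 * M ^ 2) * (3 * n + 1)) + n ^ 2
        + n * (2 * M + 2 * n ^ 2)) * e = e + M * (n * e)
        + n * ((2 * M + 2 * M ^ 2) * ((3 * n + 1) * e)) + n ^ 2 * e
        + n * (2 * M + 2 * n ^ 2) * e := by ring
    rw [h6]
    linarith
  · -- second bound
    have hj : ∀ j ∈ Jk k, (tA d k e s j).β * (tA d k e s j).p * (tA d k e s j).ξ *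
        tn k e s u j ^ 2 ≤ 2 * M * e + 2 * (n ^ 2 * e) := by
      intro j hj
      have hr : 0 < s j + e := by linarith [hs j]
      have hp : (tA d k e s j).p = (s j + e) / S := by rw [hS]; rfl
      have h0 := ok j hj
      have h1 := tj_sq (β := (tA d k e s j).β) (ξ := (tA d k e s j).ξ) (r := s j + e) (S := S)
        (δ := tδ d k j) (A := A) (e := e) h0.hβ (by linarith [h0.hβ1]) h0.hξ h0.hξ1 hr
        (hrS j hj) he (by linarith [hs j]) (hδ0 j hj) (hδ1 j hj)
      have h2 : tn k e s u j = S * (tδ d k j * e / (s j + e)) - A := by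
        unfold tn
        rw [huj j hj, ← hA, ← hS]
      rw [h2, hp]
      refine h1.trans ?_
      have h3 : 2 * S * e ≤ 2 * M * e := mul_le_mul_of_nonneg_right (by linarith) he.le
      linarith
    have h1 : ∑ j ∈ Jk k, (tA d k e s j).β * (tA d k e s j).p * (tA d k e s j).ξ *
        tn k e s u j ^ 2 ≤ n * (2 * M * e + 2 * (n ^ 2 * e)) := by
      rw [hn, ← nsmul_eq_mul]
      rw [← hn]
      exact Finset.sum_le_card_nsmul _ _ _ hj
    have h4 : 0 ≤ n * ((2 * M + 2 * M ^ 2) * ((3 * n + 1) * e)) := by positivity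
    have h5 : 0 ≤ M * (n * e) := by positivity
    have h6 : (1 + M * n + n * ((2 * M + 2 * M ^ 2) * (3 * n + 1)) + n ^ 2
        + n * (2 * M + 2 * n ^ 2)) * e = e + M * (n * e)
        + n * ((2 * M + 2 * M ^ 2) * ((3 * n + 1) * e)) + n ^ 2 * e
        + n * (2 * M * e + 2 * (n ^ 2 * e)) := by ring
    rw [h6]
    linarith

end Pool.Agent.Lib.MP_d8ef8f_an.Gd
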